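import Pool.Agent.Helper19.FreeDual

/-!
The detection theorem: an ideal `I` of finite projective dimension all of whose minimal
generators are detected by a family of functionals is generated by a regular sequence.
-/

universe u

open CategoryTheory Abelian IsLocalRing Module TensorProduct Pointwise RingTheory.Sequence

namespace Pool.Agent.Helper19

section Detect

variable {R : Type u} [CommRing R] [IsLocalRing R]

lemma ker_eq_bot_of_le_mul {Q : Type u} [CommRing Q] [IsLocalRing Q] [IsNoetherianRing Q]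
    [Algebra Q R] (h : RingHom.ker (algebraMap Q R) ≤
      maximalIdeal Q * RingHom.ker (algebraMap Q R)) :
    RingHom.ker (algebraMap Q R) = ⊥ := by
  apply Submodule.eq_bot_of_le_smul_of_le_jacobson_bot (maximalIdeal Q) _
    (IsNoetherian.noetherian _) h
  exact IsLocalRing.maximalIdeal_le_jacobson _

/-- `r ↦ r • mk e₀` as a map `R → E/fE`, when `p e₀ = f` -/
lemma exists_smulMap {Q : Type u} [CommRing Q] [Algebra Q R]
    (hs : Function.Surjective (algebraMap Q R)) (f : Q)
    [Algebra (Q ⧸ Ideal.span {f}) R] [IsScalarTower Q (Q ⧸ Ideal.span {f}) R]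
    {E : Type u} [AddCommGroup E] [Module Q E] (p : E →ₗ[Q] Q)
    (hp : LinearMap.range p = RingHom.ker (algebraMap Q R))
    (hcomm : ∀ e e' : E, p e • e' = p e' • e) (e₀ : E) (he₀ : p e₀ = f) :
    ∃ j₀ : R →ₗ[Q ⧸ Ideal.span {f}] QuotSMulTop f E,
      ∀ x : Q, j₀ (algebraMap Q R x) = x • Submodule.Quotient.mk e₀ := by
  let t : Q →ₗ[Q] QuotSMulTop f E := LinearMap.toSpanSingleton Q _ (Submodule.Quotient.mk e₀)
  have ht : ∀ x, algebraMap Q R x = 0 → t x = 0 := by
    intro x hx
    have hx' : x ∈ LinearMap.range p := by rw [hp]; exact hx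
    obtain ⟨e, rfl⟩ := hx'
    rw [LinearMap.toSpanSingleton_apply, ← Submodule.Quotient.mk_smul,
      quotSMulTop_mk_eq_zero_iff]
    exact ⟨e, by rw [hcomm e e₀, he₀]⟩
  have hle : LinearMap.ker (Algebra.linearMap Q R) ≤ LinearMap.ker t := fun x hx => ht x hx
  let j₀' : R →ₗ[Q] QuotSMulTop f E :=
    ((LinearMap.ker (Algebra.linearMap Q R)).liftQ t hle) ∘ₗ
      ((Algebra.linearMap Q R).quotKerEquivOfSurjective hs).symm.toLinearMap
  refine ⟨j₀'.extendScalarsOfSurjective Ideal.Quotient.mk_surjective, ?_⟩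
  intro x
  have h1 : ((Algebra.linearMap Q R).quotKerEquivOfSurjective hs).symm (algebraMap Q R x) =
      Submodule.Quotient.mk x := by
    rw [LinearEquiv.symm_apply_eq]
    rfl
  change ((LinearMap.ker (Algebra.linearMap Q R)).liftQ t hle)
    (((Algebra.linearMap Q R).quotKerEquivOfSurjective hs).symm (algebraMap Q R x)) = _
  rw [h1]
  rfl

/-- a linear map killing `f E` descends to `E/fE` -/
lemma exists_liftA {Q : Type u} [CommRing Q] (f : Q) {E W : Type u} [AddCommGroup E] [Module Q E]
    [AddCommGroup W] [Module Q W] [Module (Q ⧸ Ideal.span {f}) W]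
    [IsScalarTower Q (Q ⧸ Ideal.span {f}) W] (φ : E →ₗ[Q] W) (hφ : ∀ e, φ (f • e) = 0) :
    ∃ φ₁ : QuotSMulTop f E →ₗ[Q ⧸ Ideal.span {f}] W,
      ∀ e, φ₁ (Submodule.Quotient.mk e) = φ e :=
  ⟨((f • (⊤ : Submodule Q E)).liftQ φ (by
      intro x hx
      rw [mem_smul_top_iff] at hx
      obtain ⟨y, rfl⟩ := hx
      exact hφ y)).extendScalarsOfSurjective Ideal.Quotient.mk_surjective, fun e => rfl⟩

/-- The detection theorem. -/
theorem exists_regularSeq_of_detect (s : ℕ) :
    ∀ (Q : Type u) [CommRing Q] [IsLocalRing Q] [IsNoetherianRing Q] [Algebra Q R]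
      (_ : Function.Surjective (algebraMap Q R)) (n : ℕ) (_ : PD Q R n)
      (E : Type u) [AddCommGroup E] [Module Q E] (p : E →ₗ[Q] Q)
      (_ : LinearMap.range p = RingHom.ker (algebraMap Q R))
      (_ : ∀ e e' : E, p e • e' = p e' • e)
      (q : ℕ) (j : (Fin q → R) →ₗ[Q] E) (_ : Function.Injective j)
      (_ : LinearMap.range j = LinearMap.ker p)
      (μ : Fin s → (E →ₗ[Q] R)) (_ : ∀ k v, μ k (j v) ∈ maximalIdeal R)
      (_ : ∀ e, (∀ k, μ k e ∈ maximalIdeal R) →
        p e ∈ maximalIdeal Q * RingHom.ker (algebraMap Q R)),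
      ∃ rs : List Q, IsRegular Q rs ∧ Ideal.ofList rs = RingHom.ker (algebraMap Q R) := by
  induction s with
  | zero =>
    intro Q _ _ _ _ hs n hpd E _ _ p hp hcomm q j hj hjp μ hμ hdet
    have h0 : RingHom.ker (algebraMap Q R) = ⊥ := by
      apply ker_eq_bot_of_le_mul
      intro x hx
      rw [← hp] at hx
      obtain ⟨e, rfl⟩ := hx
      exact hdet e (fun k => k.elim0)
    exact ⟨[], IsRegular.nil Q Q, by rw [h0, Ideal.ofList_nil]⟩
  | succ s ih =>
    intro Q _ _ _ _ hs n hpd E _ _ p hp hcomm q j hj hjp μ hμ hdet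
    by_cases hall : ∀ e k, μ k e ∈ maximalIdeal R
    · have h0 : RingHom.ker (algebraMap Q R) = ⊥ := by
        apply ker_eq_bot_of_le_mul
        intro x hx
        rw [← hp] at hx
        obtain ⟨e, rfl⟩ := hx
        exact hdet e (hall e)
      exact ⟨[], IsRegular.nil Q Q, by rw [h0, Ideal.ofList_nil]⟩
    push Not at hall
    obtain ⟨e₀, k₀, hk₀⟩ := hall
    let I : Ideal Q := RingHom.ker (algebraMap Q R)
    have hpI : ∀ e, p e ∈ I := fun e => by
      change p e ∈ RingHom.ker (algebraMap Q R)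
      rw [← hp]; exact ⟨e, rfl⟩
    -- the ideal of bad elements
    let V : Ideal Q := Submodule.map p
      (Submodule.comap (μ k₀) ((maximalIdeal R).restrictScalars Q))
    have hker : ∀ e, p e = 0 → μ k₀ e ∈ maximalIdeal R := by
      intro e he
      have : e ∈ LinearMap.range j := by rw [hjp]; exact he
      obtain ⟨v, rfl⟩ := this
      exact hμ k₀ v
    have hV : ∀ e, p e ∈ V ↔ μ k₀ e ∈ maximalIdeal R := by
      intro e
      constructor
      · rintro ⟨e', he', hee'⟩
        have h1 := hker (e - e') (by rw [map_sub, hee', sub_self])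
        rw [map_sub] at h1
        have h2 : μ k₀ e' ∈ maximalIdeal R := he'
        simpa using Ideal.add_mem _ h1 h2
      · intro h
        exact ⟨e, h, rfl⟩
    have hIV : ¬ I ≤ V := fun hle => hk₀ ((hV e₀).mp (hle (hpI e₀)))
    have hI0 : I ≠ ⊥ := fun h0 => hIV (by rw [h0]; exact bot_le)
    let e : (Q ⧸ I) ≃ₗ[Q] R := (Algebra.linearMap Q R).quotKerEquivOfSurjective hs
    obtain ⟨f, hfI, hfV, hfreg⟩ := exists_regular_not_mem I V hIV
      (exists_regular_mem I hI0 n (PD.congr e.symm hpd))
    have hf : algebraMap Q R f = 0 := hfI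
    obtain ⟨e₁, he₁⟩ : ∃ e₁, p e₁ = f := by
      have : f ∈ LinearMap.range p := by rw [hp]; exact hfI
      exact this
    rw [← he₁, hV, mem_maximalIdeal, mem_nonunits_iff, not_not] at hfV
    obtain ⟨u, hu⟩ := hfV
    let _ := quotAlgebra (R := R) f hf
    have _ := quotAlgebra_tower (R := R) f hf
    have _ : IsLocalRing (Q ⧸ Ideal.span {f}) :=
      isLocalRing_quot (mem_maximal_of_algebraMap_eq_zero (R := R) hf)
    have hs1 : Function.Surjective (algebraMap (Q ⧸ Ideal.span {f}) R) := by
      intro r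
      obtain ⟨x, rfl⟩ := hs r
      exact ⟨Ideal.Quotient.mk _ x, rfl⟩
    have hfR : ∀ r : R, f • r = 0 := fun r => by rw [Algebra.smul_def, hf, zero_mul]
    -- finite projective dimension persists
    have hpd1 : PD (Q ⧸ Ideal.span {f}) R (n + 1) := by
      refine oneStep hs n (PD.mono hpd (by omega)) f hf hfreg p hp hcomm q j hj hjp
        ((LinearMap.mulLeft Q ((u⁻¹ : Rˣ) : R)) ∘ₗ μ k₀) ?_ e₁ he₁ ?_
      · intro v
        exact Ideal.mul_mem_left _ _ (hμ k₀ v)
      · simp [← hu]
    -- the projection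
    obtain ⟨p₁, hp₁⟩ := exists_liftA f
      ((Ideal.Quotient.mkₐ Q (Ideal.span {f})).toLinearMap ∘ₗ p) (by
        intro e
        rw [map_smul]
        change f • (Ideal.Quotient.mk (Ideal.span {f}) (p e)) = 0
        rw [← Ideal.Quotient.mk_eq_mk, ← Submodule.Quotient.mk_smul, Ideal.Quotient.mk_eq_mk,
          Ideal.Quotient.eq_zero_iff_mem]
        exact Ideal.mul_mem_right _ _ (Ideal.mem_span_singleton_self f))
    have hp₁' : ∀ e, p₁ (Submodule.Quotient.mk e) = Ideal.Quotient.mk (Ideal.span {f}) (p e) :=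
      fun e => hp₁ e
    have hrange₁ : LinearMap.range p₁ = RingHom.ker (algebraMap (Q ⧸ Ideal.span {f}) R) := by
      rw [ker_eq_map]
      ext y
      rw [Ideal.mem_map_iff_of_surjective _ Ideal.Quotient.mk_surjective]
      constructor
      · rintro ⟨z, rfl⟩
        obtain ⟨z, rfl⟩ := Submodule.Quotient.mk_surjective _ z
        exact ⟨p z, hpI z, (hp₁' z).symm⟩
      · rintro ⟨x, hx, rfl⟩
        have : x ∈ LinearMap.range p := by rw [hp]; exact hx
        obtain ⟨z, rfl⟩ := this
        exact ⟨Submodule.Quotient.mk z, hp₁' z⟩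
    have hcomm₁ : ∀ z z' : QuotSMulTop f E, p₁ z • z' = p₁ z' • z := by
      intro z z'
      obtain ⟨z, rfl⟩ := Submodule.Quotient.mk_surjective _ z
      obtain ⟨z', rfl⟩ := Submodule.Quotient.mk_surjective _ z'
      rw [hp₁', hp₁']
      have h1 : ∀ (a : Q) (w : E), (Ideal.Quotient.mk (Ideal.span {f}) a) •
          (Submodule.Quotient.mk w : QuotSMulTop f E) = Submodule.Quotient.mk (a • w) := by
        intro a w
        exact algebraMap_smul (Q ⧸ Ideal.span {f}) a (Submodule.Quotient.mk w : QuotSMulTop f E)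
      rw [h1, h1, hcomm]
    -- the free part
    obtain ⟨j₀, hj₀⟩ := exists_smulMap hs f p hp hcomm e₁ he₁
    let jq : (Fin q → R) →ₗ[Q ⧸ Ideal.span {f}] QuotSMulTop f E :=
      ((Submodule.mkQ (f • (⊤ : Submodule Q E))) ∘ₗ j).extendScalarsOfSurjective
        Ideal.Quotient.mk_surjective
    have hjq : ∀ v, jq v = Submodule.Quotient.mk (j v) := fun v => rfl
    let j₁ : (Fin (q + 1) → R) →ₗ[Q ⧸ Ideal.span {f}] QuotSMulTop f E :=
      j₀ ∘ₗ (LinearMap.proj 0) + jq ∘ₗ (LinearMap.funLeft (Q ⧸ Ideal.span {f}) R Fin.succ)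
    have hj₁ : ∀ (a : Q) (v : Fin q → R), j₁ (Fin.cons (algebraMap Q R a) v) =
        Submodule.Quotient.mk (a • e₁ + j v) := by
      intro a v
      change j₀ (algebraMap Q R a) + jq v = _
      rw [hj₀, hjq, ← Submodule.Quotient.mk_smul, ← Submodule.Quotient.mk_add]
    have hcons : ∀ w : Fin (q + 1) → R, ∃ (a : Q) (v : Fin q → R),
        w = Fin.cons (algebraMap Q R a) v := by
      intro w
      obtain ⟨a, ha⟩ := hs (w 0)
      exact ⟨a, fun i => w i.succ, by rw [ha]; exact (Fin.cons_self_tail w).symm⟩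
    have hj₁inj : Function.Injective j₁ := by
      rw [injective_iff_map_eq_zero]
      intro w hw
      obtain ⟨a, v, rfl⟩ := hcons w
      rw [hj₁, quotSMulTop_mk_eq_zero_iff] at hw
      obtain ⟨z, hz⟩ := hw
      have h1 : p (j v) = 0 := by
        have : j v ∈ LinearMap.ker p := by rw [← hjp]; exact ⟨v, rfl⟩
        exact this
      have h2 := congrArg p hz
      rw [map_add, map_smul, map_smul, h1, add_zero, he₁, smul_eq_mul, smul_eq_mul,
        mul_comm] at h2
      have h3 : a = p z := hfreg h2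
      have h4 : a • e₁ = f • z := by rw [h3, hcomm z e₁, he₁]
      rw [h4] at hz
      have h5 : j v = 0 := by simpa using hz
      have h6 : v = 0 := hj (by rw [h5, map_zero])
      have h7 : algebraMap Q R a = 0 := by rw [h3]; exact hpI z
      rw [h6, h7]
      funext i
      refine Fin.cases ?_ (fun i => ?_) i <;> simp
    have hj₁range : LinearMap.range j₁ = LinearMap.ker p₁ := by
      ext z
      obtain ⟨z, rfl⟩ := Submodule.Quotient.mk_surjective _ z
      rw [LinearMap.mem_ker, hp₁', Ideal.Quotient.eq_zero_iff_mem, Ideal.mem_span_singleton']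
      constructor
      · rintro ⟨w, hw⟩
        obtain ⟨a, v, rfl⟩ := hcons w
        rw [hj₁, ← sub_eq_zero, ← Submodule.Quotient.mk_sub, quotSMulTop_mk_eq_zero_iff] at hw
        obtain ⟨y, hy⟩ := hw
        have h1 : p (j v) = 0 := by
          have : j v ∈ LinearMap.ker p := by rw [← hjp]; exact ⟨v, rfl⟩
          exact this
        have h2 := congrArg p hy
        rw [map_sub, map_add, map_smul, map_smul, h1, he₁, smul_eq_mul, smul_eq_mul] at h2
        exact ⟨a - p y, by linear_combination h2⟩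
      · rintro ⟨a, ha⟩
        have h1 : z - a • e₁ ∈ LinearMap.ker p := by
          rw [LinearMap.mem_ker, map_sub, map_smul, he₁, smul_eq_mul, ha, sub_self]
        rw [← hjp] at h1
        obtain ⟨v, hv⟩ := h1
        refine ⟨Fin.cons (algebraMap Q R a) v, ?_⟩
        rw [hj₁, hv, add_sub_cancel]
    -- the new functionals
    let ν : Fin s → (E →ₗ[Q] R) := fun i => μ (k₀.succAbove i) -
      (LinearMap.mulLeft Q (μ (k₀.succAbove i) e₁ * ((u⁻¹ : Rˣ) : R))) ∘ₗ μ k₀
    have hν : ∀ i z, ν i z = μ (k₀.succAbove i) z -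
        μ (k₀.succAbove i) e₁ * ((u⁻¹ : Rˣ) : R) * μ k₀ z := fun i z => rfl
    choose μ₁ hμ₁ using fun i => exists_liftA (W := R) f (ν i) (by
      intro z; rw [map_smul, hfR])
    have hνe₁ : ∀ i, ν i e₁ = 0 := by
      intro i
      rw [hν, ← hu, mul_assoc, Units.inv_mul, mul_one, sub_self]
    obtain ⟨rs, hrs, hspan⟩ := ih (Q ⧸ Ideal.span {f}) hs1 (n + 1) hpd1 (QuotSMulTop f E) p₁
      hrange₁ hcomm₁ (q + 1) j₁ hj₁inj hj₁range μ₁ (by
        intro i w
        obtain ⟨a, v, rfl⟩ := hcons w
        rw [hj₁, hμ₁, map_add, map_smul, hνe₁, smul_zero, zero_add, hν]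
        exact Ideal.sub_mem _ (hμ _ _) (Ideal.mul_mem_left _ _ (hμ _ _))) (by
        intro z hz
        obtain ⟨z, rfl⟩ := Submodule.Quotient.mk_surjective _ z
        obtain ⟨a, ha⟩ := hs (μ k₀ z * ((u⁻¹ : Rˣ) : R))
        have h1 : ∀ k, μ k (z - a • e₁) ∈ maximalIdeal R := by
          intro k
          have h2 : μ k (z - a • e₁) = μ k z - μ k₀ z * ((u⁻¹ : Rˣ) : R) * μ k e₁ := by
            rw [map_sub, map_smul, Algebra.smul_def, ha]
          rw [h2]
          rcases Fin.eq_self_or_eq_succAbove k₀ k with rfl | ⟨i, rfl⟩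
          · rw [← hu, mul_assoc, Units.inv_mul, mul_one, sub_self]
            exact Ideal.zero_mem _
          · have h3 := hz i
            rw [hμ₁, hν] at h3
            convert h3 using 1
            ring
        have h2 := hdet _ h1
        rw [map_sub, map_smul, he₁, smul_eq_mul] at h2
        rw [hp₁', ker_eq_map]
        have h3 : Ideal.Quotient.mk (Ideal.span {f}) (p z) =
            Ideal.Quotient.mk (Ideal.span {f}) (p z - a * f) := by
          rw [map_sub, map_mul, (Ideal.Quotient.eq_zero_iff_mem).mpr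
            (Ideal.mem_span_singleton_self f), mul_zero, sub_zero]
        rw [h3]
        have h4 := Ideal.mem_map_of_mem (Ideal.Quotient.mk (Ideal.span {f})) h2
        rw [Ideal.map_mul] at h4
        refine Ideal.mul_mono_left ?_ h4
        exact IsLocalRing.le_maximalIdeal (by
          intro htop
          have h5 : (Ideal.map (Ideal.Quotient.mk (Ideal.span {f})) (maximalIdeal Q)).comap
              (Ideal.Quotient.mk (Ideal.span {f})) = ⊤ := by rw [htop, Ideal.comap_top]
          rw [Ideal.comap_map_of_surjective _ Ideal.Quotient.mk_surjective,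
            ← RingHom.ker_eq_comap_bot, Ideal.mk_ker] at h5
          have h6 : Ideal.span {f} ≤ maximalIdeal Q := by
            rw [Ideal.span_singleton_le_iff_mem]
            exact mem_maximal_of_algebraMap_eq_zero (R := R) hf
          rw [sup_eq_left.mpr h6] at h5
          exact Ideal.IsPrime.ne_top' h5))
    refine exists_regular_cons f hfreg I hfI ⟨rs, hrs, ?_⟩
    rw [hspan, ker_eq_map]

end Detect

end Pool.Agent.Helper19
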