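import Pool.Agent.Helper19.OneStep2
import Pool.Agent.Helper19.Detect

/-!
Partial detection: killing all the minimal generators of `I` detected by a family of
functionals, and the detection theorem with a kernel of projective dimension one.
-/

universe u

open CategoryTheory Abelian IsLocalRing Module TensorProduct Pointwise RingTheory.Sequence

namespace Pool.Agent.Helper19

section Aux

/-- lifting a regular sequence of `Q/f` to `Q` -/
lemma exists_regular_cons2 {Q : Type u} [CommRing Q] (f : Q) (hf : IsSMulRegular Q f)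
    (J : Ideal Q) (hfJ : f ∈ J) (rs : List (Q ⧸ Ideal.span {f}))
    (hreg : IsRegular (Q ⧸ Ideal.span {f}) rs)
    (hspan : Ideal.ofList rs = J.map (Ideal.Quotient.mk (Ideal.span {f}))) :
    ∃ ts : List Q, IsRegular Q ts ∧ Ideal.ofList ts = J ∧ ts.length = rs.length + 1 := by
  obtain ⟨ts, rfl⟩ : ∃ ts : List Q, ts.map (Ideal.Quotient.mk (Ideal.span {f})) = rs := by
    have := List.map_surjective_iff.mpr (Ideal.Quotient.mk_surjective (I := Ideal.span {f}))
    exact this rs
  refine ⟨f :: ts, ?_, ?_, by simp⟩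
  · rw [isRegular_cons_iff']
    exact ⟨hf, ((quotSelfEquiv f).isRegular_congr _).mpr hreg⟩
  · rw [Ideal.ofList_cons]
    rw [← Ideal.map_ofList] at hspan
    have h1 := congrArg (Ideal.comap (Ideal.Quotient.mk (Ideal.span {f}))) hspan
    rw [Ideal.comap_map_of_surjective _ Ideal.Quotient.mk_surjective,
      Ideal.comap_map_of_surjective _ Ideal.Quotient.mk_surjective,
      ← RingHom.ker_eq_comap_bot, Ideal.mk_ker] at h1
    rw [sup_comm, h1]
    exact sup_eq_left.mpr ((Ideal.span_singleton_le_iff_mem J).mpr hfJ)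

lemma eq_zero_of_pd_one {Q R : Type u} [CommRing Q] [IsLocalRing Q] [CommRing R] [Nontrivial R]
    [Algebra Q R] (hs : Function.Surjective (algebraMap Q R)) (h : PD Q R 1) (f : Q)
    (hf : algebraMap Q R f = 0) : f = 0 := by
  have : Module.Finite Q R := Module.Finite.of_surjective (Algebra.linearMap Q R) hs
  have : Module.Projective Q R := projective_of_pd_one h
  have : Module.Free Q R := Module.free_of_flat_of_isLocalRing
  let b := Module.Free.chooseBasis Q R
  have hne : Nonempty (Module.Free.ChooseBasisIndex Q R) := b.index_nonempty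
  obtain ⟨k⟩ := hne
  have h1 : f • b k = 0 := by rw [Algebra.smul_def, hf, zero_mul]
  have h2 := congrArg (fun v => b.repr v k) h1
  simpa using h2

end Aux

section Partial

variable {R : Type u} [CommRing R] [IsLocalRing R]

/-- Partial detection. -/
theorem partial_detect (s : ℕ) :
    ∀ (Q : Type u) [CommRing Q] [IsLocalRing Q] [IsNoetherianRing Q] [Algebra Q R]
      (_ : Function.Surjective (algebraMap Q R)) (n : ℕ) (_ : PD Q R (n + 1))
      (E : Type u) [AddCommGroup E] [Module Q E] (p : E →ₗ[Q] Q)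
      (_ : LinearMap.range p = RingHom.ker (algebraMap Q R))
      (_ : ∀ e e' : E, p e • e' = p e' • e)
      (q b : ℕ) (j : (Fin q → R) →ₗ[Q] E) (β : (Fin b → R) →ₗ[R] (Fin q → R))
      (_ : Function.Injective β) (_ : Function.Exact β j)
      (_ : LinearMap.range j = LinearMap.ker p)
      (μ : Fin s → (E →ₗ[Q] R)) (_ : ∀ k v, μ k (j v) ∈ maximalIdeal R),
      ∃ (Q' : Type u) (_ : CommRing Q') (_ : IsLocalRing Q') (_ : IsNoetherianRing Q')
        (_ : Algebra Q' R) (π : Q →+* Q'), Function.Surjective π ∧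
        (∀ x, algebraMap Q' R (π x) = algebraMap Q R x) ∧
        ∃ (rs : List Q) (n' : ℕ), IsRegular Q rs ∧ Ideal.ofList rs = RingHom.ker π ∧
          PD Q' R (n' + 1) ∧ n' + rs.length = n + b * rs.length ∧
          ∀ e, ∃ e', π (p e) = π (p e') ∧ ∀ k, μ k e' ∈ maximalIdeal R := by
  induction s with
  | zero =>
    intro Q _ _ _ _ hs n hpd E _ _ p hp hcomm q b j β hβ hβj hjp μ hμ
    exact ⟨Q, inferInstance, inferInstance, inferInstance, inferInstance, RingHom.id Q,
      fun x => ⟨x, rfl⟩, fun x => rfl, [], n, IsRegular.nil Q Q, by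
        rw [Ideal.ofList_nil]; exact ((RingHom.injective_iff_ker_eq_bot _).mp
          (fun x y h => h)).symm, hpd, by simp, fun e => ⟨e, rfl, fun k => k.elim0⟩⟩
  | succ s ih =>
    intro Q _ _ _ _ hs n hpd E _ _ p hp hcomm q b j β hβ hβj hjp μ hμ
    by_cases hall : ∀ e k, μ k e ∈ maximalIdeal R
    · exact ⟨Q, inferInstance, inferInstance, inferInstance, inferInstance, RingHom.id Q,
        fun x => ⟨x, rfl⟩, fun x => rfl, [], n, IsRegular.nil Q Q, by
          rw [Ideal.ofList_nil]; exact ((RingHom.injective_iff_ker_eq_bot _).mp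
            (fun x y h => h)).symm, hpd, by simp, fun e => ⟨e, rfl, fun k => hall e k⟩⟩
    push Not at hall
    obtain ⟨e₀, k₀, hk₀⟩ := hall
    let I : Ideal Q := RingHom.ker (algebraMap Q R)
    have hpI : ∀ e, p e ∈ I := fun e => by
      change p e ∈ RingHom.ker (algebraMap Q R)
      rw [← hp]; exact ⟨e, rfl⟩
    -- the ideal of bad elements
    let V : Ideal Q := Submodule.map p
      (Submodule.comap (μ k₀) ((maximalIdeal R).restrictScalars Q))
    have hker : ∀ e, p e = 0 → μ k₀ e ∈ maximalIdeal R := by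
      intro e he
      have : e ∈ LinearMap.range j := by rw [hjp]; exact he
      obtain ⟨v, rfl⟩ := this
      exact hμ k₀ v
    have hV : ∀ e, p e ∈ V ↔ μ k₀ e ∈ maximalIdeal R := by
      intro e
      constructor
      · rintro ⟨e', he', hee'⟩
        have h1 := hker (e - e') (by rw [map_sub, hee', sub_self])
        rw [map_sub] at h1
        have h2 : μ k₀ e' ∈ maximalIdeal R := he'
        simpa using Ideal.add_mem _ h1 h2
      · intro h
        exact ⟨e, h, rfl⟩
    have hIV : ¬ I ≤ V := fun hle => hk₀ ((hV e₀).mp (hle (hpI e₀)))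
    have hI0 : I ≠ ⊥ := fun h0 => hIV (by rw [h0]; exact bot_le)
    let e : (Q ⧸ I) ≃ₗ[Q] R := (Algebra.linearMap Q R).quotKerEquivOfSurjective hs
    obtain ⟨f, hfI, hfV, hfreg⟩ := exists_regular_not_mem I V hIV
      (exists_regular_mem I hI0 (n + 1) (PD.congr e.symm hpd))
    have hf : algebraMap Q R f = 0 := hfI
    obtain ⟨n, rfl⟩ : ∃ m, n = m + 1 := by
      rcases Nat.eq_zero_or_pos n with h0 | h0
      · exfalso
        subst h0
        have h1 := eq_zero_of_pd_one hs hpd f hf
        rw [h1] at hfV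
        exact hfV V.zero_mem
      · exact ⟨n - 1, by omega⟩
    obtain ⟨e₁, he₁⟩ : ∃ e₁, p e₁ = f := by
      have : f ∈ LinearMap.range p := by rw [hp]; exact hfI
      exact this
    rw [← he₁, hV, mem_maximalIdeal, mem_nonunits_iff, not_not] at hfV
    obtain ⟨u, hu⟩ := hfV
    let _ := quotAlgebra (R := R) f hf
    have _ := quotAlgebra_tower (R := R) f hf
    have _ : IsLocalRing (Q ⧸ Ideal.span {f}) :=
      isLocalRing_quot (mem_maximal_of_algebraMap_eq_zero (R := R) hf)
    have hs1 : Function.Surjective (algebraMap (Q ⧸ Ideal.span {f}) R) := by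
      intro r
      obtain ⟨x, rfl⟩ := hs r
      exact ⟨Ideal.Quotient.mk _ x, rfl⟩
    have hfR : ∀ r : R, f • r = 0 := fun r => by rw [Algebra.smul_def, hf, zero_mul]
    -- finite projective dimension persists
    have hpd1 : PD (Q ⧸ Ideal.span {f}) R (n + b + 1) := by
      refine oneStep2 hs n hpd f hf hfreg p hp hcomm q b j β hβ hβj hjp
        ((LinearMap.mulLeft Q ((u⁻¹ : Rˣ) : R)) ∘ₗ μ k₀) ?_ e₁ he₁ ?_
      · intro v
        exact Ideal.mul_mem_left _ _ (hμ k₀ v)
      · simp [← hu]
    -- the projection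
    obtain ⟨p₁, hp₁⟩ := exists_liftA f
      ((Ideal.Quotient.mkₐ Q (Ideal.span {f})).toLinearMap ∘ₗ p) (by
        intro e
        rw [map_smul]
        change f • (Ideal.Quotient.mk (Ideal.span {f}) (p e)) = 0
        rw [← Ideal.Quotient.mk_eq_mk, ← Submodule.Quotient.mk_smul, Ideal.Quotient.mk_eq_mk,
          Ideal.Quotient.eq_zero_iff_mem]
        exact Ideal.mul_mem_right _ _ (Ideal.mem_span_singleton_self f))
    have hp₁' : ∀ e, p₁ (Submodule.Quotient.mk e) = Ideal.Quotient.mk (Ideal.span {f}) (p e) :=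
      fun e => hp₁ e
    have hrange₁ : LinearMap.range p₁ = RingHom.ker (algebraMap (Q ⧸ Ideal.span {f}) R) := by
      rw [ker_eq_map]
      ext y
      rw [Ideal.mem_map_iff_of_surjective _ Ideal.Quotient.mk_surjective]
      constructor
      · rintro ⟨z, rfl⟩
        obtain ⟨z, rfl⟩ := Submodule.Quotient.mk_surjective _ z
        exact ⟨p z, hpI z, (hp₁' z).symm⟩
      · rintro ⟨x, hx, rfl⟩
        have : x ∈ LinearMap.range p := by rw [hp]; exact hx
        obtain ⟨z, rfl⟩ := this
        exact ⟨Submodule.Quotient.mk z, hp₁' z⟩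
    have hcomm₁ : ∀ z z' : QuotSMulTop f E, p₁ z • z' = p₁ z' • z := by
      intro z z'
      obtain ⟨z, rfl⟩ := Submodule.Quotient.mk_surjective _ z
      obtain ⟨z', rfl⟩ := Submodule.Quotient.mk_surjective _ z'
      rw [hp₁', hp₁']
      have h1 : ∀ (a : Q) (w : E), (Ideal.Quotient.mk (Ideal.span {f}) a) •
          (Submodule.Quotient.mk w : QuotSMulTop f E) = Submodule.Quotient.mk (a • w) := by
        intro a w
        exact algebraMap_smul (Q ⧸ Ideal.span {f}) a (Submodule.Quotient.mk w : QuotSMulTop f E)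
      rw [h1, h1, hcomm]
    -- the free part
    obtain ⟨j₀, hj₀⟩ := exists_smulMap hs f p hp hcomm e₁ he₁
    let jq : (Fin q → R) →ₗ[Q ⧸ Ideal.span {f}] QuotSMulTop f E :=
      ((Submodule.mkQ (f • (⊤ : Submodule Q E))) ∘ₗ j).extendScalarsOfSurjective
        Ideal.Quotient.mk_surjective
    have hjq : ∀ v, jq v = Submodule.Quotient.mk (j v) := fun v => rfl
    let j₁ : (Fin (q + 1) → R) →ₗ[Q ⧸ Ideal.span {f}] QuotSMulTop f E :=
      j₀ ∘ₗ (LinearMap.proj 0) + jq ∘ₗ (LinearMap.funLeft (Q ⧸ Ideal.span {f}) R Fin.succ)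
    have hj₁ : ∀ (a : Q) (v : Fin q → R), j₁ (Fin.cons (algebraMap Q R a) v) =
        Submodule.Quotient.mk (a • e₁ + j v) := by
      intro a v
      change j₀ (algebraMap Q R a) + jq v = _
      rw [hj₀, hjq, ← Submodule.Quotient.mk_smul, ← Submodule.Quotient.mk_add]
    have hcons : ∀ w : Fin (q + 1) → R, ∃ (a : Q) (v : Fin q → R),
        w = Fin.cons (algebraMap Q R a) v := by
      intro w
      obtain ⟨a, ha⟩ := hs (w 0)
      exact ⟨a, fun i => w i.succ, by rw [ha]; exact (Fin.cons_self_tail w).symm⟩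
    have hjv : ∀ v, p (j v) = 0 := by
      intro v
      have : j v ∈ LinearMap.ker p := by rw [← hjp]; exact ⟨v, rfl⟩
      exact this
    let β₁ : (Fin b → R) →ₗ[R] (Fin (q + 1) → R) :=
      LinearMap.pi (Fin.cases 0 (fun i => LinearMap.proj i ∘ₗ β))
    have hβ₁ : ∀ w, β₁ w = Fin.cons 0 (β w) := by
      intro w
      funext i
      refine Fin.cases ?_ (fun i => ?_) i
      · rfl
      · rfl
    have hβ₁inj : Function.Injective β₁ := by
      intro w w' hww
      apply hβ
      rw [hβ₁, hβ₁] at hww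
      exact (Fin.cons_injective2 hww).2
    have hexβ₁ : Function.Exact β₁ j₁ := by
      intro w
      constructor
      · intro hw
        obtain ⟨a, v, rfl⟩ := hcons w
        rw [hj₁, quotSMulTop_mk_eq_zero_iff] at hw
        obtain ⟨z, hz⟩ := hw
        have h2 := congrArg p hz
        rw [map_add, map_smul, map_smul, hjv, add_zero, he₁, smul_eq_mul, smul_eq_mul,
          mul_comm] at h2
        have h3 : a = p z := hfreg h2
        have h4 : a • e₁ = f • z := by rw [h3, hcomm z e₁, he₁]
        rw [h4] at hz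
        have h5 : j v = 0 := by simpa using hz
        obtain ⟨w', rfl⟩ := (hβj v).mp h5
        have h7 : algebraMap Q R a = 0 := by rw [h3]; exact hpI z
        exact ⟨w', by rw [hβ₁, h7]⟩
      · rintro ⟨w', rfl⟩
        have h1 := hj₁ 0 (β w')
        rw [map_zero, zero_smul, zero_add, (hβj _).mpr ⟨w', rfl⟩,
          Submodule.Quotient.mk_zero] at h1
        rw [hβ₁]
        exact h1
    have hj₁range : LinearMap.range j₁ = LinearMap.ker p₁ := by
      ext z
      obtain ⟨z, rfl⟩ := Submodule.Quotient.mk_surjective _ z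
      rw [LinearMap.mem_ker, hp₁', Ideal.Quotient.eq_zero_iff_mem, Ideal.mem_span_singleton']
      constructor
      · rintro ⟨w, hw⟩
        obtain ⟨a, v, rfl⟩ := hcons w
        rw [hj₁, ← sub_eq_zero, ← Submodule.Quotient.mk_sub, quotSMulTop_mk_eq_zero_iff] at hw
        obtain ⟨y, hy⟩ := hw
        have h2 := congrArg p hy
        rw [map_sub, map_add, map_smul, map_smul, hjv, he₁, smul_eq_mul, smul_eq_mul] at h2
        exact ⟨a - p y, by linear_combination h2⟩
      · rintro ⟨a, ha⟩
        have h1 : z - a • e₁ ∈ LinearMap.ker p := by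
          rw [LinearMap.mem_ker, map_sub, map_smul, he₁, smul_eq_mul, ha, sub_self]
        rw [← hjp] at h1
        obtain ⟨v, hv⟩ := h1
        refine ⟨Fin.cons (algebraMap Q R a) v, ?_⟩
        rw [hj₁, hv, add_sub_cancel]
    -- the new functionals
    let ν : Fin s → (E →ₗ[Q] R) := fun i => μ (k₀.succAbove i) -
      (LinearMap.mulLeft Q (μ (k₀.succAbove i) e₁ * ((u⁻¹ : Rˣ) : R))) ∘ₗ μ k₀
    have hν : ∀ i z, ν i z = μ (k₀.succAbove i) z -
        μ (k₀.succAbove i) e₁ * ((u⁻¹ : Rˣ) : R) * μ k₀ z := fun i z => rfl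
    choose μ₁ hμ₁ using fun i => exists_liftA (W := R) f (ν i) (by
      intro z; rw [map_smul, hfR])
    have hνe₁ : ∀ i, ν i e₁ = 0 := by
      intro i
      rw [hν, ← hu, mul_assoc, Units.inv_mul, mul_one, sub_self]
    obtain ⟨Q', i1, i2, i3, i4, π, hπ, hπR, rs, n', hrs, hspan, hpd', hlen, hdet⟩ :=
      ih (Q ⧸ Ideal.span {f}) hs1 (n + b) hpd1 (QuotSMulTop f E) p₁
      hrange₁ hcomm₁ (q + 1) b j₁ β₁ hβ₁inj hexβ₁ hj₁range μ₁ (by
        intro i w
        obtain ⟨a, v, rfl⟩ := hcons w
        rw [hj₁, hμ₁, map_add, map_smul, hνe₁, smul_zero, zero_add, hν]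
        exact Ideal.sub_mem _ (hμ _ _) (Ideal.mul_mem_left _ _ (hμ _ _)))
    have hker' : RingHom.ker (π.comp (Ideal.Quotient.mk (Ideal.span {f}))) =
        (RingHom.ker π).comap (Ideal.Quotient.mk (Ideal.span {f})) := by
      ext x; simp [RingHom.mem_ker]
    obtain ⟨ts, hts, htspan, htlen⟩ := exists_regular_cons2 f hfreg
      (RingHom.ker (π.comp (Ideal.Quotient.mk (Ideal.span {f})))) (by
        rw [RingHom.mem_ker, RingHom.comp_apply, (Ideal.Quotient.eq_zero_iff_mem).mpr
          (Ideal.mem_span_singleton_self f), map_zero]) rs hrs (by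
        rw [hker', Ideal.map_comap_of_surjective _ Ideal.Quotient.mk_surjective, hspan])
    refine ⟨Q', i1, i2, i3, i4, π.comp (Ideal.Quotient.mk (Ideal.span {f})),
      hπ.comp Ideal.Quotient.mk_surjective, fun x => hπR _, ts, n', hts, htspan, hpd', ?_, ?_⟩
    · rw [htlen]
      have : b * (rs.length + 1) = b * rs.length + b := by ring
      omega
    · intro z
      obtain ⟨z', hz', hzm⟩ := hdet (Submodule.Quotient.mk z)
      obtain ⟨w, rfl⟩ := Submodule.Quotient.mk_surjective _ z'
      obtain ⟨a, ha⟩ := hs (μ k₀ w * ((u⁻¹ : Rˣ) : R))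
      refine ⟨w - a • e₁, ?_, ?_⟩
      · rw [hp₁', hp₁'] at hz'
        rw [RingHom.comp_apply, RingHom.comp_apply, hz', map_sub, map_smul, he₁, smul_eq_mul,
          map_sub, map_mul, (Ideal.Quotient.eq_zero_iff_mem).mpr
            (Ideal.mem_span_singleton_self f), mul_zero, sub_zero]
      · intro k
        have h2 : μ k (w - a • e₁) = μ k w - μ k₀ w * ((u⁻¹ : Rˣ) : R) * μ k e₁ := by
          rw [map_sub, map_smul, Algebra.smul_def, ha]
        rw [h2]
        rcases Fin.eq_self_or_eq_succAbove k₀ k with rfl | ⟨i, rfl⟩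
        · rw [← hu, mul_assoc, Units.inv_mul, mul_one, sub_self]
          exact Ideal.zero_mem _
        · have h3 := hzm i
          rw [hμ₁, hν] at h3
          convert h3 using 1
          ring

/-- The detection theorem, second form. -/
theorem exists_regularSeq_of_detect2 {s : ℕ}
    {Q : Type u} [CommRing Q] [IsLocalRing Q] [IsNoetherianRing Q] [Algebra Q R]
    (hs : Function.Surjective (algebraMap Q R)) (n : ℕ) (hpd : PD Q R n)
    {E : Type u} [AddCommGroup E] [Module Q E] (p : E →ₗ[Q] Q)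
    (hp : LinearMap.range p = RingHom.ker (algebraMap Q R))
    (hcomm : ∀ e e' : E, p e • e' = p e' • e)
    (q b : ℕ) (j : (Fin q → R) →ₗ[Q] E) (β : (Fin b → R) →ₗ[R] (Fin q → R))
    (hβ : Function.Injective β) (hβj : Function.Exact β j)
    (hjp : LinearMap.range j = LinearMap.ker p)
    (μ : Fin s → (E →ₗ[Q] R)) (hμ : ∀ k v, μ k (j v) ∈ maximalIdeal R)
    (hdet : ∀ e, (∀ k, μ k e ∈ maximalIdeal R) →
        p e ∈ maximalIdeal Q * RingHom.ker (algebraMap Q R)) :
    ∃ rs : List Q, IsRegular Q rs ∧ Ideal.ofList rs = RingHom.ker (algebraMap Q R) := by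
  obtain ⟨Q', i1, i2, i3, i4, π, hπ, hπR, rs, n', hrs, hspan, hpd', hlen, hd⟩ :=
    partial_detect s Q hs n (PD.mono hpd (by omega)) E p hp hcomm q b j β hβ hβj hjp μ hμ
  refine ⟨rs, hrs, ?_⟩
  have hm : ∀ x ∈ maximalIdeal Q, π x ∈ maximalIdeal Q' := by
    intro x hx
    rw [mem_maximalIdeal, mem_nonunits_iff]
    intro hu
    have hu2 := hu.map (algebraMap Q' R)
    rw [hπR] at hu2
    obtain ⟨y, hy⟩ := hu2.exists_right_inv
    obtain ⟨y, rfl⟩ := hs y
    rw [← map_mul] at hy
    have h3 : x * y - 1 ∈ maximalIdeal Q :=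
      mem_maximal_of_algebraMap_eq_zero (R := R) (by rw [map_sub, hy, map_one, sub_self])
    have h4 : (1 : Q) ∈ maximalIdeal Q := by
      have := Ideal.sub_mem _ (Ideal.mul_mem_right y _ hx) h3
      simpa using this
    exact (Ideal.ne_top_iff_one _).mp (maximalIdeal.isMaximal Q).ne_top h4
  have h0 : RingHom.ker (algebraMap Q' R) = ⊥ := by
    apply ker_eq_bot_of_le_mul
    intro x hx
    obtain ⟨x, rfl⟩ := hπ x
    have hx' : x ∈ LinearMap.range p := by
      rw [hp, RingHom.mem_ker, ← hπR]; exact hx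
    obtain ⟨e, rfl⟩ := hx'
    obtain ⟨e', he', hem⟩ := hd e
    rw [he']
    have h5 := Ideal.mem_map_of_mem π (hdet e' hem)
    rw [Ideal.map_mul] at h5
    refine Ideal.mul_mono ?_ ?_ h5
    · rw [Ideal.map_le_iff_le_comap]
      exact hm
    · rw [Ideal.map_le_iff_le_comap]
      intro y hy
      change algebraMap Q' R (π y) = 0
      rw [hπR]
      exact hy
  rw [hspan]
  ext x
  rw [RingHom.mem_ker, RingHom.mem_ker, ← hπR]
  constructor
  · intro h; rw [h, map_zero]
  · intro h
    have : π x ∈ RingHom.ker (algebraMap Q' R) := h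
    rw [h0] at this
    exact this

end Partial

end Pool.Agent.Helper19
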