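import Pool.Agent.Helper19.FreeDual

/-!
Regular local rings have finite global dimension.
-/

universe u

open CategoryTheory Abelian IsLocalRing Module TensorProduct Pointwise RingTheory.Sequence

namespace Pool.Agent.Helper19

section Lift

variable {Q : Type u} [CommRing Q] [IsLocalRing Q] [IsNoetherianRing Q]

lemma subsingleton_of_quotSMulTop {X : Type u} [AddCommGroup X] [Module Q X] [Module.Finite Q X]
    (f : Q) (hf : f ∈ maximalIdeal Q) (h : Subsingleton (QuotSMulTop f X)) : Subsingleton X := by
  have h1 : (⊤ : Submodule Q X) ≤ maximalIdeal Q • ⊤ := by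
    intro x _
    have h2 : (Submodule.Quotient.mk x : QuotSMulTop f X) = 0 := Subsingleton.elim _ _
    rw [quotSMulTop_mk_eq_zero_iff] at h2
    obtain ⟨y, rfl⟩ := h2
    exact Submodule.smul_mem_smul hf trivial
  have h3 := Submodule.eq_bot_of_le_smul_of_le_jacobson_bot (maximalIdeal Q) _
    (Module.Finite.fg_top) h1 (IsLocalRing.maximalIdeal_le_jacobson _)
  exact (Submodule.subsingleton_iff Q).mp (subsingleton_of_bot_eq_top h3.symm)

/-- for `f ∈ m` regular on `Q` and on `X`: `pd_Q X ≤ pd_{Q/f} X/fX`. -/
theorem pd_of_quotSMulTop (f : Q) (hfm : f ∈ maximalIdeal Q) (hf : IsSMulRegular Q f) (n : ℕ) :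
    ∀ (X : Type u) [AddCommGroup X] [Module Q X] [Module.Finite Q X],
      IsSMulRegular X f → PD (Q ⧸ Ideal.span {f}) (QuotSMulTop f X) n → PD Q X n := by
  induction n with
  | zero =>
    intro X _ _ _ _ h
    have h1 : Subsingleton X := subsingleton_of_quotSMulTop f hfm (subsingleton_of_pd_zero h)
    exact (ModuleCat.isZero_iff_subsingleton (M := ModuleCat.of Q X)).mpr h1 |>.hasProjectiveDimensionLT_zero
  | succ n ih =>
    intro X _ _ _ hX h
    obtain ⟨m, π, hπ, hmin⟩ := exists_minimal_cover (A := Q) (X := X)
    have hinj : Function.Injective (LinearMap.ker π).subtype := Subtype.val_injective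
    have hex : Function.Exact (LinearMap.ker π).subtype π := fun v => by simp
    have hKreg : IsSMulRegular (LinearMap.ker π) f :=
      isSMulRegular_of_injective _ hinj (isSMulRegular_pi hf m)
    have hqinj := qmap_injective f hinj hex hX
    have hqsurj := qmap_surjective f hπ
    have hqex := qmap_exact f hex hπ
    have hfree : Module.Free (Q ⧸ Ideal.span {f}) (QuotSMulTop f (Fin m → Q)) := inferInstance
    match n with
    | 0 =>
      have hproj : Module.Projective (Q ⧸ Ideal.span {f}) (QuotSMulTop f X) :=
        projective_of_pd_one h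
      obtain ⟨s, hs⟩ := Module.projective_lifting_property (qmap f π) LinearMap.id hqsurj
      -- `L/fL` vanishes
      have hL : Subsingleton (LinearMap.ker π) := by
        have hl' : ∀ i : Fin m, ∃ l' : LinearMap.ker π,
            (Submodule.Quotient.mk (l' : Fin m → Q) : QuotSMulTop f (Fin m → Q)) =
            Submodule.Quotient.mk (Pi.single i 1) -
              s (qmap f π (Submodule.Quotient.mk (Pi.single i 1))) := by
          intro i
          have h2 : qmap f π (Submodule.Quotient.mk (Pi.single i 1) -
              s (qmap f π (Submodule.Quotient.mk (Pi.single i 1)))) = 0 := by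
            rw [map_sub, sub_eq_zero]
            exact (LinearMap.congr_fun hs _).symm
          obtain ⟨y, hy⟩ := (hqex _).mp h2
          obtain ⟨y, rfl⟩ := Submodule.Quotient.mk_surjective _ y
          exact ⟨y, hy⟩
        choose l' hl' using hl'
        have h1 : (⊤ : Submodule Q (LinearMap.ker π)) ≤ maximalIdeal Q • ⊤ := by
          intro l _
          let r : QuotSMulTop f (Fin m → Q) →ₗ[Q] QuotSMulTop f (Fin m → Q) :=
            LinearMap.id - (s ∘ₗ qmap f π).restrictScalars Q
          have hr : ∀ v, r v = v - s (qmap f π v) := fun v => rfl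
          have h4 : r (Submodule.Quotient.mk (l : Fin m → Q)) =
              Submodule.Quotient.mk (l : Fin m → Q) := by
            rw [hr, qmap_mk]
            have : π (l : Fin m → Q) = 0 := l.2
            rw [this, Submodule.Quotient.mk_zero, map_zero, sub_zero]
          have h5 : (l : Fin m → Q) = ∑ i, (l : Fin m → Q) i • Pi.single i (1 : Q) := by
            funext j
            simp [Finset.sum_apply, Pi.single_apply]
          have h6 : r (Submodule.Quotient.mk (l : Fin m → Q)) =
              Submodule.Quotient.mk (∑ i, (l : Fin m → Q) i • (l' i : Fin m → Q)) := by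
            conv_lhs => rw [h5]
            rw [← Submodule.mkQ_apply, map_sum, map_sum, ← Submodule.mkQ_apply, map_sum]
            refine Finset.sum_congr rfl fun i _ => ?_
            rw [map_smul, map_smul, map_smul, Submodule.mkQ_apply, Submodule.mkQ_apply, hr, hl']
          rw [h4, ← sub_eq_zero, ← Submodule.Quotient.mk_sub, quotSMulTop_mk_eq_zero_iff] at h6
          obtain ⟨v, hv⟩ := h6
          have hvL : π v = 0 := by
            have h7 := congrArg π hv
            rw [map_sub, map_sum, map_smul] at h7
            have h8 : π (l : Fin m → Q) = 0 := l.2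
            rw [h8, Finset.sum_eq_zero, sub_zero] at h7
            · exact hX.right_eq_zero_of_smul h7.symm
            · intro i _
              rw [map_smul, show π (l' i : Fin m → Q) = 0 from (l' i).2, smul_zero]
          have h9 : l = ∑ i, (l : Fin m → Q) i • l' i + f • (⟨v, hvL⟩ : LinearMap.ker π) := by
            apply Subtype.ext
            rw [Submodule.coe_add, Submodule.coe_sum, Submodule.coe_smul, ← hv]
            simp only [Submodule.coe_smul]
            rw [add_sub_cancel]
          rw [h9]
          refine Submodule.add_mem _ (Submodule.sum_mem _ fun i _ => ?_) ?_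
          · exact Submodule.smul_mem_smul (hmin _ l.2 i) trivial
          · exact Submodule.smul_mem_smul hfm trivial
        have h3 := Submodule.eq_bot_of_le_smul_of_le_jacobson_bot (maximalIdeal Q) _
          (Module.Finite.fg_top) h1 (IsLocalRing.maximalIdeal_le_jacobson _)
        exact (Submodule.subsingleton_iff Q).mp (subsingleton_of_bot_eq_top h3.symm)
      have hbij : Function.Bijective π := by
        refine ⟨?_, hπ⟩
        rw [← LinearMap.ker_eq_bot]
        exact (Submodule.subsingleton_iff_eq_bot).mp hL
      exact PD.congr (LinearEquiv.ofBijective π hbij) pd_of_free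
    | n + 1 =>
      have h1 : PD (Q ⧸ Ideal.span {f}) (QuotSMulTop f (LinearMap.ker π)) (n + 1) :=
        pd_ker hqinj hqsurj hqex h
      exact pd_coker hinj hπ hex (ih _ hKreg h1) (PD.mono pd_of_free (by omega))

end Lift

section Regular

/-- induction principle for regular local rings: kill an element of a regular system of
parameters -/
theorem regular_induction
    (P : ∀ (A : Type u) [CommRing A] [IsLocalRing A] [IsNoetherianRing A], Prop)
    (h0 : ∀ (A : Type u) [CommRing A] [IsLocalRing A] [IsNoetherianRing A],
      maximalIdeal A = ⊥ → P A)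
    (hs : ∀ (A : Type u) [CommRing A] [IsLocalRing A] [IsNoetherianRing A] (x : A)
      (_ : x ∈ maximalIdeal A) (_ : IsSMulRegular A x) [IsLocalRing (A ⧸ Ideal.span {x})],
      P (A ⧸ Ideal.span {x}) → P A) (d : ℕ) :
    ∀ (A : Type u) [CommRing A] [IsLocalRing A] [IsNoetherianRing A],
      (d : WithBot ℕ∞) ≤ ringKrullDim A →
      (∃ g : Fin d → A, Ideal.span (Set.range g) = maximalIdeal A) →
      IsDomain A ∧ P A := by
  induction d with
  | zero =>
    intro A _ _ _ _ hg
    obtain ⟨g, hg⟩ := hg
    have hm : maximalIdeal A = ⊥ := by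
      rw [← hg]
      simp
    refine ⟨?_, ?_⟩
    · exact (IsLocalRing.isField_iff_maximalIdeal_eq.mpr hm).isDomain
    · exact h0 A hm
  | succ d ih =>
    intro A _ _ _ hdim hg
    obtain ⟨g, hg⟩ := hg
    -- the maximal ideal is not a minimal prime
    have hmin : ∀ P ∈ minimalPrimes A, ¬ maximalIdeal A ≤ P := by
      intro P hP hle
      have : P.IsPrime := hP.1.1
      have h1 : P = maximalIdeal A := le_antisymm (IsLocalRing.le_maximalIdeal this.ne_top) hle
      rw [h1] at hP
      have h2 : (maximalIdeal A).height = 0 := Ideal.height_eq_zero_iff.mpr hP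
      have h3 := IsLocalRing.maximalIdeal_height_eq_ringKrullDim (R := A)
      rw [h2] at h3
      rw [← h3] at hdim
      norm_cast at hdim
    have hsq : ¬ maximalIdeal A ≤ maximalIdeal A * maximalIdeal A := by
      intro hle
      have h1 : maximalIdeal A = ⊥ := by
        apply Submodule.eq_bot_of_le_smul_of_le_jacobson_bot (maximalIdeal A) _
          (IsNoetherian.noetherian _) hle
        exact IsLocalRing.maximalIdeal_le_jacobson _
      obtain ⟨P, hP, -⟩ := Ideal.exists_minimalPrimes_le (I := (⊥ : Ideal A))
        (J := maximalIdeal A) bot_le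
      exact hmin P hP (by rw [h1]; exact bot_le)
    -- prime avoidance
    obtain ⟨x, hxm, hxsq, hxmin⟩ : ∃ x ∈ maximalIdeal A, x ∉ maximalIdeal A * maximalIdeal A ∧
        ∀ P ∈ minimalPrimes A, x ∉ P := by
      classical
      by_contra hno
      push Not at hno
      have hfin := minimalPrimes.finite_of_isNoetherianRing A
      let s : Finset (Ideal A) := insert (maximalIdeal A * maximalIdeal A) hfin.toFinset
      have hsub : (maximalIdeal A : Set A) ⊆ ⋃ i ∈ (↑s : Set (Ideal A)),
          ((id i : Ideal A) : Set A) := by
        intro x hx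
        by_cases hxV : x ∈ maximalIdeal A * maximalIdeal A
        · exact Set.mem_biUnion (show maximalIdeal A * maximalIdeal A ∈
            (↑s : Set (Ideal A)) by simp [s]) hxV
        · obtain ⟨P, hP, hxP⟩ := hno x hx hxV
          exact Set.mem_biUnion (show P ∈ (↑s : Set (Ideal A)) by simp [s, hP]) hxP
      rw [Ideal.subset_union_prime (maximalIdeal A * maximalIdeal A)
        (maximalIdeal A * maximalIdeal A)] at hsub
      · obtain ⟨P, hP, hle⟩ := hsub
        rcases Finset.mem_insert.mp hP with rfl | hP
        · exact hsq hle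
        · exact hmin P (by simpa using hP) hle
      · intro P hP hPV _
        rcases Finset.mem_insert.mp hP with h | h
        · exact absurd h hPV
        · have : P ∈ minimalPrimes A := by simpa using h
          exact this.1.1
    -- the quotient by `x`
    have hlocal : IsLocalRing (A ⧸ Ideal.span {x}) := isLocalRing_quot hxm
    have hmax : maximalIdeal (A ⧸ Ideal.span {x}) =
        (maximalIdeal A).map (Ideal.Quotient.mk (Ideal.span {x})) := by
      have := IsLocalHom.of_surjective (Ideal.Quotient.mk (Ideal.span {x}))
        Ideal.Quotient.mk_surjective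
      have hle : Ideal.span {x} ≤ maximalIdeal A :=
        (Ideal.span_singleton_le_iff_mem _).mpr hxm
      ext y
      obtain ⟨y, rfl⟩ := Ideal.Quotient.mk_surjective y
      simp [sup_eq_left.mpr hle]
    have hg' : ∃ g' : Fin d → A ⧸ Ideal.span {x}, Ideal.span (Set.range g') =
        maximalIdeal (A ⧸ Ideal.span {x}) := by
      obtain ⟨c, hc⟩ : ∃ c : Fin (d + 1) → A, ∑ i, c i * g i = x := by
        have h1 : x ∈ Ideal.span (Set.range g) := by rw [hg]; exact hxm
        rw [Ideal.span, Submodule.mem_span_range_iff_exists_fun] at h1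
        exact h1
      obtain ⟨i, hi⟩ : ∃ i, IsUnit (c i) := by
        by_contra hno
        push Not at hno
        apply hxsq
        rw [← hc]
        refine Ideal.sum_mem _ fun i _ => Ideal.mul_mem_mul ?_ ?_
        · exact hno i
        · rw [← hg]; exact Ideal.subset_span ⟨i, rfl⟩
      refine ⟨fun j => Ideal.Quotient.mk _ (g (i.succAbove j)), ?_⟩
      rw [hmax, ← hg, Ideal.map_span]
      apply le_antisymm
      · rw [Ideal.span_le]
        rintro _ ⟨j, rfl⟩
        exact Ideal.subset_span ⟨g (i.succAbove j), ⟨_, rfl⟩, rfl⟩
      · rw [Ideal.span_le]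
        rintro _ ⟨_, ⟨k, rfl⟩, rfl⟩
        rcases Fin.eq_self_or_eq_succAbove i k with rfl | ⟨j, rfl⟩
        · obtain ⟨u, hu⟩ := hi
          have h1 : ∑ j, Ideal.Quotient.mk (Ideal.span {x}) (c j * g j) = 0 := by
            rw [← map_sum, hc]
            exact (Ideal.Quotient.eq_zero_iff_mem).mpr (Ideal.mem_span_singleton_self x)
          rw [Fin.sum_univ_succAbove _ k] at h1
          have h2 : Ideal.Quotient.mk (Ideal.span {x}) (g k) =
              Ideal.Quotient.mk (Ideal.span {x}) ((u⁻¹ : Aˣ) : A) *
              Ideal.Quotient.mk (Ideal.span {x}) (c k * g k) := by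
            rw [← map_mul, ← hu, ← mul_assoc, Units.inv_mul, one_mul]
          rw [SetLike.mem_coe, h2, eq_neg_of_add_eq_zero_left h1]
          apply Ideal.mul_mem_left
          apply neg_mem
          refine Ideal.sum_mem _ fun j _ => ?_
          rw [map_mul]
          exact Ideal.mul_mem_left _ _ (Ideal.subset_span ⟨j, rfl⟩)
        · exact Ideal.subset_span ⟨j, rfl⟩
    have hdim' : (d : WithBot ℕ∞) ≤ ringKrullDim (A ⧸ Ideal.span {x}) := by
      have h1 := Ideal.height_le_ringKrullDim_quotient_add_one (p := maximalIdeal A) hxm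
      rw [IsLocalRing.maximalIdeal_height_eq_ringKrullDim] at h1
      have h2 := hdim.trans h1
      rw [Nat.cast_add, Nat.cast_one, ← Nat.cast_one,
        ENat.WithBot.add_le_add_natCast_right_iff] at h2
      exact h2
    obtain ⟨hdom, hpd⟩ := ih (A ⧸ Ideal.span {x}) hdim' hg'
    have hxprime : (Ideal.span {x}).IsPrime := (Ideal.Quotient.isDomain_iff_prime _).mp hdom
    obtain ⟨P, hP, hPx⟩ := Ideal.exists_minimalPrimes_le (I := (⊥ : Ideal A))
        (J := Ideal.span {x}) bot_le
    have hPbot : P = ⊥ := by
      apply Submodule.eq_bot_of_le_smul_of_le_jacobson_bot (maximalIdeal A) _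
          (IsNoetherian.noetherian _) ?_ (IsLocalRing.maximalIdeal_le_jacobson _)
      intro y hy
      obtain ⟨a, rfl⟩ := Ideal.mem_span_singleton'.mp (hPx hy)
      have : P.IsPrime := hP.1.1
      have ha : a ∈ P := (this.mem_or_mem hy).resolve_right (hxmin P hP)
      rw [mul_comm]
      exact Ideal.mul_mem_mul hxm ha
    have hAdom : IsDomain A := by
      have : (⊥ : Ideal A).IsPrime := by rw [← hPbot]; exact hP.1.1
      exact IsDomain.of_bot_isPrime A
    refine ⟨hAdom, ?_⟩
    have hx0 : x ≠ 0 := by
      rintro rfl
      exact hxsq (Ideal.zero_mem _)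
    have hxreg : IsSMulRegular A x := by
      intro a b hab
      exact mul_left_cancel₀ hx0 hab
    exact hs A x hxm hxreg hpd

/-- regular local rings have finite global dimension -/
theorem domain_and_pd_of_regular (d : ℕ) :
    ∀ (A : Type u) [CommRing A] [IsLocalRing A] [IsNoetherianRing A],
      (d : WithBot ℕ∞) ≤ ringKrullDim A →
      (∃ g : Fin d → A, Ideal.span (Set.range g) = maximalIdeal A) →
      ∃ n, ∀ (X : Type u) [AddCommGroup X] [Module A X] [Module.Finite A X], PD A X n := by
  intro A _ _ _ hdim hg
  refine (regular_induction (fun A _ _ _ => ∃ n, ∀ (X : Type u) [AddCommGroup X] [Module A X]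
    [Module.Finite A X], PD A X n) ?_ ?_ d A hdim hg).2
  · intro A _ _ _ hm
    refine ⟨1, fun X _ _ _ => ?_⟩
    obtain ⟨m, π, hπ, hmin⟩ := exists_minimal_cover (A := A) (X := X)
    have hbij : Function.Bijective π := by
      refine ⟨?_, hπ⟩
      rw [injective_iff_map_eq_zero]
      intro v hv
      funext i
      have := hmin v hv i
      rw [hm] at this
      simpa using this
    exact PD.congr (LinearEquiv.ofBijective π hbij) pd_of_free
  · intro A _ _ _ x hxm hxreg _ ⟨n, hpd⟩
    refine ⟨n + 1, fun X _ _ _ => ?_⟩
    obtain ⟨m, π, hπ, -⟩ := exists_minimal_cover (A := A) (X := X)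
    have hinj : Function.Injective (LinearMap.ker π).subtype := Subtype.val_injective
    have hex : Function.Exact (LinearMap.ker π).subtype π := fun v => by simp
    have hKreg : IsSMulRegular (LinearMap.ker π) x :=
      isSMulRegular_of_injective _ hinj (isSMulRegular_pi hxreg m)
    have : Module.Finite (A ⧸ Ideal.span {x}) (QuotSMulTop x (LinearMap.ker π)) :=
      Module.Finite.of_restrictScalars_finite A _ _
    have hK : PD A (LinearMap.ker π) n :=
      pd_of_quotSMulTop x hxm hxreg n _ hKreg (hpd _)
    exact pd_coker hinj hπ hex hK (PD.mono pd_of_free (by omega))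

/-- a regular local ring has a regular system of parameters -/
lemma exists_system_of_isRegularLocalRing (A : Type u) [CommRing A] [IsRegularLocalRing A] :
    ∃ d : ℕ, (d : WithBot ℕ∞) ≤ ringKrullDim A ∧
      ∃ g : Fin d → A, Ideal.span (Set.range g) = maximalIdeal A := by
  have hreg := IsRegularLocalRing.spanFinrank_maximalIdeal (R := A)
  have hfg : (maximalIdeal A).FG := IsNoetherian.noetherian _
  obtain ⟨s, hs1, hs2⟩ := Submodule.FG.exists_span_finset_card_eq_spanFinrank hfg
  let g : Fin s.card → A := fun i => (s.equivFin.symm i : A)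
  have hg : Ideal.span (Set.range g) = maximalIdeal A := by
    rw [← hs2]
    congr 1
    ext y
    constructor
    · rintro ⟨i, rfl⟩
      exact (s.equivFin.symm i).2
    · intro hy
      exact ⟨s.equivFin ⟨y, hy⟩, by simp [g]⟩
  refine ⟨s.card, ?_, g, hg⟩
  rw [hs1, hreg]

/-- over a regular local ring all finite modules have finite projective dimension -/
theorem finPD_of_isRegularLocalRing (A : Type u) [CommRing A] [IsRegularLocalRing A] :
    ∃ n, ∀ (X : Type u) [AddCommGroup X] [Module A X] [Module.Finite A X], PD A X n := by
  obtain ⟨d, hdim, hg⟩ := exists_system_of_isRegularLocalRing A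
  exact domain_and_pd_of_regular d A hdim hg

end Regular

end Pool.Agent.Helper19
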