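import Pool.Agent.Helper19.NormalFree
import Pool.Agent.Helper19.RegularPd

/-!
The Auslander–Buchsbaum inequality and its consequence for dual modules in depth at most two.
-/

universe u

open CategoryTheory Abelian IsLocalRing Module TensorProduct Pointwise RingTheory.Sequence

namespace Pool.Agent.Helper19

/-- lifting a regular sequence of `Q/f` to `Q`, with control of the length -/
lemma exists_regular_cons_length {Q : Type u} [CommRing Q] (f : Q) (hf : IsSMulRegular Q f)
    (rs : List (Q ⧸ Ideal.span {f})) (hreg : IsRegular (Q ⧸ Ideal.span {f}) rs) :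
    ∃ ts : List Q, IsRegular Q ts ∧ ts.length = rs.length + 1 := by
  obtain ⟨ts, rfl⟩ : ∃ ts : List Q, ts.map (Ideal.Quotient.mk (Ideal.span {f})) = rs := by
    have := List.map_surjective_iff.mpr (Ideal.Quotient.mk_surjective (I := Ideal.span {f}))
    exact this rs
  refine ⟨f :: ts, ?_, by simp⟩
  rw [isRegular_cons_iff']
  exact ⟨hf, ((quotSelfEquiv f).isRegular_congr _).mpr hreg⟩

/-- either `m` contains a regular element or `m` kills a nonzero element -/
lemma exists_regular_or_socle (R : Type u) [CommRing R] [IsLocalRing R] [IsNoetherianRing R] :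
    (∃ x ∈ maximalIdeal R, IsSMulRegular R x) ∨
      ∃ z : R, z ≠ 0 ∧ ∀ r ∈ maximalIdeal R, r * z = 0 := by
  by_cases h : Subsingleton ((R ⧸ maximalIdeal R) →ₗ[R] R)
  · left
    rw [IsSMulRegular.subsingleton_linearMap_iff] at h
    obtain ⟨x, hx, hreg⟩ := h
    rw [Ideal.annihilator_quotient] at hx
    exact ⟨x, hx, hreg⟩
  · right
    rw [not_subsingleton_iff_nontrivial] at h
    obtain ⟨φ, hφ⟩ := exists_ne (0 : (R ⧸ maximalIdeal R) →ₗ[R] R)
    refine ⟨φ 1, ?_, ?_⟩
    · intro h0
      apply hφ
      ext
      exact h0
    · intro r hr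
      rw [← smul_eq_mul, ← map_smul]
      have h1 : r • (1 : R ⧸ maximalIdeal R) = 0 := by
        rw [Algebra.smul_def, mul_one]
        exact Ideal.Quotient.eq_zero_iff_mem.mpr hr
      rw [h1, map_zero]

/-- The Auslander–Buchsbaum inequality: if all regular sequences of `R` have length at most `t`
then finite projective dimension is at most `t`. -/
theorem pd_of_depth_le (t : ℕ) :
    ∀ (R : Type u) [CommRing R] [IsLocalRing R] [IsNoetherianRing R],
      (∀ rs : List R, IsRegular R rs → rs.length ≤ t) →
      ∀ (n : ℕ) (X : Type u) [AddCommGroup X] [Module R X] [Module.Finite R X],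
        PD R X n → PD R X (t + 1) := by
  induction t with
  | zero =>
    intro R _ _ _ hR n X _ _ _ h
    rcases exists_regular_or_socle R with ⟨x, hx, hreg⟩ | ⟨z, hz, hmz⟩
    · exfalso
      have h1 : IsRegular R [x] := by
        rw [isRegular_iff]
        refine ⟨by simpa using hreg, ?_⟩
        intro htop
        have h6 : Ideal.ofList [x] ≤ maximalIdeal R := by
          rw [Ideal.ofList_singleton]
          exact (Ideal.span_singleton_le_iff_mem _).mpr hx
        have h7 : (⊤ : Submodule R R) ≤ maximalIdeal R := by
          rw [htop]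
          rw [smul_eq_mul, Ideal.mul_top]
          exact h6
        exact (maximalIdeal.isMaximal R).ne_top (eq_top_iff.mpr h7)
      have := hR _ h1
      simp at this
    · have : Module.Free R X := free_of_depth_zero z hz hmz n X h
      exact pd_of_free
  | succ t ih =>
    intro R _ _ _ hR n X _ _ _ h
    rcases exists_regular_or_socle R with ⟨x, hx, hreg⟩ | ⟨z, hz, hmz⟩
    · have : IsLocalRing (R ⧸ Ideal.span {x}) := isLocalRing_quot hx
      have hquot := ih (R ⧸ Ideal.span {x}) (fun rs hrs => by
        obtain ⟨ts, hts, hlen⟩ := exists_regular_cons_length x hreg rs hrs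
        have := hR ts hts
        omega)
      obtain ⟨m, π, hπ, -⟩ := exists_minimal_cover (A := R) (X := X)
      have hinj : Function.Injective (LinearMap.ker π).subtype := Subtype.val_injective
      have hex : Function.Exact (LinearMap.ker π).subtype π := fun v => by simp
      have hKreg : IsSMulRegular (LinearMap.ker π) x :=
        isSMulRegular_of_injective _ hinj (isSMulRegular_pi hreg m)
      have : Module.Finite (R ⧸ Ideal.span {x}) (QuotSMulTop x (LinearMap.ker π)) :=
        Module.Finite.of_restrictScalars_finite R _ _
      have hK : PD R (LinearMap.ker π) (n + 1) := pd_ker hinj hπ hex (PD.mono h (by omega))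
      have hK2 : PD R (LinearMap.ker π) (t + 1) :=
        pd_of_quotSMulTop x hx hreg (t + 1) _ hKreg
          (hquot (n + 1) _ (pd_quotSMulTop x hreg (n + 1) _ hKreg hK))
      exact pd_coker hinj hπ hex hK2 (PD.mono pd_of_free (by omega))
    · have : Module.Free R X := free_of_depth_zero z hz hmz n X h
      exact PD.mono pd_of_free (by omega)

section Dual

variable {R : Type u} [CommRing R] [IsLocalRing R] [IsNoetherianRing R]
variable {Q : Type u} [CommRing Q] [IsLocalRing Q] [IsNoetherianRing Q] [Algebra Q R]

omit [IsLocalRing Q] in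
/-- `Hom(X, R)` is a second syzygy, so it is projective in depth at most two if its projective
dimension is finite. -/
lemma projective_dual_of_depth_le_two (hR : ∀ rs : List R, IsRegular R rs → rs.length ≤ 2)
    {X : Type u} [AddCommGroup X] [Module Q X]
    [Module.Finite Q X] (h : FinPD R (X →ₗ[Q] R)) : Module.Projective R (X →ₗ[Q] R) := by
  obtain ⟨t, x, hx⟩ := Module.Finite.exists_fin (R := Q) (M := X)
  -- relations
  let π : (Fin t → Q) →ₗ[Q] X := Fintype.linearCombination Q x
  have hπ : Function.Surjective π := by
    rw [← LinearMap.range_eq_top, Fintype.range_linearCombination]; exact hx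
  obtain ⟨s, y, hy⟩ := Module.Finite.exists_fin (R := Q) (M := LinearMap.ker π)
  -- `R^t → R^s`
  let θ : (Fin t → R) →ₗ[R] (Fin s → R) :=
    LinearMap.pi fun j => ∑ i, (algebraMap Q R ((y j : Fin t → Q) i)) • LinearMap.proj i
  have hθ : ∀ v j, θ v j = ∑ i, algebraMap Q R ((y j : Fin t → Q) i) * v i := by
    intro v j
    simp only [θ, LinearMap.pi_apply, LinearMap.sum_apply, LinearMap.smul_apply,
      LinearMap.proj_apply, smul_eq_mul]
  let ε : (X →ₗ[Q] R) →ₗ[R] (Fin t → R) := evalFam (Q := Q) (R := R) R x
  have hε : Function.Injective ε := evalFam_injective x hx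
  have hex : Function.Exact ε θ := by
    intro v
    constructor
    · intro hv
      -- define a map on `Q^t`
      let g : (Fin t → Q) →ₗ[Q] R := Fintype.linearCombination Q v
      have hg : ∀ w, g w = ∑ i, algebraMap Q R (w i) * v i := by
        intro w
        simp [g, Fintype.linearCombination_apply, Algebra.smul_def]
      have hker : LinearMap.ker π ≤ LinearMap.ker g := by
        intro w hw
        have h1 : (⟨w, hw⟩ : LinearMap.ker π) ∈ Submodule.span Q (Set.range y) := by
          rw [hy]; trivial
        have h2 : ∀ z : LinearMap.ker π, z ∈ Submodule.span Q (Set.range y) → g z = 0 := by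
          intro z hz
          induction hz using Submodule.span_induction with
          | mem z hz =>
            obtain ⟨j, rfl⟩ := hz
            rw [hg, ← hθ, hv]; rfl
          | zero => simp
          | add a b _ _ ha hb => rw [Submodule.coe_add, map_add, ha, hb, add_zero]
          | smul r a _ ha => rw [Submodule.coe_smul, map_smul, ha, smul_zero]
        exact h2 _ h1
      refine ⟨((LinearMap.ker π).liftQ g hker) ∘ₗ
        (π.quotKerEquivOfSurjective hπ).symm.toLinearMap, ?_⟩
      funext i
      rw [evalFam_apply]
      have h3 : (π.quotKerEquivOfSurjective hπ).symm (x i) =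
          Submodule.Quotient.mk (Pi.single i 1) := by
        rw [LinearEquiv.symm_apply_eq]
        change x i = π (Pi.single i 1)
        simp [π]
      change ((LinearMap.ker π).liftQ g hker) ((π.quotKerEquivOfSurjective hπ).symm (x i)) = _
      rw [h3]
      change g (Pi.single i 1) = v i
      simp [g]
    · rintro ⟨φ, rfl⟩
      funext j
      rw [hθ]
      have h1 : π (y j : Fin t → Q) = 0 := (y j).2
      have h2 := congrArg φ h1
      rw [Fintype.linearCombination_apply, map_sum, map_zero] at h2
      rw [Pi.zero_apply, ← h2]
      refine Finset.sum_congr rfl fun i _ => ?_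
      rw [map_smul, Algebra.smul_def]
      rfl
  -- the cokernel
  let D := (Fin s → R) ⧸ LinearMap.range θ
  obtain ⟨n, hn⟩ := h
  have hinjB : Function.Injective (LinearMap.range θ).subtype := Subtype.val_injective
  have hexB : Function.Exact (LinearMap.range θ).subtype (LinearMap.range θ).mkQ := by
    intro v
    rw [Submodule.mkQ_apply, Submodule.Quotient.mk_eq_zero]
    constructor
    · intro hv; exact ⟨⟨v, hv⟩, rfl⟩
    · rintro ⟨w, rfl⟩; exact w.2
  have hexA : Function.Exact ε θ.rangeRestrict := by
    intro v
    rw [← hex v]
    constructor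
    · intro hv
      have := congrArg Subtype.val hv
      exact this
    · intro hv; exact Subtype.ext hv
  have hB : PD R (LinearMap.range θ) (n + 1) :=
    pd_coker hε (LinearMap.surjective_rangeRestrict θ) hexA hn (PD.mono pd_of_free (by omega))
  have hD : PD R D (n + 2) :=
    pd_coker hinjB (Submodule.mkQ_surjective _) hexB hB (PD.mono pd_of_free (by omega))
  have hD3 : PD R D 3 := pd_of_depth_le 2 R hR _ D hD
  have hB2 : PD R (LinearMap.range θ) 2 := pd_ker hinjB (Submodule.mkQ_surjective _) hexB hD3
  exact projective_of_pd_one (pd_ker hε (LinearMap.surjective_rangeRestrict θ) hexA hB2)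

end Dual

end Pool.Agent.Helper19
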