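import Mathlib

/-!
Basic facts on projective dimension of finitely generated modules over Noetherian local rings.
-/

universe u

open CategoryTheory Abelian IsLocalRing Module TensorProduct

namespace Pool.Agent.Helper19

section Basic

variable {A : Type u} [CommRing A]

/-- `PD A X n`: the `A`-module `X` has projective dimension `< n`. -/
abbrev PD (A : Type u) [CommRing A] (X : Type u) [AddCommGroup X] [Module A X] (n : ℕ) : Prop :=
  HasProjectiveDimensionLT (ModuleCat.of A X) n

/-- finite projective dimension -/
def FinPD (A : Type u) [CommRing A] (X : Type u) [AddCommGroup X] [Module A X] : Prop :=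
  ∃ n, PD A X n

variable {X Y Z : Type u} [AddCommGroup X] [Module A X] [AddCommGroup Y] [Module A Y]
  [AddCommGroup Z] [Module A Z]

lemma PD.mono {m n : ℕ} (h : PD A X m) (hmn : m ≤ n) : PD A X n :=
  hasProjectiveDimensionLT_of_ge _ m n hmn

lemma PD.congr {n : ℕ} (e : X ≃ₗ[A] Y) (h : PD A X n) : PD A Y n :=
  hasProjectiveDimensionLT_of_iso e.toModuleIso n

lemma PD.of_retract {n : ℕ} (i : X →ₗ[A] Y) (r : Y →ₗ[A] X) (h : r ∘ₗ i = LinearMap.id)
    (hY : PD A Y n) : PD A X n := by
  have : HasProjectiveDimensionLT (ModuleCat.of A Y) n := hY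
  refine Retract.hasProjectiveDimensionLT (Y := ModuleCat.of A Y)
    ⟨ModuleCat.ofHom i, ModuleCat.ofHom r, ?_⟩ n
  ext x
  exact congrArg (fun f => f x) h

/-- short exact sequences of concrete modules -/
lemma shortExact_mk {f : X →ₗ[A] Y} {g : Y →ₗ[A] Z} (hf : Function.Injective f)
    (hg : Function.Surjective g) (hfg : Function.Exact f g) :
    (ShortComplex.moduleCatMk f g hfg.linearMap_comp_eq_zero).ShortExact :=
  ModuleCat.shortComplex_shortExact _ hfg hf hg

lemma pd_of_free [Module.Free A X] : PD A X 1 := by
  have : Projective (ModuleCat.of A X) := by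
    rw [← IsProjective.iff_projective]; infer_instance
  infer_instance

lemma pd_of_projective [Module.Projective A X] : PD A X 1 := by
  have : Projective (ModuleCat.of A X) := by
    rw [← IsProjective.iff_projective]; infer_instance
  infer_instance

lemma projective_of_pd_one (h : PD A X 1) : Module.Projective A X := by
  have : Projective (ModuleCat.of A X) := projective_iff_hasProjectiveDimensionLT_one.mpr h
  exact (IsProjective.iff_projective X).mpr this

lemma subsingleton_of_pd_zero (h : PD A X 0) : Subsingleton X := by
  have := (hasProjectiveDimensionLT_zero_iff_isZero (ModuleCat.of A X)).mp h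
  exact ModuleCat.isZero_iff_subsingleton.mp this

/-- `0 → X → Y → Z → 0` with `Y` projective and `pd Z < n + 2` gives `pd X < n + 1`. -/
lemma pd_ker {f : X →ₗ[A] Y} {g : Y →ₗ[A] Z} (hf : Function.Injective f)
    (hg : Function.Surjective g) (hfg : Function.Exact f g) [Module.Projective A Y] {n : ℕ}
    (hZ : PD A Z (n + 2)) : PD A X (n + 1) := by
  have hS := shortExact_mk hf hg hfg
  have : Projective (ModuleCat.of A Y) := by
    rw [← IsProjective.iff_projective]; infer_instance
  exact (hS.hasProjectiveDimensionLT_X₃_iff n this).mp hZ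

/-- `0 → X → Y → Z → 0` with `pd X < n` and `pd Y < n + 1` gives `pd Z < n + 1`. -/
lemma pd_coker {f : X →ₗ[A] Y} {g : Y →ₗ[A] Z} (hf : Function.Injective f)
    (hg : Function.Surjective g) (hfg : Function.Exact f g) {n : ℕ}
    (hX : PD A X n) (hY : PD A Y (n + 1)) : PD A Z (n + 1) := by
  have hS := shortExact_mk hf hg hfg
  exact hS.hasProjectiveDimensionLT_X₃ n hX hY

lemma pd_middle {f : X →ₗ[A] Y} {g : Y →ₗ[A] Z} (hf : Function.Injective f)
    (hg : Function.Surjective g) (hfg : Function.Exact f g) {n : ℕ}
    (hX : PD A X n) (hZ : PD A Z n) : PD A Y n := by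
  have hS := shortExact_mk hf hg hfg
  exact hS.hasProjectiveDimensionLT_X₂ n hX hZ

end Basic

section Local

variable {A : Type u} [CommRing A] [IsLocalRing A]
variable {X : Type u} [AddCommGroup X] [Module A X]

/-- over a local ring, a finite module with no map to the residue field vanishes -/
lemma subsingleton_of_hom_residue [Module.Finite A X]
    (h : ∀ φ : X →ₗ[A] ResidueField A, φ = 0) : Subsingleton X := by
  rw [← IsLocalRing.subsingleton_tensorProduct (R := A)]
  refine ⟨fun a b => ?_⟩
  rw [← sub_eq_zero]
  generalize a - b = v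
  rw [← Module.forall_dual_apply_eq_zero_iff (ResidueField A)]
  intro φ
  let ψ : X →ₗ[A] ResidueField A :=
    (φ.restrictScalars A).comp (TensorProduct.mk A (ResidueField A) X 1)
  have hψ := h ψ
  induction v using TensorProduct.induction_on with
  | zero => simp
  | add x y hx hy => rw [map_add, hx, hy, add_zero]
  | tmul c x =>
    have h1 : c ⊗ₜ[A] x = c • ((1 : ResidueField A) ⊗ₜ[A] x) := by
      rw [TensorProduct.smul_tmul', smul_eq_mul, mul_one]
    rw [h1, map_smul]
    have h2 : φ ((1 : ResidueField A) ⊗ₜ[A] x) = ψ x := rfl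
    rw [h2, hψ]
    simp

/-- minimal presentation: a finite module over a local ring is the quotient of a finite free
module by a submodule contained in `m` times it. -/
lemma exists_minimal_cover [Module.Finite A X] :
    ∃ (n : ℕ) (π : (Fin n → A) →ₗ[A] X), Function.Surjective π ∧
      ∀ v, π v = 0 → ∀ i, v i ∈ maximalIdeal A := by
  classical
  let k := ResidueField A
  have : Module.Finite k (k ⊗[A] X) := inferInstance
  let b := Module.finBasis k (k ⊗[A] X)
  have hsurj : Function.Surjective (TensorProduct.mk A k X 1) :=
    TensorProduct.mk_surjective A X k Ideal.Quotient.mk_surjective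
  choose v hv using fun i => hsurj (b i)
  let n := Module.finrank k (k ⊗[A] X)
  let π : (Fin n → A) →ₗ[A] X := Fintype.linearCombination A v
  refine ⟨n, π, ?_, ?_⟩
  · rw [← LinearMap.range_eq_top, Fintype.range_linearCombination]
    exact IsLocalRing.span_eq_top_of_tmul_eq_basis v b hv
  · intro w hw i
    have h1 : ∑ i, (residue A (w i)) • b i = 0 := by
      have h2 : TensorProduct.mk A k X 1 (π w) = 0 := by rw [hw, map_zero]
      rw [Fintype.linearCombination_apply, map_sum] at h2
      rw [← h2]
      refine Finset.sum_congr rfl fun i _ => ?_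
      rw [map_smul, hv i]
      rfl
    have h3 := Fintype.linearIndependent_iff.mp b.linearIndependent (fun i => residue A (w i)) h1 i
    exact (residue_eq_zero_iff _).mp h3



lemma smul_ext_residue_eq_zero {W : ModuleCat.{u} A} {n : ℕ} (r : A) (hr : r ∈ maximalIdeal A)
    (x : Ext W (ModuleCat.of A (ResidueField A)) n) : r • x = 0 := by
  rw [Ext.smul_eq_comp_mk₀]
  have : r • 𝟙 (ModuleCat.of A (ResidueField A)) = 0 := by
    ext x
    change r • x = 0
    obtain ⟨y, rfl⟩ := residue_surjective x
    rw [← algebraMap_smul (ResidueField A) r, smul_eq_mul]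
    have : algebraMap A (ResidueField A) r = 0 := (residue_eq_zero_iff r).mpr hr
    rw [this, zero_mul]
  rw [this, Ext.mk₀_zero, Ext.comp_zero]


/-- Local criterion: over a Noetherian local ring, `Ext^n(X,k) = 0` implies `pd X < n`. -/
theorem pd_of_subsingleton_ext_residue [IsNoetherianRing A] (n : ℕ)
    (X : Type u) [AddCommGroup X] [Module A X] [Module.Finite A X]
    (h : Subsingleton (Ext (ModuleCat.of A X) (ModuleCat.of A (ResidueField A)) n)) :
    PD A X n := by
  classical
  induction n generalizing X with
  | zero =>
    have h1 : Subsingleton (ModuleCat.of A X ⟶ ModuleCat.of A (ResidueField A)) :=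
      Ext.homEquiv₀.subsingleton_congr.mp h
    have h2 : Subsingleton X := subsingleton_of_hom_residue (A := A) fun φ => by
      have := Subsingleton.elim (ModuleCat.ofHom φ) 0
      exact congrArg ModuleCat.Hom.hom this
    have : Limits.IsZero (ModuleCat.of A X) := ModuleCat.isZero_iff_subsingleton.mpr h2
    exact this.hasProjectiveDimensionLT_zero
  | succ n ih =>
    obtain ⟨m, π, hπ, hmin⟩ := exists_minimal_cover (A := A) (X := X)
    have hinj : Function.Injective (LinearMap.ker π).subtype := Subtype.val_injective
    have hex : Function.Exact (LinearMap.ker π).subtype π := fun v => by simp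
    have hS := shortExact_mk hinj hπ hex
    match n with
    | 0 =>
      have hK : Subsingleton (LinearMap.ker π) := subsingleton_of_hom_residue (A := A) fun φ => by
        obtain ⟨x₂, hx₂⟩ := Ext.contravariant_sequence_exact₁ hS
          (ModuleCat.of A (ResidueField A))
          (Ext.mk₀ (ModuleCat.ofHom φ)) (n₁ := 1) (by norm_num) (Subsingleton.elim (h := h) _ _)
        obtain ⟨ψ, rfl⟩ := (Ext.mk₀_bijective _ _).2 x₂
        rw [Ext.mk₀_comp_mk₀, (Ext.mk₀_bijective _ _).1.eq_iff] at hx₂
        let ψ' : (Fin m → A) →ₗ[A] ResidueField A := ψ.hom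
        refine LinearMap.ext fun w => ?_
        obtain ⟨v, hv⟩ := w
        have h3 : φ ⟨v, hv⟩ = ψ' v := by
          have := congrArg (fun f => f.hom ⟨v, hv⟩) hx₂
          exact this.symm
        rw [h3, LinearMap.pi_apply_eq_sum_univ ψ' v]
        refine Finset.sum_eq_zero fun i _ => ?_
        have h5 : v i ∈ maximalIdeal A := hmin v hv i
        obtain ⟨y, hy⟩ := residue_surjective (ψ' fun j => if i = j then 1 else 0)
        rw [← hy, ← algebraMap_smul (ResidueField A) (v i), smul_eq_mul]
        have : algebraMap A (ResidueField A) (v i) = 0 := (residue_eq_zero_iff _).mpr h5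
        rw [this, zero_mul]
      have hbij : Function.Bijective π := by
        refine ⟨?_, hπ⟩
        rw [← LinearMap.ker_eq_bot]
        exact (Submodule.subsingleton_iff_eq_bot).mp hK
      exact PD.congr (LinearEquiv.ofBijective π hbij) pd_of_free
    | n + 1 =>
      have hfree : HasProjectiveDimensionLT (ModuleCat.of A (Fin m → A)) 1 := pd_of_free
      have : Module.Finite A (LinearMap.ker π) := inferInstance
      have hK : PD A (LinearMap.ker π) (n + 1) := by
        refine ih _ ⟨fun a b => ?_⟩
        rw [← sub_eq_zero]
        generalize a - b = x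
        obtain ⟨x₂, hx₂⟩ := Ext.contravariant_sequence_exact₁ hS
          (ModuleCat.of A (ResidueField A)) x (n₁ := n + 2) (by omega)
          (Subsingleton.elim (h := h) _ _)
        have hfree' : HasProjectiveDimensionLT
          (ShortComplex.moduleCatMk (LinearMap.ker π).subtype π hex.linearMap_comp_eq_zero).X₂ 1 :=
          hfree
        have : x₂ = 0 := Ext.eq_zero_of_hasProjectiveDimensionLT x₂ 1 (by omega)
        rw [← hx₂, this, Ext.comp_zero]
        rfl
      exact pd_coker hinj hπ hex hK (PD.mono pd_of_free (by omega))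

end Local

end Pool.Agent.Helper19
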