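import Pool.Agent.Helper19.OneStep

/-!
Descent of data along `Q → Q/f`, prime avoidance, and the case of a free dual with
surjective evaluation.
-/

universe u

open CategoryTheory Abelian IsLocalRing Module TensorProduct Pointwise RingTheory.Sequence

namespace Pool.Agent.Helper19

section Avoid

variable {Q : Type u} [CommRing Q] [IsNoetherianRing Q]

/-- prime avoidance: an element of `I` outside `V` which is regular -/
lemma exists_regular_not_mem (I V : Ideal Q) (hIV : ¬ I ≤ V) (hI : ∃ x ∈ I, IsSMulRegular Q x) :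
    ∃ f ∈ I, f ∉ V ∧ IsSMulRegular Q f := by
  classical
  by_contra hno
  push Not at hno
  have hfin := associatedPrimes.finite Q Q
  let s : Finset (Ideal Q) := insert V hfin.toFinset
  have hsub : (I : Set Q) ⊆ ⋃ i ∈ (↑s : Set (Ideal Q)), ((id i : Ideal Q) : Set Q) := by
    intro x hx
    by_cases hxV : x ∈ V
    · exact Set.mem_biUnion (show V ∈ (↑s : Set (Ideal Q)) by simp [s]) hxV
    · have h1 := hno x hx hxV
      have h2 : x ∈ ⋃ p ∈ associatedPrimes Q Q, (p : Set Q) := by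
        rw [biUnion_associatedPrimes_eq_compl_regular]; exact h1
      rw [Set.mem_iUnion₂] at h2
      obtain ⟨p, hp, hxp⟩ := h2
      exact Set.mem_biUnion (show p ∈ (↑s : Set (Ideal Q)) by simp [s, hp]) hxp
  rw [Ideal.subset_union_prime V V] at hsub
  · obtain ⟨p, hp, hle⟩ := hsub
    rcases Finset.mem_insert.mp hp with rfl | hp
    · exact hIV hle
    · obtain ⟨x, hx, hreg⟩ := hI
      have h2 : x ∈ ⋃ p ∈ associatedPrimes Q Q, (p : Set Q) :=
        Set.mem_biUnion (by simpa using hp) (hle hx)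
      rw [biUnion_associatedPrimes_eq_compl_regular] at h2
      exact h2 hreg
  · intro p hp hpV _
    rcases Finset.mem_insert.mp hp with h | h
    · exact absurd h hpV
    · have : p ∈ associatedPrimes Q Q := by simpa using h
      exact this.isPrime

end Avoid

section Lift

variable {Q : Type u} [CommRing Q]

/-- `QuotSMulTop f Q` is `Q/f` as a module over `Q/f` -/
noncomputable def quotSelfEquiv (f : Q) :
    QuotSMulTop f Q ≃ₗ[Q ⧸ Ideal.span {f}] (Q ⧸ Ideal.span {f}) :=
  (Submodule.quotEquivOfEq (f • (⊤ : Submodule Q Q)) (Ideal.span {f}) (by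
    ext x
    rw [mem_smul_top_iff, Ideal.mem_span_singleton']
    constructor
    · rintro ⟨y, rfl⟩; exact ⟨y, by rw [smul_eq_mul, mul_comm]⟩
    · rintro ⟨y, rfl⟩; exact ⟨y, by rw [smul_eq_mul, mul_comm]⟩)).extendScalarsOfSurjective
      Ideal.Quotient.mk_surjective

/-- lifting a regular sequence of `Q/f` to `Q` -/
lemma exists_regular_cons (f : Q) (hf : IsSMulRegular Q f) (J : Ideal Q) (hfJ : f ∈ J)
    (h : ∃ rs : List (Q ⧸ Ideal.span {f}), IsRegular (Q ⧸ Ideal.span {f}) rs ∧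
      Ideal.ofList rs = J.map (Ideal.Quotient.mk (Ideal.span {f}))) :
    ∃ rs : List Q, IsRegular Q rs ∧ Ideal.ofList rs = J := by
  obtain ⟨rs, hreg, hspan⟩ := h
  obtain ⟨ts, rfl⟩ : ∃ ts : List Q, ts.map (Ideal.Quotient.mk (Ideal.span {f})) = rs := by
    have := List.map_surjective_iff.mpr (Ideal.Quotient.mk_surjective (I := Ideal.span {f}))
    exact this rs
  refine ⟨f :: ts, ?_, ?_⟩
  · rw [isRegular_cons_iff']
    exact ⟨hf, ((quotSelfEquiv f).isRegular_congr _).mpr hreg⟩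
  · rw [Ideal.ofList_cons]
    rw [← Ideal.map_ofList] at hspan
    have h1 := congrArg (Ideal.comap (Ideal.Quotient.mk (Ideal.span {f}))) hspan
    rw [Ideal.comap_map_of_surjective _ Ideal.Quotient.mk_surjective,
      Ideal.comap_map_of_surjective _ Ideal.Quotient.mk_surjective,
      ← RingHom.ker_eq_comap_bot, Ideal.mk_ker] at h1
    rw [sup_comm, h1]
    exact sup_eq_left.mpr ((Ideal.span_singleton_le_iff_mem J).mpr hfJ)

end Lift

section Descend

variable {Q R : Type u} [CommRing Q] [CommRing R] [Algebra Q R]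

/-- the algebra structure of `R` over `Q/f` when `f` dies in `R` -/
noncomputable abbrev quotAlgebra (f : Q) (hf : algebraMap Q R f = 0) :
    Algebra (Q ⧸ Ideal.span {f}) R :=
  (Ideal.Quotient.lift (Ideal.span {f}) (algebraMap Q R) (fun x hx => by
    rw [Ideal.mem_span_singleton'] at hx
    obtain ⟨a, rfl⟩ := hx
    rw [map_mul, hf, mul_zero])).toAlgebra

lemma quotAlgebra_tower (f : Q) (hf : algebraMap Q R f = 0) :
    letI := quotAlgebra (R := R) f hf
    IsScalarTower Q (Q ⧸ Ideal.span {f}) R := by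
  let _ := quotAlgebra (R := R) f hf
  exact IsScalarTower.of_algebraMap_eq (fun x => rfl)

variable (f : Q) [Algebra (Q ⧸ Ideal.span {f}) R] [IsScalarTower Q (Q ⧸ Ideal.span {f}) R]

lemma ker_eq_map :
    RingHom.ker (algebraMap (Q ⧸ Ideal.span {f}) R) =
      (RingHom.ker (algebraMap Q R)).map (Ideal.Quotient.mk (Ideal.span {f})) := by
  ext x
  obtain ⟨x, rfl⟩ := Ideal.Quotient.mk_surjective x
  have htow : algebraMap (Q ⧸ Ideal.span {f}) R (Ideal.Quotient.mk _ x) = algebraMap Q R x := by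
    rw [IsScalarTower.algebraMap_apply Q (Q ⧸ Ideal.span {f}) R]; rfl
  rw [RingHom.mem_ker, htow]
  constructor
  · intro h
    exact Ideal.mem_map_of_mem _ (by rw [RingHom.mem_ker]; exact h)
  · intro h
    rw [Ideal.mem_map_iff_of_surjective _ Ideal.Quotient.mk_surjective] at h
    obtain ⟨y, hy, hxy⟩ := h
    rw [RingHom.mem_ker] at hy
    rw [← htow, ← hxy, IsScalarTower.algebraMap_apply Q (Q ⧸ Ideal.span {f}) R y] at *
    exact hy

/-- the map `ker(Q → R) → ker(Q/f → R)` -/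
noncomputable def kerMap :
    RingHom.ker (algebraMap Q R) →ₗ[Q] RingHom.ker (algebraMap (Q ⧸ Ideal.span {f}) R) where
  toFun x := ⟨Ideal.Quotient.mk _ x.1, by
    rw [RingHom.mem_ker]
    change algebraMap (Q ⧸ Ideal.span {f}) R (algebraMap Q (Q ⧸ Ideal.span {f}) x.1) = 0
    rw [← IsScalarTower.algebraMap_apply]
    exact x.2⟩
  map_add' x y := by apply Subtype.ext; simp
  map_smul' a x := by apply Subtype.ext; rfl

lemma kerMap_surjective : Function.Surjective (kerMap (R := R) f) := by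
  rintro ⟨x, hx⟩
  obtain ⟨x, rfl⟩ := Ideal.Quotient.mk_surjective x
  refine ⟨⟨x, ?_⟩, rfl⟩
  rw [RingHom.mem_ker] at hx ⊢
  rw [IsScalarTower.algebraMap_apply Q (Q ⧸ Ideal.span {f}) R]
  exact hx

/-- a linear map on `ker(Q → R)` vanishing at `f` descends -/
lemma exists_descend (hf : algebraMap Q R f = 0)
    (φ : RingHom.ker (algebraMap Q R) →ₗ[Q] R) (hφ : φ ⟨f, hf⟩ = 0) :
    ∃ φ₁ : RingHom.ker (algebraMap (Q ⧸ Ideal.span {f}) R) →ₗ[Q ⧸ Ideal.span {f}] R,
      ∀ x, φ₁ (kerMap f x) = φ x := by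
  have hle : LinearMap.ker (kerMap (R := R) f) ≤ LinearMap.ker φ := by
    rintro ⟨x, hx⟩ hxk
    rw [LinearMap.mem_ker] at hxk ⊢
    have h1 : Ideal.Quotient.mk (Ideal.span {f}) x = 0 := congrArg Subtype.val hxk
    rw [Ideal.Quotient.eq_zero_iff_mem, Ideal.mem_span_singleton'] at h1
    obtain ⟨a, rfl⟩ := h1
    have h2 : (⟨a * f, hx⟩ : RingHom.ker (algebraMap Q R)) = a • ⟨f, hf⟩ := Subtype.ext rfl
    rw [h2, map_smul, hφ, smul_zero]
  let ψ : RingHom.ker (algebraMap (Q ⧸ Ideal.span {f}) R) →ₗ[Q] R :=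
    ((LinearMap.ker (kerMap (R := R) f)).liftQ φ hle) ∘ₗ
      ((kerMap (R := R) f).quotKerEquivOfSurjective (kerMap_surjective f)).symm.toLinearMap
  refine ⟨ψ.extendScalarsOfSurjective Ideal.Quotient.mk_surjective, fun x => ?_⟩
  change ((LinearMap.ker (kerMap (R := R) f)).liftQ φ hle)
    (((kerMap (R := R) f).quotKerEquivOfSurjective (kerMap_surjective f)).symm (kerMap f x)) = φ x
  have h1 : ((kerMap (R := R) f).quotKerEquivOfSurjective (kerMap_surjective f)).symm
      (kerMap f x) = Submodule.Quotient.mk x := by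
    rw [LinearEquiv.symm_apply_eq]; rfl
  rw [h1]
  rfl

end Descend

section Main

variable {R : Type u} [CommRing R] [IsLocalRing R]

lemma mem_maximal_of_algebraMap_eq_zero {Q : Type u} [CommRing Q] [IsLocalRing Q] [Algebra Q R]
    {f : Q} (hf : algebraMap Q R f = 0) : f ∈ maximalIdeal Q := by
  rw [mem_maximalIdeal, mem_nonunits_iff]
  intro hu
  have := hu.map (algebraMap Q R)
  rw [hf] at this
  exact not_isUnit_zero this

lemma isLocalRing_quot {Q : Type u} [CommRing Q] [IsLocalRing Q] {f : Q}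
    (hf : f ∈ maximalIdeal Q) : IsLocalRing (Q ⧸ Ideal.span {f}) := by
  have : Nontrivial (Q ⧸ Ideal.span {f}) := by
    rw [Ideal.Quotient.nontrivial_iff]
    intro h1
    rw [Ideal.span_singleton_eq_top] at h1
    exact hf h1
  exact IsLocalRing.of_surjective' (Ideal.Quotient.mk _) Ideal.Quotient.mk_surjective

lemma ker_eq_bot_of_hom_eq_zero {Q : Type u} [CommRing Q] [IsLocalRing Q] [IsNoetherianRing Q]
    [Algebra Q R] (hs : Function.Surjective (algebraMap Q R)) (n : ℕ) (hpd : PD Q R n)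
    (h : ∀ ψ : RingHom.ker (algebraMap Q R) →ₗ[Q] R, ψ = 0) :
    RingHom.ker (algebraMap Q R) = ⊥ := by
  let e : (Q ⧸ RingHom.ker (algebraMap Q R)) ≃ₗ[Q] R :=
    (Algebra.linearMap Q R).quotKerEquivOfSurjective hs
  refine eq_bot_of_hom_eq_zero _ (RingHom.ker_ne_top _) n (PD.congr e.symm hpd) (fun φ => ?_)
  have h1 := h (e.toLinearMap ∘ₗ φ)
  ext x
  apply e.injective
  rw [LinearMap.zero_apply, map_zero]
  exact LinearMap.congr_fun h1 x

/-- If `I = ker (Q → R)` has finite projective dimension and `I → R^c` is a surjection through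
which every map `I → R` factors, then `I` is generated by a regular sequence. -/
theorem exists_regularSeq_of_free_dual (c : ℕ) :
    ∀ (Q : Type u) [CommRing Q] [IsLocalRing Q] [IsNoetherianRing Q] [Algebra Q R]
      (_ : Function.Surjective (algebraMap Q R)) (n : ℕ) (_ : PD Q R n)
      (μ : Fin c → (RingHom.ker (algebraMap Q R) →ₗ[Q] R))
      (_ : ∀ v : Fin c → R, ∃ x, ∀ i, μ i x = v i)
      (_ : ∀ ψ : RingHom.ker (algebraMap Q R) →ₗ[Q] R, ∃ a : Fin c → R,
        ∀ x, ψ x = ∑ i, a i * μ i x),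
      ∃ rs : List Q, IsRegular Q rs ∧ Ideal.ofList rs = RingHom.ker (algebraMap Q R) := by
  induction c with
  | zero =>
    intro Q _ _ _ _ hs n hpd μ hμ huniv
    have h0 : RingHom.ker (algebraMap Q R) = ⊥ := by
      refine ker_eq_bot_of_hom_eq_zero hs n hpd (fun ψ => ?_)
      obtain ⟨a, ha⟩ := huniv ψ
      ext x
      simpa using ha x
    refine ⟨[], IsRegular.nil Q Q, ?_⟩
    rw [h0, Ideal.ofList_nil]
  | succ c ih =>
    intro Q _ _ _ _ hs n hpd μ hμ huniv
    let I : Ideal Q := RingHom.ker (algebraMap Q R)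
    -- the ideal of bad elements
    let V : Ideal Q := Submodule.map I.subtype
      (Submodule.comap (μ 0) ((maximalIdeal R).restrictScalars Q))
    have hV : ∀ x (hx : x ∈ I), x ∈ V ↔ μ 0 ⟨x, hx⟩ ∈ maximalIdeal R := by
      intro x hx
      constructor
      · rintro ⟨y, hy, rfl⟩
        exact hy
      · intro h
        exact ⟨⟨x, hx⟩, h, rfl⟩
    obtain ⟨x₀, hx₀⟩ := hμ (fun _ => 1)
    have hIV : ¬ I ≤ V := by
      intro hle
      have h1 := (hV x₀.1 x₀.2).mp (hle x₀.2)
      have h2 : μ 0 x₀ = 1 := hx₀ 0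
      rw [show (⟨x₀.1, x₀.2⟩ : I) = x₀ from rfl, h2] at h1
      exact (Ideal.ne_top_iff_one _).mp (maximalIdeal.isMaximal R).ne_top h1
    have hI0 : I ≠ ⊥ := by
      intro h0
      exact hIV (by rw [h0]; exact bot_le)
    let e : (Q ⧸ I) ≃ₗ[Q] R := (Algebra.linearMap Q R).quotKerEquivOfSurjective hs
    obtain ⟨f, hfI, hfV, hfreg⟩ := exists_regular_not_mem I V hIV
      (exists_regular_mem I hI0 n (PD.congr e.symm hpd))
    have hf : algebraMap Q R f = 0 := hfI
    rw [hV f hfI, mem_maximalIdeal, mem_nonunits_iff, not_not] at hfV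
    obtain ⟨u, hu⟩ := hfV
    let _ := quotAlgebra (R := R) f hf
    have _ := quotAlgebra_tower (R := R) f hf
    have _ : IsLocalRing (Q ⧸ Ideal.span {f}) :=
      isLocalRing_quot (mem_maximal_of_algebraMap_eq_zero (R := R) hf)
    have hs1 : Function.Surjective (algebraMap (Q ⧸ Ideal.span {f}) R) := by
      intro r
      obtain ⟨x, rfl⟩ := hs r
      exact ⟨Ideal.Quotient.mk _ x, rfl⟩
    -- finite projective dimension persists
    have hpd1 : PD (Q ⧸ Ideal.span {f}) R (n + 1) := by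
      refine oneStep hs n (PD.mono hpd (by omega)) f hf hfreg (E := I) I.subtype
        (by rw [Submodule.range_subtype]) ?_ 0 0 ?_ ?_
        ((LinearMap.mulLeft Q ((u⁻¹ : Rˣ) : R)) ∘ₗ μ 0) ?_ ⟨f, hfI⟩ rfl ?_
      · intro e e'
        apply Subtype.ext
        simp [mul_comm]
      · exact Function.injective_of_subsingleton _
      · rw [LinearMap.range_zero]
        exact (LinearMap.ker_eq_bot.mpr Subtype.val_injective).symm
      · intro v
        simp
      · simp [← hu]
    -- new data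
    let ν : Fin c → (I →ₗ[Q] R) := fun i => μ i.succ -
      (LinearMap.mulLeft Q (μ i.succ ⟨f, hfI⟩ * ((u⁻¹ : Rˣ) : R))) ∘ₗ μ 0
    have hν : ∀ i x, ν i x = μ i.succ x - μ i.succ ⟨f, hfI⟩ * ((u⁻¹ : Rˣ) : R) * μ 0 x :=
      fun i x => rfl
    have hνf : ∀ i, ν i ⟨f, hf⟩ = 0 := by
      intro i
      rw [hν]
      change μ i.succ ⟨f, hfI⟩ - μ i.succ ⟨f, hfI⟩ * ((u⁻¹ : Rˣ) : R) * μ 0 ⟨f, hfI⟩ = 0
      rw [← hu, mul_assoc, Units.inv_mul, mul_one, sub_self]
    choose μ₁ hμ₁ using fun i => exists_descend f hf (ν i) (hνf i)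
    have key := ih (Q ⧸ Ideal.span {f}) hs1 (n + 1) hpd1 μ₁ ?_ ?_
    · obtain ⟨rs, hrs, hspan⟩ := key
      refine exists_regular_cons f hfreg I hfI ⟨rs, hrs, ?_⟩
      rw [hspan, ker_eq_map]
    · intro v
      obtain ⟨x, hx⟩ := hμ (Fin.cons 0 v)
      refine ⟨kerMap f x, fun i => ?_⟩
      rw [hμ₁, hν, hx i.succ, hx 0]
      simp
    · intro ψ
      obtain ⟨a, ha⟩ := huniv ((ψ.restrictScalars Q) ∘ₗ kerMap f)
      refine ⟨fun i => a i.succ, fun y => ?_⟩
      obtain ⟨x, rfl⟩ := kerMap_surjective f y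
      have h1 : ψ (kerMap f x) = ∑ i, a i * μ i x := ha x
      have h2 : (0 : R) = ∑ i, a i * μ i ⟨f, hfI⟩ := by
        rw [← ha ⟨f, hfI⟩]
        have h3 : kerMap (R := R) f ⟨f, hfI⟩ = 0 := by
          apply Subtype.ext
          exact (Ideal.Quotient.eq_zero_iff_mem).mpr (Ideal.mem_span_singleton_self f)
        change 0 = ψ (kerMap f ⟨f, hfI⟩)
        rw [h3, map_zero]
      rw [h1, Fin.sum_univ_succ]
      rw [Fin.sum_univ_succ, ← hu] at h2
      simp only [hμ₁, hν]
      have h4 : ∑ i : Fin c, a i.succ * (μ i.succ x - μ i.succ ⟨f, hfI⟩ * ((u⁻¹ : Rˣ) : R) *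
          μ 0 x) = ∑ i : Fin c, a i.succ * μ i.succ x -
          (∑ i : Fin c, a i.succ * μ i.succ ⟨f, hfI⟩) * (((u⁻¹ : Rˣ) : R) * μ 0 x) := by
        rw [Finset.sum_mul, ← Finset.sum_sub_distrib]
        refine Finset.sum_congr rfl fun i _ => ?_
        ring
      rw [h4]
      have h5 : ∑ i : Fin c, a i.succ * μ i.succ ⟨f, hfI⟩ = - (a 0 * u) := by
        linear_combination -h2
      rw [h5]
      have h6 : (u : R) * ((u⁻¹ : Rˣ) : R) = 1 := Units.mul_inv u
      linear_combination (- a 0 * μ 0 x) * h6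

end Main

end Pool.Agent.Helper19
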