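import Pool.Agent.Helper19.DepthOne
import Pool.Agent.Helper19.FreeDual

/-!
Depth at most one, `N` free.
-/

universe u

open CategoryTheory Abelian IsLocalRing Module TensorProduct Pointwise RingTheory.Sequence

namespace Pool.Agent.Helper19

section Hom

variable {Q R : Type u} [CommRing Q] [CommRing R] [Algebra Q R]
variable {X : Type u} [AddCommGroup X] [Module Q X]
variable {N : Type u} [AddCommGroup N] [Module R N] [Module Q N] [IsScalarTower Q R N]
variable {N' : Type u} [AddCommGroup N'] [Module R N'] [Module Q N'] [IsScalarTower Q R N']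

/-- post-composition, `R`-linear -/
def postHom (X : Type u) [AddCommGroup X] [Module Q X] (i : N →ₗ[R] N') :
    (X →ₗ[Q] N) →ₗ[R] (X →ₗ[Q] N') where
  toFun φ := (i.restrictScalars Q) ∘ₗ φ
  map_add' a b := by ext; simp
  map_smul' r a := by ext; simp

@[simp] lemma postHom_apply (i : N →ₗ[R] N') (φ : X →ₗ[Q] N) (x : X) :
    postHom X i φ x = i (φ x) := rfl

/-- evaluation on a family, `R`-linear -/
def evalFam {t : ℕ} (N : Type u) [AddCommGroup N] [Module R N] [Module Q N] [IsScalarTower Q R N]
    (x : Fin t → X) : (X →ₗ[Q] N) →ₗ[R] (Fin t → N) where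
  toFun φ i := φ (x i)
  map_add' a b := by ext; simp
  map_smul' r a := by ext; simp

lemma evalFam_apply {t : ℕ} (x : Fin t → X) (φ : X →ₗ[Q] N) (i : Fin t) :
    evalFam (R := R) N x φ i = φ (x i) := rfl

lemma evalFam_injective {t : ℕ} (x : Fin t → X) (hx : Submodule.span Q (Set.range x) = ⊤) :
    Function.Injective (evalFam (Q := Q) (R := R) N x) := by
  intro a b hab
  apply LinearMap.ext_on_range hx
  intro i
  exact congrFun hab i

lemma finite_hom [IsNoetherianRing R] [Module.Finite Q X] [Module.Finite R N] :
    Module.Finite R (X →ₗ[Q] N) := by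
  obtain ⟨t, x, hx⟩ := Module.Finite.exists_fin (R := Q) (M := X)
  exact Module.Finite.of_injective (evalFam (Q := Q) (R := R) N x) (evalFam_injective x hx)

end Hom

section Free

variable {R : Type u} [CommRing R] [IsLocalRing R] [IsNoetherianRing R]
variable {Q : Type u} [CommRing Q] [IsLocalRing Q] [IsNoetherianRing Q] [Algebra Q R]

/-- `Hom(X, R)` is a second syzygy, so it is projective in depth at most one if its projective
dimension is finite. -/
lemma projective_dual (hR : DepthLEOne R) {X : Type u} [AddCommGroup X] [Module Q X]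
    [Module.Finite Q X] (h : FinPD R (X →ₗ[Q] R)) : Module.Projective R (X →ₗ[Q] R) := by
  obtain ⟨t, x, hx⟩ := Module.Finite.exists_fin (R := Q) (M := X)
  -- relations
  let π : (Fin t → Q) →ₗ[Q] X := Fintype.linearCombination Q x
  have hπ : Function.Surjective π := by
    rw [← LinearMap.range_eq_top, Fintype.range_linearCombination]; exact hx
  obtain ⟨s, y, hy⟩ := Module.Finite.exists_fin (R := Q) (M := LinearMap.ker π)
  -- `R^t → R^s`
  let θ : (Fin t → R) →ₗ[R] (Fin s → R) :=
    LinearMap.pi fun j => ∑ i, (algebraMap Q R ((y j : Fin t → Q) i)) • LinearMap.proj i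
  have hθ : ∀ v j, θ v j = ∑ i, algebraMap Q R ((y j : Fin t → Q) i) * v i := by
    intro v j
    simp only [θ, LinearMap.pi_apply, LinearMap.sum_apply, LinearMap.smul_apply,
      LinearMap.proj_apply, smul_eq_mul]
  let ε : (X →ₗ[Q] R) →ₗ[R] (Fin t → R) := evalFam (Q := Q) (R := R) R x
  have hε : Function.Injective ε := evalFam_injective x hx
  have hex : Function.Exact ε θ := by
    intro v
    constructor
    · intro hv
      -- define a map on `Q^t`
      let g : (Fin t → Q) →ₗ[Q] R := Fintype.linearCombination Q v
      have hg : ∀ w, g w = ∑ i, algebraMap Q R (w i) * v i := by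
        intro w
        simp [g, Fintype.linearCombination_apply, Algebra.smul_def]
      have hker : LinearMap.ker π ≤ LinearMap.ker g := by
        intro w hw
        have h1 : (⟨w, hw⟩ : LinearMap.ker π) ∈ Submodule.span Q (Set.range y) := by
          rw [hy]; trivial
        have h2 : ∀ z : LinearMap.ker π, z ∈ Submodule.span Q (Set.range y) → g z = 0 := by
          intro z hz
          induction hz using Submodule.span_induction with
          | mem z hz =>
            obtain ⟨j, rfl⟩ := hz
            rw [hg, ← hθ, hv]; rfl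
          | zero => simp
          | add a b _ _ ha hb => rw [Submodule.coe_add, map_add, ha, hb, add_zero]
          | smul r a _ ha => rw [Submodule.coe_smul, map_smul, ha, smul_zero]
        exact h2 _ h1
      refine ⟨((LinearMap.ker π).liftQ g hker) ∘ₗ
        (π.quotKerEquivOfSurjective hπ).symm.toLinearMap, ?_⟩
      funext i
      rw [evalFam_apply]
      have h3 : (π.quotKerEquivOfSurjective hπ).symm (x i) =
          Submodule.Quotient.mk (Pi.single i 1) := by
        rw [LinearEquiv.symm_apply_eq]
        change x i = π (Pi.single i 1)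
        simp [π]
      change ((LinearMap.ker π).liftQ g hker) ((π.quotKerEquivOfSurjective hπ).symm (x i)) = _
      rw [h3]
      change g (Pi.single i 1) = v i
      simp [g]
    · rintro ⟨φ, rfl⟩
      funext j
      rw [hθ]
      have h1 : π (y j : Fin t → Q) = 0 := (y j).2
      have h2 := congrArg φ h1
      rw [Fintype.linearCombination_apply, map_sum, map_zero] at h2
      rw [Pi.zero_apply, ← h2]
      refine Finset.sum_congr rfl fun i _ => ?_
      rw [map_smul, Algebra.smul_def]
      rfl
  -- the cokernel
  let D := (Fin s → R) ⧸ LinearMap.range θ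
  obtain ⟨n, hn⟩ := h
  have hinjB : Function.Injective (LinearMap.range θ).subtype := Subtype.val_injective
  have hexB : Function.Exact (LinearMap.range θ).subtype (LinearMap.range θ).mkQ := by
    intro v
    rw [Submodule.mkQ_apply, Submodule.Quotient.mk_eq_zero]
    constructor
    · intro hv; exact ⟨⟨v, hv⟩, rfl⟩
    · rintro ⟨w, rfl⟩; exact w.2
  have hexA : Function.Exact ε θ.rangeRestrict := by
    intro v
    rw [← hex v]
    constructor
    · intro hv
      have := congrArg Subtype.val hv
      exact this
    · intro hv; exact Subtype.ext hv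
  have hB : PD R (LinearMap.range θ) (n + 1) :=
    pd_coker hε (LinearMap.surjective_rangeRestrict θ) hexA hn (PD.mono pd_of_free (by omega))
  have hD : PD R D (n + 2) :=
    pd_coker hinjB (Submodule.mkQ_surjective _) hexB hB (PD.mono pd_of_free (by omega))
  have hD2 : PD R D 2 := pd_two_of_finPD hR _ D hD
  have hB1 : PD R (LinearMap.range θ) 1 := pd_ker hinjB (Submodule.mkQ_surjective _) hexB hD2
  exact projective_of_pd_one (pd_ker hε (LinearMap.surjective_rangeRestrict θ) hexA
    (PD.mono hB1 (by omega)))

/-- Depth at most one, `N = R`. -/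
theorem exists_regularSeq_of_depth_le_one_free (hs : Function.Surjective (algebraMap Q R))
    (hR : DepthLEOne R) (n : ℕ) (hpd : PD Q R n)
    (h : FinPD R (RingHom.ker (algebraMap Q R) →ₗ[Q] R)) :
    ∃ rs : List Q, IsRegular Q rs ∧ Ideal.ofList rs = RingHom.ker (algebraMap Q R) := by
  let I : Ideal Q := RingHom.ker (algebraMap Q R)
  have : Module.Projective R (I →ₗ[Q] R) := projective_dual hR h
  have : Module.Finite R (I →ₗ[Q] R) := finite_hom
  have : Module.Free R (I →ₗ[Q] R) := Module.free_of_flat_of_isLocalRing
  let b := Module.finBasis R (I →ₗ[Q] R)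
  set c := Module.finrank R (I →ₗ[Q] R)
  let B : Submodule R (Fin c → R) :=
    { carrier := {v | ∃ x : I, ∀ i, b i x = v i}
      add_mem' := by
        rintro v w ⟨x, hx⟩ ⟨y, hy⟩
        exact ⟨x + y, fun i => by rw [map_add, hx, hy]; rfl⟩
      zero_mem' := ⟨0, fun i => by rw [map_zero]; rfl⟩
      smul_mem' := by
        rintro r v ⟨x, hx⟩
        obtain ⟨q, rfl⟩ := hs r
        exact ⟨q • x, fun i => by rw [map_smul, hx, Algebra.smul_def]; rfl⟩ }
  let β : I →ₗ[Q] B :=
    { toFun := fun x => ⟨fun i => b i x, x, fun i => rfl⟩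
      map_add' := fun x y => by
        apply Subtype.ext; funext i
        exact map_add (b i) x y
      map_smul' := fun q x => by
        apply Subtype.ext; funext i
        exact map_smul (b i) q x }
  have hβ : ∀ x i, (β x : Fin c → R) i = b i x := fun x i => rfl
  have hβs : ∀ v : B, ∃ x, β x = v := by
    rintro ⟨v, x, hx⟩
    exact ⟨x, Subtype.ext (funext hx)⟩
  have hexp : ∀ ψ : I →ₗ[Q] R, ∀ x, ψ x = ∑ i, b.repr ψ i * b i x := by
    intro ψ x
    conv_lhs => rw [← b.sum_repr ψ]
    rw [LinearMap.sum_apply]
    rfl
  have htop : B = ⊤ := by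
    apply eq_top_of_depth_le_one hR
    · intro φ hφ
      have h1 : ∑ i, φ (Pi.single i 1) • b i = 0 := by
        ext x
        rw [LinearMap.sum_apply, LinearMap.zero_apply, ← hφ _ (β x).2,
          LinearMap.pi_apply_eq_sum_univ φ]
        refine Finset.sum_congr rfl fun i _ => ?_
        rw [LinearMap.smul_apply, smul_eq_mul, smul_eq_mul, mul_comm, hβ]
        congr 1
        congr 1
        funext j
        simp [Pi.single_apply, eq_comm]
      have h2 := Fintype.linearIndependent_iff.mp b.linearIndependent _ h1
      apply LinearMap.pi_ext'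
      intro i
      ext
      simpa using h2 i
    · intro g
      let ψ : I →ₗ[Q] R := (g.restrictScalars Q) ∘ₗ β
      refine ⟨Fintype.linearCombination R (b.repr ψ), ?_⟩
      intro v
      obtain ⟨x, rfl⟩ := hβs v
      rw [Fintype.linearCombination_apply]
      change _ = ψ x
      rw [hexp ψ x]
      refine Finset.sum_congr rfl fun i _ => ?_
      rw [hβ, smul_eq_mul, mul_comm]
  refine exists_regularSeq_of_free_dual c Q hs n hpd (fun i => b i) ?_ ?_
  · intro v
    have : v ∈ B := by rw [htop]; trivial
    exact this
  · intro ψ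
    exact ⟨b.repr ψ, hexp ψ⟩

end Free

end Pool.Agent.Helper19
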