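import Pool.Agent.Helper19.PdBasic

/-!
Operators of degree one on a free resolution of `S/I`: homotopies for the elements of `I` and
lifts of the elements of `Hom(I, S/I)`, with their Clifford relations modulo `I`.
-/

universe u

open CategoryTheory Module

namespace Pool.Agent.Helper19

section Lift

variable {S : Type u} [CommRing S]

/-- lifting through an exact pair -/
lemma exists_lift_of_exact {P A B C : Type u} [AddCommGroup P] [Module S P] [AddCommGroup A]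
    [Module S A] [AddCommGroup B] [Module S B] [AddCommGroup C] [Module S C]
    [Module.Projective S P] (d' : A →ₗ[S] B) (d : B →ₗ[S] C)
    (hex : ∀ x, d x = 0 → ∃ y, d' y = x) (g : P →ₗ[S] B) (hg : ∀ x, d (g x) = 0) :
    ∃ h : P →ₗ[S] A, ∀ x, d' (h x) = g x := by
  have hg' : ∀ x, g x ∈ LinearMap.range d' := fun x => hex _ (hg x)
  obtain ⟨h, hh⟩ := Module.projective_lifting_property d'.rangeRestrict
    (g.codRestrict (LinearMap.range d') hg') d'.surjective_rangeRestrict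
  exact ⟨h, fun x => congrArg Subtype.val (LinearMap.congr_fun hh x)⟩

end Lift

section Ops

variable {S : Type u} [CommRing S] {I : Ideal S} {F : ℕ → ModuleCat.{u} S}
  [∀ j, Module.Projective S (F j)]
  (d : ∀ j, F (j + 1) →ₗ[S] F j) (e : F 0 ≃ₗ[S] S)

/-- homotopies for `f ∈ I` -/
lemma exists_homotopy (hd0 : ∀ x : F 0, e x ∈ I → ∃ y, d 0 y = x)
    (hdd : ∀ j x, d j (d (j + 1) x) = 0)
    (hex : ∀ j x, d j x = 0 → ∃ y, d (j + 1) y = x) (f : S) (hf : f ∈ I) :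
    ∃ s : ∀ j, F j →ₗ[S] F (j + 1), (∀ x, d 0 (s 0 x) = f • x) ∧
      ∀ j x, d (j + 1) (s (j + 1) x) = f • x - s j (d j x) := by
  -- the start
  have h0 : ∃ s0 : F 0 →ₗ[S] F 1, ∀ x, d 0 (s0 x) = f • x := by
    have hr : ∀ x : F 0, f • x ∈ LinearMap.range (d 0) := by
      intro x
      apply hd0
      rw [map_smul, smul_eq_mul]
      exact I.mul_mem_right _ hf
    obtain ⟨h, hh⟩ := Module.projective_lifting_property (d 0).rangeRestrict
      ((f • LinearMap.id : F 0 →ₗ[S] F 0).codRestrict (LinearMap.range (d 0)) hr)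
      (d 0).surjective_rangeRestrict
    exact ⟨h, fun x => congrArg Subtype.val (LinearMap.congr_fun hh x)⟩
  obtain ⟨s0, hs0⟩ := h0
  -- the step
  let St : ℕ → Type u := fun j => {s : F j →ₗ[S] F (j + 1) // ∀ x, d j (s (d j x)) = f • d j x}
  have step : ∀ j (s : St j), ∃ s' : F (j + 1) →ₗ[S] F (j + 1 + 1),
      ∀ x, d (j + 1) (s' x) = f • x - s.1 (d j x) := by
    intro j s
    obtain ⟨h, hh⟩ := exists_lift_of_exact (d (j + 1)) (d j) (hex j)
      (f • LinearMap.id - s.1 ∘ₗ d j) (fun x => by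
        rw [LinearMap.sub_apply, LinearMap.smul_apply, LinearMap.id_apply, LinearMap.comp_apply,
          map_sub, map_smul, s.2, sub_self])
    exact ⟨h, hh⟩
  choose nx hnx using step
  let seq : ∀ j, St j := fun j => Nat.rec (motive := St) ⟨s0, fun x => hs0 _⟩
    (fun j s => ⟨nx j s, fun x => by
      rw [hnx, hdd, map_zero, sub_zero]⟩) j
  refine ⟨fun j => (seq j).1, hs0, fun j x => ?_⟩
  exact hnx j (seq j) x

/-- lifts of `φ : I → S/I` of degree `-1` -/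
lemma exists_degree_neg_one (hd0 : ∀ x : F 0, e x ∈ I → ∃ y, d 0 y = x)
    (hd0' : ∀ y, e (d 0 y) ∈ I)
    (hdd : ∀ j x, d j (d (j + 1) x) = 0)
    (hex : ∀ j x, d j x = 0 → ∃ y, d (j + 1) y = x) (φ : I →ₗ[S] S ⧸ I) :
    ∃ θ : ∀ j, F (j + 1) →ₗ[S] F j,
      (∀ x, Ideal.Quotient.mk I (e (θ 0 x)) = φ ⟨e (d 0 x), hd0' x⟩) ∧
      ∀ j x, d j (θ (j + 1) x) = - θ j (d (j + 1) x) := by
  let φ' : F 1 →ₗ[S] S ⧸ I := φ ∘ₗ ((e.toLinearMap ∘ₗ d 0).codRestrict I hd0')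
  have hφ' : ∀ x, φ' x = φ ⟨e (d 0 x), hd0' x⟩ := fun x => rfl
  obtain ⟨θ0, hθ0⟩ := Module.projective_lifting_property ((Submodule.mkQ I) ∘ₗ e.toLinearMap) φ'
    ((Submodule.mkQ_surjective I).comp e.surjective)
  have hθ0' : ∀ x, Ideal.Quotient.mk I (e (θ0 x)) = φ ⟨e (d 0 x), hd0' x⟩ := fun x =>
    LinearMap.congr_fun hθ0 x
  have h1 : ∃ θ1 : F 2 →ₗ[S] F 1, ∀ x, d 0 (θ1 x) = - θ0 (d 1 x) := by
    have hr : ∀ x : F 2, (-(θ0 ∘ₗ d 1)) x ∈ LinearMap.range (d 0) := by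
      intro x
      apply hd0
      rw [LinearMap.neg_apply, LinearMap.comp_apply, map_neg]
      apply I.neg_mem
      rw [← Ideal.Quotient.eq_zero_iff_mem, hθ0']
      have : (⟨e (d 0 (d 1 x)), hd0' _⟩ : I) = 0 := by
        apply Subtype.ext
        change e (d 0 (d 1 x)) = 0
        rw [hdd 0, map_zero]
      rw [this, map_zero]
    obtain ⟨h, hh⟩ := Module.projective_lifting_property (d 0).rangeRestrict
      ((-(θ0 ∘ₗ d 1)).codRestrict (LinearMap.range (d 0)) hr)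
      (d 0).surjective_rangeRestrict
    exact ⟨h, fun x => congrArg Subtype.val (LinearMap.congr_fun hh x)⟩
  obtain ⟨θ1, hθ1⟩ := h1
  let St : ℕ → Type u := fun j =>
    {θ : F (j + 1 + 1) →ₗ[S] F (j + 1) // ∀ x, d j (θ (d (j + 2) x)) = 0}
  have step : ∀ j (θ : St j), ∃ θ' : F (j + 1 + 1 + 1) →ₗ[S] F (j + 1 + 1),
      ∀ x, d (j + 1) (θ' x) = - θ.1 (d (j + 2) x) := by
    intro j θ
    obtain ⟨h, hh⟩ := exists_lift_of_exact (d (j + 1)) (d j) (hex j)
      (-(θ.1 ∘ₗ d (j + 2))) (fun x => by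
        rw [LinearMap.neg_apply, LinearMap.comp_apply, map_neg, θ.2, neg_zero])
    exact ⟨h, hh⟩
  choose nx hnx using step
  let seq : ∀ j, St j := fun j => Nat.rec (motive := St) ⟨θ1, fun x => by
      rw [hθ1, hdd 1, map_zero, neg_zero]⟩
    (fun j θ => ⟨nx j θ, fun x => by
      rw [hnx, hdd, map_zero, neg_zero]⟩) j
  refine ⟨fun j => match j with
    | 0 => θ0
    | j + 1 => (seq j).1, hθ0', fun j x => ?_⟩
  match j, x with
  | 0, x => exact hθ1 x
  | j + 1, x => exact hnx j (seq j) x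

/-- The Clifford relation. -/
lemma exists_clifford (hd0 : ∀ x : F 0, e x ∈ I → ∃ y, d 0 y = x)
    (hd0' : ∀ y, e (d 0 y) ∈ I)
    (hdd : ∀ j x, d j (d (j + 1) x) = 0)
    (hex : ∀ j x, d j x = 0 → ∃ y, d (j + 1) y = x) (φ : I →ₗ[S] S ⧸ I) (f : S) (hf : f ∈ I)
    (s : ∀ j, F j →ₗ[S] F (j + 1)) (hs0 : ∀ x, d 0 (s 0 x) = f • x)
    (hs : ∀ j x, d (j + 1) (s (j + 1) x) = f • x - s j (d j x))
    (θ : ∀ j, F (j + 1) →ₗ[S] F j)
    (hθ0 : ∀ x, Ideal.Quotient.mk I (e (θ 0 x)) = φ ⟨e (d 0 x), hd0' x⟩)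
    (hθ : ∀ j x, d j (θ (j + 1) x) = - θ j (d (j + 1) x)) (g : S)
    (hg : Ideal.Quotient.mk I g = φ ⟨f, hf⟩) :
    ∃ h : ∀ j, F j →ₗ[S] F (j + 1), (∀ x, d 0 (h 0 x) = θ 0 (s 0 x) - g • x) ∧
      ∀ j x, d (j + 1) (h (j + 1) x) =
        θ (j + 1) (s (j + 1) x) + s j (θ j x) - g • x - h j (d j x) := by
  have h0 : ∃ h0 : F 0 →ₗ[S] F 1, ∀ x, d 0 (h0 x) = θ 0 (s 0 x) - g • x := by
    have hr : ∀ x : F 0, (θ 0 ∘ₗ s 0 - g • LinearMap.id : F 0 →ₗ[S] F 0) x ∈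
        LinearMap.range (d 0) := by
      intro x
      apply hd0
      rw [LinearMap.sub_apply, LinearMap.comp_apply, LinearMap.smul_apply, LinearMap.id_apply,
        map_sub, ← Ideal.Quotient.eq, hθ0]
      have h1 : (⟨e (d 0 (s 0 x)), hd0' _⟩ : I) = e x • ⟨f, hf⟩ := by
        apply Subtype.ext
        change e (d 0 (s 0 x)) = e x * f
        rw [hs0, map_smul, smul_eq_mul, mul_comm]
      rw [h1, map_smul, ← hg, map_smul, smul_eq_mul, mul_comm g, map_mul, Algebra.smul_def]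
      rfl
    obtain ⟨h, hh⟩ := Module.projective_lifting_property (d 0).rangeRestrict
      ((θ 0 ∘ₗ s 0 - g • LinearMap.id : F 0 →ₗ[S] F 0).codRestrict (LinearMap.range (d 0)) hr)
      (d 0).surjective_rangeRestrict
    exact ⟨h, fun x => congrArg Subtype.val (LinearMap.congr_fun hh x)⟩
  obtain ⟨h0, hh0⟩ := h0
  -- first step
  let T0 : F 1 →ₗ[S] F 1 := θ 1 ∘ₗ s 1 + s 0 ∘ₗ θ 0 - g • LinearMap.id - h0 ∘ₗ d 0
  let St : ℕ → Type u := fun j =>
    {h : F j →ₗ[S] F (j + 1) // ∀ x, d j (θ (j + 1) (s (j + 1) x) + s j (θ j x) - g • x -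
      h (d j x)) = 0}
  have step : ∀ j (h : St j), ∃ h' : F (j + 1) →ₗ[S] F (j + 1 + 1),
      ∀ x, d (j + 1) (h' x) = θ (j + 1) (s (j + 1) x) + s j (θ j x) - g • x - h.1 (d j x) := by
    intro j h
    obtain ⟨h', hh'⟩ := exists_lift_of_exact (d (j + 1)) (d j) (hex j)
      (θ (j + 1) ∘ₗ s (j + 1) + s j ∘ₗ θ j - g • LinearMap.id - h.1 ∘ₗ d j) (fun x => h.2 x)
    exact ⟨h', hh'⟩
  choose nx hnx using step
  have start : ∀ x, d 0 (θ 1 (s 1 x) + s 0 (θ 0 x) - g • x - h0 (d 0 x)) = 0 := by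
    intro x
    rw [map_sub, map_sub, map_add, hθ 0, hs 0, hs0, hh0, map_sub, map_smul, map_smul]
    abel
  let seq : ∀ j, St j := fun j => Nat.rec (motive := St) ⟨h0, start⟩
    (fun j h => ⟨nx j h, fun x => by
      rw [map_sub, map_sub, map_add, hθ (j + 1), hs (j + 1), hs j, hnx, hdd, hθ j, map_sub,
        map_smul, map_smul, map_neg, map_zero]
      abel⟩) j
  refine ⟨fun j => (seq j).1, hh0, fun j x => ?_⟩
  exact hnx j (seq j) x

end Ops

end Pool.Agent.Helper19
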