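import Pool.Agent.Helper19.TorRes
import Pool.Agent.Helper19.TorOps

/-!
An infinite free resolution of the residue field and the homology of its tensor products.
-/

universe u

open CategoryTheory Module IsLocalRing TensorProduct

namespace Pool.Agent.Helper19

section Res

variable {S : Type u} [CommRing S] [IsLocalRing S] [IsNoetherianRing S]

/-- a free resolution of `S/I`, possibly infinite -/
theorem exists_resolution_inf (I : Ideal S) :
    ∃ (F : ℕ → ModuleCat.{u} S) (d : ∀ j, F (j + 1) →ₗ[S] F j) (e : F 0 ≃ₗ[S] S),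
      (∀ j, Module.Finite S (F j)) ∧ (∀ j, Module.Free S (F j)) ∧
      (∀ x, e x ∈ I → ∃ y, d 0 y = x) ∧ (∀ y, e (d 0 y) ∈ I) ∧
      (∀ j x, d j (d (j + 1) x) = 0) ∧ (∀ j x, d j x = 0 → ∃ y, d (j + 1) y = x) := by
  choose nx dd h1 h2 h3 using exists_next (S := S)
  let X0 : ResStage.{u} S := ⟨ModuleCat.of S S, I, inferInstanceAs (Module.Finite S S),
    inferInstanceAs (Module.Free S S)⟩
  let st : ℕ → ResStage.{u} S := fun j => Nat.rec X0 (fun _ X => nx X) j
  refine ⟨fun j => (st j).P, fun j => dd (st j), LinearEquiv.refl S S, fun j => (st j).fin,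
    fun j => (st j).free, ?_, ?_, ?_, ?_⟩
  · intro x hx
    have : x ∈ LinearMap.range (dd (st 0)) := by rw [h1]; exact hx
    exact this
  · intro y
    have : dd (st 0) y ∈ (st 0).K := by rw [← h1]; exact ⟨y, rfl⟩
    exact this
  · intro j x
    have : dd (st (j + 1)) x ∈ (st (j + 1)).K := by rw [← h1]; exact ⟨x, rfl⟩
    have h6 : (st (j + 1)).K = LinearMap.ker (dd (st j)) := h2 (st j)
    rw [h6] at this
    exact this
  · intro j x hx
    have : x ∈ LinearMap.range (dd (st (j + 1))) := by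
      have h6 : (st (j + 1)).K = LinearMap.ker (dd (st j)) := h2 (st j)
      rw [h1, h6]
      exact hx
    exact this

end Res

section Hz

variable {A : Type u} [CommRing A] {Φ : ℕ → ModuleCat.{u} A} [∀ j, Module.Free A (Φ j)]
  (d : ∀ j, Φ (j + 1) →ₗ[A] Φ j)

/-- the differential of `Φ ⊗ Y` -/
abbrev dT (Y : Type u) [AddCommGroup Y] [Module A Y] (j : ℕ) :
    Φ (j + 1) ⊗[A] Y →ₗ[A] Φ j ⊗[A] Y := (d j).rTensor Y

/-- `H_{m+1}(Φ ⊗ Y) = 0` -/
def Hz (Y : Type u) [AddCommGroup Y] [Module A Y] (m : ℕ) : Prop :=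
  ∀ z : Φ (m + 1) ⊗[A] Y, dT d Y m z = 0 → ∃ w : Φ (m + 2) ⊗[A] Y, dT d Y (m + 1) w = z

variable {X Y Z : Type u} [AddCommGroup X] [Module A X] [AddCommGroup Y] [Module A Y]
  [AddCommGroup Z] [Module A Z]

omit [∀ j, Module.Free A (Φ j)] in
lemma dT_comm (i : X →ₗ[A] Y) (j : ℕ) (z : Φ (j + 1) ⊗[A] X) :
    dT d Y j (i.lTensor _ z) = i.lTensor _ (dT d X j z) := by
  induction z using TensorProduct.induction_on with
  | zero => simp
  | add x y hx hy => simp only [map_add, hx, hy]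
  | tmul a b => rfl

omit [∀ j, Module.Free A (Φ j)] in
lemma dT_dT (hdd : ∀ j x, d j (d (j + 1) x) = 0) (j : ℕ) (z : Φ (j + 2) ⊗[A] Y) :
    dT d Y j (dT d Y (j + 1) z) = 0 := by
  have h1 : d j ∘ₗ d (j + 1) = 0 := LinearMap.ext fun x => hdd j x
  have h2 := LinearMap.rTensor_comp Y (d j) (d (j + 1))
  rw [h1, LinearMap.rTensor_zero] at h2
  exact (LinearMap.congr_fun h2 z).symm

lemma lT_inj (j : ℕ) (i : X →ₗ[A] Y) (hi : Function.Injective i) :
    Function.Injective (i.lTensor (Φ j)) :=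
  Module.Flat.lTensor_preserves_injective_linearMap _ hi

omit [∀ j, Module.Free A (Φ j)] in
lemma lT_surj (j : ℕ) (p : Y →ₗ[A] Z) (hp : Function.Surjective p) :
    Function.Surjective (p.lTensor (Φ j)) := LinearMap.lTensor_surjective _ hp

lemma lT_exact (j : ℕ) (i : X →ₗ[A] Y) (p : Y →ₗ[A] Z) (h : Function.Exact i p) :
    Function.Exact (i.lTensor (Φ j)) (p.lTensor (Φ j)) := Module.Flat.lTensor_exact _ h

omit [∀ j, Module.Free A (Φ j)] in
lemma hz_of_flat (hex : ∀ j x, d j x = 0 → ∃ y, d (j + 1) y = x)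
    (hdd : ∀ j x, d j (d (j + 1) x) = 0) [Module.Flat A Y] (m : ℕ) : Hz d Y m := by
  intro z hz
  have h1 : Function.Exact (d (m + 1)) (d m) := by
    intro x
    exact ⟨fun h => hex m x h, fun ⟨y, hy⟩ => by rw [← hy]; exact hdd m y⟩
  exact (Module.Flat.rTensor_exact Y h1 z).mp hz

/-- `H_{m+2}(Z) = 0` if `H_{m+2}(Y) = 0` and `H_{m+1}(X) = 0` -/
lemma hz_right (hdd : ∀ j x, d j (d (j + 1) x) = 0)
    (i : X →ₗ[A] Y) (p : Y →ₗ[A] Z) (hi : Function.Injective i) (hp : Function.Surjective p)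
    (h : Function.Exact i p) (m : ℕ) (hX : Hz d X m) (hY : Hz d Y (m + 1)) :
    Hz d Z (m + 1) := by
  intro z hz
  obtain ⟨y, rfl⟩ := lT_surj (m + 2) p hp z
  rw [dT_comm] at hz
  obtain ⟨x, hx⟩ := (lT_exact (m + 1) i p h _).mp hz
  have hx0 : dT d X m x = 0 := by
    apply lT_inj m i hi
    rw [← dT_comm, hx, dT_dT d hdd, map_zero]
  obtain ⟨x', hx'⟩ := hX x hx0
  obtain ⟨y', hy'⟩ := hY (y - i.lTensor _ x') (by
    rw [map_sub, dT_comm, hx', hx, sub_self])
  refine ⟨p.lTensor _ y', ?_⟩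
  rw [dT_comm, hy', map_sub]
  have : p.lTensor _ (i.lTensor _ x') = 0 := (lT_exact (m + 2) i p h _).mpr ⟨x', rfl⟩
  rw [this, sub_zero]

/-- `H_{m+1}(X) = 0` if `H_{m+1}(Y) = 0` and `H_{m+2}(Z) = 0` -/
lemma hz_left (hdd : ∀ j x, d j (d (j + 1) x) = 0)
    (i : X →ₗ[A] Y) (p : Y →ₗ[A] Z) (hi : Function.Injective i) (hp : Function.Surjective p)
    (h : Function.Exact i p) (m : ℕ) (hY : Hz d Y m) (hZ : Hz d Z (m + 1)) :
    Hz d X m := by
  intro x hx
  obtain ⟨y, hy⟩ := hY (i.lTensor _ x) (by rw [dT_comm, hx, map_zero])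
  have h1 : dT d Z (m + 1) (p.lTensor _ y) = 0 := by
    rw [dT_comm, hy]
    exact (lT_exact (m + 1) i p h _).mpr ⟨x, rfl⟩
  obtain ⟨z, hz⟩ := hZ _ h1
  obtain ⟨y', rfl⟩ := lT_surj (m + 3) p hp z
  have h2 : p.lTensor _ (y - dT d Y (m + 2) y') = 0 := by
    rw [map_sub, ← dT_comm, hz, sub_self]
  obtain ⟨x', hx'⟩ := (lT_exact (m + 2) i p h _).mp h2
  refine ⟨x', lT_inj (m + 1) i hi ?_⟩
  rw [← dT_comm, hx', map_sub, hy, dT_dT d hdd, sub_zero]

end Hz

section PD

variable {A : Type u} [CommRing A] [IsLocalRing A] [IsNoetherianRing A]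
  {Φ : ℕ → ModuleCat.{u} A} [∀ j, Module.Free A (Φ j)]
  (d : ∀ j, Φ (j + 1) →ₗ[A] Φ j) (e : Φ 0 ≃ₗ[A] A)

lemma hz_of_pd (hdd : ∀ j x, d j (d (j + 1) x) = 0)
    (hex : ∀ j x, d j x = 0 → ∃ y, d (j + 1) y = x) (n : ℕ) :
    ∀ (Y : Type u) [AddCommGroup Y] [Module A Y] [Module.Finite A Y] (_ : PD A Y (n + 1))
      (m : ℕ) (_ : n ≤ m), Hz d Y m := by
  induction n with
  | zero =>
    intro Y _ _ _ h m _
    have := projective_of_pd_one h
    exact hz_of_flat d hex hdd m
  | succ n ih =>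
    intro Y _ _ _ h m hm
    obtain ⟨s, π, hπ, -⟩ := exists_minimal_cover (A := A) (X := Y)
    have hex' : Function.Exact (LinearMap.ker π).subtype π := fun v => by simp
    have hK := pd_ker (f := (LinearMap.ker π).subtype) (g := π) Subtype.val_injective hπ hex' h
    obtain ⟨m, rfl⟩ : ∃ k, m = k + 1 := ⟨m - 1, by omega⟩
    have : Module.Finite A (LinearMap.ker π) := inferInstance
    exact hz_right d hdd _ _ Subtype.val_injective hπ hex' m
      (ih (LinearMap.ker π) hK m (by omega)) (hz_of_flat d hex hdd (m + 1))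

omit [IsNoetherianRing A] [∀ j, Module.Free A (Φ j)] in
lemma dT_zero_mem (hd0' : ∀ y, e (d 0 y) ∈ maximalIdeal A) {K : Type u} [AddCommGroup K]
    [Module A K] (y : Φ 1 ⊗[A] K) :
    TensorProduct.lid A K ((e.toLinearMap).rTensor K (dT d K 0 y)) ∈
      maximalIdeal A • (⊤ : Submodule A K) := by
  induction y using TensorProduct.induction_on with
  | zero => simp
  | add x y hx hy => simpa only [map_add] using Submodule.add_mem _ hx hy
  | tmul x k =>
    change e (d 0 x) • k ∈ _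
    exact Submodule.smul_mem_smul (hd0' x) trivial

lemma pd_of_hz (hd0 : ∀ x : Φ 0, e x ∈ maximalIdeal A → ∃ y, d 0 y = x)
    (hd0' : ∀ y, e (d 0 y) ∈ maximalIdeal A)
    (hdd : ∀ j x, d j (d (j + 1) x) = 0)
    (hex : ∀ j x, d j x = 0 → ∃ y, d (j + 1) y = x) (m : ℕ) :
    ∀ (Y : Type u) [AddCommGroup Y] [Module A Y] [Module.Finite A Y] (_ : Hz d Y m),
      PD A Y (m + 1) := by
  induction m with
  | zero =>
    intro Y _ _ _ h
    obtain ⟨s, π, hπ, hmin⟩ := exists_minimal_cover (A := A) (X := Y)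
    have hex' : Function.Exact (LinearMap.ker π).subtype π := fun v => by simp
    have hK : LinearMap.ker π = ⊥ := by
      have hfg : (LinearMap.ker π).FG := IsNoetherian.noetherian _
      suffices hle : (⊤ : Submodule A (LinearMap.ker π)) ≤
          maximalIdeal A • (⊤ : Submodule A (LinearMap.ker π)) by
        have hfin : Module.Finite A (LinearMap.ker π) := inferInstance
        have h1 := Submodule.eq_bot_of_le_smul_of_le_jacobson_bot (maximalIdeal A)
          (⊤ : Submodule A (LinearMap.ker π)) hfin.fg_top hle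
          (IsLocalRing.maximalIdeal_le_jacobson _)
        rw [← Submodule.subsingleton_iff_eq_bot]
        exact (Submodule.subsingleton_iff A).mp (subsingleton_of_bot_eq_top h1.symm)
      rintro ⟨v, hv⟩ -
      -- `1 ⊗ v` in `Φ 0 ⊗ A^s` is a boundary
      obtain ⟨y, hy⟩ : ∃ y : Φ 1 ⊗[A] (Fin s → A), dT d (Fin s → A) 0 y = e.symm 1 ⊗ₜ v := by
        have h1 : ∀ i, ∃ y : Φ 1, d 0 y = e.symm (v i) := fun i =>
          hd0 _ (by rw [LinearEquiv.apply_symm_apply]; exact hmin v hv i)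
        choose y hy using h1
        refine ⟨∑ i, y i ⊗ₜ Pi.single i (1 : A), ?_⟩
        rw [map_sum]
        have h2 : v = ∑ i, v i • (Pi.single i (1 : A) : Fin s → A) := by
          funext k
          simp [Finset.sum_apply, Pi.single_apply]
        conv_rhs => rw [h2]
        rw [TensorProduct.tmul_sum]
        refine Finset.sum_congr rfl fun i _ => ?_
        change d 0 (y i) ⊗ₜ _ = _
        rw [hy, ← TensorProduct.smul_tmul, ← map_smul, smul_eq_mul, mul_one]
        rfl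
      have h2 : dT d Y 0 (π.lTensor _ y) = 0 := by
        rw [dT_comm, hy, LinearMap.lTensor_tmul, hv, TensorProduct.tmul_zero]
      obtain ⟨y', hy'⟩ := h _ h2
      obtain ⟨y'', rfl⟩ := lT_surj 2 π hπ y'
      have h3 : π.lTensor _ (y - dT d (Fin s → A) 1 y'') = 0 := by
        rw [map_sub, ← dT_comm, hy', sub_self]
      obtain ⟨x, hx⟩ := (lT_exact 1 (LinearMap.ker π).subtype π hex' _).mp h3
      have h4 : dT d (LinearMap.ker π) 0 x = e.symm 1 ⊗ₜ (⟨v, hv⟩ : LinearMap.ker π) := by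
        apply lT_inj 0 (LinearMap.ker π).subtype Subtype.val_injective
        rw [← dT_comm, hx, map_sub, hy, dT_dT d hdd, sub_zero]
        rfl
      have h5 := dT_zero_mem d e hd0' x
      rw [h4] at h5
      simpa using h5
    have hinj : Function.Injective π := LinearMap.ker_eq_bot.mp hK
    exact PD.congr (LinearEquiv.ofBijective π ⟨hinj, hπ⟩) pd_of_free
  | succ m ih =>
    intro Y _ _ _ h
    obtain ⟨s, π, hπ, -⟩ := exists_minimal_cover (A := A) (X := Y)
    have hex' : Function.Exact (LinearMap.ker π).subtype π := fun v => by simp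
    have : Module.Finite A (LinearMap.ker π) := inferInstance
    have hK := ih (LinearMap.ker π) (hz_left d hdd _ _ Subtype.val_injective hπ hex' m
      (hz_of_flat d hex hdd m) h)
    exact pd_coker Subtype.val_injective hπ hex' hK (PD.mono pd_of_free (by omega))

end PD

end Pool.Agent.Helper19
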