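import Pool.Agent.Helper19.NormalPdOne
import Pool.Agent.Helper19.RegularPd

/-!
Depth at most one: the main theorem.
-/

universe u

open CategoryTheory Abelian IsLocalRing Module TensorProduct Pointwise RingTheory.Sequence

namespace Pool.Agent.Helper19

section Main

variable {R : Type u} [CommRing R] [IsLocalRing R] [IsNoetherianRing R]
variable {Q : Type u} [CommRing Q] [IsLocalRing Q] [IsNoetherianRing Q] [Algebra Q R]
variable {N : Type u} [AddCommGroup N] [Module R N] [Module Q N] [IsScalarTower Q R N]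

omit [IsLocalRing R] [IsNoetherianRing R] in
/-- a nonzero finite free module has `R` as a retract -/
lemma exists_retract_of_free [Module.Free R N] [Module.Finite R N] [Nontrivial N] :
    ∃ (i : R →ₗ[R] N) (r : N →ₗ[R] R), r ∘ₗ i = LinearMap.id := by
  let b := Module.Free.chooseBasis R N
  have hne : Nonempty (Module.Free.ChooseBasisIndex R N) := b.index_nonempty
  obtain ⟨k⟩ := hne
  refine ⟨LinearMap.toSpanSingleton R N (b k), b.coord k, ?_⟩
  ext
  simp

theorem exists_regularSeq_of_depth_le_one (hs : Function.Surjective (algebraMap Q R))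
    (hR : DepthLEOne R) (n : ℕ) (hpd : PD Q R n) [Module.Finite R N] [Nontrivial N]
    (hN : FinPD R N) (hP : FinPD R (RingHom.ker (algebraMap Q R) →ₗ[Q] N)) :
    ∃ rs : List Q, IsRegular Q rs ∧ Ideal.ofList rs = RingHom.ker (algebraMap Q R) := by
  obtain ⟨k, hk⟩ := hN
  obtain ⟨a, b, πN, BN, hπN, hBinj, hBex, hBmin⟩ :=
    exists_minimal_resolution (pd_two_of_finPD hR k N hk)
  rcases Nat.eq_zero_or_pos b with hb | hb
  · -- `N` is free
    subst hb
    have hbij : Function.Bijective πN := by
      refine ⟨?_, hπN⟩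
      rw [injective_iff_map_eq_zero]
      intro v hv
      obtain ⟨w, rfl⟩ := (hBex v).mp hv
      have : w = 0 := Subsingleton.elim _ _
      rw [this, map_zero]
    have : Module.Free R N := Module.Free.of_equiv (LinearEquiv.ofBijective πN hbij)
    obtain ⟨i, r, hir⟩ := exists_retract_of_free (R := R) (N := N)
    obtain ⟨l, hl⟩ := hP
    refine exists_regularSeq_of_depth_le_one_free hs hR n hpd ⟨l, ?_⟩
    refine PD.of_retract (postHom _ i) (postHom _ r) ?_ hl
    ext φ x
    exact LinearMap.congr_fun hir (φ x)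
  · obtain ⟨l, hl⟩ := hP
    have : Module.Finite R (RingHom.ker (algebraMap Q R) →ₗ[Q] N) := finite_hom
    obtain ⟨a', b', πP, BP, hπP, hPinj, hPex, hPmin⟩ :=
      exists_minimal_resolution (pd_two_of_finPD hR l _ hl)
    exact exists_regularSeq_of_resolutions hs hR n hpd πN hπN BN hBinj hBex hBmin hb πP hπP BP
      hPinj hPex hPmin

end Main

section Cotangent

variable {S : Type u} [CommRing S] (I : Ideal S)
variable (N : Type u) [AddCommGroup N] [Module (S ⧸ I) N] [Module S N] [IsScalarTower S (S ⧸ I) N]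

/-- `Hom_{S/I}(I/I², N) = Hom_S(I, N)` -/
noncomputable def cotangentHomEquiv :
    (I.Cotangent →ₗ[S ⧸ I] N) ≃ₗ[S ⧸ I] (RingHom.ker (algebraMap S (S ⧸ I)) →ₗ[S] N) where
  toFun g := (g.restrictScalars S) ∘ₗ I.toCotangent ∘ₗ
    (LinearEquiv.ofEq (RingHom.ker (algebraMap S (S ⧸ I))) I Ideal.mk_ker).toLinearMap
  map_add' a b := by ext; simp
  map_smul' r a := by ext; simp
  invFun h := (Ideal.Cotangent.lift (h ∘ₗ
    (LinearEquiv.ofEq I (RingHom.ker (algebraMap S (S ⧸ I))) Ideal.mk_ker.symm).toLinearMap) (by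
      intro x y
      have h1 : x * y = (x : S) • y := rfl
      rw [h1, map_smul, ← algebraMap_smul (S ⧸ I)]
      have h2 : algebraMap S (S ⧸ I) (x : S) = 0 := Ideal.Quotient.eq_zero_iff_mem.mpr x.2
      rw [h2, zero_smul])).extendScalarsOfSurjective Ideal.Quotient.mk_surjective
  left_inv g := by
    ext x
    obtain ⟨x, rfl⟩ := I.toCotangent_surjective x
    rfl
  right_inv h := by
    ext x
    rfl

end Cotangent

lemma projectiveDimension_lt_top_of_regular (S : Type u) [CommRing S] [IsRegularLocalRing S]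
    (X : Type u) [AddCommGroup X] [Module S X] [Module.Finite S X] :
    projectiveDimension (ModuleCat.of S X) < ⊤ := by
  obtain ⟨n, hn⟩ := finPD_of_isRegularLocalRing S
  have h1 : projectiveDimension (ModuleCat.of S X) < n := projectiveDimension_lt_iff.mpr (hn X)
  exact lt_of_lt_of_le h1 le_top

/-- The main theorem in depth at most one, over a local ring `S` over which `S/I` has finite
projective dimension. -/
theorem depth_le_one_theorem (S : Type u) [CommRing S] [IsLocalRing S] [IsNoetherianRing S]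
    (I : Ideal S) (hI : I ≠ ⊤) (hpd : projectiveDimension (ModuleCat.of S (S ⧸ I)) < ⊤)
    (hdepth : ∀ rs : List (S ⧸ I), IsRegular (S ⧸ I) rs → rs.length ≤ 1)
    (N : Type u) [AddCommGroup N] [Module (S ⧸ I) N] [Module.Finite (S ⧸ I) N] [Nontrivial N]
    (hN : projectiveDimension (ModuleCat.of (S ⧸ I) N) < ⊤)
    (hHom : projectiveDimension (ModuleCat.of (S ⧸ I) (I.Cotangent →ₗ[S ⧸ I] N)) < ⊤) :
    ∃ rs : List S, IsRegular S rs ∧ Ideal.ofList rs = I := by
  have : Nontrivial (S ⧸ I) := Ideal.Quotient.nontrivial_iff.mpr hI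
  have : IsLocalRing (S ⧸ I) :=
    IsLocalRing.of_surjective' (Ideal.Quotient.mk I) Ideal.Quotient.mk_surjective
  let _ : Module S N := Module.compHom N (algebraMap S (S ⧸ I))
  have : IsScalarTower S (S ⧸ I) N := IsScalarTower.of_algebraMap_smul fun r x => rfl
  obtain ⟨n, hn⟩ := (projectiveDimension_ne_top_iff _).mp hpd.ne
  obtain ⟨k, hk⟩ := (projectiveDimension_ne_top_iff _).mp hN.ne
  obtain ⟨l, hl⟩ := (projectiveDimension_ne_top_iff _).mp hHom.ne
  obtain ⟨rs, h1, h2⟩ := exists_regularSeq_of_depth_le_one (Q := S) (R := S ⧸ I) (N := N)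
    Ideal.Quotient.mk_surjective hdepth (n + 1) hn ⟨k + 1, hk⟩
    ⟨l + 1, PD.congr (cotangentHomEquiv I N) hl⟩
  exact ⟨rs, h1, h2.trans Ideal.mk_ker⟩

end Pool.Agent.Helper19
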