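import Pool.Agent.Helper19.FrobMain
import Pool.Agent.Helper19.DepthOneMain

/-!
Characteristic `p`: if `Hom(I, S/I)` is free then `I` is generated by a regular sequence.
-/

universe u

open IsLocalRing Module RingTheory.Sequence

namespace Pool.Agent.Helper19

/-- conversion of regularity on `S ⧸ I` to ideal form -/
lemma reg_mod_of_isSMulRegular {S : Type u} [CommRing S] {I : Ideal S} {a : S}
    (h : IsSMulRegular (S ⧸ I) (Ideal.Quotient.mk I a)) (u : S) (hu : a * u ∈ I) : u ∈ I := by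
  rw [← Ideal.Quotient.eq_zero_iff_mem] at hu ⊢
  apply h
  change Ideal.Quotient.mk I a * Ideal.Quotient.mk I u = Ideal.Quotient.mk I a * 0
  rw [mul_zero, ← map_mul, hu]

lemma reg_pair_of_isSMulRegular {S : Type u} [CommRing S] {I : Ideal S} {a b : S}
    (h : IsSMulRegular (QuotSMulTop (Ideal.Quotient.mk I a) (S ⧸ I)) (Ideal.Quotient.mk I b))
    (u : S) (hu : b * u ∈ I ⊔ Ideal.span {a}) : u ∈ I ⊔ Ideal.span {a} := by
  obtain ⟨i, hi, w, hw, hiw⟩ := Submodule.mem_sup.mp hu
  obtain ⟨t, rfl⟩ := Ideal.mem_span_singleton'.mp hw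
  have h1 : (Submodule.Quotient.mk (Ideal.Quotient.mk I u) :
      QuotSMulTop (Ideal.Quotient.mk I a) (S ⧸ I)) = 0 := by
    apply h
    change Ideal.Quotient.mk I b • Submodule.Quotient.mk (Ideal.Quotient.mk I u) =
      Ideal.Quotient.mk I b • 0
    rw [smul_zero, ← Submodule.Quotient.mk_smul, quotSMulTop_mk_eq_zero_iff]
    refine ⟨Ideal.Quotient.mk I t, ?_⟩
    rw [smul_eq_mul, smul_eq_mul, ← map_mul, ← map_mul, Ideal.Quotient.eq]
    have h2 : b * u - a * t = i := by rw [← hiw]; ring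
    rw [h2]; exact hi
  rw [quotSMulTop_mk_eq_zero_iff] at h1
  obtain ⟨t', ht'⟩ := h1
  obtain ⟨t', rfl⟩ := Ideal.Quotient.mk_surjective t'
  rw [smul_eq_mul, ← map_mul] at ht'
  have h2 : u - a * t' ∈ I := by
    rw [← Ideal.Quotient.eq]
    exact ht'
  rw [show u = (u - a * t') + t' * a by ring]
  exact Submodule.add_mem_sup h2 (Ideal.mem_span_singleton'.mpr ⟨t', rfl⟩)

/-- The contradiction: if a row `r` with `r 0` a unit satisfies `∑ rᵢ φᵢ(I) ⊆ m`. -/
theorem frob_contradiction {S : Type u} [CommRing S] [IsLocalRing S] [IsNoetherianRing S]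
    (hfrob : ∀ n : ℕ, ∃ q, n ≤ q ∧ PowAdd q S ∧ FrobFlat q S) (I : Ideal S) (hI : I ≠ ⊤) (c : ℕ)
    (φ : Fin (c + 1) → (I →ₗ[S] S ⧸ I))
    (huniv : ∀ ψ : I →ₗ[S] S ⧸ I, ∃ r : Fin (c + 1) → S ⧸ I, ∀ x, ψ x = ∑ i, r i * φ i x)
    (hindep : ∀ r : Fin (c + 1) → S ⧸ I, (∀ x, ∑ i, r i * φ i x = 0) → r = 0)
    (r : Fin (c + 1) → S) (hr : IsUnit (r 0))
    (hψ : ∀ x : I, ∃ z ∈ maximalIdeal S,
      Ideal.Quotient.mk I z = ∑ i, Ideal.Quotient.mk I (r i) * φ i x) : False := by
  classical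
  have : Nontrivial (S ⧸ I) := Ideal.Quotient.nontrivial_iff.mpr hI
  have : IsLocalRing (S ⧸ I) :=
    IsLocalRing.of_surjective' (Ideal.Quotient.mk I) Ideal.Quotient.mk_surjective
  -- the image
  let B : Submodule (S ⧸ I) (Fin (c + 1) → S ⧸ I) :=
    { carrier := {v | ∃ x : I, ∀ i, φ i x = v i}
      add_mem' := by
        rintro v w ⟨x, hx⟩ ⟨y, hy⟩
        exact ⟨x + y, fun i => by rw [map_add, hx, hy]; rfl⟩
      zero_mem' := ⟨0, fun i => by rw [map_zero]; rfl⟩
      smul_mem' := by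
        rintro r v ⟨x, hx⟩
        obtain ⟨q, rfl⟩ := Ideal.Quotient.mk_surjective r
        exact ⟨q • x, fun i => by rw [map_smul, hx, Algebra.smul_def]; rfl⟩ }
  let β : I →ₗ[S] B :=
    { toFun := fun x => ⟨fun i => φ i x, x, fun i => rfl⟩
      map_add' := fun x y => by
        apply Subtype.ext; funext i
        exact map_add (φ i) x y
      map_smul' := fun q x => by
        apply Subtype.ext; funext i
        exact map_smul (φ i) q x }
  have hβ : ∀ x i, (β x : Fin (c + 1) → S ⧸ I) i = φ i x := fun x i => rfl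
  have hβs : ∀ v : B, ∃ x, β x = v := by
    rintro ⟨v, x, hx⟩
    exact ⟨x, Subtype.ext (funext hx)⟩
  obtain ⟨x, hx, y, hy, hxreg, hyreg⟩ := exists_ann_pair B (by
      intro φ' hφ'
      have h2 := hindep (fun i => φ' (Pi.single i 1)) (by
        intro x
        rw [← hφ' _ (β x).2, LinearMap.pi_apply_eq_sum_univ φ']
        refine Finset.sum_congr rfl fun i _ => ?_
        rw [smul_eq_mul, mul_comm, hβ]
        congr 1
        congr 1
        funext j
        simp [Pi.single_apply, eq_comm])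
      apply LinearMap.pi_ext'
      intro i
      ext
      simpa using congrFun h2 i) (by
      intro g
      let ψ : I →ₗ[S] S ⧸ I := (g.restrictScalars S) ∘ₗ β
      obtain ⟨t, ht⟩ := huniv ψ
      refine ⟨Fintype.linearCombination (S ⧸ I) t, ?_⟩
      intro v
      obtain ⟨x, rfl⟩ := hβs v
      rw [Fintype.linearCombination_apply]
      change _ = ψ x
      rw [ht x]
      refine Finset.sum_congr rfl fun i _ => ?_
      rw [hβ, smul_eq_mul, mul_comm])
  obtain ⟨a, rfl⟩ := Ideal.Quotient.mk_surjective x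
  obtain ⟨b, rfl⟩ := Ideal.Quotient.mk_surjective y
  have hann : ∀ t : S, Ideal.Quotient.mk I t ∈ Module.annihilator (S ⧸ I) (_ ⧸ B) →
      ∀ j, ∃ f : I, ∀ i, φ i f = if i = j then Ideal.Quotient.mk I t else 0 := by
    intro t ht j
    have h1 := Module.mem_annihilator.mp ht (Submodule.Quotient.mk (Pi.single j 1))
    rw [← Submodule.Quotient.mk_smul, Submodule.Quotient.mk_eq_zero] at h1
    obtain ⟨f, hf⟩ := h1
    refine ⟨f, fun i => ?_⟩
    rw [hf]
    simp [Pi.single_apply]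
  choose f hf using fun j => hann a hx j
  choose g hg using fun j => hann b hy j
  have ha : ∀ u, a * u ∈ I → u ∈ I := fun u hu => reg_mod_of_isSMulRegular hxreg u hu
  have hb : ∀ u, b * u ∈ I ⊔ Ideal.span {a} → u ∈ I ⊔ Ideal.span {a} :=
    fun u hu => reg_pair_of_isSMulRegular hyreg u hu
  -- all powers
  have hpow : ∀ n : ℕ, Ideal.Quotient.mk I (a ^ (c + 1)) ∈ maximalIdeal (S ⧸ I) ^ n := by
    intro n
    obtain ⟨q, hnq, hq, hflat⟩ := hfrob n
    obtain ⟨s, hs, hsI⟩ := frob_key hq hflat I c φ huniv a b ha hb f g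
      (fun i j => hf j i) (fun i j => hg j i) r (maximalIdeal S) hψ
    have hmap : ∀ t ∈ maximalIdeal S, Ideal.Quotient.mk I t ∈ maximalIdeal (S ⧸ I) := by
      intro t ht
      exact algebraMap_mem_maximal (R := S ⧸ I) Ideal.Quotient.mk_surjective ht
    have h1 : Ideal.Quotient.mk I s ∈ maximalIdeal (S ⧸ I) ^ q := by
      have h2 := Ideal.mem_map_of_mem (Ideal.Quotient.mk I) hs
      rw [Ideal.map_pow] at h2
      exact Ideal.pow_right_mono (Ideal.map_le_iff_le_comap.mpr hmap) q h2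
    have h3 : Ideal.Quotient.mk I (r 0 ^ q * a ^ (c + 1)) = Ideal.Quotient.mk I s := by
      rw [Ideal.Quotient.eq]; exact hsI
    rw [← h3, map_mul] at h1
    have hu : IsUnit (Ideal.Quotient.mk I (r 0 ^ q)) := (hr.pow q).map _
    rw [Ideal.unit_mul_mem_iff_mem _ hu] at h1
    exact Ideal.pow_le_pow_right hnq h1
  have hzero : Ideal.Quotient.mk I (a ^ (c + 1)) = 0 := by
    have h1 := Ideal.iInf_pow_eq_bot_of_isLocalRing (maximalIdeal (S ⧸ I))
      (maximalIdeal.isMaximal _).ne_top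
    have h2 : Ideal.Quotient.mk I (a ^ (c + 1)) ∈ ⨅ i, maximalIdeal (S ⧸ I) ^ i :=
      (Submodule.mem_iInf _).mpr hpow
    rw [h1] at h2
    exact h2
  rw [Ideal.Quotient.eq_zero_iff_mem] at hzero
  apply hI
  rw [Ideal.eq_top_iff_one]
  exact pow_reg ha (c + 1) 1 (by rw [mul_one]; exact hzero)

/-- Surjectivity of the evaluation map. -/
theorem frob_surjective {S : Type u} [CommRing S] [IsLocalRing S] [IsNoetherianRing S]
    (hfrob : ∀ n : ℕ, ∃ q, n ≤ q ∧ PowAdd q S ∧ FrobFlat q S) (I : Ideal S) (hI : I ≠ ⊤) (c : ℕ)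
    (φ : Fin c → (I →ₗ[S] S ⧸ I))
    (huniv : ∀ ψ : I →ₗ[S] S ⧸ I, ∃ r : Fin c → S ⧸ I, ∀ x, ψ x = ∑ i, r i * φ i x)
    (hindep : ∀ r : Fin c → S ⧸ I, (∀ x, ∑ i, r i * φ i x = 0) → r = 0)
    (v : Fin c → S ⧸ I) : ∃ x : I, ∀ i, φ i x = v i := by
  classical
  have : Nontrivial (S ⧸ I) := Ideal.Quotient.nontrivial_iff.mpr hI
  have : IsLocalRing (S ⧸ I) :=
    IsLocalRing.of_surjective' (Ideal.Quotient.mk I) Ideal.Quotient.mk_surjective
  let B : Submodule (S ⧸ I) (Fin c → S ⧸ I) :=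
    { carrier := {v | ∃ x : I, ∀ i, φ i x = v i}
      add_mem' := by
        rintro v w ⟨x, hx⟩ ⟨y, hy⟩
        exact ⟨x + y, fun i => by rw [map_add, hx, hy]; rfl⟩
      zero_mem' := ⟨0, fun i => by rw [map_zero]; rfl⟩
      smul_mem' := by
        rintro r v ⟨x, hx⟩
        obtain ⟨q, rfl⟩ := Ideal.Quotient.mk_surjective r
        exact ⟨q • x, fun i => by rw [map_smul, hx, Algebra.smul_def]; rfl⟩ }
  suffices h : Subsingleton ((Fin c → S ⧸ I) ⧸ B) by
    have h1 : v ∈ B := by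
      rw [← Submodule.Quotient.mk_eq_zero]
      exact Subsingleton.elim _ _
    exact h1
  apply subsingleton_of_hom_residue (A := S ⧸ I)
  intro g
  by_contra hg
  -- some basis vector is not killed
  obtain ⟨i₀, hi₀⟩ : ∃ i, g (Submodule.Quotient.mk (Pi.single i 1)) ≠ 0 := by
    by_contra hcon
    push Not at hcon
    apply hg
    have h2 : g ∘ₗ B.mkQ = 0 := by
      apply LinearMap.pi_ext'
      intro i
      ext
      simpa using hcon i
    apply LinearMap.ext
    intro x
    obtain ⟨x, rfl⟩ := Submodule.Quotient.mk_surjective _ x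
    exact LinearMap.congr_fun h2 x
  choose r hr using fun i => (residue_surjective (R := S ⧸ I))
    (g (Submodule.Quotient.mk (Pi.single i 1)))
  choose s hs using fun i => Ideal.Quotient.mk_surjective (r i)
  have hgv : ∀ v : Fin c → S ⧸ I, g (Submodule.Quotient.mk v) = residue (S ⧸ I) (∑ i, r i * v i) := by
    intro v
    have h1 : g (Submodule.Quotient.mk v) = (g ∘ₗ B.mkQ) v := rfl
    rw [h1, LinearMap.pi_apply_eq_sum_univ (g ∘ₗ B.mkQ), map_sum]
    refine Finset.sum_congr rfl fun i _ => ?_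
    rw [map_mul, hr, mul_comm, Algebra.smul_def]
    congr 1
    rw [LinearMap.comp_apply, Submodule.mkQ_apply]
    congr 2
    funext j
    simp [Pi.single_apply, eq_comm]
  -- reindex
  have hker : ∀ x : I, ∃ z ∈ maximalIdeal S,
      Ideal.Quotient.mk I z = ∑ i, Ideal.Quotient.mk I (s i) * φ i x := by
    intro x
    obtain ⟨z, hz⟩ := Ideal.Quotient.mk_surjective (∑ i, Ideal.Quotient.mk I (s i) * φ i x)
    refine ⟨z, ?_, hz⟩
    by_contra hzm
    rw [mem_maximalIdeal, mem_nonunits_iff, not_not] at hzm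
    have h1 := hgv (fun i => φ i x)
    have h2 : (Submodule.Quotient.mk (fun i => φ i x) : _ ⧸ B) = 0 := by
      rw [Submodule.Quotient.mk_eq_zero]
      exact ⟨x, fun i => rfl⟩
    rw [h2, map_zero] at h1
    have h3 : ∑ i, r i * φ i x = Ideal.Quotient.mk I z := by
      rw [hz]
      exact Finset.sum_congr rfl fun i _ => by rw [hs]
    rw [h3] at h1
    exact ((hzm.map (Ideal.Quotient.mk I)).map (residue (S ⧸ I))).ne_zero h1.symm
  have hunit : IsUnit (s i₀) := by
    by_contra hsu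
    have h1 : Ideal.Quotient.mk I (s i₀) ∈ maximalIdeal (S ⧸ I) :=
      algebraMap_mem_maximal (R := S ⧸ I) Ideal.Quotient.mk_surjective hsu
    rw [hs, ← residue_eq_zero_iff, hr] at h1
    exact hi₀ h1
  clear_value B
  clear hgv hr hi₀ hg g
  cases c with
  | zero => exact i₀.elim0
  | succ c =>
    let σ : Equiv.Perm (Fin (c + 1)) := Equiv.swap 0 i₀
    have hσ0 : σ 0 = i₀ := Equiv.swap_apply_left 0 i₀
    refine frob_contradiction hfrob I hI c (fun i => φ (σ i)) ?_ ?_ (fun i => s (σ i))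
      (by rw [hσ0]; exact hunit) ?_
    · intro ψ
      obtain ⟨t, ht⟩ := huniv ψ
      refine ⟨fun i => t (σ i), fun x => ?_⟩
      rw [ht x]
      exact (Equiv.sum_comp σ fun i => t i * φ i x).symm
    · intro t ht
      have h1 := hindep (fun i => t (σ.symm i)) (fun x => by
        rw [← ht x, ← Equiv.sum_comp σ]
        refine Finset.sum_congr rfl fun i _ => ?_
        rw [Equiv.symm_apply_apply])
      funext i
      have h2 := congrFun h1 (σ i)
      simpa using h2
    · intro x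
      obtain ⟨z, hz, hzx⟩ := hker x
      refine ⟨z, hz, ?_⟩
      rw [hzx]
      exact (Equiv.sum_comp σ fun i => Ideal.Quotient.mk I (s i) * φ i x).symm

/-- In characteristic `p`: if `Hom(I, S/I)` is free and `S` is regular local, then `I` is
generated by a regular sequence. -/
theorem exists_regularSeq_of_free_frob {S : Type u} [CommRing S] [IsLocalRing S]
    [IsNoetherianRing S] (hfrob : ∀ n : ℕ, ∃ q, n ≤ q ∧ PowAdd q S ∧ FrobFlat q S)
    (I : Ideal S) (hI : I ≠ ⊤) (n : ℕ) (hpd : PD S (S ⧸ I) n)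
    (hfree : Module.Free (S ⧸ I) (RingHom.ker (algebraMap S (S ⧸ I)) →ₗ[S] (S ⧸ I))) :
    ∃ rs : List S, IsRegular S rs ∧ Ideal.ofList rs = I := by
  have : Nontrivial (S ⧸ I) := Ideal.Quotient.nontrivial_iff.mpr hI
  have : IsLocalRing (S ⧸ I) :=
    IsLocalRing.of_surjective' (Ideal.Quotient.mk I) Ideal.Quotient.mk_surjective
  let K := RingHom.ker (algebraMap S (S ⧸ I))
  let e : I ≃ₗ[S] K := LinearEquiv.ofEq _ _ Ideal.mk_ker.symm
  have : Module.Finite (S ⧸ I) (K →ₗ[S] (S ⧸ I)) := finite_hom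
  let b := Module.finBasis (S ⧸ I) (K →ₗ[S] (S ⧸ I))
  set c := Module.finrank (S ⧸ I) (K →ₗ[S] (S ⧸ I))
  have hexp : ∀ ψ : K →ₗ[S] (S ⧸ I), ∀ x, ψ x = ∑ i, b.repr ψ i * b i x := by
    intro ψ x
    conv_lhs => rw [← b.sum_repr ψ]
    rw [LinearMap.sum_apply]
    rfl
  obtain ⟨rs, h1, h2⟩ := exists_regularSeq_of_free_dual (R := S ⧸ I) c S
    Ideal.Quotient.mk_surjective n hpd (fun i => b i) (by
      intro v
      obtain ⟨x, hx⟩ := frob_surjective hfrob I hI c (fun i => (b i).comp e.toLinearMap) (by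
        intro ψ
        refine ⟨b.repr (ψ.comp e.symm.toLinearMap), fun x => ?_⟩
        have := hexp (ψ.comp e.symm.toLinearMap) (e x)
        rw [LinearMap.comp_apply, LinearEquiv.coe_coe, LinearEquiv.symm_apply_apply] at this
        exact this) (by
        intro r hr
        have h1 : ∑ i, r i • b i = 0 := by
          ext x
          have := hr (e.symm x)
          rw [LinearMap.sum_apply, LinearMap.zero_apply, ← this]
          refine Finset.sum_congr rfl fun i _ => ?_
          rw [LinearMap.comp_apply, LinearEquiv.coe_coe, LinearEquiv.apply_symm_apply]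
          rfl
        funext i
        exact Fintype.linearIndependent_iff.mp b.linearIndependent _ h1 i) v
      exact ⟨e x, hx⟩) (fun ψ => ⟨b.repr ψ, hexp ψ⟩)
  exact ⟨rs, h1, h2.trans Ideal.mk_ker⟩

/-- The version for regular local rings of characteristic `p`. -/
theorem regular_free_charP (S : Type u) [CommRing S] [IsRegularLocalRing S] (p : ℕ)
    [Fact p.Prime] [CharP S p] (I : Ideal S) (hI : I ≠ ⊤)
    (hfree : Module.Free (S ⧸ I) (I.Cotangent →ₗ[S ⧸ I] (S ⧸ I))) :
    ∃ rs : List S, IsRegular S rs ∧ Ideal.ofList rs = I := by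
  obtain ⟨n, hn⟩ := finPD_of_isRegularLocalRing S
  refine exists_regularSeq_of_free_frob (fun m => ?_) I hI n (hn _)
    (Module.Free.of_equiv (cotangentHomEquiv I (S ⧸ I)))
  refine ⟨p ^ m, (Nat.lt_pow_self (Fact.out : p.Prime).one_lt).le, powAdd_of_char p m,
    frobFlat_of_isRegularLocalRing S (powAdd_of_char p m)⟩

end Pool.Agent.Helper19
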