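import Pool.Agent.Helper19.FrobFlat

/-!
Frobenius powers of ideals over rings with flat Frobenius.
-/

universe u

open IsLocalRing Module

namespace Pool.Agent.Helper19

variable {q : ℕ} {S : Type u} [CommRing S]

/-- the ideal generated by `q`-th powers of elements of `I` -/
def frobPow (q : ℕ) (I : Ideal S) : Ideal S := Ideal.span ((fun x => x ^ q) '' (I : Set S))

lemma pow_mem_frobPow {I : Ideal S} {x : S} (hx : x ∈ I) : x ^ q ∈ frobPow q I :=
  Ideal.subset_span ⟨x, hx, rfl⟩

lemma frobPow_le (hq : 0 < q) (I : Ideal S) : frobPow q I ≤ I := by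
  rw [frobPow, Ideal.span_le]
  rintro _ ⟨x, hx, rfl⟩
  exact Ideal.pow_mem_of_mem _ hx _ hq

lemma frobPow_mono {I J : Ideal S} (h : I ≤ J) : frobPow q I ≤ frobPow q J :=
  Ideal.span_mono (Set.image_mono h)

lemma mem_frobPow {I : Ideal S} {x : S} (hx : x ∈ frobPow q I) :
    ∃ (ι : Type) (_ : Fintype ι) (y r : ι → S), (∀ i, y i ∈ I) ∧ x = ∑ i, r i * y i ^ q := by
  rw [frobPow] at hx
  induction hx using Submodule.span_induction with
  | mem x hx =>
    obtain ⟨y, hy, rfl⟩ := hx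
    exact ⟨Unit, inferInstance, fun _ => y, fun _ => 1, fun _ => hy, by simp⟩
  | zero => exact ⟨Empty, inferInstance, fun i => i.elim, fun i => i.elim, fun i => i.elim,
      by simp⟩
  | add a b _ _ ha hb =>
    obtain ⟨ι, _, y, r, h1, h2⟩ := ha
    obtain ⟨κ, _, y', r', h1', h2'⟩ := hb
    refine ⟨ι ⊕ κ, inferInstance, Sum.elim y y', Sum.elim r r', ?_, ?_⟩
    · rintro (i | i)
      · exact h1 i
      · exact h1' i
    · rw [Fintype.sum_sum_type, h2, h2']
      simp only [Sum.elim_inl, Sum.elim_inr]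
  | smul c a _ ha =>
    obtain ⟨ι, _, y, r, h1, h2⟩ := ha
    refine ⟨ι, inferInstance, y, fun i => c * r i, h1, ?_⟩
    rw [h2, smul_eq_mul, Finset.mul_sum]
    exact Finset.sum_congr rfl fun i _ => by ring

/-- `F^*`-flatness: a nonzerodivisor modulo `I` is one modulo `I^[q]`. -/
lemma frobPow_regular (_hq : PowAdd q S) (hflat : FrobFlat q S) {I : Ideal S} {a : S}
    (ha : ∀ u, a * u ∈ I → u ∈ I) (u : S) (hu : a ^ q * u ∈ frobPow q I) : u ∈ frobPow q I := by
  obtain ⟨ι, _, y, r, h1, h2⟩ := mem_frobPow hu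
  have h3 : ∑ i : ι ⊕ Unit, Sum.elim r (fun _ => -u) i * (Sum.elim y (fun _ => a) i) ^ q = 0 := by
    rw [Fintype.sum_sum_type]
    simp only [Sum.elim_inl, Sum.elim_inr, Finset.univ_unique, Finset.sum_singleton]
    rw [← h2]; ring
  obtain ⟨κ, _, b, s, h4, h5⟩ := hflat _ _ _ h3
  have h6 : u = - ∑ j, b (Sum.inr ()) j ^ q * s j := by
    have := h4 (Sum.inr ())
    simp only [Sum.elim_inr] at this
    rw [← this, neg_neg]
  rw [h6]
  apply neg_mem
  refine Ideal.sum_mem _ fun j _ => Ideal.mul_mem_right _ _ (pow_mem_frobPow ?_)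
  apply ha
  have h7 := h5 j
  rw [Fintype.sum_sum_type] at h7
  simp only [Sum.elim_inl, Sum.elim_inr, Finset.univ_unique, Finset.sum_singleton] at h7
  have h8 : a * b (Sum.inr ()) j = - ∑ i, y i * b (Sum.inl i) j :=
    (neg_eq_of_add_eq_zero_right h7).symm
  rw [h8]
  exact neg_mem (Ideal.sum_mem _ fun i _ => Ideal.mul_mem_right _ _ (h1 i))

lemma frobPow_regular' (hq : PowAdd q S) (hflat : FrobFlat q S) {I : Ideal S} {a : S}
    (ha : ∀ u, a * u ∈ I → u ∈ I) (u : S) (hu : a * u ∈ frobPow q I) : u ∈ frobPow q I := by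
  apply frobPow_regular hq hflat ha
  have : a ^ q * u = a ^ (q - 1) * (a * u) := by
    rw [← mul_assoc, ← pow_succ, Nat.sub_add_cancel hq.1]
  rw [this]
  exact Ideal.mul_mem_left _ _ hu

lemma frobPow_sup_span (hq : PowAdd q S) (I : Ideal S) (a : S) :
    frobPow q (I ⊔ Ideal.span {a}) = frobPow q I ⊔ Ideal.span {a ^ q} := by
  apply le_antisymm
  · rw [frobPow, Ideal.span_le]
    rintro _ ⟨x, hx, rfl⟩
    obtain ⟨y, hy, z, hz, rfl⟩ := Submodule.mem_sup.mp hx
    obtain ⟨c, rfl⟩ := Ideal.mem_span_singleton'.mp hz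
    change (y + c * a) ^ q ∈ _
    rw [hq.2, mul_pow]
    exact Ideal.add_mem _ (Ideal.mem_sup_left (pow_mem_frobPow hy))
      (Ideal.mem_sup_right (Ideal.mul_mem_left _ _ (Ideal.mem_span_singleton_self _)))
  · refine sup_le (frobPow_mono le_sup_left) ?_
    rw [Ideal.span_singleton_le_iff_mem]
    exact pow_mem_frobPow (Ideal.mem_sup_right (Ideal.mem_span_singleton_self a))

/-- regular sequences `a, b` modulo `I` stay regular modulo `I^[q]` -/
lemma frobPow_regular_pair (hq : PowAdd q S) (hflat : FrobFlat q S) {I : Ideal S} {a b : S}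
    (ha : ∀ u, a * u ∈ I → u ∈ I)
    (hb : ∀ u, b * u ∈ I ⊔ Ideal.span {a} → u ∈ I ⊔ Ideal.span {a}) (x y : S)
    (hxy : b * x - a * y ∈ frobPow q I) : ∃ w, x - a * w ∈ frobPow q I := by
  have h1 : b ^ q * (a ^ (q - 1) * x) ∈ frobPow q (I ⊔ Ideal.span {a}) := by
    rw [frobPow_sup_span hq]
    have h2 : b ^ q * (a ^ (q - 1) * x) = b ^ (q - 1) * a ^ (q - 1) * (b * x - a * y) +
        b ^ (q - 1) * y * a ^ q := by
      have ha' : a ^ q = a ^ (q - 1) * a := by rw [← pow_succ, Nat.sub_add_cancel hq.1]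
      have hb' : b ^ q = b ^ (q - 1) * b := by rw [← pow_succ, Nat.sub_add_cancel hq.1]
      rw [ha', hb']; ring
    rw [h2]
    exact Ideal.add_mem _ (Ideal.mem_sup_left (Ideal.mul_mem_left _ _ hxy))
      (Ideal.mem_sup_right (Ideal.mul_mem_left _ _ (Ideal.mem_span_singleton_self _)))
  have h3 := frobPow_regular hq hflat hb _ h1
  rw [frobPow_sup_span hq] at h3
  obtain ⟨j, hj, z, hz, h4⟩ := Submodule.mem_sup.mp h3
  obtain ⟨w, rfl⟩ := Ideal.mem_span_singleton'.mp hz
  refine ⟨w, ?_⟩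
  apply frobPow_regular hq hflat ha
  have h5 : a ^ q * (x - a * w) = a * (a ^ (q - 1) * x - w * a ^ q) := by
    have ha' : a ^ q = a ^ (q - 1) * a := by rw [← pow_succ, Nat.sub_add_cancel hq.1]
    rw [ha']; ring
  rw [h5, ← h4, add_sub_cancel_right]
  exact Ideal.mul_mem_left _ _ hj

/-- the Frobenius twist of a functional `I → S/I` -/
theorem exists_frobTwist (hq : PowAdd q S) (hflat : FrobFlat q S) {I : Ideal S}
    (φ : I →ₗ[S] S ⧸ I) :
    ∃ Ψ : frobPow q I →ₗ[S] S ⧸ frobPow q I, ∀ (x : I) (z : S), Ideal.Quotient.mk I z = φ x →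
      Ψ ⟨(x : S) ^ q, pow_mem_frobPow x.2⟩ = Ideal.Quotient.mk _ (z ^ q) := by
  classical
  choose z hz using fun x : I => Ideal.Quotient.mk_surjective (φ x)
  let L : (I →₀ S) →ₗ[S] frobPow q I :=
    Finsupp.linearCombination S (fun x : I => (⟨(x : S) ^ q, pow_mem_frobPow x.2⟩ : frobPow q I))
  let L' : (I →₀ S) →ₗ[S] S ⧸ frobPow q I :=
    Finsupp.linearCombination S (fun x : I => Ideal.Quotient.mk (frobPow q I) (z x ^ q))
  have hL : Function.Surjective L := by
    rintro ⟨x, hx⟩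
    have h1 : ∀ x ∈ Ideal.span ((fun x : S => x ^ q) '' (I : Set S)), ∃ r, (L r : S) = x := by
      intro x hx
      induction hx using Submodule.span_induction with
      | mem x hx =>
        obtain ⟨y, hy, rfl⟩ := hx
        exact ⟨Finsupp.single ⟨y, hy⟩ 1, by simp [L]⟩
      | zero => exact ⟨0, by rw [map_zero]; rfl⟩
      | add a b _ _ ha' hb' =>
        obtain ⟨r, hr⟩ := ha'
        obtain ⟨r', hr'⟩ := hb'
        exact ⟨r + r', by rw [map_add, Submodule.coe_add, hr, hr']⟩
      | smul c a _ ha' =>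
        obtain ⟨r, hr⟩ := ha'
        exact ⟨c • r, by rw [map_smul, Submodule.coe_smul, hr]⟩
    obtain ⟨r, hr⟩ := h1 x hx
    exact ⟨r, Subtype.ext hr⟩
  have hker : LinearMap.ker L ≤ LinearMap.ker L' := by
    intro r hr
    rw [LinearMap.mem_ker] at hr ⊢
    -- reindex the support by `Fin n`
    let e := r.support.equivFin
    let y : Fin r.support.card → I := fun i => (e.symm i : I)
    have hsum : ∀ {N : Type u} [AddCommGroup N] (g : I → N),
        ∑ x ∈ r.support, g x = ∑ i, g (y i) := by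
      intro N _ g
      rw [← Finset.sum_coe_sort]
      exact (Equiv.sum_comp e.symm (fun x : r.support => g x)).symm
    have h1 : ∑ i, r (y i) * (y i : S) ^ q = 0 := by
      have h2 := congrArg Subtype.val hr
      rw [Finsupp.linearCombination_apply, Finsupp.sum, Submodule.coe_sum] at h2
      rw [← hsum (fun x => r x * (x : S) ^ q)]
      exact h2
    obtain ⟨κ, _, a, s, h3, h4⟩ := hflat _ _ _ h1
    rw [Finsupp.linearCombination_apply, Finsupp.sum,
      hsum (fun x => r x • Ideal.Quotient.mk (frobPow q I) (z x ^ q))]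
    have h5 : ∑ i, r (y i) • Ideal.Quotient.mk (frobPow q I) (z (y i) ^ q) =
        Ideal.Quotient.mk (frobPow q I) (∑ j, (∑ i, a i j * z (y i)) ^ q * s j) := by
      rw [map_sum]
      have h6 : ∀ i, r (y i) • Ideal.Quotient.mk (frobPow q I) (z (y i) ^ q) =
          ∑ j, Ideal.Quotient.mk (frobPow q I) ((a i j * z (y i)) ^ q * s j) := by
        intro i
        have h7 : r (y i) • Ideal.Quotient.mk (frobPow q I) (z (y i) ^ q) =
          Ideal.Quotient.mk (frobPow q I) (r (y i) * z (y i) ^ q) := rfl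
        rw [h7, ← map_sum, h3 i, Finset.sum_mul]
        congr 1
        exact Finset.sum_congr rfl fun j _ => by rw [mul_pow]; ring
      rw [Finset.sum_congr rfl fun i _ => h6 i, Finset.sum_comm]
      refine Finset.sum_congr rfl fun j _ => ?_
      rw [hq.sum_pow, Finset.sum_mul, map_sum]
    rw [h5, Ideal.Quotient.eq_zero_iff_mem]
    refine Ideal.sum_mem _ fun j _ => Ideal.mul_mem_right _ _ (pow_mem_frobPow ?_)
    rw [← Ideal.Quotient.eq_zero_iff_mem, map_sum]
    have h8 : ∀ i, Ideal.Quotient.mk I (a i j * z (y i)) = φ (a i j • y i) := by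
      intro i
      rw [map_smul, ← hz]; rfl
    rw [Finset.sum_congr rfl fun i _ => h8 i, ← map_sum]
    have h9 : ∑ i, a i j • y i = 0 := by
      apply Subtype.ext
      rw [Submodule.coe_sum, Submodule.coe_zero, ← h4 j]
      exact Finset.sum_congr rfl fun i _ => by
        change a i j * (y i : S) = _
        rw [mul_comm]
    rw [h9, map_zero]
  let Ψ : frobPow q I →ₗ[S] S ⧸ frobPow q I :=
    ((LinearMap.ker L).liftQ L' hker) ∘ₗ (L.quotKerEquivOfSurjective hL).symm.toLinearMap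
  have hΨ : ∀ r, Ψ (L r) = L' r := by
    intro r
    have h1 : (L.quotKerEquivOfSurjective hL).symm (L r) = Submodule.Quotient.mk r := by
      rw [LinearEquiv.symm_apply_eq]; rfl
    change ((LinearMap.ker L).liftQ L' hker) ((L.quotKerEquivOfSurjective hL).symm (L r)) = _
    rw [h1]; rfl
  refine ⟨Ψ, fun x z' hz' => ?_⟩
  have h1 : (⟨(x : S) ^ q, pow_mem_frobPow x.2⟩ : frobPow q I) = L (Finsupp.single x 1) := by
    simp [L]
  rw [h1, hΨ]
  have h2 : L' (Finsupp.single x 1) = Ideal.Quotient.mk (frobPow q I) (z x ^ q) := by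
    simp [L']
  rw [h2, Ideal.Quotient.eq, ← hq.sub_pow]
  apply pow_mem_frobPow
  rw [← Ideal.Quotient.eq, hz, hz']

end Pool.Agent.Helper19
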