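import Mathlib

/-!
A recursive Koszul complex and iterated connecting maps.
-/

universe u v w

namespace Pool.Agent.Helper19

/-- index set of the Koszul complex on `n` variables -/
abbrev Ix : ℕ → Type
  | 0 => Unit
  | n + 1 => Ix n ⊕ Ix n

/-- index of the empty set -/
def kbot : ∀ n, Ix n
  | 0 => ()
  | n + 1 => Sum.inl (kbot n)

/-- index of the full set -/
def ktop : ∀ n, Ix n
  | 0 => ()
  | n + 1 => Sum.inr (ktop n)

section Diff

variable {S : Type u} [CommRing S] {M : Type v} [AddCommGroup M] [Module S M]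
  {M' : Type w} [AddCommGroup M'] [Module S M']

/-- Koszul differential -/
def kd (f : ℕ → S) : ∀ n, (Ix n → M) → (Ix n → M)
  | 0, _ => 0
  | n + 1, z => Sum.elim (kd f n (fun s => z (Sum.inl s)))
      (fun s => f n • z (Sum.inl s) - kd f n (fun s => z (Sum.inr s)) s)

lemma kd_inl (f : ℕ → S) (n : ℕ) (z : Ix (n + 1) → M) (s : Ix n) :
    kd f (n + 1) z (Sum.inl s) = kd f n (fun s => z (Sum.inl s)) s := rfl

lemma kd_inr (f : ℕ → S) (n : ℕ) (z : Ix (n + 1) → M) (s : Ix n) :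
    kd f (n + 1) z (Sum.inr s) =
      f n • z (Sum.inl s) - kd f n (fun s => z (Sum.inr s)) s := rfl

lemma kd_map (f : ℕ → S) (g : M →ₗ[S] M') (n : ℕ) :
    ∀ (z : Ix n → M) (s : Ix n), kd f n (fun s => g (z s)) s = g (kd f n z s) := by
  induction n with
  | zero => intro z s; exact (map_zero g).symm
  | succ n ih =>
    rintro z (s | s)
    · rw [kd_inl, kd_inl]; exact ih _ s
    · rw [kd_inr, kd_inr, map_sub, map_smul, ← ih]

lemma kd_add (f : ℕ → S) (n : ℕ) :
    ∀ (z z' : Ix n → M) (s : Ix n), kd f n (fun s => z s + z' s) s = kd f n z s + kd f n z' s := by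
  induction n with
  | zero => intro z z' s; exact (add_zero (0 : M)).symm
  | succ n ih =>
    rintro z z' (s | s)
    · rw [kd_inl, kd_inl, kd_inl]; exact ih _ _ s
    · rw [kd_inr, kd_inr, kd_inr, ih, smul_add]; abel

lemma kd_smul (f : ℕ → S) (r : S) (n : ℕ) (z : Ix n → M) (s : Ix n) :
    kd f n (fun s => r • z s) s = r • kd f n z s :=
  kd_map f (r • LinearMap.id : M →ₗ[S] M) n z s

lemma kd_neg (f : ℕ → S) (n : ℕ) (z : Ix n → M) (s : Ix n) :
    kd f n (fun s => - z s) s = - kd f n z s := by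
  have := kd_smul f (-1 : S) n z s
  simpa using this

lemma kd_sub (f : ℕ → S) (n : ℕ) (z z' : Ix n → M) (s : Ix n) :
    kd f n (fun s => z s - z' s) s = kd f n z s - kd f n z' s := by
  simp only [sub_eq_add_neg]
  rw [kd_add f n z (fun s => - z' s) s, kd_neg]

lemma kd_zero (f : ℕ → S) (n : ℕ) (s : Ix n) : kd f n (fun _ => (0 : M)) s = 0 := by
  have := kd_map f (0 : M →ₗ[S] M) n (fun _ => 0) s
  simpa using this

lemma kd_kd (f : ℕ → S) (n : ℕ) :
    ∀ (z : Ix n → M) (s : Ix n), kd f n (kd f n z) s = 0 := by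
  induction n with
  | zero => intro z s; rfl
  | succ n ih =>
    rintro z (s | s)
    · rw [kd_inl]; exact ih _ s
    · rw [kd_inr, kd_inl]
      have h1 : (fun s => kd f (n + 1) z (Sum.inr s)) = fun s => f n • z (Sum.inl s) -
          kd f n (fun s => z (Sum.inr s)) s := rfl
      rw [h1, kd_sub f n (fun s => f n • z (Sum.inl s)), kd_smul f (f n) n
        (fun s => z (Sum.inl s)), ih, sub_zero, sub_self]

lemma kd_mem (f : ℕ → S) (I : Ideal S) (n : ℕ) :
    ∀ (_ : ∀ j < n, f j ∈ I) (z : Ix n → S) (s : Ix n), kd f n z s ∈ I := by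
  induction n with
  | zero => intro _ z s; exact I.zero_mem
  | succ n ih =>
    rintro hf z (s | s)
    · rw [kd_inl]; exact ih (fun j hj => hf j (by omega)) _ s
    · rw [kd_inr]
      exact I.sub_mem (I.mul_mem_right _ (hf n (by omega)))
        (ih (fun j hj => hf j (by omega)) _ s)

end Diff

section Step

variable {S : Type u} [CommRing S] (f : ℕ → S) (n : ℕ) (J : Ideal S)

/-- one connecting step -/
def KStep (Ψ : J →ₗ[S] S ⧸ J) (z z' : Ix n → S) : Prop :=
  ∃ h : ∀ s, kd f n z s ∈ J, ∀ s, Ideal.Quotient.mk J (z' s) = Ψ ⟨kd f n z s, h s⟩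

/-- iterated connecting steps -/
def KReach : List (J →ₗ[S] S ⧸ J) → (Ix n → S) → (Ix n → S) → Prop
  | [], z, z' => z = z'
  | Ψ :: L, z, z' => ∃ y, KStep f n J Ψ z y ∧ KReach L y z'

variable {f n J}

lemma KStep.exists (Ψ : J →ₗ[S] S ⧸ J) (z : Ix n → S) (h : ∀ s, kd f n z s ∈ J) :
    ∃ z', KStep f n J Ψ z z' := by
  choose z' hz' using fun s => Ideal.Quotient.mk_surjective (Ψ ⟨kd f n z s, h s⟩)
  exact ⟨z', h, hz'⟩

lemma KStep.cycle {Ψ : J →ₗ[S] S ⧸ J} {z z' : Ix n → S} (h : KStep f n J Ψ z z') (s : Ix n) :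
    kd f n z' s ∈ J := by
  obtain ⟨hz, hz'⟩ := h
  let y : Ix n → J := fun s => ⟨kd f n z s, hz s⟩
  have h1 : kd f n y s = 0 := by
    apply Subtype.ext
    have h2 := kd_map f J.subtype n y s
    change kd f n (kd f n z) s = ((kd f n y s : J) : S) at h2
    rw [← h2, kd_kd]; rfl
  have h3 := kd_map f Ψ n y s
  rw [h1, map_zero] at h3
  have h4 := kd_map f (Ideal.Quotient.mkₐ S J).toLinearMap n z' s
  have h5 : (fun s => (Ideal.Quotient.mkₐ S J).toLinearMap (z' s)) = fun s => Ψ (y s) := by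
    funext s; exact hz' s
  rw [h5, h3] at h4
  exact Ideal.Quotient.eq_zero_iff_mem.mp h4.symm

lemma KReach.exists (L : List (J →ₗ[S] S ⧸ J)) :
    ∀ (z : Ix n → S) (_ : ∀ s, kd f n z s ∈ J), ∃ z', KReach f n J L z z' := by
  induction L with
  | nil => intro z _; exact ⟨z, rfl⟩
  | cons Ψ L ih =>
    intro z hz
    obtain ⟨y, hy⟩ := KStep.exists Ψ z hz
    obtain ⟨z', hz'⟩ := ih y hy.cycle
    exact ⟨z', y, hy, hz'⟩

lemma KStep.congr {Ψ : J →ₗ[S] S ⧸ J} {z z' u u' : Ix n → S} (h : KStep f n J Ψ z z')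
    (h' : KStep f n J Ψ u u') (hzu : ∃ t : Ix n → S, ∀ s, z s - u s - kd f n t s ∈ J) :
    ∃ t : Ix n → S, ∀ s, z' s - u' s - kd f n t s ∈ J := by
  obtain ⟨t, ht⟩ := hzu
  obtain ⟨hz, hz'⟩ := h
  obtain ⟨hu, hu'⟩ := h'
  let ε : Ix n → J := fun s => ⟨z s - u s - kd f n t s, ht s⟩
  choose t' ht' using fun s => Ideal.Quotient.mk_surjective (Ψ (ε s))
  refine ⟨t', fun s => ?_⟩
  rw [← Ideal.Quotient.eq_zero_iff_mem, map_sub, map_sub, hz', hu']
  have h1 : (⟨kd f n z s, hz s⟩ : J) - ⟨kd f n u s, hu s⟩ = kd f n ε s := by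
    apply Subtype.ext
    have h2 := kd_map f J.subtype n ε s
    change kd f n (fun s => z s - u s - kd f n t s) s = ((kd f n ε s : J) : S) at h2
    rw [← h2, kd_sub f n (fun s => z s - u s), kd_sub, kd_kd, sub_zero]
    rfl
  rw [← map_sub, h1, ← kd_map f Ψ n ε s]
  have h4 := kd_map f (Ideal.Quotient.mkₐ S J).toLinearMap n t' s
  have h5 : (fun s => (Ideal.Quotient.mkₐ S J).toLinearMap (t' s)) = fun s => Ψ (ε s) := by
    funext s; exact ht' s
  rw [h5] at h4
  rw [h4, sub_eq_zero]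
  rfl

lemma KReach.congr (L : List (J →ₗ[S] S ⧸ J)) :
    ∀ {z z' u u' : Ix n → S} (_ : KReach f n J L z z') (_ : KReach f n J L u u')
      (_ : ∃ t : Ix n → S, ∀ s, z s - u s - kd f n t s ∈ J),
      ∃ t : Ix n → S, ∀ s, z' s - u' s - kd f n t s ∈ J := by
  induction L with
  | nil =>
    rintro z z' u u' rfl rfl h
    exact h
  | cons Ψ L ih =>
    rintro z z' u u' ⟨y, hy, hyz⟩ ⟨v, hv, hvu⟩ h
    exact ih hyz hvu (hy.congr hv h)

lemma KStep.smul {Ψ : J →ₗ[S] S ⧸ J} {z z' : Ix n → S} (h : KStep f n J Ψ z z') (r : S) :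
    KStep f n J Ψ (fun s => r • z s) (fun s => r • z' s) := by
  obtain ⟨hz, hz'⟩ := h
  refine ⟨fun s => ?_, fun s => ?_⟩
  · rw [kd_smul]; exact J.mul_mem_left _ (hz s)
  · have h1 : (⟨kd f n (fun s => r • z s) s, by rw [kd_smul]; exact J.mul_mem_left _ (hz s)⟩ : J)
        = r • ⟨kd f n z s, hz s⟩ := by
      apply Subtype.ext
      change kd f n (fun s => r • z s) s = r • kd f n z s
      rw [kd_smul]
    rw [h1, Ψ.map_smul, ← hz']
    rfl

lemma KReach.smul (L : List (J →ₗ[S] S ⧸ J)) (r : S) :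
    ∀ {z z' : Ix n → S} (_ : KReach f n J L z z'),
      KReach f n J L (fun s => r • z s) (fun s => r • z' s) := by
  induction L with
  | nil => rintro z z' rfl; rfl
  | cons Ψ L ih =>
    rintro z z' ⟨y, hy, hyz⟩
    exact ⟨_, hy.smul r, ih hyz⟩

lemma KStep.shift {Ψ : J →ₗ[S] S ⧸ J} {z z' : Ix n → S} (h : KStep f n J Ψ z z') :
    KStep f (n + 1) J Ψ (Sum.elim (fun _ => 0) z) (Sum.elim (fun _ => 0) (fun s => - z' s)) := by
  obtain ⟨hz, hz'⟩ := h
  have h0 : ∀ s : Ix n, kd f (n + 1) (Sum.elim (fun _ => (0 : S)) z) (Sum.inl s) = 0 := by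
    intro s
    rw [kd_inl]; exact kd_zero f n s
  have h1 : ∀ s : Ix n, kd f (n + 1) (Sum.elim (fun _ => (0 : S)) z) (Sum.inr s) =
      - kd f n z s := by
    intro s
    rw [kd_inr]
    simp
  have hmem : ∀ s, kd f (n + 1) (Sum.elim (fun _ => (0 : S)) z) s ∈ J := by
    rintro (s | s)
    · rw [h0]; exact J.zero_mem
    · rw [h1]; exact J.neg_mem (hz s)
  refine ⟨hmem, ?_⟩
  rintro (s | s)
  · have h2 : (⟨_, hmem (Sum.inl s)⟩ : J) = 0 := Subtype.ext (h0 s)
    rw [h2, map_zero]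
    exact map_zero _
  · have h2 : (⟨_, hmem (Sum.inr s)⟩ : J) = - ⟨kd f n z s, hz s⟩ := Subtype.ext (h1 s)
    rw [h2, map_neg, ← hz']
    exact map_neg _ _

lemma KReach.shift (L : List (J →ₗ[S] S ⧸ J)) :
    ∀ {z z' : Ix n → S} (_ : KReach f n J L z z'),
      ∃ ε : S, (ε = 1 ∨ ε = -1) ∧ KReach f (n + 1) J L (Sum.elim (fun _ => 0) z)
        (Sum.elim (fun _ => 0) (fun s => ε • z' s)) := by
  induction L with
  | nil =>
    rintro z z' rfl
    refine ⟨1, Or.inl rfl, ?_⟩
    change Sum.elim _ _ = Sum.elim _ _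
    simp
  | cons Ψ L ih =>
    rintro z z' ⟨y, hy, hyz⟩
    obtain ⟨ε, hε, hr⟩ := ih hyz
    have h1 := KReach.smul L (-1 : S) hr
    refine ⟨- ε, ?_, _, hy.shift, ?_⟩
    · rcases hε with rfl | rfl
      · right; rfl
      · left; ring
    · convert h1 using 1
      · funext s
        rcases s with s | s <;> simp
      · funext s
        rcases s with s | s <;> simp

/-- the functionals in decreasing order -/
def downList (Ψ : ℕ → (J →ₗ[S] S ⧸ J)) : ℕ → List (J →ₗ[S] S ⧸ J)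
  | 0 => []
  | n + 1 => Ψ n :: downList Ψ n

lemma KReach.range {Ψ : ℕ → (J →ₗ[S] S ⧸ J)} (m : ℕ) :
    ∀ {z z' : Ix n → S} (_ : KReach f n J (downList Ψ (m + 1)) z z') (s : Ix n),
      Ideal.Quotient.mk J (z' s) ∈ LinearMap.range (Ψ 0) := by
  induction m with
  | zero =>
    rintro z z' ⟨y, ⟨hy, hy'⟩, hyz⟩ s
    have : y = z' := hyz
    subst this
    exact ⟨_, (hy' s).symm⟩
  | succ m ih =>
    rintro z z' ⟨y, hy, hyz⟩ s
    exact ih hyz s

/-- the element `x` in degree zero -/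
def ksingle (x : S) : ∀ n, Ix n → S
  | 0, _ => x
  | n + 1, s => Sum.elim (ksingle x n) (fun _ => 0) s

lemma ksingle_inl (x : S) (n : ℕ) (s : Ix n) : ksingle x (n + 1) (Sum.inl s) = ksingle x n s := rfl

lemma ksingle_inr (x : S) (n : ℕ) (s : Ix n) : ksingle x (n + 1) (Sum.inr s) = 0 := rfl

lemma ksingle_smul (r x : S) (n : ℕ) (s : Ix n) : r • ksingle x n s = ksingle (r * x) n s := by
  induction n with
  | zero => rfl
  | succ n ih =>
    rcases s with s | s
    · exact ih s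
    · exact smul_zero r

lemma ksingle_sub (x y : S) (n : ℕ) (s : Ix n) :
    ksingle x n s - ksingle y n s = ksingle (x - y) n s := by
  induction n with
  | zero => rfl
  | succ n ih =>
    rcases s with s | s
    · exact ih s
    · exact sub_zero 0

lemma ksingle_mem {x : S} (hx : x ∈ J) (n : ℕ) (s : Ix n) : ksingle x n s ∈ J := by
  induction n with
  | zero => exact hx
  | succ n ih =>
    rcases s with s | s
    · exact ih s
    · exact J.zero_mem

/-- the entries of the differential of an element in degree zero -/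
lemma kd_ksingle (x : S) (n : ℕ) :
    ∀ s : Ix n, kd f n (ksingle x n) s = 0 ∨ ∃ j < n, kd f n (ksingle x n) s = f j * x := by
  induction n with
  | zero => intro s; left; rfl
  | succ n ih =>
    rintro (s | s)
    · rw [kd_inl]
      rcases ih s with h | ⟨j, hj, h⟩
      · exact Or.inl h
      · exact Or.inr ⟨j, by omega, h⟩
    · rw [kd_inr]
      have h1 : kd f n (fun s => ksingle x (n + 1) (Sum.inr s)) s = 0 := kd_zero f n s
      rw [h1, sub_zero, ksingle_inl]
      have h2 : ksingle x n s = 0 ∨ ksingle x n s = x := by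
        clear ih h1
        induction n with
        | zero => right; rfl
        | succ n ih =>
          rcases s with s | s
          · exact ih s
          · left; rfl
      rcases h2 with h2 | h2
      · left; rw [h2, smul_zero]
      · right; exact ⟨n, by omega, by rw [h2]; rfl⟩

lemma kd_ksingle_mem (x : S) (n : ℕ) (h : ∀ j < n, f j * x ∈ J) (s : Ix n) :
    kd f n (ksingle x n) s ∈ J := by
  rcases kd_ksingle (f := f) x n s with h1 | ⟨j, hj, h1⟩
  · rw [h1]; exact J.zero_mem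
  · rw [h1]; exact h j hj

/-- explicit evaluation of the iterated steps -/
lemma KReach.explicit {q : ℕ} (hq : 0 < q) (Ψ : ℕ → (J →ₗ[S] S ⧸ J)) (α : ℕ → S) (n : ℕ) :
    ∀ (hfJ : ∀ j < n, f j ^ q ∈ J)
      (_ : ∀ i < n, ∀ (j : ℕ) (hj : j < i) (hjn : j < n), Ψ i ⟨f j ^ q, hfJ j hjn⟩ = 0)
      (_ : ∀ (i : ℕ) (hi : i < n), Ψ i ⟨f i ^ q, hfJ i hi⟩ = Ideal.Quotient.mk J (α i)) (m : S),
      ∃ (u : Ix n → S) (ε : S), (ε = 1 ∨ ε = -1) ∧
        KReach f n J (downList Ψ n) (ksingle (m * ∏ j ∈ Finset.range n, f j ^ (q - 1)) n) u ∧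
        u (ktop n) - ε * (m * ∏ j ∈ Finset.range n, α j) ∈ J := by
  induction n with
  | zero =>
    intro _ _ _ m
    refine ⟨_, 1, Or.inl rfl, rfl, ?_⟩
    change m * _ - _ ∈ J
    simp
  | succ n ih =>
    intro hfJ hΨ0 hΨ1 m
    let x : S := m * ∏ j ∈ Finset.range (n + 1), f j ^ (q - 1)
    let y : S := m * α n * ∏ j ∈ Finset.range n, f j ^ (q - 1)
    have hx : ∀ j < n + 1, ∃ r, f j * x = r * f j ^ q := by
      intro j hj
      refine ⟨m * ∏ k ∈ (Finset.range (n + 1)).erase j, f k ^ (q - 1), ?_⟩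
      simp only [x]
      rw [← Finset.mul_prod_erase _ _ (Finset.mem_range.mpr hj)]
      have : f j ^ q = f j * f j ^ (q - 1) := by
        rw [← pow_succ', Nat.sub_add_cancel hq]
      rw [this]; ring
    have hxn : f n * x = (m * ∏ j ∈ Finset.range n, f j ^ (q - 1)) * f n ^ q := by
      simp only [x]
      rw [Finset.prod_range_succ]
      have : f n ^ q = f n * f n ^ (q - 1) := by
        rw [← pow_succ', Nat.sub_add_cancel hq]
      rw [this]; ring
    have hxJ : ∀ j < n + 1, f j * x ∈ J := by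
      intro j hj
      obtain ⟨r, hr⟩ := hx j hj
      rw [hr]; exact J.mul_mem_left _ (hfJ j hj)
    -- the first step
    have hstep : KStep f (n + 1) J (Ψ n) (ksingle x (n + 1))
        (Sum.elim (fun _ => 0) (ksingle y n)) := by
      refine ⟨kd_ksingle_mem x (n + 1) hxJ, ?_⟩
      rintro (s | s)
      · have h1 : Ideal.Quotient.mk J ((Sum.elim (fun _ => 0) (ksingle y n) :
            Ix (n + 1) → S) (Sum.inl s)) = 0 := map_zero _
        rw [h1]
        symm
        have h2 : kd f (n + 1) (ksingle x (n + 1)) (Sum.inl s) = kd f n (ksingle x n) s := rfl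
        rcases kd_ksingle (f := f) x n s with h3 | ⟨j, hj, h3⟩
        · have h4 : (⟨kd f (n + 1) (ksingle x (n + 1)) (Sum.inl s),
              kd_ksingle_mem x (n + 1) hxJ _⟩ : J) = 0 := Subtype.ext (h2.trans h3)
          rw [h4, map_zero]
        · obtain ⟨r, hr⟩ := hx j (by omega)
          have h4 : (⟨kd f (n + 1) (ksingle x (n + 1)) (Sum.inl s),
              kd_ksingle_mem x (n + 1) hxJ _⟩ : J) = r • ⟨f j ^ q, hfJ j (by omega)⟩ :=
            Subtype.ext ((h2.trans h3).trans hr)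
          rw [h4, map_smul, hΨ0 n (by omega) j hj (by omega), smul_zero]
      · have h2 : kd f (n + 1) (ksingle x (n + 1)) (Sum.inr s) = f n * ksingle x n s := by
          rw [kd_inr]
          have h1 : kd f n (fun s => ksingle x (n + 1) (Sum.inr s)) s = 0 := kd_zero f n s
          rw [h1, sub_zero]; rfl
        have h3 : f n * ksingle x n s = ksingle (m * ∏ j ∈ Finset.range n, f j ^ (q - 1)) n s *
            f n ^ q := by
          have h5 := ksingle_smul (f n) x n s
          rw [smul_eq_mul] at h5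
          rw [h5, hxn, mul_comm _ (f n ^ q), ← ksingle_smul, smul_eq_mul, mul_comm]
        have h4 : (⟨kd f (n + 1) (ksingle x (n + 1)) (Sum.inr s),
              kd_ksingle_mem x (n + 1) hxJ _⟩ : J) =
            ksingle (m * ∏ j ∈ Finset.range n, f j ^ (q - 1)) n s • ⟨f n ^ q, hfJ n (by omega)⟩ :=
          Subtype.ext (h2.trans h3)
        rw [h4, map_smul, hΨ1 n (by omega)]
        have h6 : ksingle y n s = ksingle (m * ∏ j ∈ Finset.range n, f j ^ (q - 1)) n s * α n := by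
          have h7 := ksingle_smul (α n) (m * ∏ j ∈ Finset.range n, f j ^ (q - 1)) n s
          rw [smul_eq_mul] at h7
          rw [mul_comm, h7]
          simp only [y]
          congr 1
          ring
        change Ideal.Quotient.mk J (ksingle y n s) = _
        rw [h6, map_mul]
        rfl
    -- the remaining steps
    obtain ⟨u, ε, hε, hu, hu'⟩ := ih (fun j hj => hfJ j (by omega))
      (fun i hi j hj hjn => hΨ0 i (by omega) j hj (by omega)) (fun i hi => hΨ1 i (by omega))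
      (m * α n)
    obtain ⟨ε', hε', hr⟩ := hu.shift
    refine ⟨_, ε' * ε, ?_, ⟨_, hstep, hr⟩, ?_⟩
    · rcases hε with rfl | rfl <;> rcases hε' with rfl | rfl <;> simp
    · change ε' • u (ktop n) - _ ∈ J
      rw [Finset.prod_range_succ, smul_eq_mul]
      have : ε' * u (ktop n) - ε' * ε * (m * ((∏ j ∈ Finset.range n, α j) * α n)) =
          ε' * (u (ktop n) - ε * (m * α n * ∏ j ∈ Finset.range n, α j)) := by ring
      rw [this]
      exact J.mul_mem_left _ hu'

/-- The main consequence. -/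
theorem koszul_main {q : ℕ} (hq : 0 < q) (Ψ : ℕ → (J →ₗ[S] S ⧸ J)) (α : ℕ → S) (n : ℕ)
    (hfJ : ∀ j < n + 1, f j ^ q ∈ J)
    (hΨ0 : ∀ i < n + 1, ∀ (j : ℕ) (_ : j < i) (hjn : j < n + 1), Ψ i ⟨f j ^ q, hfJ j hjn⟩ = 0)
    (hΨ1 : ∀ (i : ℕ) (hi : i < n + 1), Ψ i ⟨f i ^ q, hfJ i hi⟩ = Ideal.Quotient.mk J (α i))
    (I : Ideal S) (hJI : J ≤ I) (hfI : ∀ j < n + 1, f j ∈ I)
    (w b : S) (hw : ∀ j < n + 1, f j * w ∈ J)
    (hwb : b * w - ∏ j ∈ Finset.range (n + 1), f j ^ (q - 1) ∈ J) :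
    ∃ v : S, Ideal.Quotient.mk J v ∈ LinearMap.range (Ψ 0) ∧ ∃ ε : S, (ε = 1 ∨ ε = -1) ∧
      b * v - ε * ∏ j ∈ Finset.range (n + 1), α j ∈ I := by
  obtain ⟨z', hz'⟩ := KReach.exists (f := f) (downList Ψ (n + 1)) (ksingle w (n + 1))
    (kd_ksingle_mem w (n + 1) hw)
  obtain ⟨u, ε, hε, hu, hu'⟩ := KReach.explicit hq Ψ α (n + 1) hfJ hΨ0 hΨ1 1
  have h1 := KReach.smul (downList Ψ (n + 1)) b hz'
  obtain ⟨t, ht⟩ := KReach.congr _ h1 hu ⟨fun _ => 0, fun s => by
    rw [kd_zero, sub_zero, ksingle_smul, ksingle_sub, one_mul]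
    exact ksingle_mem hwb _ s⟩
  refine ⟨z' (ktop (n + 1)), hz'.range n _, ε, hε, ?_⟩
  have h2 := hJI (ht (ktop (n + 1)))
  have h3 := kd_mem f I (n + 1) hfI t (ktop (n + 1))
  have h4 := hJI hu'
  rw [one_mul] at h4
  have h5 : b * z' (ktop (n + 1)) - ε * ∏ j ∈ Finset.range (n + 1), α j =
      (b • z' (ktop (n + 1)) - u (ktop (n + 1)) - kd f (n + 1) t (ktop (n + 1))) +
      kd f (n + 1) t (ktop (n + 1)) +
      (u (ktop (n + 1)) - ε * ∏ j ∈ Finset.range (n + 1), α j) := by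
    rw [smul_eq_mul]; ring
  rw [h5]
  exact I.add_mem (I.add_mem h2 h3) h4

end Step

end Pool.Agent.Helper19
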