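import Pool.Agent.Helper19.DerFree

/-!
Vasconcelos' conjecture on the normal module when it is free, for perfect ideals and in the
presence of derivations.
-/

universe u

open CategoryTheory IsLocalRing Module RingTheory.Sequence

namespace Pool.Agent.Helper19

lemma pd_of_projectiveDimension_le {A : Type u} [CommRing A] {X : Type u} [AddCommGroup X]
    [Module A X] {n : ℕ} (h : projectiveDimension (ModuleCat.of A X) ≤ n) : PD A X (n + 1) := by
  exact (projectiveDimension_le_iff _ _).mp h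

theorem free_normal_main (S : Type u) [CommRing S] [IsLocalRing S] [IsNoetherianRing S]
    (I : Ideal S) (hI : I ≠ ⊤) (hfin : projectiveDimension (ModuleCat.of S (S ⧸ I)) < ⊤)
    (hN : Module.Free (S ⧸ I) (I.Cotangent →ₗ[S ⧸ I] (S ⧸ I)) ∨
      ((∀ rs : List (S ⧸ I), IsRegular (S ⧸ I) rs → rs.length ≤ 2) ∧
        projectiveDimension (ModuleCat.of (S ⧸ I) (I.Cotangent →ₗ[S ⧸ I] (S ⧸ I))) < ⊤))
    (h : (∃ gs : List S, IsRegular S gs ∧ (∀ g ∈ gs, g ∈ I) ∧
        projectiveDimension (ModuleCat.of S (S ⧸ I)) ≤ gs.length) ∨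
      ∀ x ∈ I, (∀ E ∈ maximalIdeal S • (⊤ : Submodule S (Derivation ℤ S S)),
        (∀ y ∈ I, E y ∈ I) → E x ∈ maximalIdeal S * I) → x ∈ maximalIdeal S * I) :
    ∃ rs : List S, IsRegular S rs ∧ Ideal.ofList rs = I := by
  have : Nontrivial (S ⧸ I) := Ideal.Quotient.nontrivial_iff.mpr hI
  have : IsLocalRing (S ⧸ I) :=
    IsLocalRing.of_surjective' (Ideal.Quotient.mk I) Ideal.Quotient.mk_surjective
  have hfree : Module.Free (S ⧸ I)
      (RingHom.ker (algebraMap S (S ⧸ I)) →ₗ[S] (S ⧸ I)) := by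
    rcases hN with hN | ⟨hdepth, hpd⟩
    · exact Module.Free.of_equiv (cotangentHomEquiv I (S ⧸ I))
    · obtain ⟨l, hl⟩ := (projectiveDimension_ne_top_iff _).mp hpd.ne
      have hproj : Module.Projective (S ⧸ I)
          (RingHom.ker (algebraMap S (S ⧸ I)) →ₗ[S] (S ⧸ I)) :=
        projective_dual_of_depth_le_two hdepth ⟨l + 1, PD.congr (cotangentHomEquiv I (S ⧸ I)) hl⟩
      have : Module.Finite (S ⧸ I)
          (RingHom.ker (algebraMap S (S ⧸ I)) →ₗ[S] (S ⧸ I)) := finite_hom
      exact Module.free_of_flat_of_isLocalRing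
  rcases h with ⟨gs, hgs, hmem, hle⟩ | h
  · exact exists_regularSeq_of_free_perfect I hI gs hgs.1 hmem (pd_of_projectiveDimension_le hle)
      hfree
  · obtain ⟨l, hl⟩ := (projectiveDimension_ne_top_iff _).mp hfin.ne
    exact exists_regularSeq_of_free_derivation I hI _ hl h hfree

end Pool.Agent.Helper19
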