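import Pool.Agent.Helper19.FrobFree
import Pool.Agent.Helper19.ABound

/-!
Characteristic `p`: Vasconcelos' conjecture when the normal module is free or the depth is at
most two.
-/

universe u

open CategoryTheory IsLocalRing Module RingTheory.Sequence

namespace Pool.Agent.Helper19

theorem vasconcelos_charP (S : Type u) [CommRing S] [IsRegularLocalRing S] (p : ℕ)
    [Fact p.Prime] [CharP S p] (I : Ideal S) (hI : I ≠ ⊤)
    (h : Module.Free (S ⧸ I) (I.Cotangent →ₗ[S ⧸ I] (S ⧸ I)) ∨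
      ((∀ rs : List (S ⧸ I), IsRegular (S ⧸ I) rs → rs.length ≤ 2) ∧
        projectiveDimension (ModuleCat.of (S ⧸ I) (I.Cotangent →ₗ[S ⧸ I] (S ⧸ I))) < ⊤)) :
    ∃ rs : List S, IsRegular S rs ∧ Ideal.ofList rs = I := by
  apply regular_free_charP S p I hI
  rcases h with h | ⟨hdepth, hpd⟩
  · exact h
  · have : Nontrivial (S ⧸ I) := Ideal.Quotient.nontrivial_iff.mpr hI
    have : IsLocalRing (S ⧸ I) :=
      IsLocalRing.of_surjective' (Ideal.Quotient.mk I) Ideal.Quotient.mk_surjective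
    obtain ⟨l, hl⟩ := (projectiveDimension_ne_top_iff _).mp hpd.ne
    have hproj : Module.Projective (S ⧸ I)
        (RingHom.ker (algebraMap S (S ⧸ I)) →ₗ[S] (S ⧸ I)) :=
      projective_dual_of_depth_le_two hdepth ⟨l + 1, PD.congr (cotangentHomEquiv I (S ⧸ I)) hl⟩
    have : Module.Finite (S ⧸ I)
        (RingHom.ker (algebraMap S (S ⧸ I)) →ₗ[S] (S ⧸ I)) := finite_hom
    have : Module.Free (S ⧸ I)
        (RingHom.ker (algebraMap S (S ⧸ I)) →ₗ[S] (S ⧸ I)) :=
      Module.free_of_flat_of_isLocalRing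
    exact Module.Free.of_equiv (cotangentHomEquiv I (S ⧸ I)).symm

end Pool.Agent.Helper19
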