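import Pool.Agent.Helper19.PdBasic

/-!
Rings without regular sequences of length two: a double-dual criterion and the
Auslander–Buchsbaum bound `pd ≤ 1`.
-/

universe u

open CategoryTheory Abelian IsLocalRing Module TensorProduct Pointwise RingTheory.Sequence

namespace Pool.Agent.Helper19

section Pair

variable {R : Type u} [CommRing R]

/-- If `D = F/B` has `Hom(D,R) = 0` and `Ext¹(D,R) = 0` then its annihilator contains a regular
sequence of length two. -/
theorem exists_ann_pair [IsNoetherianRing R] {F : Type u} [AddCommGroup F]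
    [Module R F] [Module.Finite R F] [Module.Projective R F] (B : Submodule R F)
    (h0 : ∀ φ : F →ₗ[R] R, (∀ b ∈ B, φ b = 0) → φ = 0)
    (h1 : ∀ g : B →ₗ[R] R, ∃ G : F →ₗ[R] R, ∀ b : B, G b = g b) :
    ∃ x ∈ Module.annihilator R (F ⧸ B), ∃ y ∈ Module.annihilator R (F ⧸ B),
      IsSMulRegular R x ∧ IsSMulRegular (QuotSMulTop x R) y := by
  have hsub : Subsingleton ((F ⧸ B) →ₗ[R] R) := by
    refine ⟨fun a b => ?_⟩
    rw [← sub_eq_zero]
    generalize a - b = g
    have h2 : g ∘ₗ B.mkQ = 0 := h0 _ (fun b hb => by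
      rw [LinearMap.comp_apply, Submodule.mkQ_apply, (Submodule.Quotient.mk_eq_zero B).mpr hb,
        map_zero])
    ext x
    exact congrArg (fun f => f x) h2
  rw [IsSMulRegular.subsingleton_linearMap_iff] at hsub
  obtain ⟨x, hx, hxreg⟩ := hsub
  have hxF : ∀ v : F, x • v ∈ B := by
    intro v
    have := Module.mem_annihilator.mp hx (Submodule.Quotient.mk v)
    rwa [← Submodule.Quotient.mk_smul, Submodule.Quotient.mk_eq_zero] at this
  have hsub2 : Subsingleton ((F ⧸ B) →ₗ[R] QuotSMulTop x R) := by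
    refine ⟨fun a b => ?_⟩
    rw [← sub_eq_zero]
    generalize a - b = g
    obtain ⟨G, hG⟩ := Module.projective_lifting_property
      (Submodule.mkQ (x • (⊤ : Submodule R R))) (g ∘ₗ B.mkQ) (Submodule.mkQ_surjective _)
    have hG' : ∀ v : F, Submodule.Quotient.mk (G v) = g (Submodule.Quotient.mk v) :=
      fun v => LinearMap.congr_fun hG v
    have hdiv : ∀ b : B, ∃ r : R, G b = x • r := by
      intro b
      have h2 : (Submodule.Quotient.mk (G b) : QuotSMulTop x R) = 0 := by
        rw [hG', (Submodule.Quotient.mk_eq_zero B).mpr b.2, map_zero]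
      rw [Submodule.Quotient.mk_eq_zero, Submodule.mem_smul_pointwise_iff_exists] at h2
      obtain ⟨r, -, hr⟩ := h2
      exact ⟨r, hr.symm⟩
    choose γ hγ using hdiv
    let γ' : B →ₗ[R] R :=
      { toFun := γ
        map_add' := fun a b => by
          apply hxreg
          change x • _ = x • _
          rw [smul_add, ← hγ, ← hγ, ← hγ, Submodule.coe_add, map_add]
        map_smul' := fun r b => by
          apply hxreg
          change x • _ = x • _
          rw [RingHom.id_apply, smul_comm x r, ← hγ, ← hγ, Submodule.coe_smul, map_smul] }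
    obtain ⟨H, hH⟩ := h1 γ'
    have h3 : G - x • H = 0 := h0 _ (fun b hb => by
      rw [LinearMap.sub_apply, LinearMap.smul_apply, hH ⟨b, hb⟩]
      change G b - x • γ ⟨b, hb⟩ = 0
      rw [← hγ ⟨b, hb⟩, sub_self])
    apply LinearMap.ext
    intro v
    obtain ⟨v, rfl⟩ := Submodule.Quotient.mk_surjective _ v
    rw [← hG', LinearMap.zero_apply, Submodule.Quotient.mk_eq_zero,
      Submodule.mem_smul_pointwise_iff_exists]
    refine ⟨H v, trivial, ?_⟩
    have := LinearMap.congr_fun h3 v
    rw [LinearMap.sub_apply, LinearMap.zero_apply, sub_eq_zero] at this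
    rw [this]; rfl
  rw [IsSMulRegular.subsingleton_linearMap_iff] at hsub2
  obtain ⟨y, hy, hyreg⟩ := hsub2
  exact ⟨x, hx, y, hy, hxreg, hyreg⟩

/-- If `D = F/B ≠ 0` with `Hom(D,R) = 0` and `Ext¹(D,R) = 0` then `R` has a regular sequence of
length two. -/
theorem exists_regular_pair [IsNoetherianRing R] [IsLocalRing R] {F : Type u} [AddCommGroup F]
    [Module R F] [Module.Finite R F] [Module.Projective R F] (B : Submodule R F) (hB : B ≠ ⊤)
    (h0 : ∀ φ : F →ₗ[R] R, (∀ b ∈ B, φ b = 0) → φ = 0)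
    (h1 : ∀ g : B →ₗ[R] R, ∃ G : F →ₗ[R] R, ∀ b : B, G b = g b) :
    ∃ rs : List R, IsRegular R rs ∧ rs.length = 2 := by
  obtain ⟨x, hx, y, hy, hxreg, hyreg⟩ := exists_ann_pair B h0 h1
  have hann : ∀ r ∈ Module.annihilator R (F ⧸ B), r ∈ maximalIdeal R := by
    intro r hr
    by_contra hru
    rw [mem_maximalIdeal, mem_nonunits_iff, not_not] at hru
    apply hB
    rw [eq_top_iff]
    intro v _
    have h4 := Module.mem_annihilator.mp hr (Submodule.Quotient.mk v)
    have h5 : (Submodule.Quotient.mk v : F ⧸ B) = 0 := by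
      obtain ⟨u, rfl⟩ := hru
      have := congrArg (fun w => ((u⁻¹ : Rˣ) : R) • w) h4
      simpa [smul_smul] using this
    exact (Submodule.Quotient.mk_eq_zero B).mp h5
  refine ⟨[x, y], ?_, rfl⟩
  rw [isRegular_iff]
  refine ⟨?_, ?_⟩
  · rw [isWeaklyRegular_cons_iff, isWeaklyRegular_cons_iff]
    exact ⟨hxreg, hyreg, IsWeaklyRegular.nil _ _⟩
  · intro htop
    have h6 : Ideal.ofList [x, y] ≤ maximalIdeal R := by
      rw [Ideal.ofList, Ideal.span_le]
      intro r hr
      have : r = x ∨ r = y := by simpa using hr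
      rcases this with rfl | rfl
      · exact hann _ hx
      · exact hann _ hy
    have h7 : (⊤ : Submodule R R) ≤ maximalIdeal R := by
      rw [htop]
      rw [smul_eq_mul, Ideal.mul_top]
      exact h6
    exact (maximalIdeal.isMaximal R).ne_top (eq_top_iff.mpr h7)

/-- `R` has no regular sequence of length two -/
def DepthLEOne (R : Type u) [CommRing R] : Prop :=
  ∀ rs : List R, IsRegular R rs → rs.length ≤ 1

theorem eq_top_of_depth_le_one [IsNoetherianRing R] [IsLocalRing R] (hR : DepthLEOne R)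
    {F : Type u} [AddCommGroup F]
    [Module R F] [Module.Finite R F] [Module.Projective R F] (B : Submodule R F)
    (h0 : ∀ φ : F →ₗ[R] R, (∀ b ∈ B, φ b = 0) → φ = 0)
    (h1 : ∀ g : B →ₗ[R] R, ∃ G : F →ₗ[R] R, ∀ b : B, G b = g b) : B = ⊤ := by
  by_contra hB
  obtain ⟨rs, hrs, hlen⟩ := exists_regular_pair B hB h0 h1
  have := hR rs hrs
  omega

end Pair

section AB

variable {R : Type u} [CommRing R] [IsNoetherianRing R] [IsLocalRing R]

lemma pd_two_of_pd_three (hR : DepthLEOne R) {Z : Type u} [AddCommGroup Z] [Module R Z]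
    [Module.Finite R Z] (hZ : PD R Z 3) : PD R Z 2 := by
  obtain ⟨n₀, π₀, hπ₀, -⟩ := exists_minimal_cover (A := R) (X := Z)
  have hinj₀ : Function.Injective (LinearMap.ker π₀).subtype := Subtype.val_injective
  have hex₀ : Function.Exact (LinearMap.ker π₀).subtype π₀ := fun v => by simp
  have hK₀ : PD R (LinearMap.ker π₀) 2 := pd_ker hinj₀ hπ₀ hex₀ hZ
  obtain ⟨n₁, π₁, hπ₁, hmin⟩ := exists_minimal_cover (A := R) (X := LinearMap.ker π₀)
  have hinj₁ : Function.Injective (LinearMap.ker π₁).subtype := Subtype.val_injective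
  have hex₁ : Function.Exact (LinearMap.ker π₁).subtype π₁ := fun v => by simp
  have hK₁ : PD R (LinearMap.ker π₁) 1 := pd_ker hinj₁ hπ₁ hex₁ hK₀
  have : Module.Projective R (LinearMap.ker π₁) := projective_of_pd_one hK₁
  have : Module.Free R (LinearMap.ker π₁) := Module.free_of_flat_of_isLocalRing
  let K := LinearMap.ker π₁
  let αd : ((Fin n₁ → R) →ₗ[R] R) →ₗ[R] (K →ₗ[R] R) := LinearMap.lcomp R R K.subtype
  have hαd : ∀ ψ k, αd ψ k = ψ k := fun ψ k => rfl
  have hev : ∀ φ : (K →ₗ[R] R) →ₗ[R] R, ∃ u : K, ∀ ξ, φ ξ = ξ u := by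
    intro φ
    obtain ⟨u, hu⟩ := (Module.bijective_dual_eval R K).2 φ
    exact ⟨u, fun ξ => by rw [← hu]; rfl⟩
  have hsep : ∀ v : Fin n₁ → R, (∀ ψ : (Fin n₁ → R) →ₗ[R] R, ψ v = 0) → v = 0 := by
    intro v hv
    funext i
    exact hv (LinearMap.proj i)
  have htop : LinearMap.range αd = ⊤ := by
    apply eq_top_of_depth_le_one hR
    · intro φ hφ
      obtain ⟨u, hu⟩ := hev φ
      have hu0 : u = 0 := by
        apply Subtype.ext
        apply hsep
        intro ψ
        rw [← hαd ψ u, ← hu]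
        exact hφ _ ⟨ψ, rfl⟩
      ext ξ
      rw [hu, hu0, map_zero, LinearMap.zero_apply]
    · intro g
      -- `g ∘ αd` is evaluation at a vector of `R^{n₁}`
      have hev' : ∃ v : Fin n₁ → R, ∀ ψ, g ⟨αd ψ, ψ, rfl⟩ = ψ v := by
        obtain ⟨v, hv⟩ := (Module.bijective_dual_eval R (Fin n₁ → R)).2
          (g ∘ₗ αd.rangeRestrict)
        exact ⟨v, fun ψ => by
          have := LinearMap.congr_fun hv ψ
          exact this.symm⟩
      obtain ⟨v, hv⟩ := hev'
      have hvK : v ∈ K := by
        change π₁ v = 0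
        apply Subtype.ext
        funext i
        -- test against the functional `v ↦ (π₁ v) i`
        let ψ : (Fin n₁ → R) →ₗ[R] R :=
          (LinearMap.proj i) ∘ₗ (LinearMap.ker π₀).subtype ∘ₗ π₁
        have h3 : αd ψ = 0 := by
          ext k
          rw [hαd]
          change ((π₁ k : LinearMap.ker π₀) : Fin n₀ → R) i = 0
          have : π₁ k = 0 := k.2
          rw [this]; rfl
        have h4 := hv ψ
        have h5 : g ⟨αd ψ, ψ, rfl⟩ = 0 := by
          have : (⟨αd ψ, ψ, rfl⟩ : LinearMap.range αd) = 0 := Subtype.ext h3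
          rw [this, map_zero]
        rw [h5] at h4
        exact h4.symm
      refine ⟨Module.Dual.eval R K ⟨v, hvK⟩, ?_⟩
      rintro ⟨_, ψ, rfl⟩
      rw [hv ψ]
      rfl
  -- minimality forces `K = 0`
  have hKsub : Subsingleton K := by
    by_contra hns
    rw [not_subsingleton_iff_nontrivial] at hns
    let b := Module.Free.chooseBasis R K
    have hne : Nonempty (Module.Free.ChooseBasisIndex R K) := b.index_nonempty
    obtain ⟨i⟩ := hne
    obtain ⟨ψ, hψ⟩ : b.coord i ∈ LinearMap.range αd := by rw [htop]; trivial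
    have h1 : ψ (b i : K) = 1 := by
      rw [← hαd, hψ]; simp
    have h2 : ψ (b i : K) ∈ maximalIdeal R := by
      rw [LinearMap.pi_apply_eq_sum_univ ψ]
      refine Ideal.sum_mem _ fun j _ => ?_
      rw [smul_eq_mul]
      exact Ideal.mul_mem_right _ _ (hmin _ (b i).2 j)
    rw [h1] at h2
    exact (Ideal.ne_top_iff_one _).mp (maximalIdeal.isMaximal R).ne_top h2
  have hbij : Function.Bijective π₁ := by
    refine ⟨?_, hπ₁⟩
    rw [← LinearMap.ker_eq_bot]
    exact (Submodule.subsingleton_iff_eq_bot).mp hKsub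
  have hK₀' : PD R (LinearMap.ker π₀) 1 := PD.congr (LinearEquiv.ofBijective π₁ hbij) pd_of_free
  exact pd_coker hinj₀ hπ₀ hex₀ hK₀' (PD.mono pd_of_free (by omega))

/-- Auslander–Buchsbaum in depth at most one. -/
theorem pd_two_of_finPD (hR : DepthLEOne R) (n : ℕ) :
    ∀ (Z : Type u) [AddCommGroup Z] [Module R Z] [Module.Finite R Z], PD R Z n → PD R Z 2 := by
  induction n with
  | zero => intro Z _ _ _ h; exact PD.mono h (by omega)
  | succ n ih =>
    intro Z _ _ _ h
    obtain ⟨n₀, π₀, hπ₀, -⟩ := exists_minimal_cover (A := R) (X := Z)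
    have hinj₀ : Function.Injective (LinearMap.ker π₀).subtype := Subtype.val_injective
    have hex₀ : Function.Exact (LinearMap.ker π₀).subtype π₀ := fun v => by simp
    match n, ih, h with
    | 0, _, h => exact PD.mono h (by omega)
    | n + 1, ih, h =>
      have hK₀ : PD R (LinearMap.ker π₀) (n + 1) := pd_ker hinj₀ hπ₀ hex₀ h
      have hK₀' : PD R (LinearMap.ker π₀) 2 := ih _ hK₀
      exact pd_two_of_pd_three hR
        (pd_coker hinj₀ hπ₀ hex₀ hK₀' (PD.mono pd_of_free (by omega)))

end AB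

end Pool.Agent.Helper19
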