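import Pool.Agent.Helper19.DerTwo
import Pool.Agent.Helper19.ABound
import Pool.Agent.Helper19.DepthOneMain

/-!
Depth at most two: the main theorem.
-/

universe u

open CategoryTheory Abelian IsLocalRing Module TensorProduct Pointwise RingTheory.Sequence

namespace Pool.Agent.Helper19

section Pairs

variable {R : Type u} [CommRing R] [IsLocalRing R]

lemma regPair_of_isSMulRegular {x y : R} (hx : IsSMulRegular R x)
    (hy : IsSMulRegular (QuotSMulTop x R) y) : RegPair x y := by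
  refine ⟨hx, fun a b hab => ?_⟩
  have h1 : y • (Submodule.Quotient.mk a : QuotSMulTop x R) = 0 := by
    rw [← Submodule.Quotient.mk_smul, quotSMulTop_mk_eq_zero_iff]
    exact ⟨b, hab⟩
  have h2 := hy.right_eq_zero_of_smul h1
  rw [quotSMulTop_mk_eq_zero_iff] at h2
  obtain ⟨c, hc⟩ := h2
  exact ⟨c, hc⟩

lemma ofList_le_maximal {rs : List R} (h : ∀ r ∈ rs, r ∈ maximalIdeal R) :
    (⊤ : Submodule R R) ≠ Ideal.ofList rs • ⊤ := by
  intro htop
  have h6 : Ideal.ofList rs ≤ maximalIdeal R := by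
    rw [Ideal.ofList, Ideal.span_le]
    intro r hr
    exact h r hr
  have h7 : (⊤ : Submodule R R) ≤ maximalIdeal R := by
    rw [htop, smul_eq_mul, Ideal.mul_top]
    exact h6
  exact (maximalIdeal.isMaximal R).ne_top (eq_top_iff.mpr h7)

lemma mem_maximal_of_isRegular {rs : List R} (h : IsRegular R rs) :
    ∀ r ∈ rs, r ∈ maximalIdeal R := by
  intro r hr
  by_contra hru
  rw [mem_maximalIdeal, mem_nonunits_iff, not_not] at hru
  apply h.top_ne_smul
  rw [smul_eq_mul, Ideal.mul_top]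
  have h1 : r ∈ Ideal.ofList rs := Ideal.subset_span hr
  exact (Ideal.eq_top_of_isUnit_mem _ h1 hru).symm

/-- a regular sequence of length at least two gives a regular pair -/
lemma exists_regPair_of_isRegular {rs : List R} (h : IsRegular R rs) (hlen : 2 ≤ rs.length) :
    ∃ x y : R, x ∈ maximalIdeal R ∧ y ∈ maximalIdeal R ∧ RegPair x y := by
  match rs, h, hlen with
  | x :: y :: ts, h, _ =>
    have h1 := h.toIsWeaklyRegular
    rw [isWeaklyRegular_cons_iff, isWeaklyRegular_cons_iff] at h1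
    exact ⟨x, y, mem_maximal_of_isRegular h x (by simp), mem_maximal_of_isRegular h y (by simp),
      regPair_of_isSMulRegular h1.1 h1.2.1⟩

/-- in depth at least two, `R/x` has no socle -/
lemma no_socle_mod {x' y' : R} (h' : RegPair x' y') (hx' : x' ∈ maximalIdeal R)
    (hy' : y' ∈ maximalIdeal R) {x : R} (hx : IsSMulRegular R x) (w : R)
    (hw : ∀ r ∈ maximalIdeal R, ∃ c, r * w = x * c) : ∃ c, w = x * c := by
  obtain ⟨u, hu⟩ := hw x' hx'
  obtain ⟨v, hv⟩ := hw y' hy'
  have h1 : y' * u = x' * v := by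
    apply hx
    change x * (y' * u) = x * (x' * v)
    linear_combination (-y') * hu + x' * hv
  obtain ⟨c, hc⟩ := h'.hy u v h1
  refine ⟨c, ?_⟩
  apply h'.hx
  change x' * w = x' * (x * c)
  rw [hu, hc]
  ring

variable [IsNoetherianRing R]

lemma exists_y_of_x {x' y' : R} (h' : RegPair x' y') (hx' : x' ∈ maximalIdeal R)
    (hy' : y' ∈ maximalIdeal R) {x : R} (hx : IsSMulRegular R x) :
    ∃ y ∈ maximalIdeal R, IsSMulRegular (QuotSMulTop x R) y := by
  apply exists_regular_of_socle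
  intro w hw
  obtain ⟨w, rfl⟩ := Submodule.Quotient.mk_surjective _ w
  rw [quotSMulTop_mk_eq_zero_iff]
  refine no_socle_mod h' hx' hy' hx w fun r hr => ?_
  have h1 := hw r hr
  rw [← Submodule.Quotient.mk_smul, quotSMulTop_mk_eq_zero_iff] at h1
  exact h1

/-- the socle element modulo a maximal regular pair -/
lemma exists_z_of_pair (hR : ∀ rs : List R, IsRegular R rs → rs.length ≤ 2) {x y : R}
    (hxm : x ∈ maximalIdeal R) (hym : y ∈ maximalIdeal R) (hx : IsSMulRegular R x)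
    (hy : IsSMulRegular (QuotSMulTop x R) y) :
    ∃ z : R, (¬ ∃ s t, z = x * s + y * t) ∧
      ∀ r ∈ maximalIdeal R, ∃ s t, r * z = x * s + y * t := by
  by_contra hno
  push Not at hno
  have hmk : ∀ w : R, (Submodule.Quotient.mk (Submodule.Quotient.mk w : QuotSMulTop x R) :
      QuotSMulTop y (QuotSMulTop x R)) = 0 ↔ ∃ s t, w = x * s + y * t := by
    intro w
    rw [quotSMulTop_mk_eq_zero_iff]
    constructor
    · rintro ⟨v, hv⟩
      obtain ⟨v, rfl⟩ := Submodule.Quotient.mk_surjective _ v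
      rw [← Submodule.Quotient.mk_smul, ← sub_eq_zero, ← Submodule.Quotient.mk_sub,
        quotSMulTop_mk_eq_zero_iff] at hv
      obtain ⟨s, hs⟩ := hv
      refine ⟨s, v, ?_⟩
      rw [smul_eq_mul, smul_eq_mul] at hs
      linear_combination hs
    · rintro ⟨s, t, rfl⟩
      refine ⟨Submodule.Quotient.mk t, ?_⟩
      rw [← Submodule.Quotient.mk_smul, ← sub_eq_zero, ← Submodule.Quotient.mk_sub,
        quotSMulTop_mk_eq_zero_iff]
      exact ⟨s, by rw [smul_eq_mul, smul_eq_mul]; ring⟩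
  obtain ⟨w, hwm, hwreg⟩ : ∃ w ∈ maximalIdeal R,
      IsSMulRegular (QuotSMulTop y (QuotSMulTop x R)) w := by
    apply exists_regular_of_socle
    intro v hv
    obtain ⟨v, rfl⟩ := Submodule.Quotient.mk_surjective _ v
    obtain ⟨v, rfl⟩ := Submodule.Quotient.mk_surjective _ v
    rw [hmk]
    by_contra hv0
    obtain ⟨r, hr, hr'⟩ := hno v (fun s t hst => hv0 ⟨s, t, hst⟩)
    have h1 := hv r hr
    rw [← Submodule.Quotient.mk_smul, ← Submodule.Quotient.mk_smul] at h1
    obtain ⟨s, t, hst⟩ := (hmk (r • v)).mp h1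
    exact hr' s t hst
  have h2 : IsRegular R [x, y, w] := by
    rw [isRegular_iff]
    refine ⟨?_, ofList_le_maximal ?_⟩
    · rw [isWeaklyRegular_cons_iff, isWeaklyRegular_cons_iff, isWeaklyRegular_cons_iff]
      exact ⟨hx, hy, hwreg, IsWeaklyRegular.nil _ _⟩
    · intro r hr
      have : r = x ∨ r = y ∨ r = w := by simpa using hr
      rcases this with rfl | rfl | rfl
      · exact hxm
      · exact hym
      · exact hwm
  have := hR _ h2
  simp at this

/-- in depth two, modules with a regular element have projective dimension at most one -/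
lemma pd_two_of_regular {x y z : R} (hxy : RegPair x y)
    (hz : ¬ ∃ s t, z = x * s + y * t)
    (hmz : ∀ r ∈ maximalIdeal R, ∃ s t, r * z = x * s + y * t)
    {X : Type u} [AddCommGroup X] [Module R X] [Module.Finite R X] (hxX : IsSMulRegular X x)
    (h : PD R X 3) : PD R X 2 := by
  obtain ⟨a₀, a₁, a₂, π, B₁, B₂, hπ, hB₂, hex₁, hex₂, -, hmin₂⟩ := exists_minimal_resolution3 h
  have ha₂ : a₂ = 0 := by
    by_contra ha
    let l₀ : Fin a₂ := ⟨0, Nat.pos_of_ne_zero ha⟩
    let v : Fin a₂ → R := Pi.single l₀ 1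
    choose s s' hs using fun i => hmz (B₂ v i) (hmin₂ v i)
    have h1 : z • B₂ v = x • s + y • s' := by
      funext i
      simp only [Pi.smul_apply, Pi.add_apply, smul_eq_mul]
      rw [mul_comm, hs]
    have h2 : y • B₁ s' = x • (- B₁ s) := by
      have h3 := congrArg B₁ h1
      rw [map_smul, hex₂.apply_apply_eq_zero, smul_zero, map_add, map_smul, map_smul] at h3
      rw [smul_neg]
      exact (neg_eq_of_add_eq_zero_right h3.symm).symm
    obtain ⟨w, hw₁, hw₂⟩ := hxy.vec h2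
    have h4 : π w = 0 := by
      apply hxX.right_eq_zero_of_smul
      rw [← map_smul, ← hw₁, hex₁.apply_apply_eq_zero]
    obtain ⟨c, rfl⟩ := (hex₁ w).mp h4
    obtain ⟨d₁, hd₁⟩ := (hex₂ (s' - x • c)).mp (by rw [map_sub, map_smul, hw₁, sub_self])
    obtain ⟨d₂, hd₂⟩ := (hex₂ (s + y • c)).mp (by
      rw [map_add, map_smul, ← hw₂, add_neg_cancel])
    have h5 : z • v = x • d₂ + y • d₁ := by
      apply hB₂
      rw [map_smul, h1, map_add, map_smul, map_smul, hd₁, hd₂, smul_add, smul_sub,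
        smul_comm x y c]
      abel
    apply hz
    refine ⟨d₂ l₀, d₁ l₀, ?_⟩
    have h6 := congrFun h5 l₀
    simpa [v] using h6
  subst ha₂
  have hB₁ : Function.Injective B₁ := by
    rw [injective_iff_map_eq_zero]
    intro v hv
    obtain ⟨w, rfl⟩ := (hex₂ v).mp hv
    have : w = 0 := Subsingleton.elim _ _
    rw [this, map_zero]
  exact pd_coker hB₁ hπ hex₁ pd_of_free (PD.mono pd_of_free (by omega))

end Pairs

section Main

variable {R : Type u} [CommRing R] [IsLocalRing R] [IsNoetherianRing R]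
variable {Q : Type u} [CommRing Q] [IsLocalRing Q] [IsNoetherianRing Q] [Algebra Q R]
variable {N : Type u} [AddCommGroup N] [Module R N] [Module Q N] [IsScalarTower Q R N]

theorem exists_regularSeq_of_depth_le_two (hs : Function.Surjective (algebraMap Q R))
    (hR : ∀ rs : List R, IsRegular R rs → rs.length ≤ 2) (n : ℕ) (hpd : PD Q R n)
    [Module.Finite R N] [Nontrivial N]
    (hN : FinPD R N) (hP : FinPD R (RingHom.ker (algebraMap Q R) →ₗ[Q] N))
    (h : (∀ rs : List R, IsRegular R rs → rs.length ≤ 1) ∨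
      (∃ v : N, v ≠ 0 ∧ ∀ r ∈ maximalIdeal R, r • v = 0) ∨
      (∃ a : R, IsSMulRegular R a ∧ ∀ v : N, a • v = 0) ∨
      ∀ x ∈ RingHom.ker (algebraMap Q R),
      (∀ E ∈ maximalIdeal Q • (⊤ : Submodule Q (Derivation ℤ Q Q)),
        (∀ y ∈ RingHom.ker (algebraMap Q R), E y ∈ RingHom.ker (algebraMap Q R)) →
          E x ∈ maximalIdeal Q * RingHom.ker (algebraMap Q R)) →
        x ∈ maximalIdeal Q * RingHom.ker (algebraMap Q R)) :
    ∃ rs : List Q, IsRegular Q rs ∧ Ideal.ofList rs = RingHom.ker (algebraMap Q R) := by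
  by_cases hR1 : ∀ rs : List R, IsRegular R rs → rs.length ≤ 1
  · exact exists_regularSeq_of_depth_le_one hs hR1 n hpd hN hP
  push Not at hR1
  obtain ⟨rs, hrs, hlen⟩ := hR1
  obtain ⟨x', y', hx', hy', hxy'⟩ := exists_regPair_of_isRegular hrs (by omega)
  obtain ⟨k, hk⟩ := hN
  obtain ⟨l, hl⟩ := hP
  have hPfin : Module.Finite R (RingHom.ker (algebraMap Q R) →ₗ[Q] N) := finite_hom
  have hN3 : PD R N 3 := pd_of_depth_le 2 R hR k N hk
  have hP3 : PD R (RingHom.ker (algebraMap Q R) →ₗ[Q] N) 3 := pd_of_depth_le 2 R hR l _ hl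
  by_cases hsoc : ∃ v : N, v ≠ 0 ∧ ∀ r ∈ maximalIdeal R, r • v = 0
  · obtain ⟨n₀, hn₀, hmn⟩ := hsoc
    obtain ⟨a₀, a₁, a₂, πN, BN, CN, hπN, hCN, hexN, hexN', -, -⟩ :=
      exists_minimal_resolution3 hN3
    obtain ⟨b₀, b₁, b₂, πP, BP, CP, hπP, hCP, hexP, hexP', -, hCPmin⟩ :=
      exists_minimal_resolution3 hP3
    exact exists_regularSeq_of_socle hs n hpd hxy' hx' hy' n₀ hn₀ hmn πN hπN BN CN hCN hexN
      hexN' πP hπP BP CP hCP hexP hexP' hCPmin
  have hsoc' : ∀ v : N, (∀ r ∈ maximalIdeal R, r • v = 0) → v = 0 := by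
    intro v hv
    by_contra hv0
    exact hsoc ⟨v, hv0, hv⟩
  -- a regular element on `N` and `R`
  obtain ⟨x, hxm, hxNR⟩ : ∃ x ∈ maximalIdeal R, IsSMulRegular (N × R) x := by
    apply exists_regular_of_socle
    rintro ⟨v, r⟩ hvr
    have h1 : v = 0 := hsoc' v fun s hs => congrArg Prod.fst (hvr s hs)
    have h2 : r = 0 := by
      apply hxy'.hx
      have := congrArg Prod.snd (hvr x' hx')
      simpa using this
    rw [h1, h2]
    rfl
  have hxN : IsSMulRegular N x := by
    intro v w hvw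
    have h1 : x • ((v, 0) : N × R) = x • ((w, 0) : N × R) := Prod.ext hvw rfl
    exact congrArg Prod.fst (hxNR h1)
  have hxR : IsSMulRegular R x := by
    intro v w hvw
    have h1 : x • ((0, v) : N × R) = x • ((0, w) : N × R) := Prod.ext rfl hvw
    exact congrArg Prod.snd (hxNR h1)
  obtain ⟨y, hym, hyreg⟩ := exists_y_of_x hxy' hx' hy' hxR
  have hxy := regPair_of_isSMulRegular hxR hyreg
  obtain ⟨z, hz, hmz⟩ := exists_z_of_pair hR hxm hym hxR hyreg
  have hxP : IsSMulRegular (RingHom.ker (algebraMap Q R) →ₗ[Q] N) x := by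
    intro φ ψ hφψ
    ext g
    exact hxN (LinearMap.congr_fun hφψ g)
  obtain ⟨a, b, πN, BN, hπN, hBinj, hBex, hBmin⟩ :=
    exists_minimal_resolution (pd_two_of_regular hxy hz hmz hxN hN3)
  obtain ⟨a', b', πP, BP, hπP, hPinj, hPex, hPmin⟩ :=
    exists_minimal_resolution (pd_two_of_regular hxy hz hmz hxP hP3)
  obtain ⟨D⟩ := exists_evalData (Q := Q) πN hπN BN hBinj hBex πP BP hPex
  rcases h with h | h | ⟨a₀, ha₀, haN⟩ | h
  · have := h rs hrs
    omega
  · exact absurd h hsoc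
  · exact exists_regularSeq_of_torsion hs n hpd D hBinj hBex hπP hPinj hPex hPmin hxy hxN hz hmz
      a₀ ha₀ haN
  · exact exists_regularSeq_of_derivation hs n hpd D hπN hBinj hBex hBmin hπP hPinj hPex hPmin
      hxy hxN hz hmz h

/-- The main theorem in depth at most two. -/
theorem depth_le_two_theorem (S : Type u) [CommRing S] [IsLocalRing S] [IsNoetherianRing S]
    (I : Ideal S) (hI : I ≠ ⊤) (hpd : projectiveDimension (ModuleCat.of S (S ⧸ I)) < ⊤)
    (hdepth : ∀ rs : List (S ⧸ I), IsRegular (S ⧸ I) rs → rs.length ≤ 2)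
    (N : Type u) [AddCommGroup N] [Module (S ⧸ I) N] [Module.Finite (S ⧸ I) N] [Nontrivial N]
    (hN : projectiveDimension (ModuleCat.of (S ⧸ I) N) < ⊤)
    (hHom : projectiveDimension (ModuleCat.of (S ⧸ I) (I.Cotangent →ₗ[S ⧸ I] N)) < ⊤)
    (h : (∀ rs : List (S ⧸ I), IsRegular (S ⧸ I) rs → rs.length ≤ 1) ∨
      (∃ v : N, v ≠ 0 ∧ ∀ r ∈ maximalIdeal S, Ideal.Quotient.mk I r • v = 0) ∨
      (∃ a : S ⧸ I, IsSMulRegular (S ⧸ I) a ∧ ∀ v : N, a • v = 0) ∨
      ∀ x ∈ I, (∀ E ∈ maximalIdeal S • (⊤ : Submodule S (Derivation ℤ S S)),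
        (∀ y ∈ I, E y ∈ I) → E x ∈ maximalIdeal S * I) → x ∈ maximalIdeal S * I) :
    ∃ rs : List S, IsRegular S rs ∧ Ideal.ofList rs = I := by
  have : Nontrivial (S ⧸ I) := Ideal.Quotient.nontrivial_iff.mpr hI
  have : IsLocalRing (S ⧸ I) :=
    IsLocalRing.of_surjective' (Ideal.Quotient.mk I) Ideal.Quotient.mk_surjective
  let _ : Module S N := Module.compHom N (algebraMap S (S ⧸ I))
  have : IsScalarTower S (S ⧸ I) N := IsScalarTower.of_algebraMap_smul fun r x => rfl
  obtain ⟨n, hn⟩ := (projectiveDimension_ne_top_iff _).mp hpd.ne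
  obtain ⟨k, hk⟩ := (projectiveDimension_ne_top_iff _).mp hN.ne
  obtain ⟨l, hl⟩ := (projectiveDimension_ne_top_iff _).mp hHom.ne
  have hker : RingHom.ker (algebraMap S (S ⧸ I)) = I := Ideal.mk_ker
  obtain ⟨rs, h1, h2⟩ := exists_regularSeq_of_depth_le_two (Q := S) (R := S ⧸ I) (N := N)
    Ideal.Quotient.mk_surjective hdepth (n + 1) hn ⟨k + 1, hk⟩
    ⟨l + 1, PD.congr (cotangentHomEquiv I N) hl⟩ (by
      rw [hker]
      rcases h with h | ⟨v, hv, hmv⟩ | h | h
      · exact Or.inl h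
      · refine Or.inr (Or.inl ⟨v, hv, fun r hr => ?_⟩)
        obtain ⟨q, hq, rfl⟩ := exists_lift_mem_maximal (Q := S) (R := S ⧸ I)
          Ideal.Quotient.mk_surjective hr
        exact hmv q hq
      · exact Or.inr (Or.inr (Or.inl h))
      · exact Or.inr (Or.inr (Or.inr h)))
  exact ⟨rs, h1, h2.trans Ideal.mk_ker⟩

end Main

end Pool.Agent.Helper19
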