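import Pool.Agent.Helper19.TorFree
import Pool.Agent.Helper19.Detect

/-!
Free normal module and derivations.
-/

universe u

open CategoryTheory Module IsLocalRing RingTheory.Sequence

namespace Pool.Agent.Helper19

section Der

variable {S : Type u} [CommRing S] [IsLocalRing S] (I : Ideal S)

omit [IsLocalRing S] in
/-- the map `I → S/I` given by a derivation -/
lemma exists_hom_of_derivation (D : Derivation ℤ S S) :
    ∃ ψ : I →ₗ[S] S ⧸ I, ∀ y : I, ψ y = Ideal.Quotient.mk I (D y) := by
  refine ⟨{ toFun := fun y => Ideal.Quotient.mk I (D y)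
            map_add' := fun y z => by rw [Submodule.coe_add, map_add, map_add]
            map_smul' := fun s y => ?_ }, fun y => rfl⟩
  rw [Submodule.coe_smul, smul_eq_mul, D.leibniz, map_add, RingHom.id_apply]
  have h1 : Ideal.Quotient.mk I ((y : S) • D s) = 0 := by
    rw [Ideal.Quotient.eq_zero_iff_mem, smul_eq_mul]
    exact I.mul_mem_right _ y.2
  rw [h1, add_zero, smul_eq_mul, map_mul]
  exact (Algebra.smul_def _ _).symm

/-- derivations in `m Der(S)` in terms of a generating family of the normal module -/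
lemma exists_coeff_of_mem {c : ℕ} (φ : Fin c → (I →ₗ[S] S ⧸ I))
    (huniv : ∀ ψ : I →ₗ[S] S ⧸ I, ∃ r : Fin c → S ⧸ I, ∀ x, ψ x = ∑ i, r i * φ i x)
    (E : Derivation ℤ S S)
    (hE : E ∈ maximalIdeal S • (⊤ : Submodule S (Derivation ℤ S S))) :
    ∃ e : Fin c → S, ∀ (y : I) (t : Fin c → S), (∀ i, Ideal.Quotient.mk I (t i) = φ i y) →
      E y - ∑ i, e i * t i ∈ maximalIdeal S * I := by
  induction hE using Submodule.smul_induction_on' with
  | smul a ha D _ =>
    obtain ⟨ψ, hψ⟩ := exists_hom_of_derivation I D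
    obtain ⟨r, hr⟩ := huniv ψ
    choose s hs using fun i => Ideal.Quotient.mk_surjective (r i)
    refine ⟨fun i => a * s i, fun y t ht => ?_⟩
    have h1 : D y - ∑ i, s i * t i ∈ I := by
      rw [← Ideal.Quotient.eq, ← hψ, hr, map_sum]
      exact Finset.sum_congr rfl fun i _ => by rw [map_mul, hs, ht]
    have h2 : (a • D) y - ∑ i, a * s i * t i = a * (D y - ∑ i, s i * t i) := by
      rw [Derivation.smul_apply, smul_eq_mul, mul_sub, Finset.mul_sum]
      congr 1
      exact Finset.sum_congr rfl fun i _ => mul_assoc _ _ _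
    rw [h2]
    exact Ideal.mul_mem_mul ha h1
  | add D _ D' _ h h' =>
    obtain ⟨e, he⟩ := h
    obtain ⟨e', he'⟩ := h'
    refine ⟨fun i => e i + e' i, fun y t ht => ?_⟩
    have h2 : (D + D') y - ∑ i, (e i + e' i) * t i =
        (D y - ∑ i, e i * t i) + (D' y - ∑ i, e' i * t i) := by
      rw [Derivation.add_apply]
      simp only [add_mul, Finset.sum_add_distrib]
      ring
    rw [h2]
    exact Ideal.add_mem _ (he y t ht) (he' y t ht)

/-- derivations preserving `I` kill the undetected part of `I/mI` -/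
lemma derivation_kills {c : ℕ} (φ : Fin c → (I →ₗ[S] S ⧸ I))
    (huniv : ∀ ψ : I →ₗ[S] S ⧸ I, ∃ r : Fin c → S ⧸ I, ∀ x, ψ x = ∑ i, r i * φ i x)
    (hindep : ∀ r : Fin c → S ⧸ I, (∀ x, ∑ i, r i * φ i x = 0) → r = 0)
    (E : Derivation ℤ S S) (hE : E ∈ maximalIdeal S • (⊤ : Submodule S (Derivation ℤ S S)))
    (hEI : ∀ y ∈ I, E y ∈ I) (x : I)
    (hx : ∀ i, ∃ t ∈ maximalIdeal S, Ideal.Quotient.mk I t = φ i x) :
    E x ∈ maximalIdeal S * I := by
  obtain ⟨e, he⟩ := exists_coeff_of_mem I φ huniv E hE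
  have h0 : (fun i => Ideal.Quotient.mk I (e i)) = 0 := by
    apply hindep
    intro y
    choose t ht using fun i => Ideal.Quotient.mk_surjective (φ i y)
    have h1 := he y t ht
    have h2 : ∑ i, e i * t i ∈ I := by
      have : ∑ i, e i * t i = E y - (E y - ∑ i, e i * t i) := by ring
      rw [this]
      exact I.sub_mem (hEI y y.2) (Ideal.mul_le_right h1)
    rw [← Ideal.Quotient.eq_zero_iff_mem, map_sum] at h2
    rw [← h2]
    exact Finset.sum_congr rfl fun i _ => by rw [map_mul, ht]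
  choose t htm ht using hx
  have h1 := he x t ht
  have h2 : ∑ i, e i * t i ∈ maximalIdeal S * I := by
    refine Ideal.sum_mem _ fun i _ => ?_
    rw [mul_comm (e i) (t i)]
    refine Ideal.mul_mem_mul (htm i) ?_
    rw [← Ideal.Quotient.eq_zero_iff_mem]
    exact congrFun h0 i
  have h3 : E x = (E x - ∑ i, e i * t i) + ∑ i, e i * t i := by ring
  rw [h3]
  exact Ideal.add_mem _ h1 h2

end Der

section Main

variable {S : Type u} [CommRing S] [IsLocalRing S] [IsNoetherianRing S] (I : Ideal S)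

/-- If all minimal generators of `I` are detected by homomorphisms `I → S/I`. -/
theorem exists_regularSeq_of_detect_ring (hI : I ≠ ⊤) (n : ℕ) (hpd : PD S (S ⧸ I) n) (c : ℕ)
    (φ : Fin c → (I →ₗ[S] S ⧸ I))
    (hdet : ∀ x : I, (∀ i, ∃ t ∈ maximalIdeal S, Ideal.Quotient.mk I t = φ i x) →
      (x : S) ∈ maximalIdeal S * I) :
    ∃ rs : List S, IsRegular S rs ∧ Ideal.ofList rs = I := by
  have : Nontrivial (S ⧸ I) := Ideal.Quotient.nontrivial_iff.mpr hI
  have : IsLocalRing (S ⧸ I) :=
    IsLocalRing.of_surjective' (Ideal.Quotient.mk I) Ideal.Quotient.mk_surjective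
  obtain ⟨rs, h1, h2⟩ := exists_regularSeq_of_detect (R := S ⧸ I) c S
    Ideal.Quotient.mk_surjective n hpd I I.subtype (by
      rw [Submodule.range_subtype]
      exact Ideal.mk_ker.symm) (by
      intro e e'
      apply Subtype.ext
      exact mul_comm (e : S) (e' : S)) 0 0 (fun v w _ => Subsingleton.elim v w) (by
      rw [Submodule.ker_subtype]
      simp) φ (by
      intro k v
      rw [LinearMap.zero_apply, map_zero]
      exact Ideal.zero_mem _) (by
      intro e he
      have h3 := hdet e (fun i => by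
        obtain ⟨t, ht⟩ := Ideal.Quotient.mk_surjective (φ i e)
        refine ⟨t, ?_, ht⟩
        by_contra htm
        rw [mem_maximalIdeal, mem_nonunits_iff, not_not] at htm
        have h4 := he i
        rw [← ht] at h4
        exact h4 (htm.map (Ideal.Quotient.mk I)))
      have h5 : RingHom.ker (algebraMap S (S ⧸ I)) = I := Ideal.mk_ker
      rw [h5]
      exact h3)
  exact ⟨rs, h1, h2.trans Ideal.mk_ker⟩

/-- Free normal module, and the derivations of `m Der(S)` preserving `I` have no common kernel on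
`I/mI`. -/
theorem exists_regularSeq_of_free_derivation (hI : I ≠ ⊤) (n : ℕ) (hpd : PD S (S ⧸ I) n)
    (hder : ∀ x ∈ I, (∀ E ∈ maximalIdeal S • (⊤ : Submodule S (Derivation ℤ S S)),
      (∀ y ∈ I, E y ∈ I) → E x ∈ maximalIdeal S * I) → x ∈ maximalIdeal S * I)
    (hfree : Module.Free (S ⧸ I) (RingHom.ker (algebraMap S (S ⧸ I)) →ₗ[S] (S ⧸ I))) :
    ∃ rs : List S, IsRegular S rs ∧ Ideal.ofList rs = I := by
  have : Nontrivial (S ⧸ I) := Ideal.Quotient.nontrivial_iff.mpr hI
  have : IsLocalRing (S ⧸ I) :=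
    IsLocalRing.of_surjective' (Ideal.Quotient.mk I) Ideal.Quotient.mk_surjective
  let K := RingHom.ker (algebraMap S (S ⧸ I))
  let e : I ≃ₗ[S] K := LinearEquiv.ofEq _ _ Ideal.mk_ker.symm
  have : Module.Finite (S ⧸ I) (K →ₗ[S] (S ⧸ I)) := finite_hom
  let b := Module.finBasis (S ⧸ I) (K →ₗ[S] (S ⧸ I))
  set c := Module.finrank (S ⧸ I) (K →ₗ[S] (S ⧸ I))
  have hexp : ∀ ψ : K →ₗ[S] (S ⧸ I), ∀ x, ψ x = ∑ i, b.repr ψ i * b i x := by
    intro ψ x
    conv_lhs => rw [← b.sum_repr ψ]
    rw [LinearMap.sum_apply]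
    rfl
  have huniv : ∀ ψ : I →ₗ[S] S ⧸ I, ∃ r : Fin c → S ⧸ I, ∀ x,
      ψ x = ∑ i, r i * ((b i).comp e.toLinearMap) x := by
    intro ψ
    refine ⟨b.repr (ψ.comp e.symm.toLinearMap), fun x => ?_⟩
    have := hexp (ψ.comp e.symm.toLinearMap) (e x)
    rw [LinearMap.comp_apply, LinearEquiv.coe_coe, LinearEquiv.symm_apply_apply] at this
    exact this
  have hindep : ∀ r : Fin c → S ⧸ I, (∀ x, ∑ i, r i * ((b i).comp e.toLinearMap) x = 0) →
      r = 0 := by
    intro r hr
    have h1 : ∑ i, r i • b i = 0 := by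
      ext x
      have := hr (e.symm x)
      rw [LinearMap.sum_apply, LinearMap.zero_apply, ← this]
      refine Finset.sum_congr rfl fun i _ => ?_
      rw [LinearMap.comp_apply, LinearEquiv.coe_coe, LinearEquiv.apply_symm_apply]
      rfl
    funext i
    exact Fintype.linearIndependent_iff.mp b.linearIndependent _ h1 i
  exact exists_regularSeq_of_detect_ring I hI n hpd c (fun i => (b i).comp e.toLinearMap)
    (fun x hx => hder x x.2 fun E hE hEI =>
      derivation_kills I (fun i => (b i).comp e.toLinearMap) huniv hindep E hE hEI x hx)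

end Main

end Pool.Agent.Helper19
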