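import Pool.Agent.Helper19.Torsion

/-!
Depth of `R` two, derivations.
-/

universe u

open CategoryTheory Abelian IsLocalRing Module TensorProduct Pointwise RingTheory.Sequence

namespace Pool.Agent.Helper19

section Aux

variable {R : Type u} [CommRing R] [IsLocalRing R]
variable {Q : Type u} [CommRing Q] [IsLocalRing Q] [Algebra Q R]

/-- coordinatewise reduction -/
def alm (Q R : Type u) [CommRing Q] [CommRing R] [Algebra Q R] (a : ℕ) :
    (Fin a → Q) →ₗ[Q] (Fin a → R) := (Algebra.linearMap Q R).compLeft (Fin a)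

omit [IsLocalRing R] [IsLocalRing Q] in
lemma alm_apply {a : ℕ} (v : Fin a → Q) (i : Fin a) : alm Q R a v i = algebraMap Q R (v i) := rfl

omit [IsLocalRing R] [IsLocalRing Q] in
lemma alm_surjective (hs : Function.Surjective (algebraMap Q R)) (a : ℕ) :
    Function.Surjective (alm Q R a) := by
  intro v
  choose w hw using fun i => hs (v i)
  exact ⟨w, funext hw⟩

omit [IsLocalRing R] [IsLocalRing Q] in
lemma exists_lift_map (hs : Function.Surjective (algebraMap Q R)) {a b : ℕ}
    (L : (Fin a → R) →ₗ[R] (Fin b → R)) :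
    ∃ Λ : (Fin a → Q) →ₗ[Q] (Fin b → Q), ∀ w, alm Q R b (Λ w) = L (alm Q R a w) := by
  obtain ⟨Λ, hΛ⟩ := Module.projective_lifting_property (alm Q R b)
    ((L.restrictScalars Q) ∘ₗ alm Q R a) (alm_surjective hs b)
  exact ⟨Λ, fun w => LinearMap.congr_fun hΛ w⟩

lemma mem_of_alg_mem {q : Q} (h : algebraMap Q R q ∈ maximalIdeal R) : q ∈ maximalIdeal Q := by
  rw [mem_maximalIdeal, mem_nonunits_iff] at h ⊢
  exact fun hu => h (hu.map _)

end Aux

section Main

variable {R : Type u} [CommRing R] [IsLocalRing R] [IsNoetherianRing R]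
variable {Q : Type u} [CommRing Q] [IsLocalRing Q] [IsNoetherianRing Q] [Algebra Q R]
variable {N : Type u} [AddCommGroup N] [Module R N] [Module Q N] [IsScalarTower Q R N]

/-- relations of `N` over `Q` -/
def Rel (Q : Type u) [CommRing Q] [Algebra Q R] [Module Q N] [IsScalarTower Q R N] {a : ℕ}
    (πN : (Fin a → R) →ₗ[R] N) : Submodule Q (Fin a → Q) :=
  LinearMap.ker ((πN.restrictScalars Q) ∘ₗ alm Q R a)

omit [IsNoetherianRing R] [IsNoetherianRing Q] in
lemma smul_rel_coords (hs : Function.Surjective (algebraMap Q R)) {a b : ℕ}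
    {πN : (Fin a → R) →ₗ[R] N} {BN : (Fin b → R) →ₗ[R] (Fin a → R)}
    (hBex : Function.Exact BN πN) (Bt : (Fin b → Q) →ₗ[Q] (Fin a → Q))
    (hBt : ∀ w, alm Q R a (Bt w) = BN (alm Q R b w)) {x : Fin a → Q}
    (hx : x ∈ maximalIdeal Q • Rel Q πN) :
    ∃ c : Fin b → Q, (∀ k, c k ∈ maximalIdeal Q) ∧
      ∀ i, (x - Bt c) i ∈ maximalIdeal Q * RingHom.ker (algebraMap Q R) := by
  induction hx using Submodule.smul_induction_on' with
  | smul r hr w hw =>
    obtain ⟨w', hw'⟩ := (hBex (alm Q R a w)).mp hw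
    obtain ⟨c, rfl⟩ := alm_surjective hs b w'
    refine ⟨r • c, fun k => Ideal.mul_mem_right _ _ hr, fun i => ?_⟩
    rw [map_smul, ← smul_sub, Pi.smul_apply, smul_eq_mul]
    refine Ideal.mul_mem_mul hr ?_
    rw [RingHom.mem_ker, ← alm_apply, map_sub, hBt, hw', sub_self]
    rfl
  | add x _ y _ hx hy =>
    obtain ⟨c, hc, hcx⟩ := hx
    obtain ⟨c', hc', hcy⟩ := hy
    refine ⟨c + c', fun k => Ideal.add_mem _ (hc k) (hc' k), fun i => ?_⟩
    have h1 := Ideal.add_mem _ (hcx i) (hcy i)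
    have h2 : (x + y - Bt (c + c')) i = (x - Bt c) i + (y - Bt c') i := by
      rw [map_add]
      simp only [Pi.sub_apply, Pi.add_apply]
      ring
    rw [h2]
    exact h1

/-- the representation of `m Der(Q)` in `m F₀ P` -/
lemma exists_xi (hs : Function.Surjective (algebraMap Q R)) {a b a' b' : ℕ}
    {πN : (Fin a → R) →ₗ[R] N} {BN : (Fin b → R) →ₗ[R] (Fin a → R)}
    {πP : (Fin a' → R) →ₗ[R] (RingHom.ker (algebraMap Q R) →ₗ[Q] N)}
    {BP : (Fin b' → R) →ₗ[R] (Fin a' → R)} (D : EvalData πN BN πP BP)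
    (hπP : Function.Surjective πP) (ε : Fin a → Q)
    (δ : Derivation ℤ Q Q) (hδ : δ ∈ maximalIdeal Q • (⊤ : Submodule Q (Derivation ℤ Q Q))) :
    ∃ ξ : Fin a' → Q, ∀ (e : D.E) (Λ : (Fin a' → Q) →ₗ[Q] (Fin a → Q)),
      (∀ w, alm Q R a (Λ w) = D.L e (alm Q R a' w)) →
      δ (D.f e : Q) • ε - Λ ξ ∈ maximalIdeal Q • Rel Q πN := by
  induction hδ using Submodule.smul_induction_on' with
  | smul r hr δ' _ =>
    have hkill : ∀ (g : RingHom.ker (algebraMap Q R)) (v : N), (g : Q) • v = 0 := by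
      intro g v
      have : algebraMap Q R (g : Q) = 0 := g.2
      rw [← algebraMap_smul R (g : Q) v, this, zero_smul]
    let J : RingHom.ker (algebraMap Q R) →ₗ[Q] N :=
      { toFun := fun g => δ' (g : Q) • πN (alm Q R a ε)
        map_add' := fun g g' => by
          rw [Submodule.coe_add, map_add, add_smul]
        map_smul' := fun c g => by
          rw [Submodule.coe_smul, smul_eq_mul, δ'.leibniz, add_smul, RingHom.id_apply,
            smul_eq_mul, smul_eq_mul, mul_smul (g : Q), hkill, add_zero, mul_smul] }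
    obtain ⟨J₀, hJ₀⟩ := hπP J
    obtain ⟨J₁, rfl⟩ := alm_surjective hs a' J₀
    refine ⟨r • J₁, fun e Λ hΛ => ?_⟩
    have h1 : (r • δ') (D.f e : Q) • ε - Λ (r • J₁) = r • (δ' (D.f e : Q) • ε - Λ J₁) := by
      rw [Derivation.smul_apply, map_smul, smul_sub, smul_smul, smul_eq_mul]
    rw [h1]
    refine Submodule.smul_mem_smul hr ?_
    change πN (alm Q R a (δ' (D.f e : Q) • ε - Λ J₁)) = 0
    rw [map_sub, map_sub, hΛ, D.hL, hJ₀, map_smul, LinearMap.map_smul_of_tower]
    change δ' (D.f e : Q) • πN (alm Q R a ε) - δ' (D.f e : Q) • πN (alm Q R a ε) = 0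
    exact sub_self _
  | add δ₁ _ δ₂ _ h₁ h₂ =>
    obtain ⟨ξ₁, h₁⟩ := h₁
    obtain ⟨ξ₂, h₂⟩ := h₂
    refine ⟨ξ₁ + ξ₂, fun e Λ hΛ => ?_⟩
    have h3 : (δ₁ + δ₂) (D.f e : Q) • ε - Λ (ξ₁ + ξ₂) =
        (δ₁ (D.f e : Q) • ε - Λ ξ₁) + (δ₂ (D.f e : Q) • ε - Λ ξ₂) := by
      rw [Derivation.add_apply, add_smul, map_add]
      abel
    rw [h3]
    exact Submodule.add_mem _ (h₁ e Λ hΛ) (h₂ e Λ hΛ)

/-- Depth two, derivations. -/
theorem exists_regularSeq_of_derivation (hs : Function.Surjective (algebraMap Q R))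
    (n : ℕ) (hpd : PD Q R n) [Nontrivial N]
    {a b a' b' : ℕ} {πN : (Fin a → R) →ₗ[R] N}
    {BN : (Fin b → R) →ₗ[R] (Fin a → R)}
    {πP : (Fin a' → R) →ₗ[R] (RingHom.ker (algebraMap Q R) →ₗ[Q] N)}
    {BP : (Fin b' → R) →ₗ[R] (Fin a' → R)} (D : EvalData πN BN πP BP)
    (hπN : Function.Surjective πN)
    (hBinj : Function.Injective BN) (hBex : Function.Exact BN πN)
    (hBmin : ∀ v i, BN v i ∈ maximalIdeal R)
    (hπP : Function.Surjective πP) (hPinj : Function.Injective BP)
    (hPex : Function.Exact BP πP) (hPmin : ∀ v i, BP v i ∈ maximalIdeal R)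
    {x y z : R} (hxy : RegPair x y) (hxN : IsSMulRegular N x)
    (hz : ¬ ∃ s t, z = x * s + y * t)
    (hmz : ∀ r ∈ maximalIdeal R, ∃ s t, r * z = x * s + y * t)
    (hder : ∀ x ∈ RingHom.ker (algebraMap Q R),
      (∀ E ∈ maximalIdeal Q • (⊤ : Submodule Q (Derivation ℤ Q Q)),
        (∀ y ∈ RingHom.ker (algebraMap Q R), E y ∈ RingHom.ker (algebraMap Q R)) →
          E x ∈ maximalIdeal Q * RingHom.ker (algebraMap Q R)) →
        x ∈ maximalIdeal Q * RingHom.ker (algebraMap Q R)) :
    ∃ rs : List Q, IsRegular Q rs ∧ Ideal.ofList rs = RingHom.ker (algebraMap Q R) := by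
  classical
  have ha : 0 < a := by
    rcases Nat.eq_zero_or_pos a with h0 | h0
    · exfalso
      subst h0
      have : Subsingleton N := hπN.subsingleton
      exact not_subsingleton N this
    · exact h0
  let μ : Fin (a' * a) → (D.E →ₗ[Q] R) := fun k =>
    { toFun := fun e => D.L e (Pi.single (finProdFinEquiv.symm k).1 1) (finProdFinEquiv.symm k).2
      map_add' := fun e e' => by rw [map_add]; rfl
      map_smul' := fun c e => by rw [map_smul]; rfl }
  have hμ : ∀ e (i : Fin a') (l : Fin a), μ (finProdFinEquiv (i, l)) e =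
      D.L e (Pi.single i 1) l := by
    intro e i l
    change D.L e (Pi.single (finProdFinEquiv.symm (finProdFinEquiv (i, l))).1 1)
      (finProdFinEquiv.symm (finProdFinEquiv (i, l))).2 = _
    rw [Equiv.symm_apply_apply]
  let p : D.E →ₗ[Q] Q := (RingHom.ker (algebraMap Q R)).subtype ∘ₗ D.f
  have hp : ∀ e, p e = (D.f e : Q) := fun e => rfl
  have hprange : LinearMap.range p = RingHom.ker (algebraMap Q R) := by
    ext y
    constructor
    · rintro ⟨e, rfl⟩
      exact (D.f e).2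
    · intro hy
      obtain ⟨e, he⟩ := D.hf ⟨y, hy⟩
      exact ⟨e, by rw [hp, he]⟩
  have hjp : LinearMap.range D.j = LinearMap.ker p := by
    rw [D.hjf]
    ext e
    rw [LinearMap.mem_ker, LinearMap.mem_ker, hp]
    exact ⟨fun h => by rw [h]; rfl, fun h => Subtype.ext h⟩
  refine exists_regularSeq_of_detect (a' * a) Q hs n hpd D.E p hprange D.hcomm D.q D.j D.hj hjp μ
    ?_ ?_
  · intro k v
    change D.L (D.j v) _ _ ∈ _
    obtain ⟨h, hL, -⟩ := D.hjL v
    rw [hL]
    exact hBmin _ _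
  · intro e he
    have hLe : ∀ w i, D.L e w i ∈ maximalIdeal R := by
      intro w i
      rw [pi_eq_sum_smul_single (D.L e) w, Finset.sum_apply]
      refine Ideal.sum_mem _ fun k _ => ?_
      rw [Pi.smul_apply, smul_eq_mul]
      apply Ideal.mul_mem_left
      rw [← hμ]
      exact he _
    refine hder (p e) (D.f e).2 fun δ hδ hδI => ?_
    -- set up
    let l₀ : Fin a := ⟨0, ha⟩
    let ε : Fin a → Q := Pi.single l₀ 1
    obtain ⟨Bt, hBt⟩ := exists_lift_map (Q := Q) hs BN
    obtain ⟨Pt, hPt⟩ := exists_lift_map (Q := Q) hs BP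
    obtain ⟨ξ, hξ⟩ := exists_xi hs D hπP ε δ hδ
    have hI0 : ∀ {q : Q}, q ∈ RingHom.ker (algebraMap Q R) → algebraMap Q R q = 0 := fun h => h
    have hmI : ∀ {q : Q}, q ∈ maximalIdeal Q * RingHom.ker (algebraMap Q R) →
        algebraMap Q R q = 0 := fun h => Ideal.mul_le_right h
    -- the image of `ξ` in `P` is zero, and the lifting to `F₁ P`
    have hstep : ∀ e' : D.E, ∃ w : Fin b → R, BN w = D.L e' (alm Q R a' ξ) ∧
        ∀ i, w i ∈ maximalIdeal R := by
      intro e'
      obtain ⟨Λ, hΛ⟩ := exists_lift_map (Q := Q) hs (D.L e')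
      obtain ⟨c, hc, hcx⟩ := smul_rel_coords hs hBex Bt hBt (hξ e' Λ hΛ)
      refine ⟨- alm Q R b c, ?_, fun i => ?_⟩
      · rw [map_neg, ← hBt, ← hΛ]
        funext i
        have h1 := hmI (hcx i)
        simp only [Pi.sub_apply, Pi.smul_apply, smul_eq_mul, map_sub, map_mul] at h1
        rw [hI0 (hδI _ (D.f e').2), zero_mul, zero_sub] at h1
        rw [Pi.neg_apply, alm_apply, alm_apply]
        linear_combination h1
      · rw [Pi.neg_apply, alm_apply]
        exact Ideal.neg_mem_iff _ |>.mpr (algebraMap_mem_maximal hs (hc i))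
    obtain ⟨u, hu⟩ : ∃ u, BP u = alm Q R a' ξ := by
      apply (hPex _).mp
      ext g
      obtain ⟨e', rfl⟩ := D.hf g
      obtain ⟨w, hw, -⟩ := hstep e'
      rw [← D.hL, ← hw, hBex.apply_apply_eq_zero]
      rfl
    have hum : ∀ k, u k ∈ maximalIdeal R := by
      intro k
      refine mem_of_M_mem D hBex hπP hPinj hPex hPmin hxy hxN hz hmz u (fun e' i => ?_) k
      obtain ⟨w, hw, hwm⟩ := hstep e'
      have : D.M e' u = w := by
        apply hBinj
        rw [D.hM, hu, hw]
      rw [this]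
      exact hwm i
    -- the computation for `e`
    obtain ⟨Λ, hΛ⟩ := exists_lift_map (Q := Q) hs (D.L e)
    have hΛm : ∀ w i, Λ w i ∈ maximalIdeal Q := by
      intro w i
      apply mem_of_alg_mem (R := R)
      rw [← alm_apply, hΛ]
      exact hLe _ _
    obtain ⟨ut, hut⟩ := alm_surjective (Q := Q) hs b' u
    have hutm : ∀ k, ut k ∈ maximalIdeal Q := by
      intro k
      apply mem_of_alg_mem (R := R)
      rw [← alm_apply, hut]
      exact hum k
    have hIrel : ∀ v : Fin a → Q, (∀ i, v i ∈ RingHom.ker (algebraMap Q R)) →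
        v ∈ Rel Q πN := by
      intro v hv
      change πN (alm Q R a v) = 0
      have : alm Q R a v = 0 := funext fun i => hv i
      rw [this, map_zero]
    have h1 : Λ ξ ∈ maximalIdeal Q • Rel Q πN := by
      have h2 : Λ ξ = Λ (Pt ut) + Λ (ξ - Pt ut) := by rw [← map_add, add_sub_cancel]
      rw [h2]
      refine Submodule.add_mem _ ?_ ?_
      · have h3 : Λ (Pt ut) = ∑ k, ut k • Λ (Pt (Pi.single k 1)) := by
          exact pi_eq_sum_smul_single (Λ ∘ₗ Pt) ut
        rw [h3]
        refine Submodule.sum_mem _ fun k _ => Submodule.smul_mem_smul (hutm k) ?_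
        change πN (alm Q R a (Λ (Pt (Pi.single k 1)))) = 0
        rw [hΛ, hPt, D.hL, hPex.apply_apply_eq_zero]
        rfl
      · rw [pi_eq_sum_smul_single Λ (ξ - Pt ut)]
        refine Submodule.sum_mem _ fun k _ => ?_
        have h4 : (ξ - Pt ut) k ∈ RingHom.ker (algebraMap Q R) := by
          rw [RingHom.mem_ker, ← alm_apply, map_sub, hPt, hut, hu, sub_self]
          rfl
        -- `ι • Λ e_k = ∑ (Λ e_k)_i • (ι ε_i)`
        have h5 : (ξ - Pt ut) k • Λ (Pi.single k 1) =
            ∑ i, Λ (Pi.single k 1) i • ((ξ - Pt ut) k • (Pi.single i (1 : Q) : Fin a → Q)) := by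
          funext i
          rw [Finset.sum_apply, Finset.sum_eq_single i]
          · simp [mul_comm]
          · intro i' _ hi'
            simp [hi'.symm]
          · simp
        rw [h5]
        refine Submodule.sum_mem _ fun i _ => Submodule.smul_mem_smul (hΛm _ _) ?_
        apply hIrel
        intro i'
        exact Ideal.mul_mem_right _ _ h4
    have h6 : δ (D.f e : Q) • ε ∈ maximalIdeal Q • Rel Q πN := by
      have h7 := Submodule.add_mem _ (hξ e Λ hΛ) h1
      rwa [sub_add_cancel] at h7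
    obtain ⟨c, -, hcx⟩ := smul_rel_coords hs hBex Bt hBt h6
    have h8 : alm Q R b c = 0 := by
      apply hBinj
      rw [map_zero, ← hBt]
      funext i
      have h9 := hmI (hcx i)
      simp only [Pi.sub_apply, Pi.smul_apply, smul_eq_mul, map_sub, map_mul] at h9
      rw [hI0 (hδI _ (D.f e).2), zero_mul, zero_sub] at h9
      rw [alm_apply]
      exact neg_eq_zero.mp h9
    have h10 : Bt c l₀ ∈ maximalIdeal Q * RingHom.ker (algebraMap Q R) := by
      rw [pi_eq_sum_smul_single Bt c, Finset.sum_apply]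
      refine Ideal.sum_mem _ fun k _ => ?_
      rw [Pi.smul_apply, smul_eq_mul, mul_comm (c k)]
      refine Ideal.mul_mem_mul ?_ ?_
      · apply mem_of_alg_mem (R := R)
        rw [← alm_apply, hBt]
        exact hBmin _ _
      · exact congrFun h8 k
    have h11 := Ideal.add_mem _ (hcx l₀) h10
    have h12 : (δ (D.f e : Q) • ε - Bt c) l₀ + Bt c l₀ = δ (p e) := by
      simp [ε, hp]
    rwa [h12] at h11

end Main

end Pool.Agent.Helper19
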