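import Pool.Agent.Helper19.DepthOne

/-!
Consequences of the freeness of `Hom(I, S/I)`.
-/

universe u

open IsLocalRing Module Polynomial

namespace Pool.Agent.Helper19

section Cot

variable {S : Type u} [CommRing S] (I : Ideal S)

lemma exists_cotangent_descend (φ : I →ₗ[S] S ⧸ I) :
    ∃ ψ : I.Cotangent →ₗ[S ⧸ I] S ⧸ I, ∀ x, ψ (I.toCotangent x) = φ x := by
  refine ⟨(Ideal.Cotangent.lift φ (by
      intro x y
      have h1 : x * y = (x : S) • y := rfl
      rw [h1, map_smul, ← algebraMap_smul (S ⧸ I)]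
      have h2 : algebraMap S (S ⧸ I) (x : S) = 0 := Ideal.Quotient.eq_zero_iff_mem.mpr x.2
      rw [h2, zero_smul])).extendScalarsOfSurjective Ideal.Quotient.mk_surjective, fun x => rfl⟩

/-- The kernel of `I → (S/I)^c` given by a dual basis is killed modulo `I²` by an element regular
on `S/I`, if multiplication by `a` factors through the dual basis. -/
theorem exists_mul_mem_sq [IsNoetherianRing S] {c : ℕ} (φ : Fin c → (I →ₗ[S] S ⧸ I))
    (huniv : ∀ ψ : I →ₗ[S] S ⧸ I, ∃ r : Fin c → S ⧸ I, ∀ x, ψ x = ∑ i, r i * φ i x)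
    (a : S) (ha : ∀ u, a * u ∈ I → u ∈ I) (f : Fin c → I)
    (hf : ∀ i j, φ i (f j) = if i = j then Ideal.Quotient.mk I a else 0) :
    ∃ z : S, (∀ u, z * u ∈ I → u ∈ I) ∧
      ∀ x : I, (∀ i, φ i x = 0) → z * (x : S) ∈ I ^ 2 := by
  choose ψ hψ using fun i => exists_cotangent_descend I (φ i)
  let K : Submodule (S ⧸ I) I.Cotangent := ⨅ i, LinearMap.ker (ψ i)
  have hK : ∀ m, m ∈ K ↔ ∀ i, ψ i m = 0 := by
    intro m
    simp [K, Submodule.mem_iInf]
  -- the map `θ`
  let θ' : I.Cotangent →ₗ[S ⧸ I] I.Cotangent :=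
    (Ideal.Quotient.mk I a) • LinearMap.id - ∑ j, (ψ j).smulRight (I.toCotangent (f j))
  have hθ' : ∀ m, θ' m = (Ideal.Quotient.mk I a) • m - ∑ j, ψ j m • I.toCotangent (f j) := by
    intro m
    simp [θ']
  have hθK : ∀ m, θ' m ∈ K := by
    intro m
    rw [hK]
    intro i
    rw [hθ', map_sub, map_smul, map_sum]
    have h1 : ∀ j, ψ i (ψ j m • I.toCotangent (f j)) =
        if i = j then ψ j m * Ideal.Quotient.mk I a else 0 := by
      intro j
      rw [map_smul, hψ, hf, smul_eq_mul]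
      split_ifs
      · rfl
      · rw [mul_zero]
    rw [Finset.sum_congr rfl fun j _ => h1 j]
    simp [mul_comm]
  let θ : I.Cotangent →ₗ[S ⧸ I] K := θ'.codRestrict K hθK
  have hareg : IsSMulRegular (S ⧸ I) (Ideal.Quotient.mk I a) := by
    rw [isSMulRegular_iff_right_eq_zero_of_smul]
    intro r hr
    obtain ⟨r, rfl⟩ := Ideal.Quotient.mk_surjective r
    rw [smul_eq_mul, ← map_mul, Ideal.Quotient.eq_zero_iff_mem] at hr
    exact Ideal.Quotient.eq_zero_iff_mem.mpr (ha r hr)
  have hsub : Subsingleton (K →ₗ[S ⧸ I] S ⧸ I) := by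
    refine ⟨fun g g' => ?_⟩
    rw [← sub_eq_zero]
    generalize g - g' = φ₀
    obtain ⟨r, hr⟩ := huniv (((φ₀ ∘ₗ θ).restrictScalars S) ∘ₗ I.toCotangent)
    apply LinearMap.ext
    intro k
    obtain ⟨x, hx⟩ := I.toCotangent_surjective (k : I.Cotangent)
    have h1 : θ (k : I.Cotangent) = (Ideal.Quotient.mk I a) • k := by
      apply Subtype.ext
      change θ' k = _
      rw [hθ']
      have h2 : ∑ j, ψ j (k : I.Cotangent) • I.toCotangent (f j) = 0 := by
        refine Finset.sum_eq_zero fun j _ => ?_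
        rw [(hK _).mp k.2 j, zero_smul]
      rw [h2, sub_zero]; rfl
    have h2 : φ₀ (θ (k : I.Cotangent)) = 0 := by
      have h3 := hr x
      change φ₀ (θ (I.toCotangent x)) = _ at h3
      rw [hx] at h3
      rw [h3]
      refine Finset.sum_eq_zero fun i _ => ?_
      rw [← hψ, hx, (hK _).mp k.2 i, mul_zero]
    rw [h1, map_smul] at h2
    exact hareg.right_eq_zero_of_smul h2
  have hnoeth' : IsNoetherian S I.Cotangent :=
    isNoetherian_of_surjective _ I.toCotangent_range
  have hnoeth : IsNoetherian (S ⧸ I) I.Cotangent := isNoetherian_of_tower S hnoeth'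
  have hfin : Module.Finite (S ⧸ I) K := inferInstance
  rw [IsSMulRegular.subsingleton_linearMap_iff] at hsub
  obtain ⟨r, hr, hreg⟩ := hsub
  obtain ⟨z, rfl⟩ := Ideal.Quotient.mk_surjective r
  refine ⟨z, ?_, ?_⟩
  · intro u hu
    rw [← Ideal.Quotient.eq_zero_iff_mem] at hu ⊢
    rw [map_mul] at hu
    exact hreg.right_eq_zero_of_smul hu
  · intro x hx
    have hxK : I.toCotangent x ∈ K := by
      rw [hK]; intro i; rw [hψ, hx]
    have h1 := Module.mem_annihilator.mp hr ⟨_, hxK⟩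
    have h2 : (Ideal.Quotient.mk I z) • I.toCotangent x = 0 := congrArg Subtype.val h1
    have h3 : I.toCotangent (z • x) = 0 := by
      rw [map_smul, ← algebraMap_smul (S ⧸ I)]
      exact h2
    rw [Ideal.toCotangent_eq_zero] at h3
    exact h3

/-- determinant trick: `y I ⊆ F + I²` gives `z I ⊆ F` with `z ≡ yⁿ` modulo `I`. -/
theorem exists_pow_mul_mem [IsNoetherianRing S] (F : Ideal S) (hFI : F ≤ I) (y : S)
    (h : ∀ x ∈ I, y * x ∈ F ⊔ I ^ 2) :
    ∃ (z : S) (n : ℕ), z - y ^ n ∈ I ∧ ∀ x ∈ I, z * x ∈ F := by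
  let X := I ⧸ (Submodule.comap I.subtype F)
  let g : Module.End S X := algebraMap S (Module.End S X) y
  have hg : ∀ x, g x = y • x := fun x => rfl
  have hrange : LinearMap.range g ≤ I • ⊤ := by
    rintro _ ⟨x, rfl⟩
    obtain ⟨x, rfl⟩ := Submodule.Quotient.mk_surjective _ x
    rw [hg, ← Submodule.Quotient.mk_smul]
    obtain ⟨u, hu, v, hv, huv⟩ := Submodule.mem_sup.mp (h x x.2)
    have hvI : v ∈ I := Ideal.pow_le_self two_ne_zero hv
    have h1 : y • x = ⟨u, hFI hu⟩ + ⟨v, hvI⟩ := Subtype.ext huv.symm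
    have h2 : (Submodule.Quotient.mk (⟨u, hFI hu⟩ : I) : X) = 0 := by
      rw [Submodule.Quotient.mk_eq_zero]; exact hu
    rw [h1, Submodule.Quotient.mk_add, h2, zero_add]
    -- `v ∈ I²` maps into `I • ⊤`
    have h3 : (⟨v, hvI⟩ : I) ∈ I • (⊤ : Submodule S I) := by
      have h4 : v ∈ Submodule.map I.subtype (I • (⊤ : Submodule S I)) := by
        rw [Submodule.map_smul'', Submodule.map_top, Submodule.range_subtype]
        rw [pow_two] at hv
        exact hv
      obtain ⟨w, hw, hwv⟩ := h4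
      have : w = ⟨v, hvI⟩ := Subtype.ext hwv
      rw [← this]; exact hw
    have h5 := Submodule.mem_map_of_mem (f := Submodule.mkQ (Submodule.comap I.subtype F)) h3
    rw [Submodule.map_smul''] at h5
    exact Submodule.smul_mono le_rfl le_top h5
  obtain ⟨p, hp, -, hcoeff, haeval⟩ :=
    LinearMap.exists_monic_and_natDegree_eq_and_coeff_mem_pow_and_aeval_eq_zero S g I hrange
  refine ⟨p.eval y, p.natDegree, ?_, ?_⟩
  · rw [Polynomial.eval_eq_sum_range, Finset.sum_range_succ, hp.coeff_natDegree, one_mul,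
      add_sub_cancel_right]
    refine Ideal.sum_mem _ fun k hk => Ideal.mul_mem_right _ _ ?_
    have h1 : p.natDegree - k ≠ 0 := by
      have := Finset.mem_range.mp hk
      omega
    exact Ideal.pow_le_self h1 (hcoeff k)
  · intro x hx
    have h1 : (Polynomial.aeval g p) (Submodule.Quotient.mk (⟨x, hx⟩ : I) : X) = 0 := by
      rw [haeval]; rfl
    have h2 : Polynomial.aeval g p = algebraMap S (Module.End S X) (p.eval y) := by
      rw [Polynomial.aeval_algebraMap_apply]
      simp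
    rw [h2] at h1
    change p.eval y • (Submodule.Quotient.mk (⟨x, hx⟩ : I) : X) = 0 at h1
    rw [← Submodule.Quotient.mk_smul, Submodule.Quotient.mk_eq_zero] at h1
    exact h1

end Cot

section Powers

variable {S : Type u} [CommRing S] {I : Ideal S}

lemma pow_reg {a : S} (ha : ∀ u, a * u ∈ I → u ∈ I) (n : ℕ) (u : S) (h : a ^ n * u ∈ I) :
    u ∈ I := by
  induction n generalizing u with
  | zero => simpa using h
  | succ n ih =>
    apply ha
    apply ih
    rw [← mul_assoc, ← pow_succ]; exact h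

lemma pow_reg_pair {a b : S} (ha : ∀ u, a * u ∈ I → u ∈ I)
    (hb : ∀ u, b * u ∈ I ⊔ Ideal.span {a} → u ∈ I ⊔ Ideal.span {a}) (n : ℕ) :
    ∀ u, b * u ∈ I ⊔ Ideal.span {a ^ n} → u ∈ I ⊔ Ideal.span {a ^ n} := by
  induction n with
  | zero =>
    intro u _
    rw [pow_zero, Ideal.span_singleton_one, sup_top_eq]
    trivial
  | succ n ih =>
    intro u hu
    have hle : I ⊔ Ideal.span {a ^ (n + 1)} ≤ I ⊔ Ideal.span {a ^ n} := by
      apply sup_le_sup_left
      rw [Ideal.span_singleton_le_span_singleton]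
      exact pow_dvd_pow a (Nat.le_succ n)
    obtain ⟨i, hi, v', hv', rfl⟩ := Submodule.mem_sup.mp (ih u (hle hu))
    obtain ⟨v, rfl⟩ := Ideal.mem_span_singleton'.mp hv'
    obtain ⟨i', hi', t', ht', h1⟩ := Submodule.mem_sup.mp hu
    obtain ⟨t, rfl⟩ := Ideal.mem_span_singleton'.mp ht'
    have h2 : a ^ n * (b * v - a * t) ∈ I := by
      have : a ^ n * (b * v - a * t) = i' - b * i := by
        rw [pow_succ] at h1
        linear_combination -h1
      rw [this]
      exact I.sub_mem hi' (I.mul_mem_left _ hi)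
    have h3 := pow_reg ha n _ h2
    have h4 : v ∈ I ⊔ Ideal.span {a} := by
      apply hb
      have : b * v = (b * v - a * t) + t * a := by ring
      rw [this]
      exact Ideal.add_mem _ (Ideal.mem_sup_left h3)
        (Ideal.mem_sup_right (Ideal.mul_mem_left _ _ (Ideal.mem_span_singleton_self a)))
    obtain ⟨i'', hi'', s', hs', rfl⟩ := Submodule.mem_sup.mp h4
    obtain ⟨s, rfl⟩ := Ideal.mem_span_singleton'.mp hs'
    have : i + (i'' + s * a) * a ^ n = (i + a ^ n * i'') + s * a ^ (n + 1) := by ring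
    rw [this]
    exact Ideal.add_mem _ (Ideal.mem_sup_left (I.add_mem hi (I.mul_mem_left _ hi'')))
      (Ideal.mem_sup_right (Ideal.mul_mem_left _ _ (Ideal.mem_span_singleton_self _)))

lemma pow_reg_pair' {a b : S} (ha : ∀ u, a * u ∈ I → u ∈ I)
    (hb : ∀ u, b * u ∈ I ⊔ Ideal.span {a} → u ∈ I ⊔ Ideal.span {a}) (n m : ℕ) :
    ∀ u, b ^ m * u ∈ I ⊔ Ideal.span {a ^ n} → u ∈ I ⊔ Ideal.span {a ^ n} :=
  fun u hu => pow_reg (pow_reg_pair ha hb n) m u hu

/-- sharp version of `(I ⊔ J)^(n+m) ≤ I^n ⊔ J^m` -/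
lemma sup_pow_add_succ_le {I J : Ideal S} (n m : ℕ) :
    (I ⊔ J) ^ (n + m + 1) ≤ I ^ (n + 1) ⊔ J ^ (m + 1) := by
  rw [← Ideal.add_eq_sup, ← Ideal.add_eq_sup, add_pow, Ideal.sum_eq_sup]
  apply Finset.sup_le
  intro i hi
  by_cases hn : n + 1 ≤ i
  · exact (Ideal.mul_le_left.trans (Ideal.mul_le_left.trans
      ((Ideal.pow_le_pow_right hn).trans le_sup_left)))
  · refine (Ideal.mul_le_left.trans (Ideal.mul_le_right.trans
      ((Ideal.pow_le_pow_right ?_).trans le_sup_right)))
    omega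

/-- pigeonhole: `(f)^(c(q-1)+1) ⊆ (f_i^q)` -/
lemma span_pow_le {q : ℕ} (hq : 0 < q) {c : ℕ} (f : Fin c → S) :
    (Ideal.span (Set.range f)) ^ (c * (q - 1) + 1) ≤
      Ideal.span (Set.range fun i => f i ^ q) := by
  induction c with
  | zero =>
    simp
  | succ c ih =>
    have h1 : Ideal.span (Set.range f) =
        Ideal.span (Set.range fun i : Fin c => f i.castSucc) ⊔ Ideal.span {f (Fin.last c)} := by
      apply le_antisymm
      · rw [Ideal.span_le]
        rintro _ ⟨i, rfl⟩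
        refine Fin.lastCases ?_ (fun i => ?_) i
        · exact Ideal.mem_sup_right (Ideal.mem_span_singleton_self _)
        · exact Ideal.mem_sup_left (Ideal.subset_span ⟨i, rfl⟩)
      · refine sup_le (Ideal.span_mono ?_) ?_
        · rintro _ ⟨i, rfl⟩; exact ⟨_, rfl⟩
        · rw [Ideal.span_singleton_le_iff_mem]; exact Ideal.subset_span ⟨_, rfl⟩
    have h2 : (c + 1) * (q - 1) + 1 = c * (q - 1) + (q - 1) + 1 := by ring
    rw [h1, h2]
    refine (sup_pow_add_succ_le _ _).trans (sup_le ((ih _).trans (Ideal.span_mono ?_)) ?_)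
    · rintro _ ⟨i, rfl⟩; exact ⟨_, rfl⟩
    · rw [Nat.sub_add_cancel hq, Ideal.span_singleton_pow, Ideal.span_singleton_le_iff_mem]
      exact Ideal.subset_span ⟨_, rfl⟩

/-- products of elements congruent modulo `I²` -/
lemma prod_sub_prod_mem {ι : Type*} (s : Finset ι) (x y : ι → S) (hx : ∀ i ∈ s, x i ∈ I)
    (hy : ∀ i ∈ s, y i ∈ I) (hxy : ∀ i ∈ s, x i - y i ∈ I ^ 2) :
    ∏ i ∈ s, x i - ∏ i ∈ s, y i ∈ I ^ (s.card + 1) := by
  classical
  induction s using Finset.induction_on with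
  | empty => simp
  | insert a s ha ih =>
    have h1 := ih (fun i hi => hx i (Finset.mem_insert_of_mem hi))
      (fun i hi => hy i (Finset.mem_insert_of_mem hi))
      (fun i hi => hxy i (Finset.mem_insert_of_mem hi))
    have h2 : ∏ i ∈ s, y i ∈ I ^ s.card := by
      have := Ideal.prod_mem_prod (s := s) (I := fun _ => I) (x := y)
        (fun i hi => hy i (Finset.mem_insert_of_mem hi))
      simpa using this
    rw [Finset.prod_insert ha, Finset.prod_insert ha, Finset.card_insert_of_notMem ha]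
    have h3 : x a * ∏ i ∈ s, x i - y a * ∏ i ∈ s, y i =
        x a * (∏ i ∈ s, x i - ∏ i ∈ s, y i) + (x a - y a) * ∏ i ∈ s, y i := by ring
    rw [h3]
    refine Ideal.add_mem _ ?_ ?_
    · rw [pow_succ' I (s.card + 1)]
      exact Ideal.mul_mem_mul (hx a (Finset.mem_insert_self _ _)) h1
    · have h4 : I ^ (s.card + 1 + 1) = I ^ 2 * I ^ s.card := by rw [← pow_add]; ring_nf
      rw [h4]
      exact Ideal.mul_mem_mul (hxy a (Finset.mem_insert_self _ _)) h2

end Powers

end Pool.Agent.Helper19
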