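import Pool.Agent.Helper19.SocleN

/-!
The module of liftings of the evaluation maps, for modules of projective dimension at most one,
and the detection of `F₁ P` (Lemma 1).
-/

universe u

open CategoryTheory Abelian IsLocalRing Module TensorProduct Pointwise RingTheory.Sequence

namespace Pool.Agent.Helper19

section Data

variable {R : Type u} [CommRing R]
variable {Q : Type u} [CommRing Q] [Algebra Q R]
variable {N : Type u} [AddCommGroup N] [Module R N] [Module Q N] [IsScalarTower Q R N]

/-- the module of pairs `(f, λ)` with `λ` a lift of `φ ↦ φ(f)` -/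
structure EvalData {a b a' b' : ℕ} (πN : (Fin a → R) →ₗ[R] N)
    (BN : (Fin b → R) →ₗ[R] (Fin a → R))
    (πP : (Fin a' → R) →ₗ[R] (RingHom.ker (algebraMap Q R) →ₗ[Q] N))
    (BP : (Fin b' → R) →ₗ[R] (Fin a' → R)) where
  E : Type u
  [i1 : AddCommGroup E]
  [i2 : Module Q E]
  f : E →ₗ[Q] RingHom.ker (algebraMap Q R)
  hf : Function.Surjective f
  L : E →ₗ[Q] ((Fin a' → R) →ₗ[R] (Fin a → R))
  M : E →ₗ[Q] ((Fin b' → R) →ₗ[R] (Fin b → R))
  hL : ∀ e w, πN (L e w) = πP w (f e)
  hM : ∀ e w, BN (M e w) = L e (BP w)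
  hcomm : ∀ e e' : E, (f e : Q) • e' = (f e' : Q) • e
  q : ℕ
  j : (Fin q → R) →ₗ[Q] E
  hj : Function.Injective j
  hjf : LinearMap.range j = LinearMap.ker f
  hjL : ∀ v, ∃ h : (Fin a' → R) →ₗ[R] (Fin b → R), L (j v) = BN ∘ₗ h ∧ M (j v) = h ∘ₗ BP

attribute [instance] EvalData.i1 EvalData.i2

theorem exists_evalData [Nontrivial R] {a b a' b' : ℕ} (πN : (Fin a → R) →ₗ[R] N)
    (hπN : Function.Surjective πN)
    (BN : (Fin b → R) →ₗ[R] (Fin a → R)) (hBinj : Function.Injective BN)
    (hBex : Function.Exact BN πN)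
    (πP : (Fin a' → R) →ₗ[R] (RingHom.ker (algebraMap Q R) →ₗ[Q] N))
    (BP : (Fin b' → R) →ₗ[R] (Fin a' → R))
    (hPex : Function.Exact BP πP) : Nonempty (EvalData πN BN πP BP) := by
  let I : Ideal Q := RingHom.ker (algebraMap Q R)
  let H := (Fin a' → R) →ₗ[R] (Fin a → R)
  let E : Submodule Q (I × H) :=
    { carrier := {e | ∀ w, πN (e.2 w) = πP w e.1}
      add_mem' := by
        intro e e' he he' w
        change πN (e.2 w + e'.2 w) = πP w (e.1 + e'.1)
        rw [map_add, he, he', map_add]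
      zero_mem' := by
        intro w
        change πN 0 = πP w 0
        rw [map_zero, map_zero]
      smul_mem' := by
        intro q e he w
        change πN (q • e.2 w) = πP w (q • e.1)
        rw [LinearMap.map_smul_of_tower, he, map_smul] }
  have hE : ∀ e : E, ∀ w, πN (e.1.2 w) = πP w e.1.1 := fun e => e.2
  let f : E →ₗ[Q] I := LinearMap.fst Q I H ∘ₗ E.subtype
  have hfe : ∀ e : E, f e = e.1.1 := fun e => rfl
  have hfsurj : Function.Surjective f := by
    intro y
    obtain ⟨lam, hlam⟩ := Module.projective_lifting_property πN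
      (evalAt (R := R) N (y : I) ∘ₗ πP) hπN
    exact ⟨⟨(y, lam), fun w => LinearMap.congr_fun hlam w⟩, rfl⟩
  have hkill : ∀ y : Q, algebraMap Q R y = 0 → ∀ h : H, y • h = 0 := by
    intro y hy h
    apply LinearMap.ext
    intro w
    funext i
    change y • (h w i) = 0
    rw [Algebra.smul_def, hy, zero_mul]
  -- the kernel
  let bas := Module.finBasis R ((Fin a' → R) →ₗ[R] (Fin b → R))
  let ee := bas.equivFun.symm
  let j : (Fin (Module.finrank R ((Fin a' → R) →ₗ[R] (Fin b → R))) → R) →ₗ[Q] E :=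
    { toFun := fun v => ⟨(0, BN ∘ₗ ee v), fun w => by
        change πN (BN (ee v w)) = πP w 0
        rw [map_zero]; exact hBex.apply_apply_eq_zero _⟩
      map_add' := fun v w => by
        apply Subtype.ext
        apply Prod.ext
        · exact (add_zero (0 : I)).symm
        · change BN ∘ₗ ee (v + w) = BN ∘ₗ ee v + BN ∘ₗ ee w
          rw [map_add, LinearMap.comp_add]
      map_smul' := fun q v => by
        apply Subtype.ext
        apply Prod.ext
        · exact (smul_zero q).symm
        · change BN ∘ₗ ee (q • v) = q • (BN ∘ₗ ee v)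
          rw [← algebraMap_smul R q v, map_smul, LinearMap.comp_smul, algebraMap_smul] }
  have hj2 : ∀ v, (j v).1.2 = BN ∘ₗ ee v := fun v => rfl
  have hj1 : ∀ v, (j v).1.1 = 0 := fun v => rfl
  have hjinj : Function.Injective j := by
    intro v w hvw
    apply ee.injective
    apply LinearMap.ext
    intro y
    apply hBinj
    have := congrArg (fun e : E => e.1.2 y) hvw
    exact this
  have hjrange : LinearMap.range j = LinearMap.ker f := by
    ext e
    constructor
    · rintro ⟨v, rfl⟩
      rw [LinearMap.mem_ker, hfe, hj1]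
    · intro he
      have he1 : e.1.1 = 0 := he
      obtain ⟨L, hL⟩ := exists_lift_of_exact BN πN (fun v hv => (hBex v).mp hv) e.1.2
        (fun w => by rw [hE, he1, map_zero])
      refine ⟨ee.symm L, ?_⟩
      apply Subtype.ext
      apply Prod.ext
      · rw [hj1, he1]
      · rw [hj2, LinearEquiv.apply_symm_apply]
        apply LinearMap.ext
        exact hL
  -- the functionals
  have hM : ∀ e : E, ∃ M : (Fin b' → R) →ₗ[R] (Fin b → R), ∀ w, BN (M w) = e.1.2 (BP w) := by
    intro e
    obtain ⟨M, hM⟩ := exists_lift_of_exact BN πN (fun v hv => (hBex v).mp hv) (e.1.2 ∘ₗ BP)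
      (fun w => by
        rw [LinearMap.comp_apply, hE, hPex.apply_apply_eq_zero]; rfl)
    exact ⟨M, hM⟩
  choose M hM using hM
  let M' : E →ₗ[Q] ((Fin b' → R) →ₗ[R] (Fin b → R)) :=
    { toFun := M
      map_add' := fun e e' => by
        apply LinearMap.ext
        intro w
        apply hBinj
        rw [hM, LinearMap.add_apply, map_add, hM, hM]; rfl
      map_smul' := fun q e => by
        apply LinearMap.ext
        intro w
        apply hBinj
        rw [hM, RingHom.id_apply, LinearMap.smul_apply, LinearMap.map_smul_of_tower, hM]; rfl }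
  let L' : E →ₗ[Q] H := LinearMap.snd Q I H ∘ₗ E.subtype
  have hL' : ∀ (e : E) w, πN (L' e w) = πP w (f e) := hE
  refine ⟨{ E := E, f := f, hf := hfsurj, L := L', M := M',
            hL := hL', hM := hM, hcomm := ?_, q := _, j := j, hj := hjinj, hjf := hjrange,
            hjL := ?_ }⟩
  · intro e e'
    apply Subtype.ext
    apply Prod.ext
    · apply Subtype.ext
      change (e.1.1 : Q) * (e'.1.1 : Q) = (e'.1.1 : Q) * (e.1.1 : Q)
      exact mul_comm _ _
    · change (e.1.1 : Q) • e'.1.2 = (e'.1.1 : Q) • e.1.2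
      rw [hkill _ e.1.1.2, hkill _ e'.1.1.2]
  · intro v
    refine ⟨ee v, rfl, ?_⟩
    apply LinearMap.ext
    intro w
    apply hBinj
    change BN (M (j v) w) = BN (ee v (BP w))
    rw [hM]; rfl

end Data

section Lemma1

variable {R : Type u} [CommRing R] [IsLocalRing R]
variable {Q : Type u} [CommRing Q] [Algebra Q R]
variable {N : Type u} [AddCommGroup N] [Module R N] [Module Q N] [IsScalarTower Q R N]

/-- Lemma 1: vectors of `F₁ P` all of whose images in `F₁ N` are in the maximal ideal. -/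
theorem mem_of_M_mem {a b a' b' : ℕ} {πN : (Fin a → R) →ₗ[R] N}
    {BN : (Fin b → R) →ₗ[R] (Fin a → R)}
    {πP : (Fin a' → R) →ₗ[R] (RingHom.ker (algebraMap Q R) →ₗ[Q] N)}
    {BP : (Fin b' → R) →ₗ[R] (Fin a' → R)} (D : EvalData πN BN πP BP)
    (hBex : Function.Exact BN πN)
    (hπP : Function.Surjective πP) (hPinj : Function.Injective BP)
    (hPex : Function.Exact BP πP) (hPmin : ∀ v i, BP v i ∈ maximalIdeal R)
    {x y z : R} (hxy : RegPair x y) (hxN : IsSMulRegular N x)
    (hz : ¬ ∃ s t, z = x * s + y * t)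
    (hmz : ∀ r ∈ maximalIdeal R, ∃ s t, r * z = x * s + y * t)
    (t : Fin b' → R) (ht : ∀ e i, D.M e t i ∈ maximalIdeal R) (i : Fin b') :
    t i ∈ maximalIdeal R := by
  by_contra hti
  rw [mem_maximalIdeal, mem_nonunits_iff, not_not] at hti
  have hvec : ∀ {k : ℕ} (v : Fin k → R), (∀ i, v i ∈ maximalIdeal R) →
      ∃ s s' : Fin k → R, z • v = x • s + y • s' := by
    intro k v hv
    choose s s' hs using fun i => hmz (v i) (hv i)
    refine ⟨s, s', ?_⟩
    funext i
    simp only [Pi.smul_apply, Pi.add_apply, smul_eq_mul]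
    rw [mul_comm, hs]
  obtain ⟨p₁, p₂, hp⟩ := hvec (BP t) (hPmin t)
  have key : ∀ g : RingHom.ker (algebraMap Q R), ∃ n : N, πP p₁ g = y • n ∧
      πP p₂ g = - (x • n) := by
    intro g
    obtain ⟨e, rfl⟩ := D.hf g
    obtain ⟨w₁, w₂, hw⟩ := hvec (D.M e t) (ht e)
    have h1 : x • D.L e p₁ + y • D.L e p₂ = x • BN w₁ + y • BN w₂ := by
      have h0 : D.L e (z • BP t) = BN (z • D.M e t) := by rw [map_smul, map_smul, D.hM]
      rw [hp, hw, map_add, map_add, map_smul, map_smul, map_smul, map_smul] at h0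
      exact h0
    have h2 : y • (BN w₂ - D.L e p₂) = x • (D.L e p₁ - BN w₁) := by
      rw [smul_sub, smul_sub, sub_eq_sub_iff_add_eq_add, add_comm (y • BN w₂), ← h1]
    obtain ⟨u, hu, hu'⟩ := hxy.vec h2
    refine ⟨πN u, ?_, ?_⟩
    · rw [← D.hL, ← map_smul, ← hu', map_sub, hBex.apply_apply_eq_zero, sub_zero]
    · rw [← D.hL, ← map_smul, ← hu, map_sub, hBex.apply_apply_eq_zero, zero_sub, neg_neg]
  choose n hn₁ hn₂ using key
  let φ : RingHom.ker (algebraMap Q R) →ₗ[Q] N :=
    { toFun := n
      map_add' := fun g g' => by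
        apply hxN
        apply neg_injective
        change - (x • n (g + g')) = - (x • (n g + n g'))
        rw [← hn₂, smul_add, neg_add, ← hn₂, ← hn₂, map_add]
      map_smul' := fun c g => by
        apply hxN
        apply neg_injective
        change - (x • n (c • g)) = - (x • (c • n g))
        rw [← hn₂, smul_comm x c, ← smul_neg, ← hn₂, map_smul] }
  obtain ⟨pp, hpp⟩ := hπP φ
  obtain ⟨s₁, hs₁⟩ : ∃ s₁, BP s₁ = p₁ - y • pp := by
    apply (hPex _).mp
    rw [map_sub, map_smul, hpp]
    ext g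
    rw [LinearMap.sub_apply, hn₁]
    change y • n g - y • n g = 0
    exact sub_self _
  obtain ⟨s₂, hs₂⟩ : ∃ s₂, BP s₂ = p₂ + x • pp := by
    apply (hPex _).mp
    rw [map_add, map_smul, hpp]
    ext g
    rw [LinearMap.add_apply, hn₂]
    change - (x • n g) + x • n g = 0
    exact neg_add_cancel _
  have h3 : z • t = x • s₁ + y • s₂ := by
    apply hPinj
    rw [map_smul, hp, map_add, map_smul, map_smul, hs₁, hs₂, smul_sub, smul_add,
      smul_comm x y pp]
    abel
  obtain ⟨u, hu⟩ := hti
  apply hz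
  refine ⟨s₁ i * ((u⁻¹ : Rˣ) : R), s₂ i * ((u⁻¹ : Rˣ) : R), ?_⟩
  have h4 := congrFun h3 i
  simp only [Pi.smul_apply, Pi.add_apply, smul_eq_mul] at h4
  rw [← mul_assoc, ← mul_assoc, ← add_mul, ← h4, ← hu, mul_assoc, Units.mul_inv, mul_one]

end Lemma1

end Pool.Agent.Helper19
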