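import Pool.Agent.Helper19.RegularPd

/-!
Flatness of Frobenius for regular local rings, in equational form.
-/

universe u

open IsLocalRing Module

namespace Pool.Agent.Helper19

/-- `x ↦ x ^ q` is additive -/
def PowAdd (q : ℕ) (A : Type*) [CommRing A] : Prop :=
  0 < q ∧ ∀ a b : A, (a + b) ^ q = a ^ q + b ^ q

/-- equational flatness of `x ↦ x ^ q` -/
def FrobFlat (q : ℕ) (A : Type*) [CommRing A] : Prop :=
  ∀ (ι : Type) [Fintype ι] (y r : ι → A), ∑ i, r i * y i ^ q = 0 →
    ∃ (κ : Type) (_ : Fintype κ) (a : ι → κ → A) (s : κ → A),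
      (∀ i, r i = ∑ j, a i j ^ q * s j) ∧ ∀ j, ∑ i, y i * a i j = 0

section PowAdd

variable {q : ℕ} {A : Type*} [CommRing A]

lemma PowAdd.zero_pow (h : PowAdd q A) : (0 : A) ^ q = 0 := by
  rw [_root_.zero_pow h.1.ne']

lemma PowAdd.neg_pow (h : PowAdd q A) (a : A) : (-a) ^ q = -a ^ q := by
  have h1 := h.2 a (-a)
  rw [add_neg_cancel, h.zero_pow] at h1
  linear_combination -h1

lemma PowAdd.sub_pow (h : PowAdd q A) (a b : A) : (a - b) ^ q = a ^ q - b ^ q := by
  rw [sub_eq_add_neg, h.2, h.neg_pow, sub_eq_add_neg]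

lemma PowAdd.sum_pow (h : PowAdd q A) {ι : Type*} (s : Finset ι) (f : ι → A) :
    (∑ i ∈ s, f i) ^ q = ∑ i ∈ s, f i ^ q := by
  classical
  induction s using Finset.induction_on with
  | empty => simp [h.zero_pow]
  | insert a s ha ih => rw [Finset.sum_insert ha, Finset.sum_insert ha, h.2, ih]

lemma PowAdd.of_surjective {B : Type*} [CommRing B] (h : PowAdd q A) (f : A →+* B)
    (hf : Function.Surjective f) : PowAdd q B := by
  refine ⟨h.1, fun a b => ?_⟩
  obtain ⟨a, rfl⟩ := hf a
  obtain ⟨b, rfl⟩ := hf b
  rw [← map_add, ← map_pow, h.2, map_add, map_pow, map_pow]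

lemma powAdd_of_char (p e : ℕ) [Fact p.Prime] [CharP A p] : PowAdd (p ^ e) A :=
  ⟨pow_pos (Fact.out : p.Prime).pos e, fun a b => add_pow_char_pow a b p e⟩

end PowAdd

section Base

variable {q : ℕ}

lemma frobFlat_of_maximalIdeal_eq_bot {A : Type u} [CommRing A] [IsLocalRing A]
    (hm : maximalIdeal A = ⊥) (hq : PowAdd q A) : FrobFlat q A := by
  classical
  intro ι _ y r h
  by_cases hy : ∀ i, y i = 0
  · refine ⟨ι, inferInstance, fun i j => if i = j then 1 else 0, r, ?_, ?_⟩
    · intro i
      rw [Finset.sum_eq_single i]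
      · simp
      · intro j _ hj
        simp only [if_neg (Ne.symm hj), hq.zero_pow, zero_mul]
      · intro hi
        exact absurd (Finset.mem_univ i) hi
    · intro j
      exact Finset.sum_eq_zero fun i _ => by rw [hy i, zero_mul]
  · push Not at hy
    obtain ⟨i₀, hi₀⟩ := hy
    have hu : IsUnit (y i₀) := by
      by_contra hn
      have : y i₀ ∈ maximalIdeal A := hn
      rw [hm] at this
      exact hi₀ this
    obtain ⟨u, hu⟩ := hu
    let v : A := ((u⁻¹ : Aˣ) : A)
    have hv : y i₀ * v = 1 := by rw [← hu]; exact Units.mul_inv u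
    refine ⟨ι, inferInstance, fun i j => (if i = j then 1 else 0) -
      (if i = i₀ then v * y j else 0), r, ?_, ?_⟩
    · intro i
      by_cases hi : i = i₀
      · subst hi
        have h1 : ∀ j, ((if i = j then (1 : A) else 0) - (if i = i then v * y j else 0)) ^ q * r j
            = (if i = j then r j else 0) - v ^ q * (r j * y j ^ q) := by
          intro j
          rw [hq.sub_pow, if_pos rfl, mul_pow]
          split_ifs with hij
          · rw [one_pow]; ring
          · rw [hq.zero_pow]; ring
        rw [Finset.sum_congr rfl fun j _ => h1 j, Finset.sum_sub_distrib, ← Finset.mul_sum, h]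
        simp
      · have h1 : ∀ j, ((if i = j then (1 : A) else 0) - (if i = i₀ then v * y j else 0)) ^ q * r j
            = if i = j then r j else 0 := by
          intro j
          rw [if_neg hi, sub_zero]
          split_ifs with hij
          · rw [one_pow, one_mul]
          · rw [hq.zero_pow, zero_mul]
        rw [Finset.sum_congr rfl fun j _ => h1 j]
        simp
    · intro j
      have h1 : ∀ i, y i * ((if i = j then (1 : A) else 0) - (if i = i₀ then v * y j else 0)) =
          (if i = j then y i else 0) - (if i = i₀ then y i * (v * y j) else 0) := by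
        intro i
        split_ifs <;> ring
      rw [Finset.sum_congr rfl fun i _ => h1 i, Finset.sum_sub_distrib]
      simp only [Finset.sum_ite_eq', Finset.mem_univ, if_true]
      linear_combination (-y j) * hv

end Base

section Step

variable {q : ℕ} {A : Type u} [CommRing A]

/-- relations modulo `x` -/
lemma frobFlat_mod_one {x : A} (h : FrobFlat q (A ⧸ Ideal.span {x}))
    (ι : Type) [Fintype ι] (y r : ι → A) (hyr : ∃ t, ∑ i, r i * y i ^ q = x * t) :
    ∃ (κ : Type) (_ : Fintype κ) (a : ι → κ → A) (s : κ → A) (ρ : ι → A) (c : κ → A),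
      (∀ i, r i = ∑ j, a i j ^ q * s j + x * ρ i) ∧ ∀ j, ∑ i, y i * a i j = x * c j := by
  obtain ⟨t, ht⟩ := hyr
  let π := Ideal.Quotient.mk (Ideal.span {x})
  have hπx : π x = 0 := Ideal.Quotient.eq_zero_iff_mem.mpr (Ideal.mem_span_singleton_self x)
  have h1 : ∑ i, π (r i) * π (y i) ^ q = 0 := by
    have := congrArg π ht
    rw [map_sum, map_mul, hπx, zero_mul] at this
    rw [← this]
    exact Finset.sum_congr rfl fun i _ => by rw [map_mul, map_pow]
  obtain ⟨κ, hκ, a', s', h2, h3⟩ := h ι _ _ h1
  choose a ha using fun i j => Ideal.Quotient.mk_surjective (a' i j)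
  choose s hs using fun j => Ideal.Quotient.mk_surjective (s' j)
  have h4 : ∀ i, ∃ ρ, r i - ∑ j, a i j ^ q * s j = x * ρ := by
    intro i
    have : r i - ∑ j, a i j ^ q * s j ∈ Ideal.span {x} := by
      rw [← Ideal.Quotient.eq_zero_iff_mem, map_sub, map_sum, sub_eq_zero]
      rw [show Ideal.Quotient.mk (Ideal.span {x}) (r i) = π (r i) from rfl, h2]
      exact Finset.sum_congr rfl fun j _ => by rw [map_mul, map_pow, ha, hs]
    obtain ⟨ρ, hρ⟩ := Ideal.mem_span_singleton'.mp this
    exact ⟨ρ, by rw [← hρ, mul_comm]⟩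
  have h5 : ∀ j, ∃ c, ∑ i, y i * a i j = x * c := by
    intro j
    have : ∑ i, y i * a i j ∈ Ideal.span {x} := by
      rw [← Ideal.Quotient.eq_zero_iff_mem, map_sum, ← h3 j]
      exact Finset.sum_congr rfl fun i _ => by rw [map_mul, ha]
    obtain ⟨ρ, hρ⟩ := Ideal.mem_span_singleton'.mp this
    exact ⟨ρ, by rw [← hρ, mul_comm]⟩
  choose ρ hρ using h4
  choose c hc using h5
  refine ⟨κ, hκ, a, s, ρ, c, fun i => ?_, hc⟩
  rw [← hρ]; ring

/-- relations modulo powers of `x` -/
lemma frobFlat_mod_pow {x : A} (hx : IsSMulRegular A x) (hq : PowAdd q A)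
    (h : FrobFlat q (A ⧸ Ideal.span {x})) (k : ℕ) (hk : k + 1 ≤ q) :
    ∀ (ι : Type) [Fintype ι] (y r : ι → A), (∃ t, ∑ i, r i * y i ^ q = x ^ (k + 1) * t) →
    ∃ (κ : Type) (_ : Fintype κ) (a : ι → κ → A) (s : κ → A) (ρ : ι → A) (c : κ → A),
      (∀ i, r i = ∑ j, a i j ^ q * s j + x ^ (k + 1) * ρ i) ∧ ∀ j, ∑ i, y i * a i j = x * c j := by
  induction k with
  | zero =>
    intro ι _ y r ht
    simp only [zero_add, pow_one] at ht ⊢
    exact frobFlat_mod_one h ι y r ht
  | succ k ih =>
    intro ι _ y r ⟨t, ht⟩
    obtain ⟨κ, hκ, a, s, ρ, c, h1, h2⟩ := ih (by omega) ι y r ⟨x * t, by rw [ht]; ring⟩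
    -- the new relation
    have h3 : ∑ i, r i * y i ^ q = x ^ q * (∑ j, c j ^ q * s j) +
        x ^ (k + 1) * ∑ i, ρ i * y i ^ q := by
      have h4 : ∀ i, r i * y i ^ q = ∑ j, (y i * a i j) ^ q * s j +
          x ^ (k + 1) * (ρ i * y i ^ q) := by
        intro i
        rw [h1 i, add_mul, Finset.sum_mul]
        congr 1
        · exact Finset.sum_congr rfl fun j _ => by rw [mul_pow]; ring
        · ring
      have h4' : ∑ i, ∑ j, (y i * a i j) ^ q * s j = x ^ q * ∑ j, c j ^ q * s j := by
        rw [Finset.sum_comm, Finset.mul_sum]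
        refine Finset.sum_congr rfl fun j _ => ?_
        rw [← Finset.sum_mul, ← hq.sum_pow, h2, mul_pow]
        ring
      rw [Finset.sum_congr rfl fun i _ => h4 i, Finset.sum_add_distrib, h4', ← Finset.mul_sum]
    have h5 : ∃ t', ∑ i, ρ i * y i ^ q = x * t' := by
      refine ⟨t - x ^ (q - (k + 2)) * ∑ j, c j ^ q * s j, ?_⟩
      have h6 : x ^ q = x ^ (k + 2) * x ^ (q - (k + 2)) := by
        rw [← pow_add]; congr 1; omega
      have hxk : IsSMulRegular A (x ^ (k + 1)) := hx.pow _
      apply hxk
      simp only [smul_eq_mul]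
      rw [ht, h6] at h3
      linear_combination -h3
    obtain ⟨κ', hκ', a', s', ρ', c', h6, h7⟩ := frobFlat_mod_one h ι y ρ h5
    refine ⟨κ ⊕ κ', inferInstance, fun i => Sum.elim (a i) (a' i),
      Sum.elim s (fun j => x ^ (k + 1) * s' j), ρ', Sum.elim c c', ?_, ?_⟩
    · intro i
      rw [Fintype.sum_sum_type]
      simp only [Sum.elim_inl, Sum.elim_inr]
      rw [h1 i, h6 i, mul_add, Finset.mul_sum]
      have : ∑ j, x ^ (k + 1) * (a' i j ^ q * s' j) = ∑ j, a' i j ^ q * (x ^ (k + 1) * s' j) :=
        Finset.sum_congr rfl fun j _ => by ring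
      rw [this]
      ring
    · rintro (j | j)
      · simpa using h2 j
      · simpa using h7 j

/-- flatness of Frobenius ascends from `A/x` to `A` -/
theorem frobFlat_of_quotient [IsLocalRing A] [IsNoetherianRing A] {x : A}
    (hxm : x ∈ maximalIdeal A) (hx : IsSMulRegular A x) (hq : PowAdd q A)
    (h : FrobFlat q (A ⧸ Ideal.span {x})) : FrobFlat q A := by
  -- Noetherian induction on the ideal generated by `y`
  have key : ∀ J : Ideal A, ∀ (ι : Type) [Fintype ι] (y r : ι → A),
      Ideal.span (Set.range y) = J → ∑ i, r i * y i ^ q = 0 →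
      ∃ (κ : Type) (_ : Fintype κ) (a : ι → κ → A) (s : κ → A),
      (∀ i, r i = ∑ j, a i j ^ q * s j) ∧ ∀ j, ∑ i, y i * a i j = 0 := by
    intro J
    induction J using IsNoetherian.induction with
    | hgt J ih =>
    intro ι _ y r hyJ hrel
    classical
    let Rel : Submodule A (ι → A) :=
      { carrier := {r | ∑ i, r i * y i ^ q = 0}
        add_mem' := by
          intro a b ha hb
          simp only [Set.mem_ofPred_eq, Pi.add_apply, add_mul, Finset.sum_add_distrib] at ha hb ⊢
          rw [ha, hb, add_zero]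
        zero_mem' := by simp
        smul_mem' := by
          intro c a ha
          simp only [Set.mem_ofPred_eq, Pi.smul_apply, smul_eq_mul, mul_assoc] at ha ⊢
          rw [← Finset.mul_sum, ha, mul_zero] }
    let Tr : Submodule A (ι → A) := Submodule.span A
      {v | ∃ a : ι → A, ∑ i, y i * a i = 0 ∧ ∀ i, v i = a i ^ q}
    have hTr : ∀ v ∈ Tr, ∃ (κ : Type) (_ : Fintype κ) (a : ι → κ → A) (s : κ → A),
        (∀ i, v i = ∑ j, a i j ^ q * s j) ∧ ∀ j, ∑ i, y i * a i j = 0 := by
      intro v hv
      induction hv using Submodule.span_induction with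
      | mem v hv =>
        obtain ⟨a, ha, hva⟩ := hv
        exact ⟨Unit, inferInstance, fun i _ => a i, fun _ => 1, fun i => by simp [hva i],
          fun _ => ha⟩
      | zero =>
        exact ⟨Empty, inferInstance, fun _ j => j.elim, fun j => j.elim, fun i => by simp,
          fun j => j.elim⟩
      | add v w _ _ hv hw =>
        obtain ⟨κ, _, a, s, h1, h2⟩ := hv
        obtain ⟨κ', _, a', s', h1', h2'⟩ := hw
        refine ⟨κ ⊕ κ', inferInstance, fun i => Sum.elim (a i) (a' i), Sum.elim s s', ?_, ?_⟩
        · intro i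
          rw [Fintype.sum_sum_type]
          simp only [Sum.elim_inl, Sum.elim_inr, Pi.add_apply]
          rw [h1, h1']
        · rintro (j | j)
          · simpa using h2 j
          · simpa using h2' j
      | smul c v _ hv =>
        obtain ⟨κ, _, a, s, h1, h2⟩ := hv
        refine ⟨κ, inferInstance, a, fun j => c * s j, ?_, h2⟩
        intro i
        rw [Pi.smul_apply, smul_eq_mul, h1, Finset.mul_sum]
        exact Finset.sum_congr rfl fun j _ => by ring
    have hTr' : ∀ (κ : Type) [Fintype κ] (a : ι → κ → A) (s : κ → A),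
        (∀ j, ∑ i, y i * a i j = 0) → (fun i => ∑ j, a i j ^ q * s j) ∈ Tr := by
      intro κ _ a s h2
      have h3 : (fun i => ∑ j, a i j ^ q * s j) = ∑ j, s j • (fun i => a i j ^ q) := by
        funext i
        rw [Finset.sum_apply]
        exact Finset.sum_congr rfl fun j _ => by rw [Pi.smul_apply, smul_eq_mul, mul_comm]
      rw [h3]
      refine Submodule.sum_mem _ fun j _ => Submodule.smul_mem _ _ (Submodule.subset_span ?_)
      exact ⟨fun i => a i j, h2 j, fun i => rfl⟩
    have hle : Rel ≤ Tr ⊔ maximalIdeal A • Rel := by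
      intro r hr
      have hr' : ∑ i, r i * y i ^ q = 0 := hr
      obtain ⟨k, rfl⟩ : ∃ k, q = k + 1 := ⟨q - 1, by have := hq.1; omega⟩
      obtain ⟨κ, hκ, a, s, ρ, c, h1, h2⟩ := frobFlat_mod_pow hx hq h k le_rfl ι y r
        ⟨0, by rw [hr', mul_zero]⟩
      -- the longer relation
      have h3 : ∑ j, s j * c j ^ (k + 1) + ∑ i, ρ i * y i ^ (k + 1) = 0 := by
        have h4 : ∀ i, r i * y i ^ (k + 1) = ∑ j, (y i * a i j) ^ (k + 1) * s j +
            x ^ (k + 1) * (ρ i * y i ^ (k + 1)) := by
          intro i
          rw [h1 i, add_mul, Finset.sum_mul]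
          congr 1
          · exact Finset.sum_congr rfl fun j _ => by rw [mul_pow]; ring
          · ring
        have h5 : ∑ i, r i * y i ^ (k + 1) = x ^ (k + 1) * (∑ j, s j * c j ^ (k + 1) +
            ∑ i, ρ i * y i ^ (k + 1)) := by
          have h4' : ∑ i, ∑ j, (y i * a i j) ^ (k + 1) * s j =
              x ^ (k + 1) * ∑ j, s j * c j ^ (k + 1) := by
            rw [Finset.sum_comm, Finset.mul_sum]
            refine Finset.sum_congr rfl fun j _ => ?_
            rw [← Finset.sum_mul, ← hq.sum_pow, h2, mul_pow]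
            ring
          rw [Finset.sum_congr rfl fun i _ => h4 i, Finset.sum_add_distrib, h4',
            ← Finset.mul_sum, mul_add]
        rw [hr'] at h5
        exact (hx.pow (k + 1)).right_eq_zero_of_smul h5.symm
      by_cases hc : ∀ j, c j ∈ J
      · -- correct the relations
        have h4 : ∀ j, ∃ e : ι → A, ∑ i, e i * y i = c j := by
          intro j
          have : c j ∈ Ideal.span (Set.range y) := by rw [hyJ]; exact hc j
          rw [Ideal.span, Submodule.mem_span_range_iff_exists_fun] at this
          exact this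
        choose e he using h4
        let a' : ι → κ → A := fun i j => a i j - x * e j i
        have ha' : ∀ j, ∑ i, y i * a' i j = 0 := by
          intro j
          have h5 : ∀ i, y i * a' i j = y i * a i j - x * (e j i * y i) := by
            intro i; simp only [a']; ring
          rw [Finset.sum_congr rfl fun i _ => h5 i, Finset.sum_sub_distrib, ← Finset.mul_sum,
            he, h2, sub_self]
        let ρ' : ι → A := fun i => ρ i + ∑ j, e j i ^ (k + 1) * s j
        have hr2 : r = (fun i => ∑ j, a' i j ^ (k + 1) * s j) + x ^ (k + 1) • ρ' := by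
          funext i
          rw [Pi.add_apply, Pi.smul_apply, smul_eq_mul, h1 i]
          have h5 : ∀ j, a i j ^ (k + 1) * s j = a' i j ^ (k + 1) * s j +
              x ^ (k + 1) * (e j i ^ (k + 1) * s j) := by
            intro j
            simp only [a']
            rw [hq.sub_pow, mul_pow]; ring
          rw [Finset.sum_congr rfl fun j _ => h5 j, Finset.sum_add_distrib, ← Finset.mul_sum]
          simp only [ρ']
          ring
        have hρ' : ρ' ∈ Rel := by
          change ∑ i, ρ' i * y i ^ (k + 1) = 0
          have h5 : ∀ i, ρ' i * y i ^ (k + 1) = ρ i * y i ^ (k + 1) +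
              ∑ j, (e j i * y i) ^ (k + 1) * s j := by
            intro i
            simp only [ρ']
            rw [add_mul, Finset.sum_mul]
            congr 1
            exact Finset.sum_congr rfl fun j _ => by rw [mul_pow]; ring
          rw [Finset.sum_congr rfl fun i _ => h5 i, Finset.sum_add_distrib, Finset.sum_comm]
          rw [← h3, add_comm]
          congr 1
          refine Finset.sum_congr rfl fun j _ => ?_
          rw [← Finset.sum_mul, ← hq.sum_pow, he, mul_comm]
        rw [hr2]
        refine Submodule.add_mem_sup (hTr' κ a' s ha') ?_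
        exact Submodule.smul_mem_smul (Ideal.pow_mem_of_mem _ hxm _ (by omega)) hρ'
      · -- use the induction hypothesis
        push Not at hc
        obtain ⟨j₀, hj₀⟩ := hc
        let y' : ι ⊕ κ → A := Sum.elim y c
        have hJ' : J < Ideal.span (Set.range y') := by
          refine lt_of_le_of_ne ?_ ?_
          · rw [← hyJ]
            apply Ideal.span_mono
            rintro _ ⟨i, rfl⟩
            exact ⟨Sum.inl i, rfl⟩
          · intro heq
            apply hj₀
            rw [heq]
            exact Ideal.subset_span ⟨Sum.inr j₀, rfl⟩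
        obtain ⟨κ', hκ', b, s', h4, h5⟩ := ih _ hJ' (ι ⊕ κ) y' (Sum.elim ρ s) rfl (by
          rw [Fintype.sum_sum_type]
          simp only [Sum.elim_inl, Sum.elim_inr, y']
          rw [add_comm]; exact h3)
        have h6 : ∀ i, ρ i = ∑ l, b (Sum.inl i) l ^ (k + 1) * s' l := fun i => h4 (Sum.inl i)
        have h7 : ∀ j, s j = ∑ l, b (Sum.inr j) l ^ (k + 1) * s' l := fun j => h4 (Sum.inr j)
        have h8 : ∀ l, ∑ i, y i * b (Sum.inl i) l + ∑ j, c j * b (Sum.inr j) l = 0 := by
          intro l
          have := h5 l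
          rw [Fintype.sum_sum_type] at this
          simpa only [Sum.elim_inl, Sum.elim_inr, y'] using this
        let a' : ι → κ' → A := fun i l => ∑ j, a i j * b (Sum.inr j) l + x * b (Sum.inl i) l
        have hr2 : r = fun i => ∑ l, a' i l ^ (k + 1) * s' l := by
          funext i
          rw [h1 i]
          have h9 : ∀ l, a' i l ^ (k + 1) * s' l =
              ∑ j, a i j ^ (k + 1) * (b (Sum.inr j) l ^ (k + 1) * s' l) +
              x ^ (k + 1) * (b (Sum.inl i) l ^ (k + 1) * s' l) := by
            intro l
            simp only [a']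
            rw [hq.2, hq.sum_pow, add_mul, Finset.sum_mul, mul_pow]
            congr 1
            · exact Finset.sum_congr rfl fun j _ => by rw [mul_pow]; ring
            · ring
          rw [Finset.sum_congr rfl fun l _ => h9 l, Finset.sum_add_distrib, Finset.sum_comm,
            ← Finset.mul_sum, ← h6]
          congr 1
          refine Finset.sum_congr rfl fun j _ => ?_
          rw [← Finset.mul_sum, ← h7]
        rw [hr2]
        refine Submodule.mem_sup_left (hTr' κ' a' s' ?_)
        intro l
        have h9 : ∀ i, y i * a' i l = ∑ j, (y i * a i j) * b (Sum.inr j) l +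
            x * (y i * b (Sum.inl i) l) := by
          intro i
          simp only [a']
          rw [mul_add, Finset.mul_sum]
          congr 1
          · exact Finset.sum_congr rfl fun j _ => by ring
          · ring
        rw [Finset.sum_congr rfl fun i _ => h9 i, Finset.sum_add_distrib, Finset.sum_comm,
          ← Finset.mul_sum]
        have h10 : ∀ j, ∑ i, y i * a i j * b (Sum.inr j) l = x * (c j * b (Sum.inr j) l) := by
          intro j
          rw [← Finset.sum_mul, h2]; ring
        rw [Finset.sum_congr rfl fun j _ => h10 j, ← Finset.mul_sum, ← mul_add, add_comm, h8,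
          mul_zero]
    have hRel : Rel ≤ Tr := by
      apply Submodule.le_of_le_smul_of_le_jacobson_bot (IsNoetherian.noetherian _)
        (IsLocalRing.maximalIdeal_le_jacobson _) hle
    exact hTr r (hRel hrel)
  intro ι _ y r hrel
  exact key _ ι y r rfl hrel

end Step

/-- Frobenius is flat on regular local rings -/
theorem frobFlat_of_isRegularLocalRing (A : Type u) [CommRing A] [IsRegularLocalRing A] {q : ℕ}
    (hq : PowAdd q A) : FrobFlat q A := by
  obtain ⟨d, hdim, hg⟩ := exists_system_of_isRegularLocalRing A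
  refine (regular_induction (fun A _ _ _ => PowAdd q A → FrobFlat q A) ?_ ?_ d A hdim hg).2 hq
  · intro A _ _ _ hm hq
    exact frobFlat_of_maximalIdeal_eq_bot hm hq
  · intro A _ _ _ x hxm hx _ ih hq
    exact frobFlat_of_quotient hxm hx hq
      (ih (hq.of_surjective (Ideal.Quotient.mk _) Ideal.Quotient.mk_surjective))

end Pool.Agent.Helper19
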