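import Pool.Agent.Helper19.DualAnn
import Pool.Agent.Helper19.FrobIdeal
import Pool.Agent.Helper19.KosStep

/-!
The key computation in characteristic `p`.
-/

universe u

open IsLocalRing Module

namespace Pool.Agent.Helper19

theorem frob_key {S : Type u} [CommRing S] [IsNoetherianRing S] {q : ℕ} (hq : PowAdd q S)
    (hflat : FrobFlat q S) (I : Ideal S) (c : ℕ) (φ : Fin (c + 1) → (I →ₗ[S] S ⧸ I))
    (huniv : ∀ ψ : I →ₗ[S] S ⧸ I, ∃ r : Fin (c + 1) → S ⧸ I, ∀ x, ψ x = ∑ i, r i * φ i x)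
    (a b : S) (ha : ∀ u, a * u ∈ I → u ∈ I)
    (hb : ∀ u, b * u ∈ I ⊔ Ideal.span {a} → u ∈ I ⊔ Ideal.span {a})
    (f g : Fin (c + 1) → I)
    (hf : ∀ i j, φ i (f j) = if i = j then Ideal.Quotient.mk I a else 0)
    (hg : ∀ i j, φ i (g j) = if i = j then Ideal.Quotient.mk I b else 0)
    (r : Fin (c + 1) → S) (m : Ideal S)
    (hψ : ∀ x : I, ∃ z ∈ m, Ideal.Quotient.mk I z = ∑ i, Ideal.Quotient.mk I (r i) * φ i x) :
    ∃ s ∈ m ^ q, r 0 ^ q * a ^ (c + 1) - s ∈ I := by
  classical
  obtain ⟨z, hz, hzK⟩ := exists_mul_mem_sq I φ huniv a ha f hf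
  let F : Ideal S := Ideal.span (Set.range fun j => (f j : S))
  have hFI : F ≤ I := by
    rw [Ideal.span_le]
    rintro _ ⟨j, rfl⟩
    exact (f j).2
  -- determinant trick
  obtain ⟨z', n, hz'n, hz'F⟩ := exists_pow_mul_mem I F hFI (z * a) (by
    intro x hx
    choose t ht using fun i => Ideal.Quotient.mk_surjective (φ i ⟨x, hx⟩)
    let x' : I := a • ⟨x, hx⟩ - ∑ j, t j • f j
    have hx' : ∀ i, φ i x' = 0 := by
      intro i
      simp only [x']
      rw [map_sub, map_smul, map_sum]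
      have h1 : ∀ j, φ i (t j • f j) = if i = j then Ideal.Quotient.mk I (t j * a) else 0 := by
        intro j
        rw [map_smul, hf]
        split_ifs
        · rfl
        · exact smul_zero _
      rw [Finset.sum_congr rfl fun j _ => h1 j]
      simp only [Finset.sum_ite_eq, Finset.mem_univ, if_true]
      rw [← ht i, sub_eq_zero, mul_comm]
      rfl
    have h2 := hzK x' hx'
    have h3 : z * a * x = z * (x' : S) + z * ∑ j, t j * (f j : S) := by
      have : (x' : S) = a * x - ∑ j, t j * (f j : S) := by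
        simp only [x']
        rw [Submodule.coe_sub, Submodule.coe_sum]
        rfl
      rw [this]; ring
    rw [h3]
    refine Ideal.add_mem _ (Ideal.mem_sup_right h2) (Ideal.mem_sup_left ?_)
    refine Ideal.mul_mem_left _ _ (Ideal.sum_mem _ fun j _ => Ideal.mul_mem_left _ _ ?_)
    exact Ideal.subset_span ⟨j, rfl⟩)
  have hzareg : ∀ u, z * a * u ∈ I → u ∈ I := fun u hu => ha u (hz _ (by rwa [← mul_assoc]))
  have hz' : ∀ u, z' * u ∈ I → u ∈ I := by
    intro u hu
    apply pow_reg hzareg n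
    have : (z * a) ^ n * u = z' * u - (z' - (z * a) ^ n) * u := by ring
    rw [this]
    exact I.sub_mem hu (I.mul_mem_right _ hz'n)
  let J := frobPow q I
  let N := (c + 1) * (q - 1)
  have hreg : ∀ {t : S}, (∀ u, t * u ∈ I → u ∈ I) → ∀ (k : ℕ) (u : S), t ^ k * u ∈ J → u ∈ J :=
    fun ht k u hu => frobPow_regular' hq hflat (fun u hu => pow_reg ht k u hu) u hu
  have hIN : I ^ (N + 1) ≤ J := by
    intro x hx
    apply hreg hz' (N + 1)
    have h1 : z' ^ (N + 1) * x ∈ (Ideal.span {z'} * I) ^ (N + 1) := by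
      rw [mul_pow]
      exact Ideal.mul_mem_mul (Ideal.pow_mem_pow (Ideal.mem_span_singleton_self z') _) hx
    have h2 : Ideal.span {z'} * I ≤ F := by
      rw [Ideal.span_singleton_mul_le_iff]
      exact hz'F
    have h3 := span_pow_le hq.1 (fun j => (f j : S)) (Ideal.pow_right_mono h2 _ h1)
    refine (Ideal.span_le.mpr ?_) h3
    rintro _ ⟨j, rfl⟩
    exact pow_mem_frobPow (f j).2
  let ua : S := ∏ j, (f j : S) ^ (q - 1)
  let ub : S := ∏ j, (g j : S) ^ (q - 1)
  have hcomp : b ^ N * ua - a ^ N * ub ∈ J := by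
    apply hreg hz N
    have h1 := prod_sub_prod_mem (I := I)
      ((Finset.univ : Finset (Fin (c + 1))) ×ˢ Finset.range (q - 1))
      (fun p => z * b * (f p.1 : S)) (fun p => z * a * (g p.1 : S))
      (fun p _ => I.mul_mem_left _ (f p.1).2) (fun p _ => I.mul_mem_left _ (g p.1).2) (by
        rintro ⟨j, k⟩ _
        have h2 : z * ((b • f j - a • g j : I) : S) ∈ I ^ 2 := by
          apply hzK
          intro i
          rw [map_sub, map_smul, map_smul, hf, hg]
          split_ifs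
          · change Ideal.Quotient.mk I (b * a) - Ideal.Quotient.mk I (a * b) = 0
            rw [mul_comm, sub_self]
          · rw [smul_zero, smul_zero, sub_zero]
        have h3 : z * b * (f j : S) - z * a * (g j : S) = z * ((b • f j - a • g j : I) : S) := by
          rw [Submodule.coe_sub, Submodule.coe_smul, Submodule.coe_smul, smul_eq_mul, smul_eq_mul]
          ring
        change z * b * (f j : S) - z * a * (g j : S) ∈ _
        rw [h3]; exact h2)
    have hcard : ((Finset.univ : Finset (Fin (c + 1))) ×ˢ Finset.range (q - 1)).card = N := by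
      rw [Finset.card_product, Finset.card_univ, Fintype.card_fin, Finset.card_range]
    have hprod : ∀ (t : S) (h : Fin (c + 1) → I),
        ∏ p ∈ (Finset.univ : Finset (Fin (c + 1))) ×ˢ Finset.range (q - 1), t * (h p.1 : S) =
        t ^ N * ∏ j, (h j : S) ^ (q - 1) := by
      intro t h
      rw [Finset.prod_mul_distrib, Finset.prod_const, hcard, Finset.prod_product]
      simp
    rw [hcard, hprod, hprod] at h1
    have h4 : z ^ N * (b ^ N * ua - a ^ N * ub) =
        (z * b) ^ N * ua - (z * a) ^ N * ub := by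
      rw [mul_pow, mul_pow]; ring
    rw [h4]
    exact hIN h1
  obtain ⟨w, hw⟩ := frobPow_regular_pair hq hflat (a := a ^ N) (b := b ^ N)
    (fun u hu => pow_reg ha N u hu) (pow_reg_pair' ha hb N N) ua ub hcomp
  -- twists
  let ψ : I →ₗ[S] S ⧸ I := ∑ i, r i • φ i
  have hψ' : ∀ x, ψ x = ∑ i, Ideal.Quotient.mk I (r i) * φ i x := by
    intro x
    simp only [ψ]
    rw [LinearMap.sum_apply]
    refine Finset.sum_congr rfl fun i _ => ?_
    rw [LinearMap.smul_apply, Algebra.smul_def]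
    rfl
  choose Ψφ hΨφ using fun i => exists_frobTwist hq hflat (φ i)
  obtain ⟨Ψψ, hΨψ⟩ := exists_frobTwist hq hflat ψ
  let F' : ℕ → S := fun j => if h : j < c + 1 then (f ⟨j, h⟩ : S) else 0
  have hF' : ∀ j (h : j < c + 1), F' j = (f ⟨j, h⟩ : S) := fun j h => dif_pos h
  let Ψ : ℕ → (J →ₗ[S] S ⧸ J) := fun i =>
    match i with
    | 0 => Ψψ
    | i + 1 => if h : i + 1 < c + 1 then Ψφ ⟨i + 1, h⟩ else 0
  have hΨ0 : Ψ 0 = Ψψ := rfl
  have hΨs : ∀ i (h : i + 1 < c + 1), Ψ (i + 1) = Ψφ ⟨i + 1, h⟩ := fun i h => dif_pos h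
  let α : ℕ → S := fun i =>
    match i with
    | 0 => (r 0 * a) ^ q
    | _ + 1 => a ^ q
  have hfJ : ∀ j < c + 1, F' j ^ q ∈ J := fun j hj => by
    rw [hF' j hj]; exact pow_mem_frobPow (f _).2
  have heval : ∀ (Θ : J →ₗ[S] S ⧸ J) (j : ℕ) (hj : j < c + 1),
      Θ ⟨F' j ^ q, hfJ j hj⟩ = Θ ⟨(f ⟨j, hj⟩ : S) ^ q, pow_mem_frobPow (f _).2⟩ := by
    intro Θ j hj
    congr 1
    apply Subtype.ext
    change F' j ^ q = _
    rw [hF' j hj]
  obtain ⟨v, ⟨y, hy⟩, ε, hε, hv⟩ := koszul_main (f := F') hq.1 Ψ α c hfJ (by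
      intro i hi j hj hjn
      match i, hi, hj with
      | i + 1, hi, hj =>
        rw [hΨs i hi, heval _ j hjn, hΨφ ⟨i + 1, hi⟩ (f ⟨j, hjn⟩) 0 (by
          rw [hf, if_neg (by
            intro h
            have := congrArg Fin.val h
            simp only at this
            omega), map_zero]), hq.zero_pow, map_zero]) (by
      intro i hi
      match i, hi with
      | 0, hi =>
        rw [heval _ 0 hi]
        have key : Ideal.Quotient.mk I (r 0 * a) = ψ (f ⟨0, hi⟩) := by
          rw [hψ']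
          have h1 : ∀ i, Ideal.Quotient.mk I (r i) * φ i (f ⟨0, hi⟩) =
              if i = 0 then Ideal.Quotient.mk I (r i) * Ideal.Quotient.mk I a else 0 := by
            intro i
            rw [hf]
            have : (⟨0, hi⟩ : Fin (c + 1)) = 0 := rfl
            rw [this]
            split_ifs
            · rfl
            · rw [mul_zero]
          rw [Finset.sum_congr rfl fun i _ => h1 i]
          simp
        change Ψψ _ = _
        rw [hΨψ _ _ key]
      | i + 1, hi =>
        rw [hΨs i hi, heval _ (i + 1) hi, hΨφ ⟨i + 1, hi⟩ (f ⟨i + 1, hi⟩) a (by rw [hf, if_pos rfl])]) I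
    (frobPow_le hq.1 I) (fun j hj => by rw [hF' j hj]; exact (f _).2) w (a ^ N) (by
      intro j hj
      apply hreg ha N
      have h1 : a ^ N * (F' j * w) = F' j * ua - F' j * (ua - a ^ N * w) := by ring
      rw [h1]
      refine J.sub_mem ?_ (J.mul_mem_left _ hw)
      have h2 : F' j * ua = (∏ k ∈ Finset.univ.erase ⟨j, hj⟩, (f k : S) ^ (q - 1)) *
          (f ⟨j, hj⟩ : S) ^ q := by
        simp only [ua]
        rw [hF' j hj, ← Finset.mul_prod_erase Finset.univ _ (Finset.mem_univ (⟨j, hj⟩ : Fin (c + 1)))]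
        have h3 : (f ⟨j, hj⟩ : S) ^ q = (f ⟨j, hj⟩ : S) * (f ⟨j, hj⟩ : S) ^ (q - 1) := by
          rw [← pow_succ', Nat.sub_add_cancel hq.1]
        rw [h3]; ring
      rw [h2]
      exact J.mul_mem_left _ (pow_mem_frobPow (f _).2)) (by
      have h1 : ∏ j ∈ Finset.range (c + 1), F' j ^ (q - 1) = ua := by
        simp only [ua]
        rw [← Fin.prod_univ_eq_prod_range]
        refine Finset.prod_congr rfl fun j _ => ?_
        rw [hF' j j.2]
      rw [h1]
      have h2 : a ^ N * w - ua = -(ua - a ^ N * w) := by ring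
      rw [h2]
      exact J.neg_mem hw)
  -- the range of `Ψψ`
  have hrange : ∀ y : J, ∃ s ∈ m ^ q, Ψψ y = Ideal.Quotient.mk J s := by
    rintro ⟨y, hy⟩
    obtain ⟨ι, _, x, t, hx, hxy⟩ := mem_frobPow hy
    choose s hs using fun i => hψ ⟨x i, hx i⟩
    refine ⟨∑ i, t i * s i ^ q, Ideal.sum_mem _ fun i _ => Ideal.mul_mem_left _ _
      (Ideal.pow_mem_pow (hs i).1 q), ?_⟩
    have h1 : (⟨y, hy⟩ : J) = ∑ i, t i • (⟨x i ^ q, pow_mem_frobPow (hx i)⟩ : J) := by
      apply Subtype.ext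
      rw [Submodule.coe_sum]
      exact hxy
    rw [h1, map_sum, map_sum]
    refine Finset.sum_congr rfl fun i _ => ?_
    rw [map_smul, hΨψ ⟨x i, hx i⟩ (s i) (by rw [(hs i).2, hψ'])]
    rfl
  obtain ⟨s, hs, hys⟩ := hrange y
  have hvs : v - s ∈ J := by
    rw [← Ideal.Quotient.eq]
    rw [← hy]
    exact hys
  have hα : ∏ j ∈ Finset.range (c + 1), α j = r 0 ^ q * a ^ N * a ^ (c + 1) := by
    rw [Finset.prod_range_succ']
    have h1 : ∏ k ∈ Finset.range c, α (k + 1) = (a ^ q) ^ c := by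
      rw [Finset.prod_congr rfl fun k _ => (show α (k + 1) = a ^ q from rfl)]
      simp
    rw [h1]
    change (a ^ q) ^ c * (r 0 * a) ^ q = _
    have h2 : a ^ N * a ^ (c + 1) = (a ^ q) ^ (c + 1) := by
      rw [← pow_add, ← pow_mul]
      congr 1
      obtain ⟨k, hk⟩ : ∃ k, q = k + 1 := ⟨q - 1, by have := hq.1; omega⟩
      simp only [N, hk, Nat.add_sub_cancel]
      ring
    rw [mul_assoc, h2, mul_pow]; ring
  rw [hα] at hv
  have hεε : ε * ε = 1 := by rcases hε with rfl | rfl <;> ring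
  refine ⟨ε * s, Ideal.mul_mem_left _ _ hs, ?_⟩
  apply pow_reg ha N
  have h1 : a ^ N * (r 0 ^ q * a ^ (c + 1) - ε * s) =
      - ε * (a ^ N * v - ε * (r 0 ^ q * a ^ N * a ^ (c + 1))) + ε * a ^ N * (v - s) +
      (1 - ε * ε) * (a ^ N * (r 0 ^ q * a ^ (c + 1))) := by ring
  rw [h1, hεε, sub_self, zero_mul, add_zero]
  exact I.add_mem (I.mul_mem_left _ hv) (I.mul_mem_left _ (frobPow_le hq.1 I hvs))

end Pool.Agent.Helper19
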