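import Pool.Agent.Helper19.PdChange

/-!
Depth zero rings, constant rank, existence of nonzerodivisors in ideals of finite projective
dimension.
-/

universe u

open CategoryTheory Abelian IsLocalRing Module TensorProduct Pointwise

namespace Pool.Agent.Helper19

section DepthZero

variable {A : Type u} [CommRing A] [IsLocalRing A] [IsNoetherianRing A]

/-- over a local ring whose maximal ideal kills a nonzero element, finite modules of finite
projective dimension are free -/
theorem free_of_depth_zero (z : A) (hz : z ≠ 0) (hmz : ∀ r ∈ maximalIdeal A, r * z = 0) (n : ℕ) :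
    ∀ (X : Type u) [AddCommGroup X] [Module A X] [Module.Finite A X],
      PD A X n → Module.Free A X := by
  induction n with
  | zero =>
    intro X _ _ _ h
    have := subsingleton_of_pd_zero h
    exact Module.Free.of_subsingleton A X
  | succ n ih =>
    intro X _ _ _ h
    match n with
    | 0 =>
      have : Module.Projective A X := projective_of_pd_one h
      exact Module.free_of_flat_of_isLocalRing
    | n + 1 =>
      obtain ⟨m, π, hπ, hmin⟩ := exists_minimal_cover (A := A) (X := X)
      have hinj : Function.Injective (LinearMap.ker π).subtype := Subtype.val_injective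
      have hex : Function.Exact (LinearMap.ker π).subtype π := fun v => by simp
      have hK : PD A (LinearMap.ker π) (n + 1) := pd_ker hinj hπ hex h
      have hKf : Module.Free A (LinearMap.ker π) := ih _ hK
      have hK0 : Subsingleton (LinearMap.ker π) := by
        by_contra hne
        rw [not_subsingleton_iff_nontrivial] at hne
        let b := Module.Free.chooseBasis A (LinearMap.ker π)
        obtain ⟨i⟩ := b.index_nonempty
        have h1 : z • b i = 0 := by
          apply Subtype.ext
          funext j
          have : (b i : Fin m → A) j ∈ maximalIdeal A := hmin _ (b i).2 j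
          change z * (b i : Fin m → A) j = 0
          rw [mul_comm]; exact hmz _ this
        have h2 := congrArg (fun v => b.repr v i) h1
        simp at h2
        exact hz h2
      have hbij : Function.Bijective π :=
        ⟨by rw [← LinearMap.ker_eq_bot]; exact (Submodule.subsingleton_iff_eq_bot).mp hK0, hπ⟩
      exact Module.Free.of_equiv (LinearEquiv.ofBijective π hbij)

end DepthZero

section Loc

variable {Q : Type u} [CommRing Q]

lemma localized_exact (S : Submonoid Q) {X Y Z : Type u} [AddCommGroup X] [Module Q X]
    [AddCommGroup Y] [Module Q Y] [AddCommGroup Z] [Module Q Z] {g : X →ₗ[Q] Y} {h : Y →ₗ[Q] Z}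
    (hgh : Function.Exact g h) :
    Function.Exact (LocalizedModule.map S g) (LocalizedModule.map S h) :=
  LocalizedModule.map_exact S g h hgh

lemma subsingleton_localized (S : Submonoid Q) (X : Type u) [AddCommGroup X] [Module Q X]
    [Subsingleton X] : Subsingleton (LocalizedModule S X) := by
  refine ⟨fun a b => ?_⟩
  obtain ⟨⟨x, s⟩, hx⟩ := IsLocalizedModule.mk'_surjective S (LocalizedModule.mkLinearMap S X) a
  obtain ⟨⟨y, t⟩, hy⟩ := IsLocalizedModule.mk'_surjective S (LocalizedModule.mkLinearMap S X) b
  rw [← hx, ← hy, Subsingleton.elim x 0, Subsingleton.elim y 0]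
  simp

variable [IsLocalRing Q] [IsNoetherianRing Q]

/-- localization does not increase projective dimension -/
lemma pd_localized (S : Submonoid Q) (n : ℕ) :
    ∀ (X : Type u) [AddCommGroup X] [Module Q X] [Module.Finite Q X],
      PD Q X n → PD (Localization S) (LocalizedModule S X) n := by
  induction n with
  | zero =>
    intro X _ _ _ h
    have := subsingleton_of_pd_zero h
    have : Subsingleton (LocalizedModule S X) := subsingleton_localized S X
    exact (ModuleCat.isZero_iff_subsingleton (M := ModuleCat.of (Localization S)
      (LocalizedModule S X))).mpr this |>.hasProjectiveDimensionLT_zero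
  | succ n ih =>
    intro X _ _ _ h
    match n with
    | 0 =>
      have : Module.Projective Q X := projective_of_pd_one h
      have : Module.Projective (Localization S) (LocalizedModule S X) :=
        Module.projective_of_isLocalizedModule S (LocalizedModule.mkLinearMap S X)
      exact pd_of_projective
    | n + 1 =>
      obtain ⟨m, π, hπ, -⟩ := exists_minimal_cover (A := Q) (X := X)
      have hinj : Function.Injective (LinearMap.ker π).subtype := Subtype.val_injective
      have hex : Function.Exact (LinearMap.ker π).subtype π := fun v => by simp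
      have hK : PD Q (LinearMap.ker π) (n + 1) := pd_ker hinj hπ hex h
      have h1 := ih (LinearMap.ker π) hK
      have : Module.Projective (Localization S) (LocalizedModule S (Fin m → Q)) :=
        Module.projective_of_isLocalizedModule S (LocalizedModule.mkLinearMap S (Fin m → Q))
      have hfree : PD (Localization S) (LocalizedModule S (Fin m → Q)) 1 := pd_of_projective
      exact pd_coker (LocalizedModule.map_injective S _ hinj) (LocalizedModule.map_surjective S _ hπ)
        (localized_exact S hex) h1 (PD.mono hfree (by omega))

/-- The rank of a module of finite projective dimension is constant on its free locus. -/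
lemma const_rank (n : ℕ) :
    ∀ (X : Type u) [AddCommGroup X] [Module Q X] [Module.Finite Q X], PD Q X n →
      ∃ e : ℤ, ∀ (p : Ideal Q) [p.IsPrime],
        Module.Free (Localization.AtPrime p) (LocalizedModule p.primeCompl X) →
        (Module.finrank (Localization.AtPrime p) (LocalizedModule p.primeCompl X) : ℤ) = e := by
  induction n with
  | zero =>
    intro X _ _ _ h
    have := subsingleton_of_pd_zero h
    refine ⟨0, fun p _ _ => ?_⟩
    have : Subsingleton (LocalizedModule p.primeCompl X) := subsingleton_localized _ X
    rw [Module.finrank_zero_of_subsingleton]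
    rfl
  | succ n ih =>
    intro X _ _ _ h
    match n with
    | 0 =>
      have : Module.Projective Q X := projective_of_pd_one h
      have : Module.Free Q X := Module.free_of_flat_of_isLocalRing
      refine ⟨Module.finrank Q X, fun p _ _ => ?_⟩
      rw [Module.finrank_of_isLocalizedModule_of_free (Localization.AtPrime p) p.primeCompl
        (LocalizedModule.mkLinearMap p.primeCompl X)]
    | n + 1 =>
      obtain ⟨m, π, hπ, -⟩ := exists_minimal_cover (A := Q) (X := X)
      have hinj : Function.Injective (LinearMap.ker π).subtype := Subtype.val_injective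
      have hex : Function.Exact (LinearMap.ker π).subtype π := fun v => by simp
      have hK : PD Q (LinearMap.ker π) (n + 1) := pd_ker hinj hπ hex h
      obtain ⟨e, he⟩ := ih (LinearMap.ker π) hK
      refine ⟨m - e, fun p _ hfree => ?_⟩
      have hi := LocalizedModule.map_injective p.primeCompl _ hinj
      have hs := LocalizedModule.map_surjective p.primeCompl _ hπ
      have hx := localized_exact p.primeCompl hex
      obtain ⟨l, hl⟩ := Module.projective_lifting_property
        (LocalizedModule.map p.primeCompl π) LinearMap.id hs
      let E := (Function.Exact.splitSurjectiveEquiv hx hi ⟨l, hl⟩).1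
      have hF : Module.Free (Localization.AtPrime p) (LocalizedModule p.primeCompl (Fin m → Q)) :=
        Module.free_of_isLocalizedModule p.primeCompl
          (LocalizedModule.mkLinearMap p.primeCompl (Fin m → Q))
      have hprod : Module.Free (Localization.AtPrime p)
        (LocalizedModule p.primeCompl (LinearMap.ker π) × LocalizedModule p.primeCompl X) :=
        Module.Free.of_equiv E
      have hKp : Module.Projective (Localization.AtPrime p)
          (LocalizedModule p.primeCompl (LinearMap.ker π)) := by
        refine Module.Projective.of_split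
          (LinearMap.inl (Localization.AtPrime p) (LocalizedModule p.primeCompl (LinearMap.ker π))
            (LocalizedModule p.primeCompl X))
          (LinearMap.fst _ _ _) ?_
        ext x; simp
      have hKfin : Module.Finite (Localization.AtPrime p)
          (LocalizedModule p.primeCompl (LinearMap.ker π)) := inferInstance
      have hXfin : Module.Finite (Localization.AtPrime p)
          (LocalizedModule p.primeCompl X) := inferInstance
      have hKfree : Module.Free (Localization.AtPrime p)
          (LocalizedModule p.primeCompl (LinearMap.ker π)) :=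
        Module.free_of_flat_of_isLocalRing (R := Localization.AtPrime p)
          (P := LocalizedModule p.primeCompl (LinearMap.ker π))
      have h1 := he p hKfree
      have h2 : Module.finrank (Localization.AtPrime p)
          (LocalizedModule p.primeCompl (Fin m → Q)) = m := by
        rw [Module.finrank_of_isLocalizedModule_of_free (Localization.AtPrime p) p.primeCompl
          (LocalizedModule.mkLinearMap p.primeCompl (Fin m → Q))]
        simp
      have h3 := E.finrank_eq
      rw [Module.finrank_prod, h2] at h3
      have h4 : (m : ℤ) = (Module.finrank (Localization.AtPrime p)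
          (LocalizedModule p.primeCompl (LinearMap.ker π)) : ℤ) +
          (Module.finrank (Localization.AtPrime p) (LocalizedModule p.primeCompl X) : ℤ) := by
        have := congrArg (Nat.cast (R := ℤ)) h3
        rw [Nat.cast_add] at this
        exact this
      rw [h4, h1]; ring

omit [IsLocalRing Q] [IsNoetherianRing Q] in
lemma algebraMap_ne_zero_of_assoc (p : Ideal Q) [p.IsPrime] (y : Q)
    (hy : ∀ r, r * y = 0 ↔ r ∈ p) : algebraMap Q (Localization.AtPrime p) y ≠ 0 := by
  intro h0
  rw [IsLocalization.map_eq_zero_iff p.primeCompl] at h0
  obtain ⟨t, ht⟩ := h0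
  exact t.2 ((hy t).mp ht)

/-- localizing at an associated prime makes modules of finite projective dimension free -/
lemma free_localized_of_assoc (p : Ideal Q) [p.IsPrime] (y : Q) (hy : ∀ r, r * y = 0 ↔ r ∈ p)
    (n : ℕ) (X : Type u) [AddCommGroup X] [Module Q X] [Module.Finite Q X] (h : PD Q X n) :
    Module.Free (Localization.AtPrime p) (LocalizedModule p.primeCompl X) := by
  have h1 := pd_localized p.primeCompl n X h
  have hz := algebraMap_ne_zero_of_assoc p y hy
  refine free_of_depth_zero (A := Localization.AtPrime p) (algebraMap Q _ y) hz ?_ n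
    (LocalizedModule p.primeCompl X) h1
  intro r hr
  obtain ⟨a, t, rfl⟩ := IsLocalization.exists_mk'_eq p.primeCompl r
  rw [IsLocalization.AtPrime.mk'_mem_maximal_iff (Localization.AtPrime p) p] at hr
  rw [mul_comm, ← IsLocalization.mk'_one (M := p.primeCompl) (Localization.AtPrime p) y,
    ← IsLocalization.mk'_mul]
  have : y * a = 0 := by rw [mul_comm]; exact (hy a).mpr hr
  rw [this, IsLocalization.mk'_zero]

/-- A nonzero ideal of finite projective dimension in a Noetherian local ring contains a
nonzerodivisor. -/
theorem exists_regular_mem (I : Ideal Q) (hI : I ≠ ⊥) (n : ℕ) (h : PD Q (Q ⧸ I) n) :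
    ∃ x ∈ I, IsSMulRegular Q x := by
  by_contra hno
  push Not at hno
  have hno2 : ¬ Subsingleton ((Q ⧸ I) →ₗ[Q] Q) := by
    rw [IsSMulRegular.subsingleton_linearMap_iff]
    rintro ⟨r, hr, hreg⟩
    rw [Ideal.annihilator_quotient] at hr
    exact hno r hr hreg
  rw [not_subsingleton_iff_nontrivial] at hno2
  obtain ⟨φ, hφ⟩ := exists_ne (0 : (Q ⧸ I) →ₗ[Q] Q)
  set s := φ 1 with hs
  have hs0 : s ≠ 0 := by
    intro h0
    apply hφ
    ext
    simpa [hs] using h0
  have hkill : ∀ x ∈ I, ∀ w : Q ⧸ I, x • w = 0 := by
    intro x hx w
    obtain ⟨w, rfl⟩ := Ideal.Quotient.mk_surjective w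
    rw [← Ideal.Quotient.mk_eq_mk, ← Submodule.Quotient.mk_smul, Submodule.Quotient.mk_eq_zero]
    exact I.mul_mem_right _ hx
  have hsI : ∀ x ∈ I, x * s = 0 := by
    intro x hx
    rw [hs, ← smul_eq_mul, ← map_smul, hkill x hx, map_zero]
  obtain ⟨e, he⟩ := const_rank n (Q ⧸ I) h
  -- first prime: rank is positive
  obtain ⟨P, hP, hle⟩ := exists_le_isAssociatedPrime_of_isNoetherianRing Q s hs0
  rw [isAssociatedPrime_iff] at hP
  obtain ⟨hPp, y, hy⟩ := hP
  have hy' : ∀ r, r * y = 0 ↔ r ∈ P := by
    intro r
    rw [hy, Submodule.mem_colon_singleton, Submodule.mem_bot, smul_eq_mul]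
  have hIP : I ≤ P := fun x hx => hle (by
    rw [Submodule.mem_colon_singleton, Submodule.mem_bot, smul_eq_mul]; exact hsI x hx)
  have hf1 := free_localized_of_assoc P y hy' n (Q ⧸ I) h
  have hnt : Nontrivial (LocalizedModule P.primeCompl (Q ⧸ I)) := by
    refine ⟨⟨LocalizedModule.mk 1 1, 0, fun h0 => ?_⟩⟩
    rw [← LocalizedModule.zero_mk 1, LocalizedModule.mk_eq] at h0
    obtain ⟨t, ht⟩ := h0
    have ht2 : (t : Q) • (1 : Q ⧸ I) = 0 := by
      simpa [Submonoid.smul_def] using ht
    have : (t : Q) ∈ I := by
      rw [← Ideal.Quotient.eq_zero_iff_mem]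
      rw [Algebra.smul_def, mul_one] at ht2
      exact ht2
    exact t.2 (hIP this)
  have hpos : 0 < Module.finrank (Localization.AtPrime P)
      (LocalizedModule P.primeCompl (Q ⧸ I)) := by
    rw [Module.finrank_pos_iff_of_free]; exact hnt
  have h1 := he P hf1
  -- second prime: rank is zero
  obtain ⟨x₀, hx₀, hx₀0⟩ := Submodule.exists_mem_ne_zero_of_ne_bot hI
  obtain ⟨P', hP', -⟩ := exists_le_isAssociatedPrime_of_isNoetherianRing Q (⟨x₀, hx₀⟩ : I)
    (by intro h0; exact hx₀0 (congrArg Subtype.val h0))
  rw [isAssociatedPrime_iff] at hP'
  obtain ⟨hPp', y', hyy'⟩ := hP'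
  have hy'' : ∀ r, r * (y' : Q) = 0 ↔ r ∈ P' := by
    intro r
    rw [hyy', Submodule.mem_colon_singleton, Submodule.mem_bot]
    constructor
    · intro h0; exact Subtype.ext h0
    · intro h0; exact congrArg Subtype.val h0
  have hf2 := free_localized_of_assoc P' (y' : Q) hy'' n (Q ⧸ I) h
  have h2 := he P' hf2
  have hsub : Subsingleton (LocalizedModule P'.primeCompl (Q ⧸ I)) := by
    by_contra hne
    rw [not_subsingleton_iff_nontrivial] at hne
    let b := Module.Free.chooseBasis (Localization.AtPrime P')
      (LocalizedModule P'.primeCompl (Q ⧸ I))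
    obtain ⟨i⟩ := b.index_nonempty
    have h3 : (algebraMap Q (Localization.AtPrime P') (y' : Q)) • b i = 0 := by
      obtain ⟨⟨w, t⟩, hw⟩ := IsLocalizedModule.mk'_surjective P'.primeCompl
        (LocalizedModule.mkLinearMap P'.primeCompl (Q ⧸ I)) (b i)
      rw [← hw, Function.uncurry_apply_pair, algebraMap_smul, ← IsLocalizedModule.mk'_smul,
        hkill _ y'.2, IsLocalizedModule.mk'_zero]
    have h4 := congrArg (fun v => b.repr v i) h3
    simp only [map_smul, Basis.repr_self, Finsupp.smul_single, smul_eq_mul, mul_one,
      Finsupp.single_eq_same, map_zero, Finsupp.coe_zero, Pi.zero_apply] at h4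
    exact algebraMap_ne_zero_of_assoc P' (y' : Q) hy'' h4
  rw [Module.finrank_zero_of_subsingleton] at h2
  omega

end Loc

end Pool.Agent.Helper19
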