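import Mathlib

/-!
Anticommuting operators of square zero: nilpotence.
-/

universe u v

open Module Finset

namespace Pool.Agent.Helper19

section Nilp

variable {A : Type u} [CommRing A] {C : ℕ → Type v} [∀ j, AddCommGroup (C j)]
  [∀ j, Module A (C j)] (Z B : ∀ j, Submodule A (C j)) (ω : ℕ → ∀ j, C j →ₗ[A] C (j + 1))

/-- every cycle of degree `j + 1` is, up to a boundary, a sum of images of cycles under the
first `k` operators -/
def Gen (k j : ℕ) : Prop :=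
  ∀ z ∈ Z (j + 1), ∃ y : ℕ → C j, (∀ l, y l ∈ Z j) ∧
    z - ∑ l ∈ range k, ω l j (y l) ∈ B (j + 1)

variable {Z B ω}

lemma gen_step (hZ : ∀ l j z, z ∈ Z j → ω l j z ∈ Z (j + 1))
    (hB : ∀ l j z, z ∈ B j → ω l j z ∈ B (j + 1))
    (hsq : ∀ l j z, z ∈ Z j → ω l (j + 1) (ω l j z) ∈ B (j + 1 + 1))
    (hac : ∀ l l' j z, z ∈ Z j →
      ω l (j + 1) (ω l' j z) + ω l' (j + 1) (ω l j z) ∈ B (j + 1 + 1))
    (k j : ℕ) (h : Gen Z B ω (k + 1) j) (h' : Gen Z B ω (k + 1) (j + 1)) :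
    Gen Z B ω k (j + 1) := by
  intro z hz
  obtain ⟨y, hy, hzy⟩ := h' z hz
  obtain ⟨y', hy', hyy⟩ := h (y k) (hy k)
  refine ⟨fun l => y l - ω k j (y' l), fun l => Submodule.sub_mem _ (hy l) (hZ _ _ _ (hy' l)), ?_⟩
  have h1 := hB k (j + 1) _ hyy
  have h2 : ∑ l ∈ range k, (ω k (j + 1) (ω l j (y' l)) + ω l (j + 1) (ω k j (y' l))) ∈
      B (j + 1 + 1) := Submodule.sum_mem _ fun l _ => hac k l j _ (hy' l)
  have h3 := hsq k j _ (hy' k)
  have h4 : z - ∑ l ∈ range k, ω l (j + 1) (y l - ω k j (y' l)) =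
      (z - ∑ l ∈ range (k + 1), ω l (j + 1) (y l)) +
        ω k (j + 1) (y k - ∑ l ∈ range (k + 1), ω l j (y' l)) +
        (∑ l ∈ range k, (ω k (j + 1) (ω l j (y' l)) + ω l (j + 1) (ω k j (y' l)))) +
        ω k (j + 1) (ω k j (y' k)) := by
    rw [sum_range_succ, sum_range_succ, map_sub, map_add, map_sum, sum_add_distrib]
    simp only [map_sub, sum_sub_distrib]
    abel
  rw [h4]
  exact Submodule.add_mem _ (Submodule.add_mem _ (Submodule.add_mem _ hzy h1) h2) h3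

theorem nilp_of_gen (hZ : ∀ l j z, z ∈ Z j → ω l j z ∈ Z (j + 1))
    (hB : ∀ l j z, z ∈ B j → ω l j z ∈ B (j + 1))
    (hsq : ∀ l j z, z ∈ Z j → ω l (j + 1) (ω l j z) ∈ B (j + 1 + 1))
    (hac : ∀ l l' j z, z ∈ Z j →
      ω l (j + 1) (ω l' j z) + ω l' (j + 1) (ω l j z) ∈ B (j + 1 + 1))
    (k : ℕ) : ∀ (n : ℕ), (∀ j, n ≤ j → Gen Z B ω k j) →
      ∀ j, n + k ≤ j → ∀ z ∈ Z (j + 1), z ∈ B (j + 1) := by
  induction k with
  | zero =>
    intro n h j hj z hz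
    obtain ⟨y, -, hy⟩ := h j (by omega) z hz
    simpa using hy
  | succ k ih =>
    intro n h j hj z hz
    refine ih (n + 1) (fun i hi => ?_) j (by omega) z hz
    obtain ⟨i, rfl⟩ : ∃ m, i = m + 1 := ⟨i - 1, by omega⟩
    exact gen_step hZ hB hsq hac k i (h i (by omega)) (h (i + 1) (by omega))

end Nilp

end Pool.Agent.Helper19
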