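import Pool.Agent.Helper19.NormalFree
import Pool.Agent.Helper19.Detect

/-!
Depth at most one, `N` of projective dimension one.
-/

universe u

open CategoryTheory Abelian IsLocalRing Module TensorProduct Pointwise RingTheory.Sequence

namespace Pool.Agent.Helper19

section Socle

/-- maps to socle elements -/
lemma exists_hom_to_socle {Q : Type u} [CommRing Q] [IsLocalRing Q] {X : Type u} [AddCommGroup X]
    [Module Q X] {N : Type u} [AddCommGroup N] [Module Q N] (f : X)
    (hf : f ∉ maximalIdeal Q • (⊤ : Submodule Q X)) (n' : N)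
    (hn' : ∀ r ∈ maximalIdeal Q, r • n' = 0) :
    ∃ φ : X →ₗ[Q] N, φ f = n' ∧ ∀ r ∈ maximalIdeal Q, r • φ = 0 := by
  let k := Q ⧸ maximalIdeal Q
  let _ : Field k := Ideal.Quotient.field _
  let Y := X ⧸ (maximalIdeal Q • (⊤ : Submodule Q X))
  let F : Y := Submodule.Quotient.mk f
  have hF : F ≠ 0 := fun h => hf ((Submodule.Quotient.mk_eq_zero _).mp h)
  obtain ⟨φ₀, hφ₀⟩ : ∃ φ₀ : Module.Dual k Y, φ₀ F ≠ 0 := by
    by_contra hno
    push Not at hno
    exact hF ((Module.forall_dual_apply_eq_zero_iff k F).mp hno)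
  let g : k →ₗ[Q] N := Submodule.liftQ (maximalIdeal Q) (LinearMap.toSpanSingleton Q N n')
    (fun r hr => hn' r hr)
  have hg : ∀ r : Q, g (Ideal.Quotient.mk _ r) = r • n' := fun r => rfl
  have hmk : ∀ r ∈ maximalIdeal Q, ∀ c : k, r • c = 0 := by
    intro r hr c
    obtain ⟨c, rfl⟩ := Ideal.Quotient.mk_surjective c
    rw [← Ideal.Quotient.mk_eq_mk, ← Submodule.Quotient.mk_smul, Submodule.Quotient.mk_eq_zero]
    exact Ideal.mul_mem_right _ _ hr
  obtain ⟨c, hc⟩ := Ideal.Quotient.mk_surjective (φ₀ F)⁻¹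
  refine ⟨c • (g ∘ₗ (φ₀.restrictScalars Q) ∘ₗ Submodule.mkQ _), ?_, ?_⟩
  · have h1 : c • g (φ₀ F) = g (c • φ₀ F) := by rw [map_smul]
    change c • g (φ₀ F) = n'
    rw [h1]
    have h2 : c • φ₀ F = 1 := by
      have h3 : c • φ₀ F = (Ideal.Quotient.mk _ c) * φ₀ F := Algebra.smul_def _ _
      rw [h3, hc, inv_mul_cancel₀ hφ₀]
    rw [h2]
    have := hg 1
    rw [map_one, one_smul] at this
    exact this
  · intro r hr
    ext x
    change r • c • g (φ₀ (Submodule.Quotient.mk x)) = 0
    rw [smul_comm, ← map_smul g, hmk r hr, map_zero, smul_zero]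

/-- a finite module without socle has a regular element -/
lemma exists_regular_of_socle {R : Type u} [CommRing R] [IsLocalRing R] [IsNoetherianRing R]
    {M : Type u} [AddCommGroup M] [Module R M] [Module.Finite R M]
    (h : ∀ w : M, (∀ r ∈ maximalIdeal R, r • w = 0) → w = 0) :
    ∃ x ∈ maximalIdeal R, IsSMulRegular M x := by
  have hsub : Subsingleton ((R ⧸ maximalIdeal R) →ₗ[R] M) := by
    refine ⟨fun a b => ?_⟩
    rw [← sub_eq_zero]
    generalize a - b = g
    have h1 : g (Ideal.Quotient.mk _ 1) = 0 := by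
      apply h
      intro r hr
      rw [← map_smul]
      have : r • (Ideal.Quotient.mk (maximalIdeal R) 1) = 0 := by
        rw [← Ideal.Quotient.mk_eq_mk, ← Submodule.Quotient.mk_smul,
          Submodule.Quotient.mk_eq_zero]
        exact Ideal.mul_mem_right _ _ hr
      rw [this, map_zero]
    apply LinearMap.ext
    intro y
    obtain ⟨y, rfl⟩ := Ideal.Quotient.mk_surjective y
    have h2 : Ideal.Quotient.mk (maximalIdeal R) y = y • Ideal.Quotient.mk _ 1 := by
      rw [← Ideal.Quotient.mk_eq_mk, ← Ideal.Quotient.mk_eq_mk, ← Submodule.Quotient.mk_smul,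
        smul_eq_mul, mul_one]
    rw [h2, map_smul, h1, smul_zero, LinearMap.zero_apply]
  rw [IsSMulRegular.subsingleton_linearMap_iff] at hsub
  obtain ⟨x, hx, hreg⟩ := hsub
  refine ⟨x, ?_, hreg⟩
  rwa [Ideal.annihilator_quotient] at hx

lemma map_mem_maximal {R : Type u} [CommRing R] [IsLocalRing R] {a b : ℕ}
    (L : (Fin a → R) →ₗ[R] (Fin b → R)) (w : Fin a → R) (J : Ideal R)
    (hw : ∀ i, w i ∈ J) (i : Fin b) : L w i ∈ J := by
  have h1 : L w i = ((LinearMap.proj i : (Fin b → R) →ₗ[R] R) ∘ₗ L) w := rfl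
  rw [h1, LinearMap.pi_apply_eq_sum_univ]
  refine Ideal.sum_mem _ fun j _ => ?_
  rw [smul_eq_mul]
  exact Ideal.mul_mem_right _ _ (hw j)

end Socle

section Res

variable {R : Type u} [CommRing R] [IsLocalRing R] [IsNoetherianRing R]

lemma exists_minimal_resolution {X : Type u} [AddCommGroup X] [Module R X] [Module.Finite R X]
    (h : PD R X 2) : ∃ (a b : ℕ) (π : (Fin a → R) →ₗ[R] X) (B : (Fin b → R) →ₗ[R] (Fin a → R)),
      Function.Surjective π ∧ Function.Injective B ∧ Function.Exact B π ∧
      ∀ v i, B v i ∈ maximalIdeal R := by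
  obtain ⟨a, π, hπ, hmin⟩ := exists_minimal_cover (A := R) (X := X)
  have hinj : Function.Injective (LinearMap.ker π).subtype := Subtype.val_injective
  have hex : Function.Exact (LinearMap.ker π).subtype π := fun v => by simp
  have hK : PD R (LinearMap.ker π) 1 := pd_ker hinj hπ hex h
  have : Module.Projective R (LinearMap.ker π) := projective_of_pd_one hK
  have : Module.Free R (LinearMap.ker π) := Module.free_of_flat_of_isLocalRing
  let bas := Module.finBasis R (LinearMap.ker π)
  let e := bas.equivFun.symm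
  refine ⟨a, Module.finrank R (LinearMap.ker π), π, (LinearMap.ker π).subtype ∘ₗ e.toLinearMap,
    hπ, ?_, ?_, ?_⟩
  · exact hinj.comp e.injective
  · intro v
    constructor
    · intro hv
      exact ⟨e.symm ⟨v, hv⟩, by simp⟩
    · rintro ⟨w, rfl⟩
      exact (e w).2
  · intro v i
    exact hmin _ (e v).2 i

end Res

section Main

variable {R : Type u} [CommRing R] [IsLocalRing R] [IsNoetherianRing R]
variable {Q : Type u} [CommRing Q] [IsLocalRing Q] [IsNoetherianRing Q] [Algebra Q R]
variable {N : Type u} [AddCommGroup N] [Module R N] [Module Q N] [IsScalarTower Q R N]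

omit [IsNoetherianRing R] [IsNoetherianRing Q] in
lemma algebraMap_mem_maximal (hs : Function.Surjective (algebraMap Q R)) {r : Q}
    (hr : r ∈ maximalIdeal Q) : algebraMap Q R r ∈ maximalIdeal R := by
  by_contra hcon
  rw [mem_maximalIdeal, mem_nonunits_iff, not_not] at hcon
  obtain ⟨s', hs'⟩ := hcon.exists_right_inv
  obtain ⟨s, rfl⟩ := hs s'
  have h1 : algebraMap Q R (r * s - 1) = 0 := by
    rw [map_sub, map_mul, hs', map_one, sub_self]
  have h2 := mem_maximal_of_algebraMap_eq_zero h1
  have h3 : (1 : Q) ∈ maximalIdeal Q := by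
    have h4 := Ideal.sub_mem _ (Ideal.mul_mem_right s _ hr) h2
    simp at h4
  exact (Ideal.ne_top_iff_one _).mp (maximalIdeal.isMaximal Q).ne_top h3

/-- evaluation at a point, `R`-linear -/
def evalAt (N : Type u) [AddCommGroup N] [Module R N] [Module Q N] [IsScalarTower Q R N]
    {X : Type u} [AddCommGroup X] [Module Q X] (x : X) : (X →ₗ[Q] N) →ₗ[R] N where
  toFun φ := φ x
  map_add' _ _ := rfl
  map_smul' _ _ := rfl

/-- Depth at most one, `pd N = 1`. -/
theorem exists_regularSeq_of_resolutions (hs : Function.Surjective (algebraMap Q R))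
    (hR : DepthLEOne R) (n : ℕ) (hpd : PD Q R n) {a b : ℕ}
    (πN : (Fin a → R) →ₗ[R] N) (hπN : Function.Surjective πN)
    (BN : (Fin b → R) →ₗ[R] (Fin a → R)) (hBinj : Function.Injective BN)
    (hBex : Function.Exact BN πN) (hBmin : ∀ v i, BN v i ∈ maximalIdeal R) (hb : 0 < b)
    {a' b' : ℕ} (πP : (Fin a' → R) →ₗ[R] (RingHom.ker (algebraMap Q R) →ₗ[Q] N))
    (hπP : Function.Surjective πP)
    (BP : (Fin b' → R) →ₗ[R] (Fin a' → R)) (hPinj : Function.Injective BP)
    (hPex : Function.Exact BP πP) (hPmin : ∀ v i, BP v i ∈ maximalIdeal R) :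
    ∃ rs : List Q, IsRegular Q rs ∧ Ideal.ofList rs = RingHom.ker (algebraMap Q R) := by
  let I : Ideal Q := RingHom.ker (algebraMap Q R)
  let v₁ : Fin b → R := Pi.single ⟨0, hb⟩ 1
  -- the regular element `x`
  obtain ⟨x, hxm, hxreg⟩ : ∃ x ∈ maximalIdeal R, IsSMulRegular R x := by
    apply exists_regular_of_socle
    intro w hw
    have h1 : BN (w • v₁) = 0 := by
      rw [map_smul]
      funext i
      rw [Pi.smul_apply, smul_eq_mul, mul_comm]
      exact hw _ (hBmin v₁ i)
    have h2 : w • v₁ = 0 := hBinj (by rw [h1, map_zero])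
    have := congrFun h2 ⟨0, hb⟩
    simpa [v₁] using this
  -- the element `z`
  obtain ⟨z, hzx, hmz⟩ : ∃ z : R, (¬ ∃ y, z = x * y) ∧
      ∀ r ∈ maximalIdeal R, ∃ y, r * z = x * y := by
    by_contra hno
    push Not at hno
    obtain ⟨y, hym, hyreg⟩ : ∃ y ∈ maximalIdeal R, IsSMulRegular (QuotSMulTop x R) y := by
      apply exists_regular_of_socle
      intro w hw
      obtain ⟨w, rfl⟩ := Submodule.Quotient.mk_surjective _ w
      rw [quotSMulTop_mk_eq_zero_iff]
      by_contra hw0
      obtain ⟨r, hr, hr'⟩ := hno w (fun y hy => hw0 ⟨y, hy⟩)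
      have h1 := hw r hr
      rw [← Submodule.Quotient.mk_smul, quotSMulTop_mk_eq_zero_iff] at h1
      obtain ⟨y, hy⟩ := h1
      exact hr' y hy
    have h2 : IsRegular R [x, y] := by
      rw [isRegular_iff]
      refine ⟨?_, ?_⟩
      · rw [isWeaklyRegular_cons_iff, isWeaklyRegular_cons_iff]
        exact ⟨hxreg, hyreg, IsWeaklyRegular.nil _ _⟩
      · intro htop
        have h6 : Ideal.ofList [x, y] ≤ maximalIdeal R := by
          rw [Ideal.ofList, Ideal.span_le]
          intro r hr
          have : r = x ∨ r = y := by simpa using hr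
          rcases this with rfl | rfl
          · exact hxm
          · exact hym
        have h7 : (⊤ : Submodule R R) ≤ maximalIdeal R := by
          rw [htop, smul_eq_mul, Ideal.mul_top]
          exact h6
        exact (maximalIdeal.isMaximal R).ne_top (eq_top_iff.mpr h7)
    have := hR _ h2
    simp at this
  -- the vector `u`
  obtain ⟨u, hu⟩ : ∃ u : Fin a → R, z • BN v₁ = x • u := by
    choose y hy using fun i => hmz (BN v₁ i) (hBmin v₁ i)
    refine ⟨y, ?_⟩
    funext i
    rw [Pi.smul_apply, Pi.smul_apply, smul_eq_mul, smul_eq_mul, ← hy, mul_comm]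
  have hxinj : ∀ {c : ℕ} {v w : Fin c → R}, x • v = x • w → v = w := by
    intro c v w h
    funext i
    exact hxreg (congrFun h i)
  -- the socle element
  have hsoc : ∀ r ∈ maximalIdeal Q, r • πN u = 0 := by
    intro r hr
    have hr' : algebraMap Q R r ∈ maximalIdeal R := algebraMap_mem_maximal hs hr
    obtain ⟨y, hy⟩ := hmz _ hr'
    have h1 : algebraMap Q R r • u = y • BN v₁ := by
      apply hxinj
      rw [smul_comm, ← hu, smul_smul, hy, mul_smul]
    rw [← algebraMap_smul R, ← map_smul, h1, ← map_smul]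
    exact hBex.apply_apply_eq_zero _
  -- the module `E`
  let H := (Fin a' → R) →ₗ[R] (Fin a → R)
  let E : Submodule Q (I × H) :=
    { carrier := {e | ∀ w, πN (e.2 w) = πP w e.1}
      add_mem' := by
        intro e e' he he' w
        change πN (e.2 w + e'.2 w) = πP w (e.1 + e'.1)
        rw [map_add, he, he', map_add]
      zero_mem' := by
        intro w
        change πN 0 = πP w 0
        rw [map_zero, map_zero]
      smul_mem' := by
        intro q e he w
        change πN (q • e.2 w) = πP w (q • e.1)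
        rw [LinearMap.map_smul_of_tower, he, map_smul] }
  have hE : ∀ e : E, ∀ w, πN (e.1.2 w) = πP w e.1.1 := fun e => e.2
  let p : E →ₗ[Q] Q := I.subtype ∘ₗ LinearMap.fst Q I H ∘ₗ E.subtype
  have hpe : ∀ e : E, p e = (e.1.1 : Q) := fun e => rfl
  have hprange : LinearMap.range p = RingHom.ker (algebraMap Q R) := by
    ext y
    constructor
    · rintro ⟨e, rfl⟩
      exact e.1.1.2
    · intro hy
      obtain ⟨lam, hlam⟩ := Module.projective_lifting_property πN
        (evalAt (R := R) N (⟨y, hy⟩ : I) ∘ₗ πP) hπN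
      exact ⟨⟨(⟨y, hy⟩, lam), fun w => LinearMap.congr_fun hlam w⟩, rfl⟩
  have hkill : ∀ y : Q, algebraMap Q R y = 0 → ∀ h : H, y • h = 0 := by
    intro y hy h
    apply LinearMap.ext
    intro w
    funext i
    change y • (h w i) = 0
    rw [Algebra.smul_def, hy, zero_mul]
  have hcomm : ∀ e e' : E, p e • e' = p e' • e := by
    intro e e'
    apply Subtype.ext
    apply Prod.ext
    · apply Subtype.ext
      change (e.1.1 : Q) * (e'.1.1 : Q) = (e'.1.1 : Q) * (e.1.1 : Q)
      exact mul_comm _ _
    · change (e.1.1 : Q) • e'.1.2 = (e'.1.1 : Q) • e.1.2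
      rw [hkill _ e.1.1.2, hkill _ e'.1.1.2]
  -- the kernel
  let bas := Module.finBasis R ((Fin a' → R) →ₗ[R] (Fin b → R))
  let ee := bas.equivFun.symm
  let j : (Fin (Module.finrank R ((Fin a' → R) →ₗ[R] (Fin b → R))) → R) →ₗ[Q] E :=
    { toFun := fun v => ⟨(0, BN ∘ₗ ee v), fun w => by
        change πN (BN (ee v w)) = πP w 0
        rw [map_zero]; exact hBex.apply_apply_eq_zero _⟩
      map_add' := fun v w => by
        apply Subtype.ext
        apply Prod.ext
        · exact (add_zero (0 : I)).symm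
        · change BN ∘ₗ ee (v + w) = BN ∘ₗ ee v + BN ∘ₗ ee w
          rw [map_add, LinearMap.comp_add]
      map_smul' := fun q v => by
        apply Subtype.ext
        apply Prod.ext
        · exact (smul_zero q).symm
        · change BN ∘ₗ ee (q • v) = q • (BN ∘ₗ ee v)
          rw [← algebraMap_smul R q v, map_smul, LinearMap.comp_smul, algebraMap_smul] }
  have hj2 : ∀ v, (j v).1.2 = BN ∘ₗ ee v := fun v => rfl
  have hj1 : ∀ v, (j v).1.1 = 0 := fun v => rfl
  have hjinj : Function.Injective j := by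
    intro v w hvw
    apply ee.injective
    apply LinearMap.ext
    intro y
    apply hBinj
    have := congrArg (fun e : E => e.1.2 y) hvw
    exact this
  have hjrange : LinearMap.range j = LinearMap.ker p := by
    ext e
    constructor
    · rintro ⟨v, rfl⟩
      rw [LinearMap.mem_ker, hpe, hj1]; rfl
    · intro he
      have he1 : e.1.1 = 0 := Subtype.ext he
      have h1 : ∀ w, e.1.2 w ∈ LinearMap.range BN := by
        intro w
        have h2 : πN (e.1.2 w) = 0 := by rw [hE, he1, map_zero]
        exact (hBex _).mp h2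
      let L : (Fin a' → R) →ₗ[R] (Fin b → R) :=
        (LinearEquiv.ofInjective BN hBinj).symm.toLinearMap ∘ₗ
          (e.1.2.codRestrict (LinearMap.range BN) h1)
      have hL : ∀ w, BN (L w) = e.1.2 w := by
        intro w
        have := LinearEquiv.apply_symm_apply (LinearEquiv.ofInjective BN hBinj)
          (e.1.2.codRestrict (LinearMap.range BN) h1 w)
        exact congrArg Subtype.val this
      refine ⟨ee.symm L, ?_⟩
      apply Subtype.ext
      apply Prod.ext
      · rw [hj1, he1]
      · rw [hj2, LinearEquiv.apply_symm_apply]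
        apply LinearMap.ext
        exact hL
  -- the functionals
  have hM : ∀ e : E, ∃ M : (Fin b' → R) →ₗ[R] (Fin b → R), ∀ w, BN (M w) = e.1.2 (BP w) := by
    intro e
    have h1 : ∀ w, (e.1.2 ∘ₗ BP) w ∈ LinearMap.range BN := by
      intro w
      have h2 : πN (e.1.2 (BP w)) = 0 := by
        rw [hE, hPex.apply_apply_eq_zero]; rfl
      exact (hBex _).mp h2
    refine ⟨(LinearEquiv.ofInjective BN hBinj).symm.toLinearMap ∘ₗ
          ((e.1.2 ∘ₗ BP).codRestrict (LinearMap.range BN) h1), fun w => ?_⟩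
    have := LinearEquiv.apply_symm_apply (LinearEquiv.ofInjective BN hBinj)
          ((e.1.2 ∘ₗ BP).codRestrict (LinearMap.range BN) h1 w)
    exact congrArg Subtype.val this
  choose M hM using hM
  let μ : Fin (b' * b) → (E →ₗ[Q] R) := fun k =>
    { toFun := fun e => M e (Pi.single (finProdFinEquiv.symm k).1 1) (finProdFinEquiv.symm k).2
      map_add' := fun e e' => by
        rw [← Pi.add_apply]
        exact congrFun (hBinj (by rw [map_add, hM, hM, hM]; rfl)) _
      map_smul' := fun q e => by
        rw [RingHom.id_apply, ← Pi.smul_apply]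
        exact congrFun (hBinj (by rw [LinearMap.map_smul_of_tower, hM, hM]; rfl)) _ }
  have hμ : ∀ e (i : Fin b') (l : Fin b), μ (finProdFinEquiv (i, l)) e = M e (Pi.single i 1) l := by
    intro e i l
    change M e (Pi.single (finProdFinEquiv.symm (finProdFinEquiv (i, l))).1 1)
      (finProdFinEquiv.symm (finProdFinEquiv (i, l))).2 = _
    rw [Equiv.symm_apply_apply]
  refine exists_regularSeq_of_detect (b' * b) Q hs n hpd E p hprange hcomm _ j hjinj hjrange μ
    ?_ ?_
  · intro k v
    have h1 : ∀ w, M (j v) w = ee v (BP w) := by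
      intro w
      apply hBinj
      rw [hM]; rfl
    change M (j v) _ _ ∈ _
    rw [h1]
    exact map_mem_maximal _ _ _ (hPmin _) _
  · intro e he
    by_contra hcon
    have hentries : ∀ (i : Fin b') (l : Fin b), M e (Pi.single i 1) l ∈ maximalIdeal R := by
      intro i l
      rw [← hμ]; exact he _
    have hf : e.1.1 ∉ maximalIdeal Q • (⊤ : Submodule Q I) := by
      intro hmem
      apply hcon
      have h1 := Submodule.mem_map_of_mem (f := I.subtype) hmem
      rw [Submodule.map_smul'', Submodule.map_top, Submodule.range_subtype] at h1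
      exact h1
    obtain ⟨φ, hφf, hφm⟩ := exists_hom_to_socle e.1.1 hf (πN u) hsoc
    obtain ⟨pp, hpp⟩ := hπP φ
    have hφx : ∀ r ∈ maximalIdeal R, r • φ = 0 := by
      intro r hr
      obtain ⟨q, hq, rfl⟩ := exists_lift_mem_maximal hs hr
      have := hφm q hq
      rw [← this]
      ext y
      change algebraMap Q R q • φ y = q • φ y
      rw [algebraMap_smul]
    have hpr : ∀ r ∈ maximalIdeal R, ∃ w, BP w = r • pp := by
      intro r hr
      have h1 : πP (r • pp) = 0 := by rw [map_smul, hpp, hφx r hr]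
      exact (hPex _).mp h1
    obtain ⟨u', hu'⟩ := hpr x hxm
    have hu'm : ∀ r ∈ maximalIdeal R, ∃ w, r • u' = x • w := by
      intro r hr
      obtain ⟨w, hw⟩ := hpr r hr
      refine ⟨w, hPinj ?_⟩
      rw [map_smul, map_smul, hu', hw, smul_comm]
    -- `λ(pp) = u + BN w`
    have h1 : πN (e.1.2 pp - u) = 0 := by
      rw [map_sub, hE, hpp, hφf, sub_self]
    obtain ⟨w, hw⟩ := (hBex _).mp h1
    have h2 : BN (z • v₁ + x • w) = BN (M e u') := by
      rw [hM, hu', map_smul, map_add, map_smul, map_smul, hu, hw]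
      rw [← smul_add, add_sub_cancel]
    have h3 : z • v₁ + x • w = M e u' := hBinj h2
    have h4 := congrFun h3 ⟨0, hb⟩
    have h5 : M e u' ⟨0, hb⟩ ∈ Ideal.span {x} := by
      have h6 : M e u' ⟨0, hb⟩ =
        ((LinearMap.proj ⟨0, hb⟩ : (Fin b → R) →ₗ[R] R) ∘ₗ M e) u' := rfl
      rw [h6, LinearMap.pi_apply_eq_sum_univ]
      refine Ideal.sum_mem _ fun i _ => ?_
      obtain ⟨w', hw'⟩ := hu'm _ (hentries i ⟨0, hb⟩)
      have h7 := congrFun hw' i
      rw [Pi.smul_apply, Pi.smul_apply, smul_eq_mul, smul_eq_mul] at h7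
      rw [Ideal.mem_span_singleton']
      refine ⟨w' i, ?_⟩
      rw [mul_comm, ← h7, smul_eq_mul, mul_comm]
      congr 1
      have h9 : (fun j => if i = j then (1 : R) else 0) = Pi.single i 1 := by
        funext l
        simp [Pi.single_apply, eq_comm]
      rw [h9]
      rfl
    rw [← h4, Pi.add_apply, Pi.smul_apply, Pi.smul_apply, smul_eq_mul, smul_eq_mul] at h5
    have h8 : v₁ ⟨0, hb⟩ = 1 := by simp [v₁]
    rw [h8, mul_one, Ideal.mem_span_singleton'] at h5
    obtain ⟨y, hy⟩ := h5
    exact hzx ⟨y - w ⟨0, hb⟩, by linear_combination -hy⟩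

end Main

end Pool.Agent.Helper19
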