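import Pool.Agent.Helper19.LemmaZ

/-!
The basic step: killing a suitable element `f ∈ I` keeps the projective dimension finite.
-/

universe u

open CategoryTheory Abelian IsLocalRing Module TensorProduct Pointwise

namespace Pool.Agent.Helper19

section Final

variable {Q : Type u} [CommRing Q] [IsLocalRing Q] [IsNoetherianRing Q]

/-- If `Hom(I, Q/I) = 0` and `pd Q/I < ∞` with `I` proper, then `I = 0`. -/
theorem eq_bot_of_hom_eq_zero (I : Ideal Q) (hI : I ≠ ⊤) (n : ℕ) (h : PD Q (Q ⧸ I) n)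
    (hHom : ∀ φ : I →ₗ[Q] Q ⧸ I, φ = 0) : I = ⊥ := by
  by_contra hne
  obtain ⟨x, hx, hreg⟩ := exists_regular_mem I hne n h
  have hsub : Subsingleton (I →ₗ[Q] Q ⧸ I) := ⟨fun a b => by rw [hHom a, hHom b]⟩
  rw [IsSMulRegular.subsingleton_linearMap_iff] at hsub
  obtain ⟨r, hr, hreg'⟩ := hsub
  have h1 : r • (⟨x, hx⟩ : I) = 0 := Module.mem_annihilator.mp hr _
  have h2 : x • r = 0 := by
    have := congrArg Subtype.val h1
    simpa [mul_comm] using this
  have h3 : r = 0 := hreg.right_eq_zero_of_smul h2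
  rw [h3, IsSMulRegular.zero_iff_subsingleton] at hreg'
  exact hI ((Ideal.Quotient.subsingleton_iff).mp hreg')

end Final

section ExtArg

variable {A : Type u} [CommRing A]

lemma ext_argument (S : ShortComplex (ModuleCat.{u} A)) (hS : S.ShortExact)
    (W Y : ModuleCat.{u} A) (m : ℕ) (ρ : S.X₂ ⟶ W) (i : W ⟶ S.X₂) (hret : i ≫ ρ = 𝟙 W)
    (h3 : HasProjectiveDimensionLT S.X₃ m) (ζ : Ext W Y m)
    (hzero : (Ext.mk₀ (S.f ≫ ρ)).comp ζ (zero_add m) = 0) : ζ = 0 := by
  obtain ⟨x₃, hx₃⟩ := Ext.contravariant_sequence_exact₂ hS Y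
    ((Ext.mk₀ ρ).comp ζ (zero_add m)) (by rw [Ext.mk₀_comp_mk₀_assoc]; exact hzero)
  have hx₃0 : x₃ = 0 := Ext.eq_zero_of_hasProjectiveDimensionLT x₃ m le_rfl
  rw [hx₃0, Ext.comp_zero] at hx₃
  have h2 : (Ext.mk₀ i).comp ((Ext.mk₀ ρ).comp ζ (zero_add m)) (zero_add m) = ζ := by
    rw [Ext.mk₀_comp_mk₀_assoc, hret, Ext.mk₀_id_comp]
  rw [← h2, ← hx₃, Ext.comp_zero]

/-- an `m`-combination of maps `V → W` induces zero on `Ext(-, k)` -/
lemma mk₀_sum_comp_eq_zero [IsLocalRing A] {ι : Type} [Fintype ι] {V W : ModuleCat.{u} A} (m : ℕ)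
    (b : ι → A) (hb : ∀ i, b i ∈ maximalIdeal A) (φ : ι → (V ⟶ W))
    (ζ : Ext W (ModuleCat.of A (ResidueField A)) m) :
    (Ext.mk₀ (∑ i, b i • φ i)).comp ζ (zero_add m) = 0 := by
  have h1 : Ext.mk₀ (∑ i, b i • φ i) = ∑ i, b i • Ext.mk₀ (φ i) := by
    have h := map_sum (Ext.addEquiv₀ (X := V) (Y := W)).symm (fun i => b i • φ i) Finset.univ
    have h' : ∀ f : V ⟶ W, (Ext.addEquiv₀ (X := V) (Y := W)).symm f = Ext.mk₀ f := fun f => rfl
    rw [h'] at h
    rw [h]
    refine Finset.sum_congr rfl fun i _ => ?_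
    rw [h', Ext.mk₀_smul]
  rw [h1]
  have h2 := map_sum ((Ext.bilinearComp V W (ModuleCat.of A (ResidueField A)) 0 m m
    (zero_add m)).flip ζ) (fun i => b i • Ext.mk₀ (φ i)) Finset.univ
  have h3 : ∀ x, ((Ext.bilinearComp V W (ModuleCat.of A (ResidueField A)) 0 m m
    (zero_add m)).flip ζ) x = x.comp ζ (zero_add m) := fun x => rfl
  rw [h3] at h2
  rw [h2]
  refine Finset.sum_eq_zero fun i _ => ?_
  rw [h3, Ext.smul_comp]
  exact smul_ext_residue_eq_zero (b i) (hb i) _

end ExtArg

section Step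

variable {Q R : Type u} [CommRing Q] [IsLocalRing Q] [IsNoetherianRing Q]
  [CommRing R] [IsLocalRing R] [Algebra Q R]

lemma exists_lift_mem_maximal (hs : Function.Surjective (algebraMap Q R)) {x : R}
    (hx : x ∈ maximalIdeal R) : ∃ a ∈ maximalIdeal Q, algebraMap Q R a = x := by
  obtain ⟨a, rfl⟩ := hs x
  refine ⟨a, ?_, rfl⟩
  rw [mem_maximalIdeal, mem_nonunits_iff] at hx ⊢
  exact fun h => hx (h.map _)

/-- The one step theorem. -/
theorem oneStep (hs : Function.Surjective (algebraMap Q R)) (n : ℕ) (hpd : PD Q R (n + 2))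
    (f : Q) (hf : algebraMap Q R f = 0) (hreg : IsSMulRegular Q f)
    [Algebra (Q ⧸ Ideal.span {f}) R] [IsScalarTower Q (Q ⧸ Ideal.span {f}) R]
    {E : Type u} [AddCommGroup E] [Module Q E] (p : E →ₗ[Q] Q)
    (hp : LinearMap.range p = RingHom.ker (algebraMap Q R))
    (hcomm : ∀ e e' : E, p e • e' = p e' • e)
    (q : ℕ) (j : (Fin q → R) →ₗ[Q] E) (hj : Function.Injective j)
    (hjp : LinearMap.range j = LinearMap.ker p)
    (ρ : E →ₗ[Q] R) (hρ : ∀ v, ρ (j v) ∈ maximalIdeal R) (e₀ : E) (he₀ : p e₀ = f)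
    (hρ₀ : ρ e₀ = 1) :
    PD (Q ⧸ Ideal.span {f}) R (n + 1) := by
  set A := Q ⧸ Ideal.span {f} with hA
  have hfn : f ∈ maximalIdeal Q := by
    rw [mem_maximalIdeal, mem_nonunits_iff]
    intro hu
    have := hu.map (algebraMap Q R)
    rw [hf] at this
    exact not_isUnit_zero this
  have hAnt : Nontrivial A := by
    rw [hA, Ideal.Quotient.nontrivial_iff]
    intro h1
    rw [Ideal.span_singleton_eq_top] at h1
    exact hfn h1
  have hmkA : Function.Surjective (algebraMap Q A) := Ideal.Quotient.mk_surjective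
  have hAloc : IsLocalRing A := IsLocalRing.of_surjective' (Ideal.Quotient.mk _) hmkA
  have hfR : ∀ r : R, f • r = 0 := fun r => by rw [Algebra.smul_def, hf, zero_mul]
  -- the ideal `I` as a submodule
  let I : Submodule Q Q := LinearMap.range p
  have hIR : ∀ x ∈ I, algebraMap Q R x = 0 := fun x hx => by
    have : x ∈ RingHom.ker (algebraMap Q R) := by rw [← hp]; exact hx
    exact this
  let p' : E →ₗ[Q] I := p.rangeRestrict
  have hp' : Function.Surjective p' := p.surjective_rangeRestrict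
  have hp'v : ∀ e, (p' e : Q) = p e := fun e => rfl
  -- pd of I
  have hIpd : PD Q I (n + 1) := by
    have hex : Function.Exact I.subtype (Algebra.linearMap Q R) := by
      intro x
      have : x ∈ RingHom.ker (algebraMap Q R) ↔ x ∈ I := by rw [← hp]
      rw [RingHom.mem_ker] at this
      rw [Algebra.linearMap_apply, this]
      simp
    exact pd_ker (f := I.subtype) (g := Algebra.linearMap Q R) Subtype.val_injective hs hex hpd
  have hIreg : IsSMulRegular I f := isSMulRegular_of_injective I.subtype Subtype.val_injective hreg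
  have hXpd : PD A (QuotSMulTop f I) (n + 1) := pd_quotSMulTop f hreg (n + 1) I hIreg hIpd
  -- the maps over `A`
  let j₁ : (Fin q → R) →ₗ[A] QuotSMulTop f E :=
    ((Submodule.mkQ (f • (⊤ : Submodule Q E))) ∘ₗ j).extendScalarsOfSurjective hmkA
  have hj₁ : ∀ v, j₁ v = Submodule.Quotient.mk (j v) := fun v => rfl
  let g₁ : QuotSMulTop f E →ₗ[A] QuotSMulTop f I := qmap f p'
  have hj₁inj : Function.Injective j₁ := by
    rw [injective_iff_map_eq_zero]
    intro v hv
    rw [hj₁, quotSMulTop_mk_eq_zero_iff] at hv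
    obtain ⟨e, he⟩ := hv
    have h1 : p (j v) = 0 := by
      have : j v ∈ LinearMap.ker p := by rw [← hjp]; exact ⟨v, rfl⟩
      exact this
    rw [he, map_smul] at h1
    have h2 : p e = 0 := hreg.right_eq_zero_of_smul h1
    have h3 : e ∈ LinearMap.range j := by rw [hjp]; exact h2
    obtain ⟨w, rfl⟩ := h3
    apply hj
    rw [he, ← map_smul, map_zero]
    have : f • w = 0 := by funext i; exact hfR _
    rw [this, map_zero]
  have hg₁surj : Function.Surjective g₁ := qmap_surjective f hp'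
  have hexact : Function.Exact j₁ g₁ := by
    intro y
    obtain ⟨e, rfl⟩ := Submodule.Quotient.mk_surjective _ y
    constructor
    · intro h
      change (Submodule.Quotient.mk (p' e) : QuotSMulTop f I) = 0 at h
      rw [quotSMulTop_mk_eq_zero_iff] at h
      obtain ⟨x, hx⟩ := h
      obtain ⟨e', rfl⟩ := hp' x
      have h1 : e - f • e' ∈ LinearMap.ker p := by
        rw [LinearMap.mem_ker, map_sub, map_smul, sub_eq_zero]
        exact congrArg Subtype.val hx
      rw [← hjp] at h1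
      obtain ⟨v, hv⟩ := h1
      refine ⟨v, ?_⟩
      rw [hj₁, hv, ← sub_eq_zero, ← Submodule.Quotient.mk_sub, quotSMulTop_mk_eq_zero_iff]
      exact ⟨-e', by rw [smul_neg]; abel⟩
    · rintro ⟨v, hv⟩
      rw [← hv, hj₁]
      change (Submodule.Quotient.mk (p' (j v)) : QuotSMulTop f I) = 0
      have : p' (j v) = 0 := by
        apply Subtype.ext
        have : j v ∈ LinearMap.ker p := by rw [← hjp]; exact ⟨v, rfl⟩
        exact this
      rw [this, Submodule.Quotient.mk_zero]
  let ρ₁ : QuotSMulTop f E →ₗ[A] R :=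
    ((f • (⊤ : Submodule Q E)).liftQ ρ (by
      intro x hx
      rw [mem_smul_top_iff] at hx
      obtain ⟨y, rfl⟩ := hx
      rw [LinearMap.mem_ker, map_smul, hfR])).extendScalarsOfSurjective hmkA
  have hρ₁ : ∀ e, ρ₁ (Submodule.Quotient.mk e) = ρ e := fun e => rfl
  -- the section
  let t : Q →ₗ[Q] QuotSMulTop f E := LinearMap.toSpanSingleton Q _ (Submodule.Quotient.mk e₀)
  have ht : ∀ x, algebraMap Q R x = 0 → t x = 0 := by
    intro x hx
    have hx' : x ∈ LinearMap.range p := by rw [hp]; exact hx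
    obtain ⟨e, rfl⟩ := hx'
    rw [LinearMap.toSpanSingleton_apply, ← Submodule.Quotient.mk_smul,
      quotSMulTop_mk_eq_zero_iff]
    exact ⟨e, by rw [hcomm e e₀, he₀]⟩
  have hle : LinearMap.ker (Algebra.linearMap Q R) ≤ LinearMap.ker t := fun x hx => ht x hx
  let j₀' : R →ₗ[Q] QuotSMulTop f E :=
    ((LinearMap.ker (Algebra.linearMap Q R)).liftQ t hle) ∘ₗ
      ((Algebra.linearMap Q R).quotKerEquivOfSurjective hs).symm.toLinearMap
  have hj₀' : ∀ x : Q, j₀' (algebraMap Q R x) = x • Submodule.Quotient.mk e₀ := by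
    intro x
    have h1 : ((Algebra.linearMap Q R).quotKerEquivOfSurjective hs).symm (algebraMap Q R x) =
        Submodule.Quotient.mk x := by
      rw [LinearEquiv.symm_apply_eq]
      rfl
    change ((LinearMap.ker (Algebra.linearMap Q R)).liftQ t hle)
      (((Algebra.linearMap Q R).quotKerEquivOfSurjective hs).symm (algebraMap Q R x)) = _
    rw [h1]
    rfl
  let j₀ : R →ₗ[A] QuotSMulTop f E := j₀'.extendScalarsOfSurjective hmkA
  have hret : ρ₁ ∘ₗ j₀ = LinearMap.id := by
    refine LinearMap.ext fun r => ?_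
    obtain ⟨x, rfl⟩ := hs r
    change ρ₁ (j₀' (algebraMap Q R x)) = algebraMap Q R x
    rw [hj₀', ← Submodule.Quotient.mk_smul, hρ₁, map_smul, hρ₀, Algebra.smul_def, mul_one]
  have hRfin : Module.Finite A R := by
    have : Module.Finite Q R := Module.Finite.of_surjective (Algebra.linearMap Q R) hs
    exact Module.Finite.of_restrictScalars_finite Q A R
  refine pd_of_subsingleton_ext_residue (A := A) (n + 1) R ⟨fun a b => ?_⟩
  rw [← sub_eq_zero]
  generalize a - b = ζ
  have hS := shortExact_mk hj₁inj hg₁surj hexact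
  -- restriction to the free part vanishes
  choose b hb hb' using fun i : Fin q => exists_lift_mem_maximal (Q := Q) hs
    (hρ (Pi.single i 1))
  have hcomp : ρ₁ ∘ₗ j₁ = ∑ i, (algebraMap Q A (b i)) • (LinearMap.proj i : (Fin q → R) →ₗ[A] R) := by
    refine LinearMap.ext fun v => ?_
    choose a ha using fun i => hs (v i)
    have hv : v = ∑ i, a i • (Pi.single i (1 : R) : Fin q → R) := by
      funext k
      rw [Finset.sum_apply, Finset.sum_eq_single k]
      · simp [Pi.smul_apply, Algebra.smul_def, ha]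
      · intro i _ hik
        simp [Pi.smul_apply, hik.symm]
      · simp
    have h1 : ρ (j v) = ∑ i, a i • ρ (j (Pi.single i (1 : R))) := by
      conv_lhs => rw [hv]
      rw [map_sum, map_sum]
      simp only [map_smul]
    change ρ (j v) = _
    rw [h1, LinearMap.sum_apply]
    refine Finset.sum_congr rfl fun i _ => ?_
    rw [LinearMap.smul_apply, LinearMap.proj_apply, ← hb' i, Algebra.smul_def, ha i,
      algebraMap_smul, Algebra.smul_def, mul_comm]
  have hbA : ∀ i, algebraMap Q A (b i) ∈ maximalIdeal A := by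
    intro i
    rw [mem_maximalIdeal, mem_nonunits_iff]
    intro hu
    have hu2 := hu.map (algebraMap A R)
    rw [← IsScalarTower.algebraMap_apply, hb' i] at hu2
    exact (hρ (Pi.single i 1)) hu2
  have hretC : ModuleCat.ofHom j₀ ≫ ModuleCat.ofHom ρ₁ = 𝟙 (ModuleCat.of A R) := by
    rw [← ModuleCat.ofHom_comp, hret]; rfl
  refine ext_argument _ hS (ModuleCat.of A R) (ModuleCat.of A (ResidueField A)) (n + 1)
    (ModuleCat.ofHom ρ₁) (ModuleCat.ofHom j₀) hretC hXpd ζ ?_
  · have h1 : ModuleCat.ofHom (ρ₁ ∘ₗ j₁) =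
        ∑ i, (algebraMap Q A (b i)) • ModuleCat.ofHom (LinearMap.proj i : (Fin q → R) →ₗ[A] R) := by
      rw [hcomp]
      apply ModuleCat.hom_ext
      simp
    have h2 := mk₀_sum_comp_eq_zero (n + 1) (fun i => algebraMap Q A (b i)) hbA
      (fun i => ModuleCat.ofHom (LinearMap.proj i : (Fin q → R) →ₗ[A] R)) ζ
    rw [← h1] at h2
    exact h2

end Step

end Pool.Agent.Helper19
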