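import Pool.Agent.Helper19.StepCore
import Pool.Agent.Helper19.OneStep

/-!
The one step theorem with a kernel of projective dimension one.
-/

universe u

open CategoryTheory Abelian IsLocalRing Module TensorProduct Pointwise

namespace Pool.Agent.Helper19

section Step

variable {Q R : Type u} [CommRing Q] [IsLocalRing Q] [IsNoetherianRing Q]
  [CommRing R] [IsLocalRing R] [Algebra Q R]

lemma pi_eq_sum_smul_single {R : Type u} [CommRing R] {b : ℕ} {X : Type u} [AddCommGroup X]
    [Module R X] (L : (Fin b → R) →ₗ[R] X) (v : Fin b → R) :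
    L v = ∑ l, v l • L (Pi.single l 1) := by
  have h1 : v = ∑ l, v l • (Pi.single l (1 : R) : Fin b → R) := by
    funext k
    simp [Finset.sum_apply, Pi.single_apply]
  conv_lhs => rw [h1]
  rw [map_sum]
  simp only [map_smul]

/-- The one step theorem, second form. -/
theorem oneStep2 (hs : Function.Surjective (algebraMap Q R)) (n : ℕ) (hpd : PD Q R (n + 2))
    (f : Q) (hf : algebraMap Q R f = 0) (hreg : IsSMulRegular Q f)
    [Algebra (Q ⧸ Ideal.span {f}) R] [IsScalarTower Q (Q ⧸ Ideal.span {f}) R]
    {E : Type u} [AddCommGroup E] [Module Q E] (p : E →ₗ[Q] Q)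
    (hp : LinearMap.range p = RingHom.ker (algebraMap Q R))
    (hcomm : ∀ e e' : E, p e • e' = p e' • e)
    (q b : ℕ) (j : (Fin q → R) →ₗ[Q] E) (β : (Fin b → R) →ₗ[R] (Fin q → R))
    (hβ : Function.Injective β) (hβj : Function.Exact β j)
    (hjp : LinearMap.range j = LinearMap.ker p)
    (ρ : E →ₗ[Q] R) (hρ : ∀ v, ρ (j v) ∈ maximalIdeal R) (e₀ : E) (he₀ : p e₀ = f)
    (hρ₀ : ρ e₀ = 1) :
    PD (Q ⧸ Ideal.span {f}) R (n + b + 1) := by
  set A := Q ⧸ Ideal.span {f} with hA
  have hfn : f ∈ maximalIdeal Q := by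
    rw [mem_maximalIdeal, mem_nonunits_iff]
    intro hu
    have := hu.map (algebraMap Q R)
    rw [hf] at this
    exact not_isUnit_zero this
  have hAnt : Nontrivial A := by
    rw [hA, Ideal.Quotient.nontrivial_iff]
    intro h1
    rw [Ideal.span_singleton_eq_top] at h1
    exact hfn h1
  have hmkA : Function.Surjective (algebraMap Q A) := Ideal.Quotient.mk_surjective
  have hAloc : IsLocalRing A := IsLocalRing.of_surjective' (Ideal.Quotient.mk _) hmkA
  have hfR : ∀ r : R, f • r = 0 := fun r => by rw [Algebra.smul_def, hf, zero_mul]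
  -- the ideal `I` as a submodule
  let I : Submodule Q Q := LinearMap.range p
  have hIR : ∀ x ∈ I, algebraMap Q R x = 0 := fun x hx => by
    have : x ∈ RingHom.ker (algebraMap Q R) := by rw [← hp]; exact hx
    exact this
  let p' : E →ₗ[Q] I := p.rangeRestrict
  have hp' : Function.Surjective p' := p.surjective_rangeRestrict
  have hp'v : ∀ e, (p' e : Q) = p e := fun e => rfl
  -- pd of I
  have hIpd : PD Q I (n + 1) := by
    have hex : Function.Exact I.subtype (Algebra.linearMap Q R) := by
      intro x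
      have : x ∈ RingHom.ker (algebraMap Q R) ↔ x ∈ I := by rw [← hp]
      rw [RingHom.mem_ker] at this
      rw [Algebra.linearMap_apply, this]
      simp
    exact pd_ker (f := I.subtype) (g := Algebra.linearMap Q R) Subtype.val_injective hs hex hpd
  have hIreg : IsSMulRegular I f := isSMulRegular_of_injective I.subtype Subtype.val_injective hreg
  have hXpd : PD A (QuotSMulTop f I) (n + 1) := pd_quotSMulTop f hreg (n + 1) I hIreg hIpd
  -- the maps over `A`
  let j₁ : (Fin q → R) →ₗ[A] QuotSMulTop f E :=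
    ((Submodule.mkQ (f • (⊤ : Submodule Q E))) ∘ₗ j).extendScalarsOfSurjective hmkA
  have hj₁ : ∀ v, j₁ v = Submodule.Quotient.mk (j v) := fun v => rfl
  let g₁ : QuotSMulTop f E →ₗ[A] QuotSMulTop f I := qmap f p'
  have hj0 : ∀ v, p (j v) = 0 := by
    intro v
    have : j v ∈ LinearMap.ker p := by rw [← hjp]; exact ⟨v, rfl⟩
    exact this
  have hexβ : Function.Exact (β.restrictScalars A) j₁ := by
    intro v
    constructor
    · intro hv
      rw [hj₁, quotSMulTop_mk_eq_zero_iff] at hv
      obtain ⟨e, he⟩ := hv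
      have h1 : p (j v) = 0 := hj0 v
      rw [he, map_smul] at h1
      have h2 : p e = 0 := hreg.right_eq_zero_of_smul h1
      have h3 : e ∈ LinearMap.range j := by rw [hjp]; exact h2
      obtain ⟨w, rfl⟩ := h3
      apply (hβj v).mp
      rw [he, ← map_smul]
      have : f • w = 0 := by funext i; exact hfR _
      rw [this, map_zero]
    · rintro ⟨w, rfl⟩
      rw [hj₁]
      have : j (β w) = 0 := (hβj _).mpr ⟨w, rfl⟩
      change (Submodule.Quotient.mk (j (β w)) : QuotSMulTop f E) = 0
      rw [this, Submodule.Quotient.mk_zero]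
  have hg₁surj : Function.Surjective g₁ := qmap_surjective f hp'
  have hexact : Function.Exact j₁ g₁ := by
    intro y
    obtain ⟨e, rfl⟩ := Submodule.Quotient.mk_surjective _ y
    constructor
    · intro h
      change (Submodule.Quotient.mk (p' e) : QuotSMulTop f I) = 0 at h
      rw [quotSMulTop_mk_eq_zero_iff] at h
      obtain ⟨x, hx⟩ := h
      obtain ⟨e', rfl⟩ := hp' x
      have h1 : e - f • e' ∈ LinearMap.ker p := by
        rw [LinearMap.mem_ker, map_sub, map_smul, sub_eq_zero]
        exact congrArg Subtype.val hx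
      rw [← hjp] at h1
      obtain ⟨v, hv⟩ := h1
      refine ⟨v, ?_⟩
      rw [hj₁, hv, ← sub_eq_zero, ← Submodule.Quotient.mk_sub, quotSMulTop_mk_eq_zero_iff]
      exact ⟨-e', by rw [smul_neg]; abel⟩
    · rintro ⟨v, hv⟩
      rw [← hv, hj₁]
      change (Submodule.Quotient.mk (p' (j v)) : QuotSMulTop f I) = 0
      have : p' (j v) = 0 := by
        apply Subtype.ext
        exact hj0 v
      rw [this, Submodule.Quotient.mk_zero]
  let ρ₁ : QuotSMulTop f E →ₗ[A] R :=
    ((f • (⊤ : Submodule Q E)).liftQ ρ (by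
      intro x hx
      rw [mem_smul_top_iff] at hx
      obtain ⟨y, rfl⟩ := hx
      rw [LinearMap.mem_ker, map_smul, hfR])).extendScalarsOfSurjective hmkA
  have hρ₁ : ∀ e, ρ₁ (Submodule.Quotient.mk e) = ρ e := fun e => rfl
  -- the section
  let t : Q →ₗ[Q] QuotSMulTop f E := LinearMap.toSpanSingleton Q _ (Submodule.Quotient.mk e₀)
  have ht : ∀ x, algebraMap Q R x = 0 → t x = 0 := by
    intro x hx
    have hx' : x ∈ LinearMap.range p := by rw [hp]; exact hx
    obtain ⟨e, rfl⟩ := hx'
    rw [LinearMap.toSpanSingleton_apply, ← Submodule.Quotient.mk_smul,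
      quotSMulTop_mk_eq_zero_iff]
    exact ⟨e, by rw [hcomm e e₀, he₀]⟩
  have hle : LinearMap.ker (Algebra.linearMap Q R) ≤ LinearMap.ker t := fun x hx => ht x hx
  let j₀' : R →ₗ[Q] QuotSMulTop f E :=
    ((LinearMap.ker (Algebra.linearMap Q R)).liftQ t hle) ∘ₗ
      ((Algebra.linearMap Q R).quotKerEquivOfSurjective hs).symm.toLinearMap
  have hj₀' : ∀ x : Q, j₀' (algebraMap Q R x) = x • Submodule.Quotient.mk e₀ := by
    intro x
    have h1 : ((Algebra.linearMap Q R).quotKerEquivOfSurjective hs).symm (algebraMap Q R x) =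
        Submodule.Quotient.mk x := by
      rw [LinearEquiv.symm_apply_eq]
      rfl
    change ((LinearMap.ker (Algebra.linearMap Q R)).liftQ t hle)
      (((Algebra.linearMap Q R).quotKerEquivOfSurjective hs).symm (algebraMap Q R x)) = _
    rw [h1]
    rfl
  let j₀ : R →ₗ[A] QuotSMulTop f E := j₀'.extendScalarsOfSurjective hmkA
  have hret : ρ₁ ∘ₗ j₀ = LinearMap.id := by
    refine LinearMap.ext fun r => ?_
    obtain ⟨x, rfl⟩ := hs r
    change ρ₁ (j₀' (algebraMap Q R x)) = algebraMap Q R x
    rw [hj₀', ← Submodule.Quotient.mk_smul, hρ₁, map_smul, hρ₀, Algebra.smul_def, mul_one]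
  have hRfin : Module.Finite A R := by
    have : Module.Finite Q R := Module.Finite.of_surjective (Algebra.linearMap Q R) hs
    exact Module.Finite.of_restrictScalars_finite Q A R
  have hIfin : Module.Finite A (QuotSMulTop f I) :=
    Module.Finite.of_restrictScalars_finite Q A _
  -- the coefficients
  choose r₀ hr₀ hr₀' using fun i : Fin q => exists_lift_mem_maximal (Q := Q) hs
    (hρ (Pi.single i 1))
  choose c₀ hc₀ using fun (l : Fin b) (k : Fin q) => hs (β (Pi.single l 1) k)
  have hcomp : ∀ v, ρ₁ (j₁ v) = ∑ k, (algebraMap Q A (r₀ k)) • v k := by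
    intro v
    choose a ha using fun i => hs (v i)
    have hv : v = ∑ i, a i • (Pi.single i (1 : R) : Fin q → R) := by
      funext k
      rw [Finset.sum_apply, Finset.sum_eq_single k]
      · simp [Pi.smul_apply, Algebra.smul_def, ha]
      · intro i _ hik
        simp [Pi.smul_apply, hik.symm]
      · simp
    have h1 : ρ (j v) = ∑ i, a i • ρ (j (Pi.single i (1 : R))) := by
      conv_lhs => rw [hv]
      rw [map_sum, map_sum]
      simp only [map_smul]
    change ρ (j v) = _
    rw [h1]
    refine Finset.sum_congr rfl fun i _ => ?_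
    rw [← hr₀' i, Algebra.smul_def, ha i, algebraMap_smul, Algebra.smul_def, mul_comm]
  have hrA : ∀ i, algebraMap Q A (r₀ i) ∈ maximalIdeal A := by
    intro i
    rw [mem_maximalIdeal, mem_nonunits_iff]
    intro hu
    have hu2 := hu.map (algebraMap A R)
    rw [← IsScalarTower.algebraMap_apply, hr₀' i] at hu2
    exact (hρ (Pi.single i 1)) hu2
  refine step_core (A := A) (M := R) (X := QuotSMulTop f E) (Y := QuotSMulTop f I) n q b hXpd
    (β.restrictScalars A) hβ j₁ hexβ g₁ hg₁surj hexact ρ₁ j₀ hret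
    (fun k => algebraMap Q A (r₀ k)) hrA hcomp (fun l k => algebraMap Q A (c₀ l k)) ?_
  intro v k
  change β v k = _
  rw [pi_eq_sum_smul_single β v, Finset.sum_apply]
  refine Finset.sum_congr rfl fun l _ => ?_
  rw [Pi.smul_apply, smul_eq_mul, algebraMap_smul, Algebra.smul_def, hc₀, mul_comm]

end Step

end Pool.Agent.Helper19
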