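import Pool.Agent.Helper19.PdBasic

/-!
Change of rings `Q → Q/f` for projective dimension, depth zero rings, constant rank,
existence of nonzerodivisors in ideals of finite projective dimension.
-/

universe u

open CategoryTheory Abelian IsLocalRing Module TensorProduct Pointwise

namespace Pool.Agent.Helper19

section Change

variable {Q : Type u} [CommRing Q]

/-- the map induced modulo `f`, linear over `Q/f` -/
noncomputable def qmap (f : Q) {X Y : Type u} [AddCommGroup X] [Module Q X] [AddCommGroup Y]
    [Module Q Y] (g : X →ₗ[Q] Y) :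
    QuotSMulTop f X →ₗ[Q ⧸ Ideal.span {f}] QuotSMulTop f Y :=
  (QuotSMulTop.map f g).extendScalarsOfSurjective Ideal.Quotient.mk_surjective

lemma qmap_mk (f : Q) {X Y : Type u} [AddCommGroup X] [Module Q X] [AddCommGroup Y]
    [Module Q Y] (g : X →ₗ[Q] Y) (x : X) :
    qmap f g (Submodule.Quotient.mk x) = Submodule.Quotient.mk (g x) := rfl

lemma qmap_surjective (f : Q) {X Y : Type u} [AddCommGroup X] [Module Q X] [AddCommGroup Y]
    [Module Q Y] {g : X →ₗ[Q] Y} (hg : Function.Surjective g) :
    Function.Surjective (qmap f g) := QuotSMulTop.map_surjective f hg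

lemma qmap_exact (f : Q) {X Y Z : Type u} [AddCommGroup X] [Module Q X] [AddCommGroup Y]
    [Module Q Y] [AddCommGroup Z] [Module Q Z] {g : X →ₗ[Q] Y} {h : Y →ₗ[Q] Z}
    (hgh : Function.Exact g h) (hh : Function.Surjective h) :
    Function.Exact (qmap f g) (qmap f h) := QuotSMulTop.map_exact f hgh hh

lemma mem_smul_top_iff {X : Type u} [AddCommGroup X] [Module Q X] (f : Q) (x : X) :
    x ∈ f • (⊤ : Submodule Q X) ↔ ∃ y, x = f • y := by
  rw [Submodule.mem_smul_pointwise_iff_exists]
  constructor
  · rintro ⟨y, -, rfl⟩; exact ⟨y, rfl⟩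
  · rintro ⟨y, rfl⟩; exact ⟨y, trivial, rfl⟩

lemma quotSMulTop_mk_eq_zero_iff {X : Type u} [AddCommGroup X] [Module Q X] (f : Q) (x : X) :
    (Submodule.Quotient.mk x : QuotSMulTop f X) = 0 ↔ ∃ y, x = f • y := by
  rw [Submodule.Quotient.mk_eq_zero, mem_smul_top_iff]

lemma qmap_injective (f : Q) {X Y Z : Type u} [AddCommGroup X] [Module Q X] [AddCommGroup Y]
    [Module Q Y] [AddCommGroup Z] [Module Q Z] {g : X →ₗ[Q] Y} {h : Y →ₗ[Q] Z}
    (hg : Function.Injective g) (hgh : Function.Exact g h) (hZ : IsSMulRegular Z f) :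
    Function.Injective (qmap f g) := by
  rw [injective_iff_map_eq_zero]
  intro x hx
  obtain ⟨x, rfl⟩ := Submodule.Quotient.mk_surjective _ x
  rw [qmap_mk, quotSMulTop_mk_eq_zero_iff] at hx
  obtain ⟨y, hy⟩ := hx
  have h1 : f • h y = 0 := by
    rw [← map_smul, ← hy]; exact hgh.apply_apply_eq_zero x
  have h2 : h y = 0 := hZ.right_eq_zero_of_smul h1
  obtain ⟨x', hx'⟩ := (hgh y).mp h2
  rw [quotSMulTop_mk_eq_zero_iff]
  refine ⟨x', hg ?_⟩
  rw [hy, map_smul, hx']

lemma isSMulRegular_of_injective {f : Q} {X Y : Type u} [AddCommGroup X] [Module Q X]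
    [AddCommGroup Y] [Module Q Y] (g : X →ₗ[Q] Y) (hg : Function.Injective g)
    (hY : IsSMulRegular Y f) : IsSMulRegular X f := by
  intro a b hab
  apply hg
  apply hY
  simpa using congrArg g hab

lemma isSMulRegular_pi {f : Q} (hf : IsSMulRegular Q f) (n : ℕ) :
    IsSMulRegular (Fin n → Q) f := by
  intro a b hab
  funext i
  exact hf (congrFun hab i)

variable [IsLocalRing Q] [IsNoetherianRing Q]

/-- change of rings: for `f` regular on `Q` and on `X`, `pd_{Q/f} X/fX ≤ pd_Q X`. -/
theorem pd_quotSMulTop (f : Q) (hf : IsSMulRegular Q f) (n : ℕ) :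
    ∀ (X : Type u) [AddCommGroup X] [Module Q X] [Module.Finite Q X],
      IsSMulRegular X f → PD Q X n → PD (Q ⧸ Ideal.span {f}) (QuotSMulTop f X) n := by
  induction n with
  | zero =>
    intro X _ _ _ _ h
    have := subsingleton_of_pd_zero h
    have : Subsingleton (QuotSMulTop f X) := inferInstance
    exact (ModuleCat.isZero_iff_subsingleton (M := ModuleCat.of (Q ⧸ Ideal.span {f})
      (QuotSMulTop f X))).mpr this |>.hasProjectiveDimensionLT_zero
  | succ n ih =>
    intro X _ _ _ hX h
    match n with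
    | 0 =>
      have : Module.Projective Q X := projective_of_pd_one h
      have : Module.Free Q X := Module.free_of_flat_of_isLocalRing
      exact pd_of_free
    | n + 1 =>
      obtain ⟨m, π, hπ, -⟩ := exists_minimal_cover (A := Q) (X := X)
      have hinj : Function.Injective (LinearMap.ker π).subtype := Subtype.val_injective
      have hex : Function.Exact (LinearMap.ker π).subtype π := fun v => by simp
      have hK : PD Q (LinearMap.ker π) (n + 1) := pd_ker hinj hπ hex h
      have hKreg : IsSMulRegular (LinearMap.ker π) f :=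
        isSMulRegular_of_injective _ hinj (isSMulRegular_pi hf m)
      have h1 := ih (LinearMap.ker π) hKreg hK
      have hfree : PD (Q ⧸ Ideal.span {f}) (QuotSMulTop f (Fin m → Q)) 1 := pd_of_free
      exact pd_coker (qmap_injective f hinj hex hX) (qmap_surjective f hπ) (qmap_exact f hex hπ)
        h1 (PD.mono hfree (by omega))

end Change

end Pool.Agent.Helper19
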