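import Pool.Agent.Helper19.Partial
import Pool.Agent.Helper19.NormalPdOne

/-!
Depth of `R` at most two, `N` of depth zero.
-/

universe u

open CategoryTheory Abelian IsLocalRing Module TensorProduct Pointwise RingTheory.Sequence

namespace Pool.Agent.Helper19

section Pair

variable {R : Type u} [CommRing R]

/-- `x, y` is a weakly regular sequence (elementwise form) -/
structure RegPair (x y : R) : Prop where
  hx : IsSMulRegular R x
  hy : ∀ a b : R, y * a = x * b → ∃ c, a = x * c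

lemma RegPair.vec {x y : R} (h : RegPair x y) {k : ℕ} {v w : Fin k → R} (hvw : y • v = x • w) :
    ∃ u : Fin k → R, v = x • u ∧ w = y • u := by
  choose c hc using fun i => h.hy (v i) (w i) (congrFun hvw i)
  refine ⟨c, funext hc, funext fun i => ?_⟩
  apply h.hx
  have h1 : y * v i = x * w i := congrFun hvw i
  have h2 : x * w i = x * (y * c i) := by rw [← h1, hc]; ring
  exact h2

lemma RegPair.xinj {x y : R} (h : RegPair x y) {k : ℕ} {v w : Fin k → R}
    (hvw : x • v = x • w) : v = w := by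
  funext i
  exact h.hx (congrFun hvw i)

end Pair

section Res

variable {R : Type u} [CommRing R] [IsLocalRing R] [IsNoetherianRing R]

/-- minimal free resolution of length two -/
lemma exists_minimal_resolution3 {X : Type u} [AddCommGroup X] [Module R X] [Module.Finite R X]
    (h : PD R X 3) : ∃ (a₀ a₁ a₂ : ℕ) (π : (Fin a₀ → R) →ₗ[R] X)
      (B₁ : (Fin a₁ → R) →ₗ[R] (Fin a₀ → R)) (B₂ : (Fin a₂ → R) →ₗ[R] (Fin a₁ → R)),
      Function.Surjective π ∧ Function.Injective B₂ ∧ Function.Exact B₁ π ∧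
      Function.Exact B₂ B₁ ∧ (∀ v i, B₁ v i ∈ maximalIdeal R) ∧
      ∀ v i, B₂ v i ∈ maximalIdeal R := by
  obtain ⟨a, π, hπ, hmin⟩ := exists_minimal_cover (A := R) (X := X)
  have hinj : Function.Injective (LinearMap.ker π).subtype := Subtype.val_injective
  have hex : Function.Exact (LinearMap.ker π).subtype π := fun v => by simp
  have hK : PD R (LinearMap.ker π) 2 := pd_ker hinj hπ hex h
  obtain ⟨a₁, a₂, π₁, B₂, hπ₁, hB₂, hex₂, hmin₂⟩ := exists_minimal_resolution hK
  refine ⟨a, a₁, a₂, π, (LinearMap.ker π).subtype ∘ₗ π₁, B₂, hπ, hB₂, ?_, ?_, ?_, hmin₂⟩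
  · intro v
    constructor
    · intro hv
      obtain ⟨w, hw⟩ := hπ₁ ⟨v, hv⟩
      exact ⟨w, by rw [LinearMap.comp_apply, hw]; rfl⟩
    · rintro ⟨w, rfl⟩
      exact (π₁ w).2
  · intro v
    rw [← hex₂ v]
    constructor
    · intro hv; exact Subtype.ext hv
    · intro hv
      rw [LinearMap.comp_apply, hv]; rfl
  · intro v i
    exact hmin _ (π₁ v).2 i

end Res

section Main

variable {R : Type u} [CommRing R] [IsLocalRing R] [IsNoetherianRing R]
variable {Q : Type u} [CommRing Q] [IsLocalRing Q] [IsNoetherianRing Q] [Algebra Q R]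
variable {N : Type u} [AddCommGroup N] [Module R N] [Module Q N] [IsScalarTower Q R N]

/-- `N` of depth zero and projective dimension at most two. -/
theorem exists_regularSeq_of_socle (hs : Function.Surjective (algebraMap Q R))
    (n : ℕ) (hpd : PD Q R n) {x y : R} (hxy : RegPair x y) (hxm : x ∈ maximalIdeal R)
    (hym : y ∈ maximalIdeal R) (n₀ : N) (hn₀ : n₀ ≠ 0) (hmn : ∀ r ∈ maximalIdeal R, r • n₀ = 0)
    {a₀ a₁ a₂ : ℕ} (πN : (Fin a₀ → R) →ₗ[R] N) (hπN : Function.Surjective πN)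
    (BN : (Fin a₁ → R) →ₗ[R] (Fin a₀ → R)) (CN : (Fin a₂ → R) →ₗ[R] (Fin a₁ → R))
    (hCN : Function.Injective CN) (hexN : Function.Exact BN πN) (hexN' : Function.Exact CN BN)
    {b₀ b₁ b₂ : ℕ} (πP : (Fin b₀ → R) →ₗ[R] (RingHom.ker (algebraMap Q R) →ₗ[Q] N))
    (hπP : Function.Surjective πP)
    (BP : (Fin b₁ → R) →ₗ[R] (Fin b₀ → R)) (CP : (Fin b₂ → R) →ₗ[R] (Fin b₁ → R))
    (hCP : Function.Injective CP) (hexP : Function.Exact BP πP) (hexP' : Function.Exact CP BP)
    (hCPmin : ∀ v i, CP v i ∈ maximalIdeal R) :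
    ∃ rs : List Q, IsRegular Q rs ∧ Ideal.ofList rs = RingHom.ker (algebraMap Q R) := by
  let I : Ideal Q := RingHom.ker (algebraMap Q R)
  let H₀ := (Fin b₀ → R) →ₗ[R] (Fin a₀ → R)
  let H₁ := (Fin b₁ → R) →ₗ[R] (Fin a₁ → R)
  let H₂ := (Fin b₂ → R) →ₗ[R] (Fin a₂ → R)
  let E : Submodule Q (I × H₀ × H₁ × H₂) :=
    { carrier := {e | (∀ w, πN (e.2.1 w) = πP w e.1) ∧ (∀ w, BN (e.2.2.1 w) = e.2.1 (BP w)) ∧
        ∀ w, CN (e.2.2.2 w) = e.2.2.1 (CP w)}
      add_mem' := by
        rintro e e' ⟨h1, h2, h3⟩ ⟨h1', h2', h3'⟩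
        refine ⟨fun w => ?_, fun w => ?_, fun w => ?_⟩
        · change πN (e.2.1 w + e'.2.1 w) = πP w (e.1 + e'.1)
          rw [map_add, h1, h1', map_add]
        · change BN (e.2.2.1 w + e'.2.2.1 w) = e.2.1 (BP w) + e'.2.1 (BP w)
          rw [map_add, h2, h2']
        · change CN (e.2.2.2 w + e'.2.2.2 w) = e.2.2.1 (CP w) + e'.2.2.1 (CP w)
          rw [map_add, h3, h3']
      zero_mem' := by
        refine ⟨fun w => ?_, fun w => ?_, fun w => ?_⟩
        · change πN 0 = πP w 0
          rw [map_zero, map_zero]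
        · change BN 0 = 0
          rw [map_zero]
        · change CN 0 = 0
          rw [map_zero]
      smul_mem' := by
        rintro c e ⟨h1, h2, h3⟩
        refine ⟨fun w => ?_, fun w => ?_, fun w => ?_⟩
        · change πN (c • e.2.1 w) = πP w (c • e.1)
          rw [LinearMap.map_smul_of_tower, h1, map_smul]
        · change BN (c • e.2.2.1 w) = c • e.2.1 (BP w)
          rw [LinearMap.map_smul_of_tower, h2]
        · change CN (c • e.2.2.2 w) = c • e.2.2.1 (CP w)
          rw [LinearMap.map_smul_of_tower, h3] }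
  have hE0 : ∀ e : E, ∀ w, πN (e.1.2.1 w) = πP w e.1.1 := fun e => e.2.1
  have hE1 : ∀ e : E, ∀ w, BN (e.1.2.2.1 w) = e.1.2.1 (BP w) := fun e => e.2.2.1
  have hE2 : ∀ e : E, ∀ w, CN (e.1.2.2.2 w) = e.1.2.2.1 (CP w) := fun e => e.2.2.2
  let p : E →ₗ[Q] Q := I.subtype ∘ₗ LinearMap.fst Q I _ ∘ₗ E.subtype
  have hpe : ∀ e : E, p e = (e.1.1 : Q) := fun e => rfl
  have hprange : LinearMap.range p = RingHom.ker (algebraMap Q R) := by
    ext z
    constructor
    · rintro ⟨e, rfl⟩
      exact e.1.1.2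
    · intro hz
      obtain ⟨l0, hl0⟩ := Module.projective_lifting_property πN
        (evalAt (R := R) N (⟨z, hz⟩ : I) ∘ₗ πP) hπN
      have hl0' : ∀ w, πN (l0 w) = πP w ⟨z, hz⟩ := fun w => LinearMap.congr_fun hl0 w
      obtain ⟨l1, hl1⟩ := exists_lift_of_exact BN πN (fun v hv => (hexN v).mp hv) (l0 ∘ₗ BP)
        (fun w => by
          rw [LinearMap.comp_apply, hl0', hexP.apply_apply_eq_zero]; rfl)
      obtain ⟨l2, hl2⟩ := exists_lift_of_exact CN BN (fun v hv => (hexN' v).mp hv) (l1 ∘ₗ CP)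
        (fun w => by
          rw [LinearMap.comp_apply, hl1, LinearMap.comp_apply, hexP'.apply_apply_eq_zero,
            map_zero])
      exact ⟨⟨(⟨z, hz⟩, l0, l1, l2), hl0', hl1, hl2⟩, rfl⟩
  have hkill : ∀ {c d : ℕ} (z : Q), algebraMap Q R z = 0 →
      ∀ h : (Fin c → R) →ₗ[R] (Fin d → R), z • h = 0 := by
    intro c d z hz h
    apply LinearMap.ext
    intro w
    funext i
    change z • (h w i) = 0
    rw [Algebra.smul_def, hz, zero_mul]
  have hcomm : ∀ e e' : E, p e • e' = p e' • e := by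
    intro e e'
    apply Subtype.ext
    apply Prod.ext
    · apply Subtype.ext
      change (e.1.1 : Q) * (e'.1.1 : Q) = (e'.1.1 : Q) * (e.1.1 : Q)
      exact mul_comm _ _
    · refine Prod.ext ?_ (Prod.ext ?_ ?_)
      · change (e.1.1 : Q) • e'.1.2.1 = (e'.1.1 : Q) • e.1.2.1
        rw [hkill _ e.1.1.2, hkill _ e'.1.1.2]
      · change (e.1.1 : Q) • e'.1.2.2.1 = (e'.1.1 : Q) • e.1.2.2.1
        rw [hkill _ e.1.1.2, hkill _ e'.1.1.2]
      · change (e.1.1 : Q) • e'.1.2.2.2 = (e'.1.1 : Q) • e.1.2.2.2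
        rw [hkill _ e.1.1.2, hkill _ e'.1.1.2]
  -- the kernel
  let C₁ := ((Fin b₀ → R) →ₗ[R] (Fin a₁ → R)) × ((Fin b₁ → R) →ₗ[R] (Fin a₂ → R))
  let C₂ := (Fin b₀ → R) →ₗ[R] (Fin a₂ → R)
  let ee := (Module.finBasis R C₁).equivFun.symm
  let ee' := (Module.finBasis R C₂).equivFun.symm
  let j : (Fin (Module.finrank R C₁) → R) →ₗ[Q] E :=
    { toFun := fun v => ⟨(0, BN ∘ₗ (ee v).1, CN ∘ₗ (ee v).2 + (ee v).1 ∘ₗ BP, (ee v).2 ∘ₗ CP),
        fun w => by
          change πN (BN ((ee v).1 w)) = πP w 0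
          rw [map_zero]; exact hexN.apply_apply_eq_zero _,
        fun w => by
          change BN (CN ((ee v).2 w) + (ee v).1 (BP w)) = BN ((ee v).1 (BP w))
          rw [map_add, hexN'.apply_apply_eq_zero, zero_add],
        fun w => by
          change CN ((ee v).2 (CP w)) = CN ((ee v).2 (CP w)) + (ee v).1 (BP (CP w))
          rw [hexP'.apply_apply_eq_zero, map_zero, add_zero]⟩
      map_add' := fun v w => by
        apply Subtype.ext
        refine Prod.ext ?_ (Prod.ext ?_ (Prod.ext ?_ ?_))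
        · exact (add_zero (0 : I)).symm
        · change BN ∘ₗ (ee (v + w)).1 = BN ∘ₗ (ee v).1 + BN ∘ₗ (ee w).1
          rw [map_add, Prod.fst_add, LinearMap.comp_add]
        · change CN ∘ₗ (ee (v + w)).2 + (ee (v + w)).1 ∘ₗ BP =
            (CN ∘ₗ (ee v).2 + (ee v).1 ∘ₗ BP) + (CN ∘ₗ (ee w).2 + (ee w).1 ∘ₗ BP)
          rw [map_add, Prod.fst_add, Prod.snd_add, LinearMap.comp_add, LinearMap.add_comp]
          abel
        · change (ee (v + w)).2 ∘ₗ CP = (ee v).2 ∘ₗ CP + (ee w).2 ∘ₗ CP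
          rw [map_add, Prod.snd_add, LinearMap.add_comp]
      map_smul' := fun c v => by
        apply Subtype.ext
        refine Prod.ext ?_ (Prod.ext ?_ (Prod.ext ?_ ?_))
        · exact (smul_zero c).symm
        · change BN ∘ₗ (ee (c • v)).1 = c • (BN ∘ₗ (ee v).1)
          rw [← algebraMap_smul R c v, map_smul, Prod.smul_fst, LinearMap.comp_smul,
            algebraMap_smul]
        · change CN ∘ₗ (ee (c • v)).2 + (ee (c • v)).1 ∘ₗ BP =
            c • (CN ∘ₗ (ee v).2 + (ee v).1 ∘ₗ BP)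
          rw [← algebraMap_smul R c v, map_smul, Prod.smul_fst, Prod.smul_snd,
            LinearMap.comp_smul, LinearMap.smul_comp, ← smul_add, algebraMap_smul]
        · change (ee (c • v)).2 ∘ₗ CP = c • ((ee v).2 ∘ₗ CP)
          rw [← algebraMap_smul R c v, map_smul, Prod.smul_snd, LinearMap.smul_comp,
            algebraMap_smul] }
  have hj : ∀ v, (j v).1 = (0, BN ∘ₗ (ee v).1, CN ∘ₗ (ee v).2 + (ee v).1 ∘ₗ BP,
    (ee v).2 ∘ₗ CP) := fun v => rfl
  let B : C₂ →ₗ[R] C₁ :=
    { toFun := fun h => (CN ∘ₗ h, - (h ∘ₗ BP))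
      map_add' := fun h h' => by
        refine Prod.ext ?_ ?_
        · change CN ∘ₗ (h + h') = CN ∘ₗ h + CN ∘ₗ h'
          rw [LinearMap.comp_add]
        · change - ((h + h') ∘ₗ BP) = - (h ∘ₗ BP) + - (h' ∘ₗ BP)
          rw [LinearMap.add_comp]; abel
      map_smul' := fun c h => by
        refine Prod.ext ?_ ?_
        · change CN ∘ₗ (c • h) = c • (CN ∘ₗ h)
          rw [LinearMap.comp_smul]
        · change - ((c • h) ∘ₗ BP) = c • (- (h ∘ₗ BP))
          rw [LinearMap.smul_comp, smul_neg] }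
  have hB : ∀ h, B h = (CN ∘ₗ h, - (h ∘ₗ BP)) := fun h => rfl
  let β : (Fin (Module.finrank R C₂) → R) →ₗ[R] (Fin (Module.finrank R C₁) → R) :=
    ee.symm.toLinearMap ∘ₗ B ∘ₗ ee'.toLinearMap
  have hβe : ∀ v, ee (β v) = B (ee' v) := fun v => ee.apply_symm_apply _
  have hβinj : Function.Injective β := by
    intro v w hvw
    apply ee'.injective
    have h1 : B (ee' v) = B (ee' w) := by rw [← hβe, ← hβe, hvw]
    apply LinearMap.ext
    intro z
    apply hCN
    have := congrArg (fun h : C₁ => h.1 z) h1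
    exact this
  have hβj : Function.Exact β j := by
    intro v
    constructor
    · intro hv
      have h1 : (j v).1 = 0 := by rw [hv]; rfl
      rw [hj] at h1
      have h2 : BN ∘ₗ (ee v).1 = 0 := congrArg (fun e => e.2.1) h1
      have h3 : CN ∘ₗ (ee v).2 + (ee v).1 ∘ₗ BP = 0 := congrArg (fun e => e.2.2.1) h1
      obtain ⟨h, hh⟩ := exists_lift_of_exact CN BN (fun v hv => (hexN' v).mp hv) (ee v).1
        (fun w => LinearMap.congr_fun h2 w)
      refine ⟨ee'.symm h, ?_⟩
      apply ee.injective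
      rw [hβe, LinearEquiv.apply_symm_apply, hB]
      refine Prod.ext (LinearMap.ext hh) (LinearMap.ext fun w => ?_)
      apply hCN
      have h4 := LinearMap.congr_fun h3 w
      change CN ((ee v).2 w) + (ee v).1 (BP w) = 0 at h4
      change CN (- (h (BP w))) = CN ((ee v).2 w)
      rw [map_neg, hh]
      exact (eq_neg_of_add_eq_zero_left h4).symm
    · rintro ⟨w, rfl⟩
      apply Subtype.ext
      rw [hj, hβe, hB]
      refine Prod.ext rfl (Prod.ext ?_ (Prod.ext ?_ ?_))
      · apply LinearMap.ext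
        intro z
        exact hexN'.apply_apply_eq_zero _
      · apply LinearMap.ext
        intro z
        change CN (- (ee' w) (BP z)) + CN ((ee' w) (BP z)) = 0
        rw [map_neg, neg_add_cancel]
      · apply LinearMap.ext
        intro z
        change - (ee' w) (BP (CP z)) = 0
        rw [hexP'.apply_apply_eq_zero, map_zero, neg_zero]
  have hjrange : LinearMap.range j = LinearMap.ker p := by
    ext e
    constructor
    · rintro ⟨v, rfl⟩
      rw [LinearMap.mem_ker, hpe, hj]; rfl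
    · intro he
      have he1 : e.1.1 = 0 := Subtype.ext he
      obtain ⟨h₀, hh₀⟩ := exists_lift_of_exact BN πN (fun v hv => (hexN v).mp hv) e.1.2.1
        (fun w => by rw [hE0, he1, map_zero])
      obtain ⟨h₁, hh₁⟩ := exists_lift_of_exact CN BN (fun v hv => (hexN' v).mp hv)
        (e.1.2.2.1 - h₀ ∘ₗ BP) (fun w => by
          rw [LinearMap.sub_apply, map_sub, hE1, LinearMap.comp_apply, hh₀, sub_self])
      refine ⟨ee.symm (h₀, h₁), ?_⟩
      apply Subtype.ext
      rw [hj, LinearEquiv.apply_symm_apply]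
      refine Prod.ext he1.symm (Prod.ext ?_ (Prod.ext ?_ ?_))
      · exact LinearMap.ext hh₀
      · apply LinearMap.ext
        intro w
        change CN (h₁ w) + h₀ (BP w) = e.1.2.2.1 w
        rw [hh₁, LinearMap.sub_apply, LinearMap.comp_apply, sub_add_cancel]
      · apply LinearMap.ext
        intro w
        change h₁ (CP w) = e.1.2.2.2 w
        apply hCN
        rw [hh₁, LinearMap.sub_apply, LinearMap.comp_apply, hexP'.apply_apply_eq_zero, map_zero,
          sub_zero, hE2]
  -- the functionals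
  let μ : Fin (b₂ * a₂) → (E →ₗ[Q] R) := fun k =>
    { toFun := fun e => e.1.2.2.2 (Pi.single (finProdFinEquiv.symm k).1 1)
        (finProdFinEquiv.symm k).2
      map_add' := fun e e' => rfl
      map_smul' := fun c e => rfl }
  have hμ : ∀ e (i : Fin b₂) (l : Fin a₂), μ (finProdFinEquiv (i, l)) e =
      e.1.2.2.2 (Pi.single i 1) l := by
    intro e i l
    change e.1.2.2.2 (Pi.single (finProdFinEquiv.symm (finProdFinEquiv (i, l))).1 1)
      (finProdFinEquiv.symm (finProdFinEquiv (i, l))).2 = _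
    rw [Equiv.symm_apply_apply]
  refine exists_regularSeq_of_detect2 (E := E) hs n hpd p hprange hcomm _ _ j β hβinj hβj hjrange μ ?_ ?_
  · intro k v
    change (ee v).2 (CP _) _ ∈ _
    exact map_mem_maximal _ _ _ (hCPmin _) _
  · intro e he
    by_contra hcon
    have hentries : ∀ (i : Fin b₂) (l : Fin a₂), e.1.2.2.2 (Pi.single i 1) l ∈ maximalIdeal R := by
      intro i l
      rw [← hμ]; exact he _
    have hf : e.1.1 ∉ maximalIdeal Q • (⊤ : Submodule Q I) := by
      intro hmem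
      apply hcon
      have h1 := Submodule.mem_map_of_mem (f := I.subtype) hmem
      rw [Submodule.map_smul'', Submodule.map_top, Submodule.range_subtype] at h1
      exact h1
    obtain ⟨φ, hφf, hφm⟩ := exists_hom_to_socle e.1.1 hf n₀ (fun r hr => by
      rw [← algebraMap_smul R r]
      exact hmn _ (algebraMap_mem_maximal hs hr))
    obtain ⟨pp, hpp⟩ := hπP φ
    have hφx : ∀ r ∈ maximalIdeal R, r • φ = 0 := by
      intro r hr
      obtain ⟨q, hq, rfl⟩ := exists_lift_mem_maximal hs hr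
      have := hφm q hq
      rw [← this]
      ext y
      change algebraMap Q R q • φ y = q • φ y
      rw [algebraMap_smul]
    have hpr : ∀ r ∈ maximalIdeal R, ∃ w, BP w = r • pp := by
      intro r hr
      have h1 : πP (r • pp) = 0 := by rw [map_smul, hpp, hφx r hr]
      exact (hexP _).mp h1
    obtain ⟨p₁, hp₁⟩ := hpr x hxm
    obtain ⟨q₁, hq₁⟩ := hpr y hym
    obtain ⟨c, hc⟩ : ∃ c, CP c = y • p₁ - x • q₁ := by
      apply (hexP' _).mp
      rw [map_sub, map_smul, map_smul, hp₁, hq₁, smul_comm, sub_self]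
    have hcr : ∀ r ∈ maximalIdeal R, ∃ s t : Fin b₂ → R, r • c = x • s + y • t := by
      intro r hr
      obtain ⟨s₀, hs₀⟩ := hpr r hr
      obtain ⟨s₁, hs₁⟩ : ∃ s₁, CP s₁ = r • p₁ - x • s₀ := by
        apply (hexP' _).mp
        rw [map_sub, map_smul, map_smul, hp₁, hs₀, smul_comm, sub_self]
      obtain ⟨s₂, hs₂⟩ : ∃ s₂, CP s₂ = r • q₁ - y • s₀ := by
        apply (hexP' _).mp
        rw [map_sub, map_smul, map_smul, hq₁, hs₀, smul_comm, sub_self]
      refine ⟨- s₂, s₁, hCP ?_⟩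
      rw [map_smul, hc, map_add, map_smul, map_smul, map_neg, hs₁, hs₂]
      simp only [smul_sub, smul_neg, smul_comm x y s₀, smul_comm r y p₁, smul_comm r x q₁]
      abel
    -- the coordinates of `λ₂ c` are in `(x, y)`
    obtain ⟨s, t, hst⟩ : ∃ s t : Fin a₂ → R, e.1.2.2.2 c = x • s + y • t := by
      have h1 : ∀ l, ∃ s t : R, e.1.2.2.2 c l = x * s + y * t := by
        intro l
        have h2 : e.1.2.2.2 c l ∈ Ideal.span {x, y} := by
          rw [pi_eq_sum_smul_single e.1.2.2.2 c, Finset.sum_apply]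
          refine Ideal.sum_mem _ fun i _ => ?_
          obtain ⟨s, t, hst⟩ := hcr _ (hentries i l)
          have h3 := congrFun hst i
          simp only [Pi.smul_apply, Pi.add_apply, smul_eq_mul] at h3
          rw [Pi.smul_apply, smul_eq_mul, mul_comm, h3, Ideal.mem_span_pair]
          exact ⟨s i, t i, by ring⟩
        rw [Ideal.mem_span_pair] at h2
        obtain ⟨s, t, hst⟩ := h2
        exact ⟨s, t, by rw [← hst]; ring⟩
      choose s t hst using h1
      exact ⟨s, t, funext hst⟩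
    -- conclusion
    have h1 : y • (e.1.2.2.1 p₁ - CN t) = x • (e.1.2.2.1 q₁ + CN s) := by
      have h2 := hE2 e c
      rw [hst, hc, map_add, map_smul, map_smul, map_sub, map_smul, map_smul] at h2
      rw [smul_sub, smul_add, sub_eq_iff_eq_add, add_assoc, h2]
      abel
    obtain ⟨w, hw, -⟩ := hxy.vec h1
    have h3 : x • e.1.2.1 pp = x • BN w := by
      rw [← map_smul, ← hp₁, ← hE1, ← map_smul BN, ← hw, map_sub, hexN'.apply_apply_eq_zero,
        sub_zero]
    have h4 : e.1.2.1 pp = BN w := hxy.xinj h3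
    apply hn₀
    rw [← hφf, ← hpp, ← hE0, h4]
    exact hexN.apply_apply_eq_zero _

end Main

end Pool.Agent.Helper19
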