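import Pool.Agent.Helper19.TorInf
import Pool.Agent.Helper19.Nilp

/-!
The homological core of the one step theorem with a kernel of projective dimension one.
-/

universe u

open CategoryTheory Module IsLocalRing TensorProduct Finset

namespace Pool.Agent.Helper19

section Null

variable {A : Type u} [CommRing A] {Φ : ℕ → ModuleCat.{u} A} [∀ j, Module.Projective A (Φ j)]
  (d : ∀ j, Φ (j + 1) →ₗ[A] Φ j)

/-- chain maps of degree two on a resolution are null-homotopic -/
lemma null_deg2 (hdd : ∀ j x, d j (d (j + 1) x) = 0)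
    (hex : ∀ j x, d j x = 0 → ∃ y, d (j + 1) y = x)
    (u : ∀ j, Φ j →ₗ[A] Φ (j + 1 + 1)) (h0 : ∀ x, d 1 (u 0 x) = 0)
    (hu : ∀ j x, d (j + 1 + 1) (u (j + 1) x) = u j (d j x)) :
    ∃ h : ∀ j, Φ j →ₗ[A] Φ (j + 1 + 1 + 1), (∀ x, d 2 (h 0 x) = u 0 x) ∧
      ∀ j x, d (j + 1 + 1 + 1) (h (j + 1) x) = u (j + 1) x - h j (d j x) := by
  obtain ⟨s0, hs0⟩ := exists_lift_of_exact (d 2) (d 1) (hex 1) (u 0) h0
  let St : ℕ → Type u := fun j =>
    {s : Φ j →ₗ[A] Φ (j + 1 + 1 + 1) // ∀ x, d (j + 1 + 1) (s (d j x)) = u j (d j x)}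
  have step : ∀ j (s : St j), ∃ s' : Φ (j + 1) →ₗ[A] Φ (j + 1 + 1 + 1 + 1),
      ∀ x, d (j + 1 + 1 + 1) (s' x) = u (j + 1) x - s.1 (d j x) := by
    intro j s
    obtain ⟨h, hh⟩ := exists_lift_of_exact (d (j + 1 + 1 + 1)) (d (j + 1 + 1)) (hex (j + 1 + 1))
      (u (j + 1) - s.1 ∘ₗ d j) (fun x => by
        rw [LinearMap.sub_apply, LinearMap.comp_apply, map_sub, hu, s.2, sub_self])
    exact ⟨h, hh⟩
  choose nx hnx using step
  let seq : ∀ j, St j := fun j => Nat.rec (motive := St) ⟨s0, fun x => hs0 _⟩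
    (fun j s => ⟨nx j s, fun x => by
      rw [hnx, hdd, map_zero, sub_zero]⟩) j
  refine ⟨fun j => (seq j).1, hs0, fun j x => ?_⟩
  exact hnx j (seq j) x

end Null

section Core

variable {A : Type u} [CommRing A] {Φ : ℕ → ModuleCat.{u} A}
  (d : ∀ j, Φ (j + 1) →ₗ[A] Φ j) (M : Type u) [AddCommGroup M] [Module A M]

/-- cycles of `Φ ⊗ M` -/
def zT : ∀ j, Submodule A (Φ j ⊗[A] M)
  | 0 => ⊤
  | j + 1 => LinearMap.ker (dT d M j)

/-- boundaries of `Φ ⊗ M` -/
def bT (j : ℕ) : Submodule A (Φ j ⊗[A] M) := LinearMap.range (dT d M j)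

variable {d M}

/-- an operator which is a homotopy for `g` on `Φ` anticommutes with the differential of
`Φ ⊗ M` if `g` kills `M` -/
lemma op_dT {g : A} (hg : ∀ v : M, g • v = 0) (w : ∀ j, Φ j →ₗ[A] Φ (j + 1))
    (hw : ∀ j x, d (j + 1) (w (j + 1) x) = g • x - w j (d j x)) (j : ℕ)
    (z : Φ (j + 1) ⊗[A] M) :
    dT d M (j + 1) ((w (j + 1)).rTensor M z) = - (w j).rTensor M (dT d M j z) := by
  induction z using TensorProduct.induction_on with
  | zero => simp
  | add x y hx hy => rw [map_add, map_add, map_add, map_add, hx, hy, neg_add]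
  | tmul a v =>
    change d (j + 1) (w (j + 1) a) ⊗ₜ v = - (w j (d j a)) ⊗ₜ[A] v
    rw [hw, TensorProduct.sub_tmul, TensorProduct.smul_tmul, hg, TensorProduct.tmul_zero,
      zero_sub]

lemma op_dT0 {g : A} (hg : ∀ v : M, g • v = 0) (w : ∀ j, Φ j →ₗ[A] Φ (j + 1))
    (hw : ∀ x, d 0 (w 0 x) = g • x) (z : Φ 0 ⊗[A] M) :
    dT d M 0 ((w 0).rTensor M z) = 0 := by
  induction z using TensorProduct.induction_on with
  | zero => simp
  | add x y hx hy => rw [map_add, map_add, hx, hy, add_zero]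
  | tmul a v =>
    change d 0 (w 0 a) ⊗ₜ[A] v = 0
    rw [hw, TensorProduct.smul_tmul, hg, TensorProduct.tmul_zero]

lemma op_zT {g : A} (hg : ∀ v : M, g • v = 0) (w : ∀ j, Φ j →ₗ[A] Φ (j + 1))
    (hw0 : ∀ x, d 0 (w 0 x) = g • x)
    (hw : ∀ j x, d (j + 1) (w (j + 1) x) = g • x - w j (d j x)) (j : ℕ)
    (z : Φ j ⊗[A] M) (hz : z ∈ zT d M j) : (w j).rTensor M z ∈ zT d M (j + 1) := by
  match j, z, hz with
  | 0, z, _ => exact op_dT0 hg w hw0 z
  | j + 1, z, hz =>
    change dT d M (j + 1) ((w (j + 1)).rTensor M z) = 0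
    have : dT d M j z = 0 := hz
    rw [op_dT hg w hw, this, map_zero, neg_zero]

lemma op_bT {g : A} (hg : ∀ v : M, g • v = 0) (w : ∀ j, Φ j →ₗ[A] Φ (j + 1))
    (hw : ∀ j x, d (j + 1) (w (j + 1) x) = g • x - w j (d j x)) (j : ℕ)
    (z : Φ j ⊗[A] M) (hz : z ∈ bT d M j) : (w j).rTensor M z ∈ bT d M (j + 1) := by
  obtain ⟨y, rfl⟩ := hz
  refine ⟨- (w (j + 1)).rTensor M y, ?_⟩
  rw [map_neg, op_dT hg w hw, neg_neg]

/-- null-homotopic maps of degree two send cycles to boundaries -/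
lemma null_bT (u : ∀ j, Φ j →ₗ[A] Φ (j + 1 + 1)) (h : ∀ j, Φ j →ₗ[A] Φ (j + 1 + 1 + 1))
    (h0 : ∀ x, d 2 (h 0 x) = u 0 x)
    (hh : ∀ j x, d (j + 1 + 1 + 1) (h (j + 1) x) = u (j + 1) x - h j (d j x)) (j : ℕ)
    (z : Φ j ⊗[A] M) (hz : z ∈ zT d M j) : (u j).rTensor M z ∈ bT d M (j + 1 + 1) := by
  match j, z, hz with
  | 0, z, _ =>
    refine ⟨(h 0).rTensor M z, ?_⟩
    induction z using TensorProduct.induction_on with
    | zero => simp
    | add x y hx hy => rw [map_add, map_add, map_add, hx trivial, hy trivial]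
    | tmul a v =>
      change d 2 (h 0 a) ⊗ₜ[A] v = u 0 a ⊗ₜ[A] v
      rw [h0]
  | j + 1, z, hz =>
    have hz0 : dT d M j z = 0 := hz
    refine ⟨(h (j + 1)).rTensor M z, ?_⟩
    have h1 : dT d M (j + 1 + 1 + 1) ((h (j + 1)).rTensor M z) =
        (u (j + 1)).rTensor M z - (h j).rTensor M (dT d M j z) := by
      clear hz hz0
      induction z using TensorProduct.induction_on with
      | zero => simp
      | add x y hx hy => rw [map_add, map_add, map_add, map_add, map_add, hx, hy]; abel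
      | tmul a v =>
        change d (j + 1 + 1 + 1) (h (j + 1) a) ⊗ₜ[A] v = u (j + 1) a ⊗ₜ[A] v - h j (d j a) ⊗ₜ[A] v
        rw [hh, TensorProduct.sub_tmul]
    rw [h1, hz0, map_zero, sub_zero]

/-- the anticommutator of two homotopy operators -/
lemma anti_bT [∀ j, Module.Projective A (Φ j)] (hdd : ∀ j x, d j (d (j + 1) x) = 0)
    (hex : ∀ j x, d j x = 0 → ∃ y, d (j + 1) y = x) {g g' : A}
    (w w' : ∀ j, Φ j →ₗ[A] Φ (j + 1))
    (hw0 : ∀ x, d 0 (w 0 x) = g • x)
    (hw : ∀ j x, d (j + 1) (w (j + 1) x) = g • x - w j (d j x))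
    (hw0' : ∀ x, d 0 (w' 0 x) = g' • x)
    (hw' : ∀ j x, d (j + 1) (w' (j + 1) x) = g' • x - w' j (d j x)) (j : ℕ)
    (z : Φ j ⊗[A] M) (hz : z ∈ zT d M j) :
    (w (j + 1)).rTensor M ((w' j).rTensor M z) + (w' (j + 1)).rTensor M ((w j).rTensor M z) ∈
      bT d M (j + 1 + 1) := by
  obtain ⟨h, h0, hh⟩ := null_deg2 d hdd hex
    (fun j => w (j + 1) ∘ₗ w' j + w' (j + 1) ∘ₗ w j) (by
      intro x
      rw [LinearMap.add_apply, LinearMap.comp_apply, LinearMap.comp_apply, map_add]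
      change d (0 + 1) (w (0 + 1) (w' 0 x)) + d (0 + 1) (w' (0 + 1) (w 0 x)) = 0
      rw [hw, hw', hw0, hw0', map_smul, map_smul]
      abel) (by
      intro j x
      rw [LinearMap.add_apply, LinearMap.comp_apply, LinearMap.comp_apply, map_add, hw, hw', hw',
        hw, map_sub, map_sub, map_smul, map_smul]
      rw [LinearMap.add_apply, LinearMap.comp_apply, LinearMap.comp_apply]
      abel)
  have h1 : (w (j + 1) ∘ₗ w' j + w' (j + 1) ∘ₗ w j).rTensor M z ∈ bT d M (j + 1 + 1) :=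
    null_bT (M := M) (fun j => w (j + 1) ∘ₗ w' j + w' (j + 1) ∘ₗ w j) h h0 hh j z hz
  rw [LinearMap.rTensor_add, LinearMap.rTensor_comp, LinearMap.rTensor_comp] at h1
  exact h1

/-- the square of a homotopy operator -/
lemma sq_bT [∀ j, Module.Projective A (Φ j)] (hdd : ∀ j x, d j (d (j + 1) x) = 0)
    (hex : ∀ j x, d j x = 0 → ∃ y, d (j + 1) y = x) {g : A}
    (w : ∀ j, Φ j →ₗ[A] Φ (j + 1))
    (hw0 : ∀ x, d 0 (w 0 x) = g • x)
    (hw : ∀ j x, d (j + 1) (w (j + 1) x) = g • x - w j (d j x)) (j : ℕ)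
    (z : Φ j ⊗[A] M) (hz : z ∈ zT d M j) :
    (w (j + 1)).rTensor M ((w j).rTensor M z) ∈ bT d M (j + 1 + 1) := by
  obtain ⟨h, h0, hh⟩ := null_deg2 d hdd hex
    (fun j => w (j + 1) ∘ₗ w j) (by
      intro x
      rw [LinearMap.comp_apply]
      change d (0 + 1) (w (0 + 1) (w 0 x)) = 0
      rw [hw, hw0, map_smul, sub_self]) (by
      intro j x
      rw [LinearMap.comp_apply, hw, hw, map_sub, map_smul, LinearMap.comp_apply]
      abel)
  have h1 : (w (j + 1) ∘ₗ w j).rTensor M z ∈ bT d M (j + 1 + 1) :=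
    null_bT (M := M) (fun j => w (j + 1) ∘ₗ w j) h h0 hh j z hz
  rw [LinearMap.rTensor_comp] at h1
  exact h1

lemma lT_zT {N : Type u} [AddCommGroup N] [Module A N] (φ : M →ₗ[A] N) (j : ℕ) (z : Φ j ⊗[A] M)
    (hz : z ∈ zT d M j) : φ.lTensor _ z ∈ zT d N j := by
  cases j with
  | zero => trivial
  | succ j =>
    change dT d _ j _ = 0
    have : dT d _ j z = 0 := hz
    rw [dT_comm, this, map_zero]

lemma zT_of_inj [∀ j, Module.Free A (Φ j)] (hdd : ∀ j x, d j (d (j + 1) x) = 0)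
    {N : Type u} [AddCommGroup N] [Module A N] (φ : M →ₗ[A] N)
    (hφ : Function.Injective φ) (j : ℕ) (y : Φ j ⊗[A] M) (x : Φ (j + 1) ⊗[A] N)
    (h : φ.lTensor _ y = dT d N j x) : y ∈ zT d M j := by
  cases j with
  | zero => trivial
  | succ j =>
    change dT d _ j y = 0
    apply lT_inj j φ hφ
    rw [← dT_comm, h, dT_dT d hdd, map_zero]

end Core

section Step

variable {A : Type u} [CommRing A] [IsLocalRing A] [IsNoetherianRing A]

/-- The homological core: `M` is a retract of `X`, the kernel of `X → Y` is presented by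
`M^b → M^q`, the map `M^q → X → M` has entries in the maximal ideal and `pd Y ≤ n`. -/
theorem step_core {M X Y : Type u} [AddCommGroup M] [Module A M] [Module.Finite A M]
    [AddCommGroup X] [Module A X] [AddCommGroup Y] [Module A Y] [Module.Finite A Y] (n q b : ℕ)
    (hY : PD A Y (n + 1)) (β : (Fin b → M) →ₗ[A] (Fin q → M)) (hβ : Function.Injective β)
    (j₁ : (Fin q → M) →ₗ[A] X) (hβj : Function.Exact β j₁)
    (g₁ : X →ₗ[A] Y) (hg : Function.Surjective g₁) (hjg : Function.Exact j₁ g₁)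
    (ρ : X →ₗ[A] M) (i : M →ₗ[A] X) (hret : ρ ∘ₗ i = LinearMap.id)
    (r : Fin q → A) (hr : ∀ k, r k ∈ maximalIdeal A) (hρ : ∀ v, ρ (j₁ v) = ∑ k, r k • v k)
    (c : Fin b → Fin q → A) (hc : ∀ v k, β v k = ∑ l, c l k • v l) :
    PD A M (n + b + 1) := by
  classical
  obtain ⟨Φ, d, e, hfin, hfree, hd0, hd0', hdd, hex⟩ := exists_resolution_inf (maximalIdeal A)
  have hproj : ∀ j, Module.Projective A (Φ j) := fun j => inferInstance
  choose τ hτ0 hτ using fun k => exists_homotopy d e hd0 hdd hex (r k) (hr k)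
  let g : ℕ → A := fun l => if h : l < b then ∑ k, c ⟨l, h⟩ k * r k else 0
  let w : ℕ → ∀ j, Φ j →ₗ[A] Φ (j + 1) := fun l j =>
    if h : l < b then ∑ k, c ⟨l, h⟩ k • τ k j else 0
  have hw0 : ∀ l x, d 0 (w l 0 x) = g l • x := by
    intro l x
    by_cases h : l < b
    · simp only [w, g, dif_pos h, LinearMap.sum_apply, LinearMap.smul_apply, map_sum, map_smul,
        hτ0, Finset.sum_smul, smul_smul]
    · simp only [w, g, dif_neg h, LinearMap.zero_apply, map_zero, zero_smul]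
  have hw : ∀ l j x, d (j + 1) (w l (j + 1) x) = g l • x - w l j (d j x) := by
    intro l j x
    by_cases h : l < b
    · simp only [w, g, dif_pos h, LinearMap.sum_apply, LinearMap.smul_apply, map_sum, map_smul,
        hτ, Finset.sum_smul, smul_smul, smul_sub, Finset.sum_sub_distrib]
    · simp only [w, g, dif_neg h, LinearMap.zero_apply, map_zero, zero_smul, sub_zero]
  have hg0 : ∀ l (v : M), g l • v = 0 := by
    intro l v
    by_cases h : l < b
    · have h1 : ρ (j₁ (β (Pi.single ⟨l, h⟩ v))) = 0 := by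
        rw [hβj.apply_apply_eq_zero, map_zero]
      rw [hρ] at h1
      simp only [g, dif_pos h, Finset.sum_smul]
      rw [← h1]
      refine Finset.sum_congr rfl fun k _ => ?_
      rw [hc, Finset.sum_eq_single ⟨l, h⟩]
      · rw [Pi.single_eq_same, smul_smul, mul_comm]
      · intro l' _ hl'
        rw [Pi.single_eq_of_ne hl', smul_zero]
      · simp
    · simp only [g, dif_neg h, zero_smul]
  -- tensor computations
  have hρT : ∀ j (x : Φ j ⊗[A] (Fin q → M)), ρ.lTensor _ (j₁.lTensor _ x) =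
      ∑ k, r k • (LinearMap.proj k : (Fin q → M) →ₗ[A] M).lTensor (Φ j) x := by
    intro j x
    induction x using TensorProduct.induction_on with
    | zero => simp
    | add x y hx hy => simp only [map_add, hx, hy, smul_add, Finset.sum_add_distrib]
    | tmul a v =>
      simp only [LinearMap.lTensor_tmul, LinearMap.proj_apply, hρ, TensorProduct.tmul_sum,
        TensorProduct.tmul_smul]
  have hβT : ∀ j k (y : Φ j ⊗[A] (Fin b → M)),
      (LinearMap.proj k : (Fin q → M) →ₗ[A] M).lTensor (Φ j) (β.lTensor _ y) =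
      ∑ l, c l k • (LinearMap.proj l : (Fin b → M) →ₗ[A] M).lTensor (Φ j) y := by
    intro j k y
    induction y using TensorProduct.induction_on with
    | zero => simp
    | add x y hx hy => simp only [map_add, hx, hy, smul_add, Finset.sum_add_distrib]
    | tmul a v =>
      simp only [LinearMap.lTensor_tmul, LinearMap.proj_apply, hc, TensorProduct.tmul_sum,
        TensorProduct.tmul_smul]
  have hτT0 : ∀ k (z : Φ 0 ⊗[A] M), r k • z = dT d M 0 ((τ k 0).rTensor M z) := by
    intro k z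
    induction z using TensorProduct.induction_on with
    | zero => simp
    | add x y hx hy => rw [smul_add, hx, hy, map_add, map_add]
    | tmul a v =>
      change _ = d 0 (τ k 0 a) ⊗ₜ[A] v
      rw [hτ0, TensorProduct.smul_tmul']
  have hτT : ∀ k j (z : Φ (j + 1) ⊗[A] M), r k • z =
      dT d M (j + 1) ((τ k (j + 1)).rTensor M z) + (τ k j).rTensor M (dT d M j z) := by
    intro k j z
    induction z using TensorProduct.induction_on with
    | zero => simp
    | add x y hx hy => rw [smul_add, hx, hy, map_add, map_add, map_add, map_add]; abel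
    | tmul a v =>
      change _ = d (j + 1) (τ k (j + 1) a) ⊗ₜ[A] v + (τ k j (d j a)) ⊗ₜ[A] v
      rw [hτ, TensorProduct.sub_tmul, TensorProduct.smul_tmul']
      abel
  have hwT : ∀ (l : Fin b) j (z : Φ j ⊗[A] M), (w l j).rTensor M z =
      ∑ k, c l k • (τ k j).rTensor M z := by
    intro l j z
    induction z using TensorProduct.induction_on with
    | zero => simp
    | add x y hx hy => simp only [map_add, hx, hy, smul_add, Finset.sum_add_distrib]
    | tmul a v =>
      have h1 : w l j a = ∑ k, c l k • τ k j a := by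
        simp only [w, Fin.is_lt, dif_pos, Fin.eta, LinearMap.sum_apply, LinearMap.smul_apply]
      change w l j a ⊗ₜ[A] v = _
      rw [h1, TensorProduct.sum_tmul]
      rfl
  -- generation
  have hgen : ∀ j, n ≤ j → Gen (zT d M) (bT d M) (fun l j => (w l j).rTensor M) b j := by
    intro j hj z hz
    have hz0 : dT d M j z = 0 := hz
    have hYz := hz_of_pd d hdd hex n Y hY j hj
    obtain ⟨y₁, hy₁⟩ := hYz (g₁.lTensor _ (i.lTensor _ z)) (by
      rw [dT_comm, dT_comm, hz0, map_zero, map_zero])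
    obtain ⟨y₂, rfl⟩ := lT_surj (j + 2) g₁ hg y₁
    have h2 : g₁.lTensor _ (i.lTensor _ z - dT d X (j + 1) y₂) = 0 := by
      rw [map_sub, ← dT_comm, hy₁, sub_self]
    obtain ⟨x, hx⟩ := (lT_exact (j + 1) j₁ g₁ hjg _).mp h2
    have h3 : j₁.lTensor _ (dT d (Fin q → M) j x) = 0 := by
      rw [← dT_comm, hx, map_sub, dT_comm, hz0, map_zero, dT_dT d hdd, sub_zero]
    obtain ⟨y, hy⟩ := (lT_exact j β j₁ hβj _).mp h3
    have hyZ : y ∈ zT d (Fin b → M) j := zT_of_inj hdd β hβ j y x hy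
    have hz1 : ρ.lTensor _ (i.lTensor _ z) = z := by
      have : (ρ.lTensor (Φ (j + 1))) ∘ₗ (i.lTensor (Φ (j + 1))) = LinearMap.id := by
        rw [← LinearMap.lTensor_comp, hret, LinearMap.lTensor_id]
      exact LinearMap.congr_fun this z
    have hz2 : z = ρ.lTensor _ (j₁.lTensor _ x) + dT d M (j + 1) (ρ.lTensor _ y₂) := by
      rw [hx, dT_comm, ← map_add, sub_add_cancel, hz1]
    refine ⟨fun l => if h : l < b then
      (LinearMap.proj ⟨l, h⟩ : (Fin b → M) →ₗ[A] M).lTensor (Φ j) y else 0, ?_, ?_⟩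
    · intro l
      dsimp only
      split_ifs with h
      · exact lT_zT _ j y hyZ
      · exact Submodule.zero_mem _
    · have h4 : ∑ l ∈ range b, (w l j).rTensor M (if h : l < b then
          (LinearMap.proj ⟨l, h⟩ : (Fin b → M) →ₗ[A] M).lTensor (Φ j) y else 0) =
          ∑ k, (τ k j).rTensor M
            ((LinearMap.proj k : (Fin q → M) →ₗ[A] M).lTensor (Φ j) (β.lTensor _ y)) := by
        rw [Finset.sum_range]
        simp only [hβT, map_sum, map_smul, Fin.is_lt, dif_pos, Fin.eta, hwT]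
        rw [Finset.sum_comm]
      have h5 : z - ∑ l ∈ range b, (w l j).rTensor M (if h : l < b then
          (LinearMap.proj ⟨l, h⟩ : (Fin b → M) →ₗ[A] M).lTensor (Φ j) y else 0) =
          dT d M (j + 1) (ρ.lTensor _ y₂ + ∑ k, (τ k (j + 1)).rTensor M
            ((LinearMap.proj k : (Fin q → M) →ₗ[A] M).lTensor (Φ (j + 1)) x)) := by
        rw [h4, hy]
        conv_lhs => rw [hz2, hρT]
        simp only [hτT, dT_comm, map_add, map_sum, Finset.sum_add_distrib]
        abel
      change z - ∑ l ∈ range b, (w l j).rTensor M _ ∈ _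
      rw [h5]
      exact ⟨_, rfl⟩
  have hfinal := nilp_of_gen (Z := zT d M) (B := bT d M) (ω := fun l j => (w l j).rTensor M)
    (fun l j z hz => op_zT (hg0 l) (w l) (hw0 l) (hw l) j z hz)
    (fun l j z hz => op_bT (hg0 l) (w l) (hw l) j z hz)
    (fun l j z hz => sq_bT hdd hex (w l) (hw0 l) (hw l) j z hz)
    (fun l l' j z hz => anti_bT hdd hex (w l) (w l') (hw0 l) (hw l) (hw0 l') (hw l') j z hz)
    b n hgen
  exact pd_of_hz d e hd0 hd0' hdd hex (n + b) M (fun z hz => hfinal (n + b) le_rfl z hz)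

end Step

end Pool.Agent.Helper19
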