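import Pool.Agent.Helper19.TorMain
import Pool.Agent.Helper19.FrobFree
import Pool.Agent.Helper19.ABound

/-!
The normal module of a perfect ideal: free implies complete intersection.
-/

universe u

open CategoryTheory Module IsLocalRing RingTheory.Sequence

namespace Pool.Agent.Helper19

/-- length of a regular sequence in a prime is at most the height -/
lemma length_le_height {S : Type u} [CommRing S] [IsNoetherianRing S] (p : Ideal S) [p.IsPrime]
    (gs : List S) (hgs : IsWeaklyRegular S gs) (hmem : ∀ g ∈ gs, g ∈ p) :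
    (gs.length : ℕ∞) ≤ p.height := by
  let A := Localization.AtPrime p
  have h1 : IsRegular A (gs.map (algebraMap S A)) :=
    hgs.isRegular_of_isLocalization_of_mem A p hmem
  have h2 := ringKrullDim_add_length_eq_ringKrullDim_of_isRegular _ h1
  rw [IsLocalization.AtPrime.ringKrullDim_eq_height p A, List.length_map] at h2
  have h3 : Nontrivial (A ⧸ Ideal.ofList (gs.map (algebraMap S A))) := by
    rw [Ideal.Quotient.nontrivial_iff]
    have := h1.top_ne_smul
    rw [smul_eq_mul, Ideal.mul_top] at this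
    exact this.symm
  have h4 := ringKrullDim_nonneg_of_nontrivial (R := A ⧸ Ideal.ofList (gs.map (algebraMap S A)))
  have h5 : ((gs.length : ℕ∞) : WithBot ℕ∞) ≤ (p.height : WithBot ℕ∞) := by
    rw [← h2]
    calc ((gs.length : ℕ∞) : WithBot ℕ∞) = 0 + ((gs.length : ℕ∞) : WithBot ℕ∞) := (zero_add _).symm
      _ ≤ _ := by gcongr; rfl
  exact_mod_cast h5

section Families

variable {S : Type u} [CommRing S] [IsLocalRing S] [IsNoetherianRing S] (I : Ideal S)

/-- two multiples of the dual basis -/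
theorem exists_families (hI : I ≠ ⊤) (c : ℕ) (φ : Fin c → (I →ₗ[S] S ⧸ I))
    (huniv : ∀ ψ : I →ₗ[S] S ⧸ I, ∃ r : Fin c → S ⧸ I, ∀ x, ψ x = ∑ i, r i * φ i x)
    (hindep : ∀ r : Fin c → S ⧸ I, (∀ x, ∑ i, r i * φ i x = 0) → r = 0) :
    ∃ a b : S, (∀ u, a * u ∈ I → u ∈ I) ∧
      (∀ u, b * u ∈ I ⊔ Ideal.span {a} → u ∈ I ⊔ Ideal.span {a}) ∧
      ∃ f g : Fin c → I, (∀ i j, φ i (f j) = if i = j then Ideal.Quotient.mk I a else 0) ∧
        (∀ i j, φ i (g j) = if i = j then Ideal.Quotient.mk I b else 0) := by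
  classical
  have : Nontrivial (S ⧸ I) := Ideal.Quotient.nontrivial_iff.mpr hI
  have : IsLocalRing (S ⧸ I) :=
    IsLocalRing.of_surjective' (Ideal.Quotient.mk I) Ideal.Quotient.mk_surjective
  -- the image
  let B : Submodule (S ⧸ I) (Fin c → S ⧸ I) :=
    { carrier := {v | ∃ x : I, ∀ i, φ i x = v i}
      add_mem' := by
        rintro v w ⟨x, hx⟩ ⟨y, hy⟩
        exact ⟨x + y, fun i => by rw [map_add, hx, hy]; rfl⟩
      zero_mem' := ⟨0, fun i => by rw [map_zero]; rfl⟩
      smul_mem' := by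
        rintro r v ⟨x, hx⟩
        obtain ⟨q, rfl⟩ := Ideal.Quotient.mk_surjective r
        exact ⟨q • x, fun i => by rw [map_smul, hx, Algebra.smul_def]; rfl⟩ }
  let β : I →ₗ[S] B :=
    { toFun := fun x => ⟨fun i => φ i x, x, fun i => rfl⟩
      map_add' := fun x y => by
        apply Subtype.ext; funext i
        exact map_add (φ i) x y
      map_smul' := fun q x => by
        apply Subtype.ext; funext i
        exact map_smul (φ i) q x }
  have hβ : ∀ x i, (β x : Fin c → S ⧸ I) i = φ i x := fun x i => rfl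
  have hβs : ∀ v : B, ∃ x, β x = v := by
    rintro ⟨v, x, hx⟩
    exact ⟨x, Subtype.ext (funext hx)⟩
  obtain ⟨x, hx, y, hy, hxreg, hyreg⟩ := exists_ann_pair B (by
      intro φ' hφ'
      have h2 := hindep (fun i => φ' (Pi.single i 1)) (by
        intro x
        rw [← hφ' _ (β x).2, LinearMap.pi_apply_eq_sum_univ φ']
        refine Finset.sum_congr rfl fun i _ => ?_
        rw [smul_eq_mul, mul_comm, hβ]
        congr 1
        congr 1
        funext j
        simp [Pi.single_apply, eq_comm])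
      apply LinearMap.pi_ext'
      intro i
      ext
      simpa using congrFun h2 i) (by
      intro g
      let ψ : I →ₗ[S] S ⧸ I := (g.restrictScalars S) ∘ₗ β
      obtain ⟨t, ht⟩ := huniv ψ
      refine ⟨Fintype.linearCombination (S ⧸ I) t, ?_⟩
      intro v
      obtain ⟨x, rfl⟩ := hβs v
      rw [Fintype.linearCombination_apply]
      change _ = ψ x
      rw [ht x]
      refine Finset.sum_congr rfl fun i _ => ?_
      rw [hβ, smul_eq_mul, mul_comm])
  obtain ⟨a, rfl⟩ := Ideal.Quotient.mk_surjective x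
  obtain ⟨b, rfl⟩ := Ideal.Quotient.mk_surjective y
  have hann : ∀ t : S, Ideal.Quotient.mk I t ∈ Module.annihilator (S ⧸ I) (_ ⧸ B) →
      ∀ j, ∃ f : I, ∀ i, φ i f = if i = j then Ideal.Quotient.mk I t else 0 := by
    intro t ht j
    have h1 := Module.mem_annihilator.mp ht (Submodule.Quotient.mk (Pi.single j 1))
    rw [← Submodule.Quotient.mk_smul, Submodule.Quotient.mk_eq_zero] at h1
    obtain ⟨f, hf⟩ := h1
    refine ⟨f, fun i => ?_⟩
    rw [hf]
    simp [Pi.single_apply]
  choose f hf using fun j => hann a hx j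
  choose g hg using fun j => hann b hy j
  exact ⟨a, b, fun u hu => reg_mod_of_isSMulRegular hxreg u hu,
    fun u hu => reg_pair_of_isSMulRegular hyreg u hu, f, g, fun i j => hf j i, fun i j => hg j i⟩

/-- the rank of the normal module is at least the grade -/
theorem length_le_rank (hI : I ≠ ⊤) (c : ℕ) (φ : Fin c → (I →ₗ[S] S ⧸ I))
    (huniv : ∀ ψ : I →ₗ[S] S ⧸ I, ∃ r : Fin c → S ⧸ I, ∀ x, ψ x = ∑ i, r i * φ i x)
    (hindep : ∀ r : Fin c → S ⧸ I, (∀ x, ∑ i, r i * φ i x = 0) → r = 0)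
    (gs : List S) (hgs : IsWeaklyRegular S gs) (hmem : ∀ g ∈ gs, g ∈ I) : gs.length ≤ c := by
  classical
  obtain ⟨a, -, ha, -, f, -, hf, -⟩ := exists_families I hI c φ huniv hindep
  obtain ⟨z, hz, hzK⟩ := exists_mul_mem_sq I φ huniv a ha f hf
  let F : Ideal S := Ideal.span (Set.range fun j => (f j : S))
  have hFI : F ≤ I := by
    rw [Ideal.span_le]
    rintro _ ⟨j, rfl⟩
    exact (f j).2
  obtain ⟨z', n, hz'n, hz'F⟩ := exists_pow_mul_mem I F hFI (z * a) (by
    intro x hx
    choose t ht using fun i => Ideal.Quotient.mk_surjective (φ i ⟨x, hx⟩)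
    let x' : I := a • ⟨x, hx⟩ - ∑ j, t j • f j
    have hx' : ∀ i, φ i x' = 0 := by
      intro i
      simp only [x']
      rw [map_sub, map_smul, map_sum]
      have h1 : ∀ j, φ i (t j • f j) = if i = j then Ideal.Quotient.mk I (t j * a) else 0 := by
        intro j
        rw [map_smul, hf]
        split_ifs
        · rfl
        · exact smul_zero _
      rw [Finset.sum_congr rfl fun j _ => h1 j]
      simp only [Finset.sum_ite_eq, Finset.mem_univ, if_true]
      rw [← ht i, sub_eq_zero, mul_comm]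
      rfl
    have h2 := hzK x' hx'
    have h3 : z * a * x = z * (x' : S) + z * ∑ j, t j * (f j : S) := by
      have : (x' : S) = a * x - ∑ j, t j * (f j : S) := by
        simp only [x']
        rw [Submodule.coe_sub, Submodule.coe_sum]
        rfl
      rw [this]; ring
    rw [h3]
    refine Ideal.add_mem _ (Ideal.mem_sup_right h2) (Ideal.mem_sup_left ?_)
    refine Ideal.mul_mem_left _ _ (Ideal.sum_mem _ fun j _ => Ideal.mul_mem_left _ _ ?_)
    exact Ideal.subset_span ⟨j, rfl⟩)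
  have hzareg : ∀ u, z * a * u ∈ I → u ∈ I := fun u hu => ha u (hz _ (by rwa [← mul_assoc]))
  have hz' : ∀ u, z' * u ∈ I → u ∈ I := by
    intro u hu
    apply pow_reg hzareg n
    have : (z * a) ^ n * u = z' * u - (z' - (z * a) ^ n) * u := by ring
    rw [this]
    exact I.sub_mem hu (I.mul_mem_right _ hz'n)
  -- a minimal prime of `F` not containing `z'`
  obtain ⟨p, hp, hzp⟩ : ∃ p ∈ F.minimalPrimes, z' ∉ p := by
    by_contra hcon
    push Not at hcon
    have h1 : z' ∈ F.radical := by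
      rw [← Ideal.sInf_minimalPrimes]
      exact (Submodule.mem_sInf).mpr hcon
    obtain ⟨m, hm⟩ := h1
    apply hI
    rw [Ideal.eq_top_iff_one]
    apply pow_reg hz' m
    rw [mul_one]
    exact hFI hm
  have hprime : p.IsPrime := hp.1.1
  have hIp : I ≤ p := by
    intro x hx
    exact (hprime.mem_or_mem (hp.1.2 (hz'F x hx))).resolve_left hzp
  have h1 := length_le_height p gs hgs (fun g hg => hIp (hmem g hg))
  have h2 := Ideal.height_le_card_of_mem_minimalPrimes_span (Set.finite_range _) hp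
  have h3 : (Set.range fun j => (f j : S)).ncard ≤ c := by
    rw [← Set.image_univ]
    refine (Set.ncard_image_le Set.finite_univ).trans ?_
    rw [Set.ncard_univ, Nat.card_eq_fintype_card, Fintype.card_fin]
  have h4 : (gs.length : ℕ∞) ≤ (c : ℕ∞) := h1.trans (h2.trans (by exact_mod_cast h3))
  exact_mod_cast h4

/-- the first element of a dual basis is surjective -/
theorem tor_surjective_zero (hI : I ≠ ⊤) (n : ℕ) (hpd : PD S (S ⧸ I) (n + 2))
    (φ : Fin (n + 1) → (I →ₗ[S] S ⧸ I))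
    (huniv : ∀ ψ : I →ₗ[S] S ⧸ I, ∃ r : Fin (n + 1) → S ⧸ I, ∀ x, ψ x = ∑ i, r i * φ i x)
    (hindep : ∀ r : Fin (n + 1) → S ⧸ I, (∀ x, ∑ i, r i * φ i x = 0) → r = 0) :
    ∃ x : I, φ 0 x = 1 := by
  classical
  obtain ⟨a, b, ha, hb, f, g, hf, hg⟩ := exists_families I hI (n + 1) φ huniv hindep
  obtain ⟨F, d, e, hfin, hfree, hd0, hd0', hdd, hex, hF⟩ := exists_resolution I n hpd
  let φ' : ℕ → (I →ₗ[S] S ⧸ I) := fun i => if h : i < n + 1 then φ ⟨i, h⟩ else 0
  let f' : ℕ → I := fun i => if h : i < n + 1 then f ⟨i, h⟩ else 0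
  let g' : ℕ → I := fun i => if h : i < n + 1 then g ⟨i, h⟩ else 0
  obtain ⟨x, hx⟩ := tor_key (I := I) (d := d) (e := e) hd0 hd0' hdd hex n hF φ' a b ha hb f' g'
    (by
      intro i k hi hk
      simp only [φ', f', dif_pos hi, dif_pos hk, hf, Fin.mk.injEq])
    (by
      intro i k hi hk
      simp only [φ', g', dif_pos hi, dif_pos hk, hg, Fin.mk.injEq])
  exact ⟨x, hx⟩

omit [IsNoetherianRing S] in
/-- If for every basis the first element is surjective then the evaluation map is surjective. -/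
theorem surjective_of_first (hI : I ≠ ⊤) (c : ℕ) (φ : Fin c → (I →ₗ[S] S ⧸ I))
    (huniv : ∀ ψ : I →ₗ[S] S ⧸ I, ∃ r : Fin c → S ⧸ I, ∀ x, ψ x = ∑ i, r i * φ i x)
    (hindep : ∀ r : Fin c → S ⧸ I, (∀ x, ∑ i, r i * φ i x = 0) → r = 0)
    (hfirst : ∀ n, n + 1 = c → ∀ φ' : Fin (n + 1) → (I →ₗ[S] S ⧸ I),
      (∀ ψ : I →ₗ[S] S ⧸ I, ∃ r : Fin (n + 1) → S ⧸ I, ∀ x, ψ x = ∑ i, r i * φ' i x) →
      (∀ r : Fin (n + 1) → S ⧸ I, (∀ x, ∑ i, r i * φ' i x = 0) → r = 0) →
      ∃ x : I, φ' 0 x = 1)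
    (v : Fin c → S ⧸ I) : ∃ x : I, ∀ i, φ i x = v i := by
  classical
  have : Nontrivial (S ⧸ I) := Ideal.Quotient.nontrivial_iff.mpr hI
  have : IsLocalRing (S ⧸ I) :=
    IsLocalRing.of_surjective' (Ideal.Quotient.mk I) Ideal.Quotient.mk_surjective
  let B : Submodule (S ⧸ I) (Fin c → S ⧸ I) :=
    { carrier := {v | ∃ x : I, ∀ i, φ i x = v i}
      add_mem' := by
        rintro v w ⟨x, hx⟩ ⟨y, hy⟩
        exact ⟨x + y, fun i => by rw [map_add, hx, hy]; rfl⟩
      zero_mem' := ⟨0, fun i => by rw [map_zero]; rfl⟩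
      smul_mem' := by
        rintro r v ⟨x, hx⟩
        obtain ⟨q, rfl⟩ := Ideal.Quotient.mk_surjective r
        exact ⟨q • x, fun i => by rw [map_smul, hx, Algebra.smul_def]; rfl⟩ }
  suffices h : Subsingleton ((Fin c → S ⧸ I) ⧸ B) by
    have h1 : v ∈ B := by
      rw [← Submodule.Quotient.mk_eq_zero]
      exact Subsingleton.elim _ _
    exact h1
  apply subsingleton_of_hom_residue (A := S ⧸ I)
  intro g
  by_contra hg
  -- some basis vector is not killed
  obtain ⟨i₀, hi₀⟩ : ∃ i, g (Submodule.Quotient.mk (Pi.single i 1)) ≠ 0 := by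
    by_contra hcon
    push Not at hcon
    apply hg
    have h2 : g ∘ₗ B.mkQ = 0 := by
      apply LinearMap.pi_ext'
      intro i
      ext
      simpa using hcon i
    apply LinearMap.ext
    intro x
    obtain ⟨x, rfl⟩ := Submodule.Quotient.mk_surjective _ x
    exact LinearMap.congr_fun h2 x
  choose r hr using fun i => (residue_surjective (R := S ⧸ I))
    (g (Submodule.Quotient.mk (Pi.single i 1)))
  have hgv : ∀ v : Fin c → S ⧸ I,
      g (Submodule.Quotient.mk v) = residue (S ⧸ I) (∑ i, r i * v i) := by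
    intro v
    have h1 : g (Submodule.Quotient.mk v) = (g ∘ₗ B.mkQ) v := rfl
    rw [h1, LinearMap.pi_apply_eq_sum_univ (g ∘ₗ B.mkQ), map_sum]
    refine Finset.sum_congr rfl fun i _ => ?_
    rw [map_mul, hr, mul_comm, Algebra.smul_def]
    congr 1
    rw [LinearMap.comp_apply, Submodule.mkQ_apply]
    congr 2
    funext j
    simp [Pi.single_apply, eq_comm]
  have hker : ∀ x : I, residue (S ⧸ I) (∑ i, r i * φ i x) = 0 := by
    intro x
    rw [← hgv (fun i => φ i x)]
    have h2 : (Submodule.Quotient.mk (fun i => φ i x) : _ ⧸ B) = 0 := by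
      rw [Submodule.Quotient.mk_eq_zero]
      exact ⟨x, fun i => rfl⟩
    rw [h2, map_zero]
  have hunit : IsUnit (r i₀) := by
    by_contra hsu
    have h1 : r i₀ ∈ maximalIdeal (S ⧸ I) := hsu
    rw [← residue_eq_zero_iff, hr] at h1
    exact hi₀ h1
  clear_value B
  clear hgv hr hi₀ hg g
  cases c with
  | zero => exact i₀.elim0
  | succ c =>
    let σ : Equiv.Perm (Fin (c + 1)) := Equiv.swap 0 i₀
    have hσ0 : σ 0 = i₀ := Equiv.swap_apply_left 0 i₀
    obtain ⟨w, hw⟩ := hunit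
    -- `R`-multiples of maps
    have hsm : ∀ (q : S ⧸ I) (ψ : I →ₗ[S] S ⧸ I), ∃ χ : I →ₗ[S] S ⧸ I, ∀ x, χ x = q * ψ x := by
      intro q ψ
      exact ⟨q • ψ, fun x => rfl⟩
    choose χ hχ using fun i => hsm (r i) (φ i)
    let ψ₀ : I →ₗ[S] S ⧸ I := ∑ i, χ i
    have hψ₀ : ∀ x, ψ₀ x = ∑ i, r i * φ i x := by
      intro x
      simp only [ψ₀]
      rw [LinearMap.sum_apply]
      exact Finset.sum_congr rfl fun i _ => hχ i x
    have hψσ : ∀ x, ψ₀ x = r i₀ * φ i₀ x + ∑ i : Fin c, r (σ i.succ) * φ (σ i.succ) x := by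
      intro x
      rw [hψ₀, ← Equiv.sum_comp σ, Fin.sum_univ_succ, hσ0]
    obtain ⟨x, hx⟩ := hfirst c rfl (Fin.cons ψ₀ fun i : Fin c => φ (σ i.succ)) (by
      intro ψ
      obtain ⟨t, ht⟩ := huniv ψ
      refine ⟨Fin.cons (t i₀ * (↑w⁻¹ : S ⧸ I)) fun i : Fin c =>
        t (σ i.succ) - t i₀ * (↑w⁻¹ : S ⧸ I) * r (σ i.succ), fun x => ?_⟩
      rw [Fin.sum_univ_succ]
      simp only [Fin.cons_zero, Fin.cons_succ]
      rw [hψσ, ht x, ← Equiv.sum_comp σ, Fin.sum_univ_succ, hσ0]
      simp only [sub_mul, Finset.sum_sub_distrib, mul_add, Finset.mul_sum]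
      have h1 : t i₀ * (↑w⁻¹ : S ⧸ I) * (r i₀ * φ i₀ x) = t i₀ * φ i₀ x := by
        rw [← hw]
        calc t i₀ * (↑w⁻¹ : S ⧸ I) * (↑w * φ i₀ x) = t i₀ * (↑w⁻¹ * ↑w) * φ i₀ x := by ring
          _ = _ := by rw [Units.inv_mul, mul_one]
      rw [h1]
      have h2 : ∀ i : Fin c, t i₀ * (↑w⁻¹ : S ⧸ I) * r (σ i.succ) * φ (σ i.succ) x =
          t i₀ * (↑w⁻¹ : S ⧸ I) * (r (σ i.succ) * φ (σ i.succ) x) := fun i => by ring
      rw [Finset.sum_congr rfl fun i _ => h2 i]
      ring) (by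
      intro t ht
      have h1 := hindep (fun j => (Fin.cons (t 0 * r i₀)
          (fun i : Fin c => t i.succ + t 0 * r (σ i.succ)) : Fin (c + 1) → S ⧸ I) (σ.symm j))
        (fun x => by
          rw [← ht x, ← Equiv.sum_comp σ, Fin.sum_univ_succ, Fin.sum_univ_succ]
          simp only [Equiv.symm_apply_apply, Fin.cons_zero, Fin.cons_succ]
          rw [hψσ, hσ0]
          simp only [add_mul, Finset.sum_add_distrib, mul_add, Finset.mul_sum]
          have h2 : ∀ i : Fin c, t 0 * r (σ i.succ) * φ (σ i.succ) x =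
            t 0 * (r (σ i.succ) * φ (σ i.succ) x) := fun i => by ring
          rw [Finset.sum_congr rfl fun i _ => h2 i]
          ring)
      have h0 : t 0 = 0 := by
        have h2 := congrFun h1 (σ 0)
        simp only [Equiv.symm_apply_apply, Fin.cons_zero, Pi.zero_apply] at h2
        rw [← hw] at h2
        exact (Units.mul_left_eq_zero w).mp h2
      funext j
      refine Fin.cases h0 (fun i => ?_) j
      have h2 := congrFun h1 (σ i.succ)
      simp only [Equiv.symm_apply_apply, Fin.cons_succ, Pi.zero_apply] at h2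
      rw [h0, zero_mul, add_zero] at h2
      exact h2)
    have h1 := hker x
    rw [← hψ₀] at h1
    rw [Fin.cons_zero] at hx
    rw [hx, map_one] at h1
    exact one_ne_zero h1

/-- A perfect ideal with free normal module is generated by a regular sequence. -/
theorem exists_regularSeq_of_free_perfect (hI : I ≠ ⊤) (gs : List S)
    (hgs : IsWeaklyRegular S gs) (hmem : ∀ g ∈ gs, g ∈ I)
    (hpd : PD S (S ⧸ I) (gs.length + 1))
    (hfree : Module.Free (S ⧸ I) (RingHom.ker (algebraMap S (S ⧸ I)) →ₗ[S] (S ⧸ I))) :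
    ∃ rs : List S, IsRegular S rs ∧ Ideal.ofList rs = I := by
  have : Nontrivial (S ⧸ I) := Ideal.Quotient.nontrivial_iff.mpr hI
  have : IsLocalRing (S ⧸ I) :=
    IsLocalRing.of_surjective' (Ideal.Quotient.mk I) Ideal.Quotient.mk_surjective
  let K := RingHom.ker (algebraMap S (S ⧸ I))
  let e : I ≃ₗ[S] K := LinearEquiv.ofEq _ _ Ideal.mk_ker.symm
  have : Module.Finite (S ⧸ I) (K →ₗ[S] (S ⧸ I)) := finite_hom
  let b := Module.finBasis (S ⧸ I) (K →ₗ[S] (S ⧸ I))
  set c := Module.finrank (S ⧸ I) (K →ₗ[S] (S ⧸ I))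
  have hexp : ∀ ψ : K →ₗ[S] (S ⧸ I), ∀ x, ψ x = ∑ i, b.repr ψ i * b i x := by
    intro ψ x
    conv_lhs => rw [← b.sum_repr ψ]
    rw [LinearMap.sum_apply]
    rfl
  have huniv : ∀ ψ : I →ₗ[S] S ⧸ I, ∃ r : Fin c → S ⧸ I, ∀ x,
      ψ x = ∑ i, r i * ((b i).comp e.toLinearMap) x := by
    intro ψ
    refine ⟨b.repr (ψ.comp e.symm.toLinearMap), fun x => ?_⟩
    have := hexp (ψ.comp e.symm.toLinearMap) (e x)
    rw [LinearMap.comp_apply, LinearEquiv.coe_coe, LinearEquiv.symm_apply_apply] at this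
    exact this
  have hindep : ∀ r : Fin c → S ⧸ I, (∀ x, ∑ i, r i * ((b i).comp e.toLinearMap) x = 0) →
      r = 0 := by
    intro r hr
    have h1 : ∑ i, r i • b i = 0 := by
      ext x
      have := hr (e.symm x)
      rw [LinearMap.sum_apply, LinearMap.zero_apply, ← this]
      refine Finset.sum_congr rfl fun i _ => ?_
      rw [LinearMap.comp_apply, LinearEquiv.coe_coe, LinearEquiv.apply_symm_apply]
      rfl
    funext i
    exact Fintype.linearIndependent_iff.mp b.linearIndependent _ h1 i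
  have hc := length_le_rank I hI c _ huniv hindep gs hgs hmem
  have hpd' : PD S (S ⧸ I) (c + 1) := PD.mono hpd (by omega)
  obtain ⟨rs, h1, h2⟩ := exists_regularSeq_of_free_dual (R := S ⧸ I) c S
    Ideal.Quotient.mk_surjective _ hpd' (fun i => b i) (by
      intro v
      obtain ⟨x, hx⟩ := surjective_of_first I hI c (fun i => (b i).comp e.toLinearMap) huniv
        hindep (by
          intro n hn φ' h1 h2
          exact tor_surjective_zero I hI n (PD.mono hpd' (by omega)) φ' h1 h2) v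
      exact ⟨e x, hx⟩) (fun ψ => ⟨b.repr ψ, hexp ψ⟩)
  exact ⟨rs, h1, h2.trans Ideal.mk_ker⟩

end Families

end Pool.Agent.Helper19
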