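import Pool.Agent.Helper19.PdBasic

/-!
Existence of a free resolution of `S/I` of the right length, as a sequence of modules.
-/

universe u

open CategoryTheory Module IsLocalRing

namespace Pool.Agent.Helper19

section Cover

variable {S : Type u} [CommRing S] [IsLocalRing S] [IsNoetherianRing S]

omit [IsNoetherianRing S] in
/-- a finite free cover which is an isomorphism if the module is projective -/
lemma exists_good_cover (K : Type u) [AddCommGroup K] [Module S K] [Module.Finite S K] :
    ∃ (P : ModuleCat.{u} S) (π : P →ₗ[S] K), Module.Finite S P ∧ Module.Free S P ∧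
      Function.Surjective π ∧ (Module.Projective S K → Function.Injective π) := by
  by_cases h : Module.Projective S K
  · have : Module.Free S K := Module.free_of_flat_of_isLocalRing
    exact ⟨ModuleCat.of S K, LinearMap.id, ‹_›, this, fun x => ⟨x, rfl⟩, fun _ x y hxy => hxy⟩
  · obtain ⟨n, π, hπ, -⟩ := exists_minimal_cover (A := S) (X := K)
    exact ⟨ModuleCat.of S (Fin n → S), π, inferInstanceAs (Module.Finite S (Fin n → S)),
      inferInstanceAs (Module.Free S (Fin n → S)), hπ, fun h' => absurd h' h⟩

/-- the data of one stage of the resolution -/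
structure ResStage (S : Type u) [CommRing S] where
  P : ModuleCat.{u} S
  K : Submodule S P
  fin : Module.Finite S P
  free : Module.Free S P

/-- the next stage -/
lemma exists_next (X : ResStage.{u} S) : ∃ (Y : ResStage.{u} S) (d : Y.P →ₗ[S] X.P),
    LinearMap.range d = X.K ∧ Y.K = LinearMap.ker d ∧
      (Module.Projective S X.K → Y.K = ⊥) := by
  have := X.fin
  have : Module.Finite S X.K := inferInstance
  obtain ⟨P, π, h1, h2, h3, h4⟩ := exists_good_cover (S := S) X.K
  refine ⟨⟨P, LinearMap.ker (X.K.subtype ∘ₗ π), h1, h2⟩, X.K.subtype ∘ₗ π, ?_, rfl, fun h => ?_⟩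
  · rw [LinearMap.range_comp, LinearMap.range_eq_top.mpr h3, Submodule.map_top,
      Submodule.range_subtype]
  · change LinearMap.ker (X.K.subtype ∘ₗ π) = ⊥
    rw [LinearMap.ker_eq_bot]
    exact (Subtype.val_injective).comp (h4 h)

omit [IsLocalRing S] [IsNoetherianRing S] in
/-- the short exact sequence of one stage -/
lemma pd_stage {X Y : ResStage.{u} S} (d : Y.P →ₗ[S] X.P) (h1 : LinearMap.range d = X.K)
    (h2 : Y.K = LinearMap.ker d) (n : ℕ) (h : PD S X.K (n + 2)) : PD S Y.K (n + 1) := by
  have := Y.free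
  have hK : ∀ x, d x ∈ X.K := fun x => by rw [← h1]; exact ⟨x, rfl⟩
  have hinj : Function.Injective Y.K.subtype := Subtype.val_injective
  have hsurj : Function.Surjective (d.codRestrict X.K hK) := by
    rintro ⟨x, hx⟩
    rw [← h1] at hx
    obtain ⟨y, rfl⟩ := hx
    exact ⟨y, rfl⟩
  refine pd_ker hinj hsurj (fun y => ?_) h
  have : (d.codRestrict X.K hK) y = 0 ↔ y ∈ Y.K := by
    rw [h2, LinearMap.mem_ker]
    exact Subtype.ext_iff
  rw [this]
  simp

theorem exists_resolution (I : Ideal S) (n : ℕ) (hpd : PD S (S ⧸ I) (n + 2)) :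
    ∃ (F : ℕ → ModuleCat.{u} S) (d : ∀ j, F (j + 1) →ₗ[S] F j) (e : F 0 ≃ₗ[S] S),
      (∀ j, Module.Finite S (F j)) ∧ (∀ j, Module.Free S (F j)) ∧
      (∀ x, e x ∈ I → ∃ y, d 0 y = x) ∧ (∀ y, e (d 0 y) ∈ I) ∧
      (∀ j x, d j (d (j + 1) x) = 0) ∧ (∀ j x, d j x = 0 → ∃ y, d (j + 1) y = x) ∧
      Subsingleton (F (n + 2)) := by
  choose nx dd h1 h2 h3 using exists_next (S := S)
  let X0 : ResStage.{u} S := ⟨ModuleCat.of S S, I, inferInstanceAs (Module.Finite S S),
    inferInstanceAs (Module.Free S S)⟩
  let st : ℕ → ResStage.{u} S := fun j => Nat.rec X0 (fun _ X => nx X) j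
  have hst : ∀ j, st (j + 1) = nx (st j) := fun j => rfl
  have hpdK : ∀ j, j ≤ n → PD S (st j).K (n - j + 1) := by
    intro j
    induction j with
    | zero =>
      intro _
      have hinj : Function.Injective I.subtype := Subtype.val_injective
      have hex : Function.Exact I.subtype I.mkQ := by
        intro y
        rw [Submodule.mkQ_apply, Submodule.Quotient.mk_eq_zero]
        simp
      exact pd_ker hinj (Submodule.mkQ_surjective I) hex hpd
    | succ j ih =>
      intro hj
      have h4 := ih (by omega)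
      have h5 : n - j + 1 = n - (j + 1) + 2 := by omega
      rw [h5] at h4
      exact pd_stage (dd (st j)) (h1 _) (h2 _) _ h4
  have hK1 : (st (n + 1)).K = ⊥ := by
    apply h3
    apply projective_of_pd_one
    have := hpdK n le_rfl
    rwa [Nat.sub_self, zero_add] at this
  have hK2 : (st (n + 2)).K = ⊥ := by
    apply h3
    rw [hK1]
    infer_instance
  refine ⟨fun j => (st j).P, fun j => dd (st j), LinearEquiv.refl S S, fun j => (st j).fin,
    fun j => (st j).free, ?_, ?_, ?_, ?_, ?_⟩
  · intro x hx
    have : x ∈ LinearMap.range (dd (st 0)) := by rw [h1]; exact hx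
    exact this
  · intro y
    have : dd (st 0) y ∈ (st 0).K := by rw [← h1]; exact ⟨y, rfl⟩
    exact this
  · intro j x
    have : dd (st (j + 1)) x ∈ (st (j + 1)).K := by rw [← h1]; exact ⟨x, rfl⟩
    have h6 : (st (j + 1)).K = LinearMap.ker (dd (st j)) := h2 (st j)
    rw [h6] at this
    exact this
  · intro j x hx
    have : x ∈ LinearMap.range (dd (st (j + 1))) := by
      have h6 : (st (j + 1)).K = LinearMap.ker (dd (st j)) := h2 (st j)
      rw [h1, h6]
      exact hx
    exact this
  · refine ⟨fun a b => ?_⟩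
    have h4 : LinearMap.ker (dd (st (n + 1))) = ⊥ := by rw [← h2]; exact hK2
    apply LinearMap.ker_eq_bot.mp h4
    have h5 : ∀ x, dd (st (n + 1)) x = 0 := by
      intro x
      have : dd (st (n + 1)) x ∈ (st (n + 1)).K := by rw [← h1]; exact ⟨x, rfl⟩
      rw [hK1] at this
      exact (Submodule.mem_bot S).mp this
    rw [h5, h5]

end Cover

end Pool.Agent.Helper19
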