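import Pool.Agent.Helper19.TorOps
import Pool.Agent.Helper19.TorRes
import Pool.Agent.Helper19.DualAnn

/-!
The main computation with the operators on a free resolution.
-/

universe u

open CategoryTheory Module

namespace Pool.Agent.Helper19

lemma map_smul_top {S : Type u} [CommRing S] {I : Ideal S} {M N : Type u} [AddCommGroup M]
    [Module S M] [AddCommGroup N] [Module S N] (L : M →ₗ[S] N) {x : M}
    (hx : x ∈ I • (⊤ : Submodule S M)) : L x ∈ I • (⊤ : Submodule S N) := by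
  have := Submodule.mem_map_of_mem (f := L) hx
  rw [Submodule.map_smul''] at this
  exact Submodule.smul_mono le_rfl le_top this

section Main

variable {S : Type u} [CommRing S] (I : Ideal S) {F : ℕ → ModuleCat.{u} S}
  (d : ∀ j, F (j + 1) →ₗ[S] F j) (e : F 0 ≃ₗ[S] S)

/-- boundaries modulo `I` -/
def bdy (j : ℕ) : Submodule S (F j) := LinearMap.range (d j) ⊔ I • ⊤

/-- cycles modulo `I` -/
def cyc : ∀ j, Submodule S (F j)
  | 0 => ⊤
  | j + 1 => (I • ⊤ : Submodule S (F j)).comap (d j)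

/-- homotopies for `f` -/
structure SOp (f : S) where
  s : ∀ j, F j →ₗ[S] F (j + 1)
  h0 : ∀ x, d 0 (s 0 x) = f • x
  hs : ∀ j x, d (j + 1) (s (j + 1) x) = f • x - s j (d j x)

/-- lifts of `φ` -/
structure TOp (hd0' : ∀ y, e (d 0 y) ∈ I) (φ : I →ₗ[S] S ⧸ I) where
  θ : ∀ j, F (j + 1) →ₗ[S] F j
  h0 : ∀ x, Ideal.Quotient.mk I (e (θ 0 x)) = φ ⟨e (d 0 x), hd0' x⟩
  hθ : ∀ j x, d j (θ (j + 1) x) = - θ j (d (j + 1) x)

variable {I d e}

lemma smul_top_le_bdy {j : ℕ} {x : F j} (hx : x ∈ I • (⊤ : Submodule S (F j))) :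
    x ∈ bdy I d j := Submodule.mem_sup_right hx

lemma SOp.bdy {f : S} (hf : f ∈ I) (A : SOp d f) {j : ℕ} {x : F j} (hx : x ∈ bdy I d j) :
    A.s j x ∈ Pool.Agent.Helper19.bdy I d (j + 1) := by
  obtain ⟨y, ⟨x', rfl⟩, z, hz, rfl⟩ := Submodule.mem_sup.mp hx
  rw [map_add]
  refine Submodule.add_mem _ ?_ (smul_top_le_bdy (map_smul_top _ hz))
  have h1 : A.s j (d j x') = f • x' - d (j + 1) (A.s (j + 1) x') := by
    rw [A.hs]; abel
  rw [h1]
  exact Submodule.sub_mem _ (smul_top_le_bdy (Submodule.smul_mem_smul hf trivial))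
    (Submodule.mem_sup_left ⟨_, rfl⟩)

lemma SOp.cyc {f : S} (hf : f ∈ I) (A : SOp d f) {j : ℕ} {x : F j} (hx : x ∈ cyc I d j) :
    A.s j x ∈ Pool.Agent.Helper19.cyc I d (j + 1) := by
  change d j (A.s j x) ∈ I • (⊤ : Submodule S (F j))
  match j, x, hx with
  | 0, x, _ =>
    rw [A.h0]
    exact Submodule.smul_mem_smul hf trivial
  | j + 1, x, hx =>
    rw [A.hs]
    exact Submodule.sub_mem _ (Submodule.smul_mem_smul hf trivial) (map_smul_top _ hx)

lemma TOp.bdy {hd0' : ∀ y, e (d 0 y) ∈ I} {φ : I →ₗ[S] S ⧸ I} (T : TOp I d e hd0' φ) {j : ℕ}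
    {x : F (j + 1)} (hx : x ∈ bdy I d (j + 1)) :
    T.θ j x ∈ Pool.Agent.Helper19.bdy I d j := by
  obtain ⟨y, ⟨x', rfl⟩, z, hz, rfl⟩ := Submodule.mem_sup.mp hx
  rw [map_add]
  refine Submodule.add_mem _ ?_ (smul_top_le_bdy (map_smul_top _ hz))
  have h1 : T.θ j (d (j + 1) x') = - d j (T.θ (j + 1) x') := by
    rw [T.hθ]; abel
  rw [h1]
  exact Submodule.neg_mem _ (Submodule.mem_sup_left ⟨_, rfl⟩)

lemma TOp.cyc {hd0' : ∀ y, e (d 0 y) ∈ I} {φ : I →ₗ[S] S ⧸ I} (T : TOp I d e hd0' φ) {j : ℕ}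
    {x : F (j + 1)} (hx : x ∈ cyc I d (j + 1)) :
    T.θ j x ∈ Pool.Agent.Helper19.cyc I d j := by
  match j, x, hx with
  | 0, x, _ => trivial
  | j + 1, x, hx =>
    change d j (T.θ (j + 1) x) ∈ I • (⊤ : Submodule S (F j))
    rw [T.hθ]
    exact Submodule.neg_mem _ (map_smul_top _ hx)

lemma exists_SOp [∀ j, Module.Projective S (F j)]
    (hd0 : ∀ x : F 0, e x ∈ I → ∃ y, d 0 y = x) (hdd : ∀ j x, d j (d (j + 1) x) = 0)
    (hex : ∀ j x, d j x = 0 → ∃ y, d (j + 1) y = x) (f : S) (hf : f ∈ I) : Nonempty (SOp d f) := by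
  obtain ⟨s, h0, hs⟩ := exists_homotopy d e hd0 hdd hex f hf
  exact ⟨⟨s, h0, hs⟩⟩

lemma exists_TOp [∀ j, Module.Projective S (F j)]
    (hd0 : ∀ x : F 0, e x ∈ I → ∃ y, d 0 y = x) (hd0' : ∀ y, e (d 0 y) ∈ I)
    (hdd : ∀ j x, d j (d (j + 1) x) = 0)
    (hex : ∀ j x, d j x = 0 → ∃ y, d (j + 1) y = x) (φ : I →ₗ[S] S ⧸ I) :
    Nonempty (TOp I d e hd0' φ) := by
  obtain ⟨s, h0, hs⟩ := exists_degree_neg_one d e hd0 hd0' hdd hex φ
  exact ⟨⟨s, h0, hs⟩⟩

lemma cliff_zero [∀ j, Module.Projective S (F j)]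
    (hd0 : ∀ x : F 0, e x ∈ I → ∃ y, d 0 y = x) (hd0' : ∀ y, e (d 0 y) ∈ I)
    (hdd : ∀ j x, d j (d (j + 1) x) = 0)
    (hex : ∀ j x, d j x = 0 → ∃ y, d (j + 1) y = x) {φ : I →ₗ[S] S ⧸ I}
    (T : TOp I d e hd0' φ) {f : I} (A : SOp d (f : S)) {g : S}
    (hg : φ f = Ideal.Quotient.mk I g) (x : F 0) :
    T.θ 0 (A.s 0 x) - g • x ∈ bdy I d 0 := by
  obtain ⟨h, h0, -⟩ := exists_clifford d e hd0 hd0' hdd hex φ f f.2 A.s A.h0 A.hs T.θ T.h0 T.hθ g
    hg.symm
  rw [← h0]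
  exact Submodule.mem_sup_left ⟨_, rfl⟩

lemma cliff_succ [∀ j, Module.Projective S (F j)]
    (hd0 : ∀ x : F 0, e x ∈ I → ∃ y, d 0 y = x) (hd0' : ∀ y, e (d 0 y) ∈ I)
    (hdd : ∀ j x, d j (d (j + 1) x) = 0)
    (hex : ∀ j x, d j x = 0 → ∃ y, d (j + 1) y = x) {φ : I →ₗ[S] S ⧸ I}
    (T : TOp I d e hd0' φ) {f : I} (A : SOp d (f : S)) {g : S}
    (hg : φ f = Ideal.Quotient.mk I g) (j : ℕ) (x : F (j + 1)) (hx : x ∈ cyc I d (j + 1)) :
    T.θ (j + 1) (A.s (j + 1) x) + A.s j (T.θ j x) - g • x ∈ bdy I d (j + 1) := by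
  obtain ⟨h, -, hh⟩ := exists_clifford d e hd0 hd0' hdd hex φ f f.2 A.s A.h0 A.hs T.θ T.h0 T.hθ g
    hg.symm
  have h1 : T.θ (j + 1) (A.s (j + 1) x) + A.s j (T.θ j x) - g • x =
      d (j + 1) (h (j + 1) x) + h j (d j x) := by
    rw [hh]; abel
  rw [h1]
  exact Submodule.add_mem _ (Submodule.mem_sup_left ⟨_, rfl⟩)
    (smul_top_le_bdy (map_smul_top _ hx))

/-- the products `s^(f_{k-1}) ⋯ s^(f_0) u` -/
def XX (u : F 0) {f : ℕ → S} (A : ∀ k, SOp d (f k)) : ∀ k, F k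
  | 0 => u
  | k + 1 => (A k).s k (XX u A k)

/-- the products of the operators of degree `-1` -/
def PP {hd0' : ∀ y, e (d 0 y) ∈ I} {φ : ℕ → (I →ₗ[S] S ⧸ I)} (T : ∀ i, TOp I d e hd0' (φ i)) :
    ∀ k, F k →ₗ[S] F 0
  | 0 => LinearMap.id
  | k + 1 => PP T k ∘ₗ (T k).θ k

lemma XX_cyc (u : F 0) {f : ℕ → S} (hf : ∀ k, f k ∈ I) (A : ∀ k, SOp d (f k)) (k : ℕ) :
    XX u A k ∈ cyc I d k := by
  induction k with
  | zero => trivial
  | succ k ih => exact (A k).cyc (hf k) ih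

lemma PP_bdy {hd0' : ∀ y, e (d 0 y) ∈ I} {φ : ℕ → (I →ₗ[S] S ⧸ I)}
    (T : ∀ i, TOp I d e hd0' (φ i)) (k : ℕ) {x : F k} (hx : x ∈ bdy I d k) :
    PP T k x ∈ bdy I d 0 := by
  induction k with
  | zero => exact hx
  | succ k ih => exact ih ((T k).bdy hx)

lemma PP_eq {hd0' : ∀ y, e (d 0 y) ∈ I} {φ : ℕ → (I →ₗ[S] S ⧸ I)}
    (T : ∀ i, TOp I d e hd0' (φ i)) (k : ℕ) (x : F (k + 1)) :
    ∃ y : F 1, PP T (k + 1) x = (T 0).θ 0 y := by
  induction k with
  | zero => exact ⟨x, rfl⟩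
  | succ k ih => exact ih ((T (k + 1)).θ (k + 1) x)

/-- claim (B) -/
lemma XX_contract [∀ j, Module.Projective S (F j)]
    (hd0 : ∀ x : F 0, e x ∈ I → ∃ y, d 0 y = x) (hd0' : ∀ y, e (d 0 y) ∈ I)
    (hdd : ∀ j x, d j (d (j + 1) x) = 0)
    (hex : ∀ j x, d j x = 0 → ∃ y, d (j + 1) y = x) {φ : ℕ → (I →ₗ[S] S ⧸ I)}
    (T : ∀ i, TOp I d e hd0' (φ i)) (f : ℕ → I) (A : ∀ k, SOp d (f k : S)) (u : F 0) (a : S)
    (c : ℕ) (hf : ∀ i k, i < c → k < c → φ i (f k) = if i = k then Ideal.Quotient.mk I a else 0)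
    (k : ℕ) : ∀ i, k ≤ i → i < c →
      (T i).θ k (XX u A (k + 1)) - (if i = k then a else 0) • XX u A k ∈ bdy I d k := by
  induction k with
  | zero =>
    intro i _ hi
    refine cliff_zero hd0 hd0' hdd hex (T i) (A 0) ?_ u
    rw [hf i 0 hi (by omega)]
    split_ifs
    · rfl
    · rw [map_zero]
  | succ k ih =>
    intro i hki hi
    have h1 := cliff_succ hd0 hd0' hdd hex (T i) (A (k + 1)) (g := if i = k + 1 then a else 0)
      (by
        rw [hf i (k + 1) hi (by omega)]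
        split_ifs
        · rfl
        · rw [map_zero]) k (XX u A (k + 1)) (XX_cyc u (fun j => (f j).2) A (k + 1))
    have h2 := ih i (by omega) hi
    rw [if_neg (by omega : ¬ i = k), zero_smul, sub_zero] at h2
    have h3 := (A (k + 1)).bdy (f (k + 1)).2 h2
    have h4 : (T i).θ (k + 1) (XX u A (k + 1 + 1)) -
        (if i = k + 1 then a else 0) • XX u A (k + 1) =
        ((T i).θ (k + 1) ((A (k + 1)).s (k + 1) (XX u A (k + 1))) +
          (A (k + 1)).s k ((T i).θ k (XX u A (k + 1))) -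
          (if i = k + 1 then a else 0) • XX u A (k + 1)) -
        (A (k + 1)).s k ((T i).θ k (XX u A (k + 1))) := by
      change (T i).θ (k + 1) ((A (k + 1)).s (k + 1) (XX u A (k + 1))) - _ = _
      abel
    rw [h4]
    exact Submodule.sub_mem _ h1 h3

lemma PP_XX [∀ j, Module.Projective S (F j)]
    (hd0 : ∀ x : F 0, e x ∈ I → ∃ y, d 0 y = x) (hd0' : ∀ y, e (d 0 y) ∈ I)
    (hdd : ∀ j x, d j (d (j + 1) x) = 0)
    (hex : ∀ j x, d j x = 0 → ∃ y, d (j + 1) y = x) {φ : ℕ → (I →ₗ[S] S ⧸ I)}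
    (T : ∀ i, TOp I d e hd0' (φ i)) (f : ℕ → I) (A : ∀ k, SOp d (f k : S)) (u : F 0) (a : S)
    (c : ℕ) (hf : ∀ i k, i < c → k < c → φ i (f k) = if i = k then Ideal.Quotient.mk I a else 0)
    (k : ℕ) (hk : k ≤ c) : PP T k (XX u A k) - a ^ k • u ∈ bdy I d 0 := by
  induction k with
  | zero =>
    change u - a ^ 0 • u ∈ _
    rw [pow_zero, one_smul, sub_self]
    exact Submodule.zero_mem _
  | succ k ih =>
    have h1 := PP_bdy T k (XX_contract hd0 hd0' hdd hex T f A u a c hf k k le_rfl (by omega))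
    rw [if_pos rfl, map_sub, map_smul] at h1
    have h2 := Submodule.smul_mem _ a (ih (by omega))
    have h3 : PP T (k + 1) (XX u A (k + 1)) - a ^ (k + 1) • u =
        (PP T k ((T k).θ k (XX u A (k + 1))) - a • PP T k (XX u A k)) +
        a • (PP T k (XX u A k) - a ^ k • u) := by
      change PP T k ((T k).θ k (XX u A (k + 1))) - a ^ (k + 1) • u = _
      rw [smul_sub, smul_smul, ← pow_succ']
      abel
    rw [h3]
    exact Submodule.add_mem _ h1 h2

/-- claim (A') -/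
lemma pow_smul_sub [∀ j, Module.Projective S (F j)]
    (hd0 : ∀ x : F 0, e x ∈ I → ∃ y, d 0 y = x) (hd0' : ∀ y, e (d 0 y) ∈ I)
    (hdd : ∀ j x, d j (d (j + 1) x) = 0)
    (hex : ∀ j x, d j x = 0 → ∃ y, d (j + 1) y = x) {φ : ℕ → (I →ₗ[S] S ⧸ I)}
    (T : ∀ i, TOp I d e hd0' (φ i)) (f : ℕ → I) (A : ∀ k, SOp d (f k : S)) (a : S)
    (c : ℕ) (hf : ∀ i k, i < c → k < c → φ i (f k) = if i = k then Ideal.Quotient.mk I a else 0)
    (k : ℕ) (hk : k ≤ c) : ∀ y : F k, y ∈ cyc I d k →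
      (∀ j < k, (A j).s k y ∈ bdy I d (k + 1)) →
      a ^ k • y - e (PP T k y) • XX (e.symm 1) A k ∈ bdy I d k := by
  induction k with
  | zero =>
    intro y _ _
    have : a ^ 0 • y - e (PP T 0 y) • XX (e.symm 1) A 0 = 0 := by
      change a ^ 0 • y - e y • e.symm 1 = 0
      rw [pow_zero, one_smul, ← map_smul, smul_eq_mul, mul_one, LinearEquiv.symm_apply_apply,
        sub_self]
    rw [this]
    exact Submodule.zero_mem _
  | succ k ih =>
    intro y hy hs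
    have hcl : ∀ j < k + 1, (A j).s k ((T k).θ k y) - (if k = j then a else 0) • y ∈
        bdy I d (k + 1) := by
      intro j hj
      have h1 := cliff_succ hd0 hd0' hdd hex (T k) (A j) (g := if k = j then a else 0)
        (by
          rw [hf k j (by omega) (by omega)]
          split_ifs
          · rfl
          · rw [map_zero]) k y hy
      have h2 := (T k).bdy (hs j hj)
      have h3 : (A j).s k ((T k).θ k y) - (if k = j then a else 0) • y =
          ((T k).θ (k + 1) ((A j).s (k + 1) y) + (A j).s k ((T k).θ k y) -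
            (if k = j then a else 0) • y) - (T k).θ (k + 1) ((A j).s (k + 1) y) := by abel
      rw [h3]
      exact Submodule.sub_mem _ h1 h2
    have h4 := ih (by omega) ((T k).θ k y) ((T k).cyc hy) (by
      intro j hj
      have := hcl j (by omega)
      rwa [if_neg (by omega : ¬ k = j), zero_smul, sub_zero] at this)
    have h5 := (A k).bdy (f k).2 h4
    have h6 := hcl k (by omega)
    rw [if_pos rfl] at h6
    rw [map_sub, map_smul, map_smul] at h5
    have h7 : a ^ (k + 1) • y - e (PP T (k + 1) y) • XX (e.symm 1) A (k + 1) =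
        (a ^ k • (A k).s k ((T k).θ k y) -
          e (PP T k ((T k).θ k y)) • (A k).s k (XX (e.symm 1) A k)) -
        a ^ k • ((A k).s k ((T k).θ k y) - a • y) := by
      change a ^ (k + 1) • y - e (PP T k ((T k).θ k y)) • (A k).s k (XX (e.symm 1) A k) = _
      rw [smul_sub, smul_smul, ← pow_succ]
      abel
    rw [h7]
    exact Submodule.sub_mem _ h5 (Submodule.smul_mem _ _ h6)

lemma bdy_zero (hd0' : ∀ y, e (d 0 y) ∈ I) {x : F 0} (hx : x ∈ bdy I d 0) : e x ∈ I := by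
  obtain ⟨y, ⟨x', rfl⟩, z, hz, rfl⟩ := Submodule.mem_sup.mp hx
  rw [map_add]
  refine I.add_mem (hd0' x') ?_
  have h1 := map_smul_top (e : F 0 →ₗ[S] S) hz
  rwa [smul_eq_mul, Ideal.mul_top] at h1

lemma bdy_of_subsingleton {j : ℕ} (h : Subsingleton (F (j + 1))) {x : F j}
    (hx : x ∈ bdy I d j) : x ∈ I • (⊤ : Submodule S (F j)) := by
  obtain ⟨y, ⟨x', rfl⟩, z, hz, rfl⟩ := Submodule.mem_sup.mp hx
  rw [Subsingleton.elim x' 0, map_zero, zero_add]
  exact hz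

theorem tor_key [∀ j, Module.Free S (F j)] [∀ j, Module.Finite S (F j)]
    (hd0 : ∀ x : F 0, e x ∈ I → ∃ y, d 0 y = x) (hd0' : ∀ y, e (d 0 y) ∈ I)
    (hdd : ∀ j x, d j (d (j + 1) x) = 0)
    (hex : ∀ j x, d j x = 0 → ∃ y, d (j + 1) y = x) (n : ℕ) (hF : Subsingleton (F (n + 2)))
    (φ : ℕ → (I →ₗ[S] S ⧸ I)) (a b : S) (ha : ∀ u, a * u ∈ I → u ∈ I)
    (hb : ∀ u, b * u ∈ I ⊔ Ideal.span {a} → u ∈ I ⊔ Ideal.span {a}) (f g : ℕ → I)
    (hf : ∀ i k, i < n + 1 → k < n + 1 → φ i (f k) = if i = k then Ideal.Quotient.mk I a else 0)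
    (hg : ∀ i k, i < n + 1 → k < n + 1 → φ i (g k) = if i = k then Ideal.Quotient.mk I b else 0) :
    ∃ x : I, φ 0 x = 1 := by
  classical
  have hproj : ∀ j, Module.Projective S (F j) := fun j => inferInstance
  let T : ∀ i, TOp I d e hd0' (φ i) := fun i => (exists_TOp hd0 hd0' hdd hex (φ i)).some
  let A : ∀ k, SOp d (f k : S) := fun k => (exists_SOp hd0 hdd hex (f k : S) (f k).2).some
  let B : ∀ k, SOp d (g k : S) := fun k => (exists_SOp hd0 hdd hex (g k : S) (g k).2).some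
  set u := XX (e.symm 1) A (n + 1) with hu
  set v := XX (e.symm 1) B (n + 1) with hv
  have h1 : a ^ (n + 1) • v - e (PP T (n + 1) v) • u ∈ I • (⊤ : Submodule S (F (n + 1))) := by
    refine bdy_of_subsingleton hF (d := d) ?_
    refine pow_smul_sub hd0 hd0' hdd hex T f A a (n + 1) hf (n + 1) le_rfl v
      (XX_cyc _ (fun j => (g j).2) B _) (fun j _ => ?_)
    have : (A j).s (n + 1) v = 0 := Subsingleton.elim (h := hF) _ _
    rw [this]
    exact Submodule.zero_mem _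
  have h2 : e (PP T (n + 1) v) - b ^ (n + 1) ∈ I := by
    have := bdy_zero hd0' (PP_XX hd0 hd0' hdd hex T g B (e.symm 1) b (n + 1) hg (n + 1) le_rfl)
    rwa [map_sub, map_smul, LinearEquiv.apply_symm_apply, smul_eq_mul, mul_one] at this
  have h2' : e (PP T (n + 1) u) - a ^ (n + 1) ∈ I := by
    have := bdy_zero hd0' (PP_XX hd0 hd0' hdd hex T f A (e.symm 1) a (n + 1) hf (n + 1) le_rfl)
    rwa [map_sub, map_smul, LinearEquiv.apply_symm_apply, smul_eq_mul, mul_one] at this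
  have h3 : a ^ (n + 1) • v - b ^ (n + 1) • u ∈ I • (⊤ : Submodule S (F (n + 1))) := by
    have h4 : a ^ (n + 1) • v - b ^ (n + 1) • u =
        (a ^ (n + 1) • v - e (PP T (n + 1) v) • u) + (e (PP T (n + 1) v) - b ^ (n + 1)) • u := by
      rw [sub_smul]; abel
    rw [h4]
    exact Submodule.add_mem _ h1 (Submodule.smul_mem_smul h2 trivial)
  let β := Module.Free.chooseBasis S (F (n + 1))
  have h5 : ∀ i, ∃ t, β.repr u i - t * a ^ (n + 1) ∈ I := by
    intro i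
    have h6 := map_smul_top (β.coord i) h3
    rw [smul_eq_mul, Ideal.mul_top, map_sub, map_smul, map_smul, smul_eq_mul, smul_eq_mul,
      Basis.coord_apply, Basis.coord_apply] at h6
    have h7 : β.repr u i ∈ I ⊔ Ideal.span {a ^ (n + 1)} := by
      apply pow_reg_pair' ha hb (n + 1) (n + 1)
      have : b ^ (n + 1) * β.repr u i =
          -(a ^ (n + 1) * β.repr v i - b ^ (n + 1) * β.repr u i) + β.repr v i * a ^ (n + 1) := by
        ring
      rw [this]
      exact Ideal.add_mem _ (Ideal.mem_sup_left (I.neg_mem h6))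
        (Ideal.mem_sup_right (Ideal.mul_mem_left _ _ (Ideal.mem_span_singleton_self _)))
    obtain ⟨x, hx, y, hy, hxy⟩ := Submodule.mem_sup.mp h7
    obtain ⟨t, rfl⟩ := Ideal.mem_span_singleton'.mp hy
    refine ⟨t, ?_⟩
    rw [← hxy, add_sub_cancel_right]
    exact hx
  choose t ht using h5
  let η : F (n + 1) := ∑ i, t i • β i
  have h8 : u - a ^ (n + 1) • η ∈ I • (⊤ : Submodule S (F (n + 1))) := by
    have : u - a ^ (n + 1) • η = ∑ i, (β.repr u i - t i * a ^ (n + 1)) • β i := by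
      simp only [sub_smul, Finset.sum_sub_distrib, η, Finset.smul_sum, smul_smul]
      rw [β.sum_repr u]
      congr 1
      exact Finset.sum_congr rfl fun i _ => by rw [mul_comm]
    rw [this]
    exact Submodule.sum_mem _ fun i _ => Submodule.smul_mem_smul (ht i) trivial
  have h9 : e (PP T (n + 1) u) - a ^ (n + 1) * e (PP T (n + 1) η) ∈ I := by
    have := map_smul_top ((e : F 0 →ₗ[S] S) ∘ₗ PP T (n + 1)) h8
    rw [smul_eq_mul, Ideal.mul_top, map_sub, map_smul] at this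
    exact this
  have h10 : e (PP T (n + 1) η) - 1 ∈ I := by
    apply pow_reg ha (n + 1)
    have : a ^ (n + 1) * (e (PP T (n + 1) η) - 1) =
        (e (PP T (n + 1) u) - a ^ (n + 1)) -
          (e (PP T (n + 1) u) - a ^ (n + 1) * e (PP T (n + 1) η)) := by ring
    rw [this]
    exact I.sub_mem h2' h9
  obtain ⟨y, hy⟩ := PP_eq T n η
  refine ⟨⟨e (d 0 y), hd0' y⟩, ?_⟩
  rw [← (T 0).h0, ← hy]
  exact Ideal.Quotient.eq.mpr h10

end Main

end Pool.Agent.Helper19
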