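import Pool.Agent.Helper19.EvalData

/-!
Depth of `R` two, `N` torsion of projective dimension at most one.
-/

universe u

open CategoryTheory Abelian IsLocalRing Module TensorProduct Pointwise RingTheory.Sequence

namespace Pool.Agent.Helper19

section Detecting

variable {R : Type u} [CommRing R] [IsLocalRing R]

/-- a family of functionals which detects units detects every ideal -/
lemma mem_of_detecting {b : ℕ} {ι : Type u} (Λ : ι → ((Fin b → R) →ₗ[R] R))
    (h : ∀ t : Fin b → R, (∀ i, Λ i t ∈ maximalIdeal R) → ∀ k, t k ∈ maximalIdeal R)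
    (𝔞 : Ideal R) (t : Fin b → R) (ht : ∀ i, Λ i t ∈ 𝔞) (k : Fin b) : t k ∈ 𝔞 := by
  classical
  let X := (Fin b → R) →ₗ[R] R
  let W : Submodule R X := Submodule.span R (Set.range Λ)
  have hfin : Module.Finite R X := inferInstance
  have hsub : Subsingleton (X ⧸ W) := by
    apply subsingleton_of_hom_residue (A := R)
    intro φ
    let φ' : X →ₗ[R] ResidueField R := φ ∘ₗ W.mkQ
    choose s hs using fun i : Fin b => residue_surjective (φ' (LinearMap.proj i))
    have h1 : ∀ ψ : X, φ' ψ = residue R (ψ s) := by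
      intro ψ
      have h2 : ψ = ∑ i, ψ (Pi.single i 1) • (LinearMap.proj i : (Fin b → R) →ₗ[R] R) := by
        refine LinearMap.ext fun v => ?_
        rw [pi_eq_sum_smul_single ψ v, LinearMap.sum_apply]
        refine Finset.sum_congr rfl fun i _ => ?_
        rw [LinearMap.smul_apply, LinearMap.proj_apply, smul_eq_mul, smul_eq_mul, mul_comm]
      conv_lhs => rw [h2]
      rw [map_sum, pi_eq_sum_smul_single ψ s, map_sum]
      refine Finset.sum_congr rfl fun i _ => ?_
      rw [map_smul, ← hs i, smul_eq_mul, map_mul, Algebra.smul_def, mul_comm]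
      rfl
    have h3 : ∀ i, Λ i s ∈ maximalIdeal R := by
      intro i
      rw [← residue_eq_zero_iff, ← h1]
      change φ (W.mkQ (Λ i)) = 0
      rw [Submodule.mkQ_apply, (Submodule.Quotient.mk_eq_zero W).mpr
        (Submodule.subset_span ⟨i, rfl⟩), map_zero]
    have h4 := h s h3
    apply LinearMap.ext
    intro w
    obtain ⟨ψ, rfl⟩ := Submodule.mkQ_surjective W w
    change φ' ψ = 0
    rw [h1, residue_eq_zero_iff, pi_eq_sum_smul_single ψ s]
    exact Ideal.sum_mem _ fun i _ => Ideal.mul_mem_right _ _ (h4 i)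
  have htop : (LinearMap.proj k : (Fin b → R) →ₗ[R] R) ∈ W := by
    rw [← Submodule.Quotient.mk_eq_zero W]
    exact Subsingleton.elim _ _
  have h5 : ∀ ψ ∈ W, ψ t ∈ 𝔞 := by
    intro ψ hψ
    induction hψ using Submodule.span_induction with
    | mem ψ hψ =>
      obtain ⟨i, rfl⟩ := hψ
      exact ht i
    | zero => exact 𝔞.zero_mem
    | add a b _ _ ha hb => exact 𝔞.add_mem ha hb
    | smul r a _ ha => exact 𝔞.mul_mem_left _ ha
  exact h5 _ htop

end Detecting

section Torsion

variable {R : Type u} [CommRing R] [IsLocalRing R] [IsNoetherianRing R]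
variable {Q : Type u} [CommRing Q] [IsLocalRing Q] [IsNoetherianRing Q] [Algebra Q R]
variable {N : Type u} [AddCommGroup N] [Module R N] [Module Q N] [IsScalarTower Q R N]

omit [IsNoetherianRing R] [IsNoetherianRing Q] [IsLocalRing Q] in
/-- the entries of `M e` -/
lemma exists_entry_functionals {a b a' b' : ℕ} {πN : (Fin a → R) →ₗ[R] N}
    {BN : (Fin b → R) →ₗ[R] (Fin a → R)}
    {πP : (Fin a' → R) →ₗ[R] (RingHom.ker (algebraMap Q R) →ₗ[Q] N)}
    {BP : (Fin b' → R) →ₗ[R] (Fin a' → R)} (D : EvalData πN BN πP BP)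
    (hPmin : ∀ v i, BP v i ∈ maximalIdeal R) :
    ∃ μ : Fin (b' * b) → (D.E →ₗ[Q] R), (∀ k v, μ k (D.j v) ∈ maximalIdeal R) ∧
      ∀ e, (∀ k, μ k e ∈ maximalIdeal R) → ∀ t i, D.M e t i ∈ maximalIdeal R := by
  let μ : Fin (b' * b) → (D.E →ₗ[Q] R) := fun k =>
    { toFun := fun e => D.M e (Pi.single (finProdFinEquiv.symm k).1 1) (finProdFinEquiv.symm k).2
      map_add' := fun e e' => by rw [map_add]; rfl
      map_smul' := fun c e => by rw [map_smul]; rfl }
  have hμ : ∀ e (i : Fin b') (l : Fin b), μ (finProdFinEquiv (i, l)) e =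
      D.M e (Pi.single i 1) l := by
    intro e i l
    change D.M e (Pi.single (finProdFinEquiv.symm (finProdFinEquiv (i, l))).1 1)
      (finProdFinEquiv.symm (finProdFinEquiv (i, l))).2 = _
    rw [Equiv.symm_apply_apply]
  refine ⟨μ, ?_, ?_⟩
  · intro k v
    change D.M (D.j v) _ _ ∈ _
    obtain ⟨h, -, hM⟩ := D.hjL v
    rw [hM]
    exact map_mem_maximal _ _ _ (hPmin _) _
  · intro e he t i
    rw [pi_eq_sum_smul_single (D.M e) t, Finset.sum_apply]
    refine Ideal.sum_mem _ fun k _ => ?_
    rw [Pi.smul_apply, smul_eq_mul]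
    apply Ideal.mul_mem_left
    rw [← hμ]
    exact he _

/-- `N` torsion, of projective dimension at most one. -/
theorem exists_regularSeq_of_torsion (hs : Function.Surjective (algebraMap Q R))
    (n : ℕ) (hpd : PD Q R n) [Module.Finite R N] [Nontrivial N]
    {a b a' b' : ℕ} {πN : (Fin a → R) →ₗ[R] N}
    {BN : (Fin b → R) →ₗ[R] (Fin a → R)}
    {πP : (Fin a' → R) →ₗ[R] (RingHom.ker (algebraMap Q R) →ₗ[Q] N)}
    {BP : (Fin b' → R) →ₗ[R] (Fin a' → R)} (D : EvalData πN BN πP BP)
    (hBinj : Function.Injective BN) (hBex : Function.Exact BN πN)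
    (hπP : Function.Surjective πP) (hPinj : Function.Injective BP)
    (hPex : Function.Exact BP πP) (hPmin : ∀ v i, BP v i ∈ maximalIdeal R)
    {x y z : R} (hxy : RegPair x y) (hxN : IsSMulRegular N x)
    (hz : ¬ ∃ s t, z = x * s + y * t)
    (hmz : ∀ r ∈ maximalIdeal R, ∃ s t, r * z = x * s + y * t)
    (a₀ : R) (ha₀ : IsSMulRegular R a₀) (haN : ∀ v : N, a₀ • v = 0) :
    ∃ rs : List Q, IsRegular Q rs ∧ Ideal.ofList rs = RingHom.ker (algebraMap Q R) := by
  obtain ⟨μ, hμj, hμ⟩ := exists_entry_functionals D hPmin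
  let p : D.E →ₗ[Q] Q := (RingHom.ker (algebraMap Q R)).subtype ∘ₗ D.f
  have hp : ∀ e, p e = (D.f e : Q) := fun e => rfl
  have hprange : LinearMap.range p = RingHom.ker (algebraMap Q R) := by
    ext y
    constructor
    · rintro ⟨e, rfl⟩
      exact (D.f e).2
    · intro hy
      obtain ⟨e, he⟩ := D.hf ⟨y, hy⟩
      exact ⟨e, by rw [hp, he]⟩
  have hjp : LinearMap.range D.j = LinearMap.ker p := by
    rw [D.hjf]
    ext e
    rw [LinearMap.mem_ker, LinearMap.mem_ker, hp]
    exact ⟨fun h => by rw [h]; rfl, fun h => Subtype.ext h⟩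
  obtain ⟨Q', i1, i2, i3, i4, π, hπ, hπR, rs, n', hrs, hspan, hpd', -, hd⟩ :=
    partial_detect (b' * b) Q hs n (PD.mono hpd (by omega)) D.E p hprange D.hcomm D.q 0 D.j 0
      (Function.injective_of_subsingleton _) (by
        intro v
        constructor
        · intro hv
          exact ⟨0, by rw [map_zero]; exact (D.hj (by rw [hv, map_zero])).symm⟩
        · rintro ⟨w, rfl⟩
          rw [LinearMap.zero_apply, map_zero]) hjp μ hμj
  refine ⟨rs, hrs, ?_⟩
  have hs' : Function.Surjective (algebraMap Q' R) := by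
    intro r
    obtain ⟨q, rfl⟩ := hs r
    exact ⟨π q, hπR q⟩
  let _ : Module Q' N := Module.compHom N (algebraMap Q' R)
  have _ : IsScalarTower Q' R N := IsScalarTower.of_algebraMap_smul fun r x => rfl
  have hsm : ∀ (c : Q) (v : N), π c • v = c • v := by
    intro c v
    rw [← algebraMap_smul R c v, ← algebraMap_smul R (π c) v, hπR]
  have hNfin : Module.Finite Q' N := by
    have : Module.Finite Q' R := Module.Finite.of_surjective (Algebra.linearMap Q' R) hs'
    exact Module.Finite.trans R N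
  -- `J` detects `F₁ P`
  have hJdet : ∀ t : Fin b' → R, (∀ e, π (p e) = 0 → ∀ i, D.M e t i ∈ maximalIdeal R) →
      ∀ k, t k ∈ maximalIdeal R := by
    intro t ht k
    refine mem_of_M_mem D hBex hπP hPinj hPex hPmin hxy hxN hz hmz t (fun e i => ?_) k
    obtain ⟨e', he', hem⟩ := hd e
    have h1 := ht (e - e') (by rw [map_sub, map_sub, he', sub_self]) i
    have h2 := hμ e' hem t i
    rw [map_sub, LinearMap.sub_apply, Pi.sub_apply] at h1
    have h3 := Ideal.add_mem _ h1 h2
    rwa [sub_add_cancel] at h3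
  -- homomorphisms `I' → N` vanish
  have hHom : ∀ ψ : RingHom.ker (algebraMap Q' R) →ₗ[Q'] N, ψ = 0 := by
    intro ψ
    have hmem : ∀ g : RingHom.ker (algebraMap Q R), π g ∈ RingHom.ker (algebraMap Q' R) := by
      intro g
      rw [RingHom.mem_ker, hπR]
      exact g.2
    let φ : RingHom.ker (algebraMap Q R) →ₗ[Q] N :=
      { toFun := fun g => ψ ⟨π g, hmem g⟩
        map_add' := fun g g' => by
          rw [← map_add]
          congr 1
          apply Subtype.ext
          exact map_add π _ _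
        map_smul' := fun c g => by
          rw [RingHom.id_apply, ← hsm, ← map_smul]
          congr 1
          apply Subtype.ext
          exact map_mul π _ _ }
    have hφ : ∀ g, φ g = ψ ⟨π g, hmem g⟩ := fun g => rfl
    obtain ⟨pp, hpp⟩ := hπP φ
    obtain ⟨t, ht⟩ : ∃ t, BP t = a₀ • pp := by
      apply (hPex _).mp
      rw [map_smul, hpp]
      ext g
      exact haN _
    have h1 : ∀ k, t k ∈ Ideal.span {a₀} := by
      intro k
      let ι : Type u := {e : D.E // π (p e) = 0} × ULift.{u} (Fin b)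
      refine mem_of_detecting (ι := ι)
        (fun i => (LinearMap.proj i.2.down : (Fin b → R) →ₗ[R] R) ∘ₗ D.M i.1.1) ?_ _ t ?_ k
      · intro t ht
        exact hJdet t fun e he i => ht (⟨e, he⟩, ⟨i⟩)
      · rintro ⟨⟨e, he⟩, ⟨i⟩⟩
        change D.M e t i ∈ _
        have h2 : πN (D.L e pp) = 0 := by
          rw [D.hL, hpp, hφ]
          have h3 : (⟨π (D.f e), hmem (D.f e)⟩ : RingHom.ker (algebraMap Q' R)) = 0 :=
            Subtype.ext he
          rw [h3, map_zero]
        obtain ⟨w, hw⟩ := (hBex _).mp h2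
        have h4 : D.M e t = a₀ • w := by
          apply hBinj
          rw [D.hM, ht, map_smul, map_smul, hw]
        rw [h4, Pi.smul_apply, smul_eq_mul]
        exact Ideal.mul_mem_right _ _ (Ideal.mem_span_singleton_self _)
    choose t' ht' using fun k => Ideal.mem_span_singleton'.mp (h1 k)
    have h5 : BP t' = pp := by
      funext i
      apply ha₀
      have h6 : t = a₀ • t' := by
        funext k
        rw [Pi.smul_apply, smul_eq_mul, ← ht' k, mul_comm]
      have h7 := congrFun ht i
      rw [h6, map_smul] at h7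
      exact h7
    have h8 : φ = 0 := by rw [← hpp, ← h5]; exact hPex.apply_apply_eq_zero _
    apply LinearMap.ext
    rintro ⟨g, hg⟩
    obtain ⟨g, rfl⟩ := hπ g
    have h9 := LinearMap.congr_fun h8 ⟨g, by rw [RingHom.mem_ker, ← hπR]; exact hg⟩
    exact h9
  -- hence `I' = 0`
  have h0 : RingHom.ker (algebraMap Q' R) = ⊥ := by
    by_contra hne
    let e : (Q' ⧸ RingHom.ker (algebraMap Q' R)) ≃ₗ[Q'] R :=
      (Algebra.linearMap Q' R).quotKerEquivOfSurjective hs'
    obtain ⟨c, hc, hcreg⟩ := exists_regular_mem _ hne (n' + 1) (PD.congr e.symm hpd')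
    have hsub : Subsingleton (RingHom.ker (algebraMap Q' R) →ₗ[Q'] N) :=
      ⟨fun a b => by rw [hHom a, hHom b]⟩
    rw [IsSMulRegular.subsingleton_linearMap_iff] at hsub
    obtain ⟨r, hr, hreg'⟩ := hsub
    have h1 : r • (⟨c, hc⟩ : RingHom.ker (algebraMap Q' R)) = 0 := Module.mem_annihilator.mp hr _
    have h2 : c • r = 0 := by
      have := congrArg Subtype.val h1
      simpa [mul_comm] using this
    have h3 : r = 0 := hcreg.right_eq_zero_of_smul h2
    rw [h3, IsSMulRegular.zero_iff_subsingleton] at hreg'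
    exact not_subsingleton N hreg'
  rw [hspan]
  ext c
  rw [RingHom.mem_ker, RingHom.mem_ker, ← hπR]
  constructor
  · intro h; rw [h, map_zero]
  · intro h
    have : π c ∈ RingHom.ker (algebraMap Q' R) := h
    rw [h0] at this
    exact this

end Torsion

end Pool.Agent.Helper19
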